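import Pool.Agent.TGF.Pf

set_option autoImplicit false

/-!
# TGF-Df: specialisations, residues and the differentials

PLAN.  All by `x_ext` and the formulas `spX_bx`, `reX_bx`, `d3_bx`, `d2_bx`, `tm_wT`, `reT_wT`.
Facts on `V : AC L k`, `x ≠ 0`: if `V.v x = 0` then `V.vH (lg x) = 0` and
`V.lH (lg x) = lg (V.lc x)` (`V.lc x ≠ 0` by `lc_ne`).
`d3`: for `x = 0` everything is `0` (`lg 0 = 0`, `wT_zero`); for `V.v x = 0` use `tm_wT` resp.
`reT_wT`; otherwise both sides are `0`.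
`d2`, `[x] ω` with `x ≠ 0, 1` (else `0`, `lg 1 = 0`): let `v = V.v x`, `l = V.lc x`.
* `v > 0`: `V.add_lt` for `1 + (-x)`: `V.v (1 - x) = 0`, `V.lc (1 - x) = 1`, so `lg (1 - x)` goes to
  `0` and has value `0`: all terms vanish.
* `v < 0`: `V.v (1 - x) = v`, `V.lc (1 - x) = - l`: `V.lH (lg (1 - x)) = lg (-1) + lg l`, and
  `wT (lg (-l)) (wT (lg l) _) = 0` (`wT_lg_neg` (Helper14/W4/H3), `wT_self`); the residue is
  `v • (l ∧ ω̄ - (-l) ∧ ω̄) + l ∧ l ∧ .. = 0`.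
* `v = 0`, `l ≠ 1`: `V.v (1 - x) = 0`, `V.lc (1 - x) = 1 - l` (`add_ne`).
* `v = 0`, `l = 1`: (`add_eq`) `V.lH (lg x) = lg 1 = 0`, `V.vH (lg x) = 0`, all terms vanish, also on
  the right (`lg (V.lc x) = 0`).
For the value of `V.v (-x) = V.v x`, `V.lc (-x) = - V.lc x`: `2 V.v (-1) = V.v 1 = 0`, `V.lc (-1) = -1`
(from `add_lt`/`add_eq`/`add_ne` applied to `1 + (-1) = 0`).
-/

noncomputable section

open Polynomial TensorProduct
open scoped Classical

namespace TGF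

open Helper14.Gon Helper14.W4 QPL

universe u v w

section
variable {L : Type v} [Field L] {k : Type w} [Field k]

lemma lH_lg (V : AC L k) {x : L} (hx : x ≠ 0) : V.lH (lg x) = lg (V.lc x) := by
  have h1 : lg x = Additive.ofMul (Units.mk0 x hx) := lg_unit (Units.mk0 x hx)
  have h2 : lg (V.lc x) = Additive.ofMul (Units.map (V.lc : L →* k) (Units.mk0 x hx)) :=
    lg_unit (Units.map (V.lc : L →* k) (Units.mk0 x hx))
  rw [h1, h2]
  rfl

lemma vH_lg (V : AC L k) {x : L} (hx : x ≠ 0) : V.vH (lg x) = V.v x := by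
  have h1 : lg x = Additive.ofMul (Units.mk0 x hx) := lg_unit (Units.mk0 x hx)
  rw [h1]
  rfl

private lemma df_v_one (V : AC L k) : V.v 1 = 0 := by
  have h := V.v_mul (x := (1 : L)) (y := 1) one_ne_zero one_ne_zero
  rw [mul_one] at h
  linarith

private lemma df_neg_ne : (-1 : L) ≠ 0 := neg_ne_zero.2 one_ne_zero

private lemma df_v_neg_one (V : AC L k) : V.v (-1) = 0 := by
  have h := V.v_mul (x := (-1 : L)) (y := -1) df_neg_ne df_neg_ne
  have h1 : (-1 : L) * -1 = 1 := by ring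
  rw [h1, df_v_one] at h
  linarith

private lemma df_lc_neg_one (V : AC L k) : V.lc (-1) = -1 := by
  by_contra hne
  have h1 : V.lc 1 + V.lc (-1) ≠ 0 := by
    rw [map_one]
    intro h
    exact hne (eq_neg_of_add_eq_zero_right h)
  have h2 := (V.add_ne (x := (1 : L)) (y := -1) one_ne_zero df_neg_ne
    (by rw [df_v_one, df_v_neg_one]) h1).1
  exact h2 (add_neg_cancel 1)

lemma v_neg (V : AC L k) {x : L} (hx : x ≠ 0) : V.v (-x) = V.v x := by
  rw [← neg_one_mul, V.v_mul df_neg_ne hx, df_v_neg_one, zero_add]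

lemma lc_neg (V : AC L k) (x : L) : V.lc (-x) = - V.lc x := by
  rw [← neg_one_mul, map_mul, df_lc_neg_one, neg_one_mul]

lemma v_one (V : AC L k) : V.v 1 = 0 := df_v_one V

lemma v_inv (V : AC L k) {x : L} (hx : x ≠ 0) : V.v x⁻¹ = - V.v x := by
  have h := V.v_mul (x := x) (y := x⁻¹) hx (inv_ne_zero hx)
  rw [mul_inv_cancel₀ hx, df_v_one] at h
  linarith

private lemma df_lH (V : AC L k) (x : L) : V.lH (lg x) = lg (V.lc x) := by
  by_cases hx : x = 0
  · rw [hx, lg_zero, map_zero, map_zero, lg_zero]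
  · exact lH_lg V hx

private lemma df_vH (V : AC L k) {x : L} (hx : x = 0 ∨ V.v x = 0) : V.vH (lg x) = 0 := by
  by_cases h0 : x = 0
  · rw [h0, lg_zero, map_zero]
  · rw [vH_lg V h0]
    exact hx.resolve_left h0

private lemma df_bx_neg {j : ℕ} {F : Type u} [Field F] (x : F) (ω : Tx j F) :
    bx x (-ω) = - bx x ω := by
  rw [bx, bx, Finsupp.single_neg]

private lemma df_spT_wT (V : AC L k) (j : ℕ) (v : Additive Lˣ) (ω : Tx j L) :
    spT V (j + 1) (wT j v ω) = wT j (V.lH v) (spT V j ω) := tm_wT j V.lH v ω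

/-- the three cases -/
private lemma df_cases (V : AC L k) {x : L} (h0 : x ≠ 0) :
    (0 < V.v x ∧ V.v (1 - x) = 0 ∧ V.lc (1 - x) = 1 ∧ 1 - x ≠ 0) ∨
    (V.v x < 0 ∧ V.v (1 - x) = V.v x ∧ V.lc (1 - x) = - V.lc x ∧ 1 - x ≠ 0) ∨
    (V.v x = 0 ∧ V.lc x = 1) ∨
    (V.v x = 0 ∧ V.lc x ≠ 1 ∧ V.v (1 - x) = 0 ∧ V.lc (1 - x) = 1 - V.lc x ∧ 1 - x ≠ 0) := by
  have hn : -x ≠ 0 := neg_ne_zero.2 h0
  rcases lt_trichotomy (V.v x) 0 with h | h | h
  · right
    left
    have h1 := V.add_lt (x := -x) (y := 1) hn (Or.inr (by rw [v_neg V h0, df_v_one]; exact h))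
    have h2 : -x + 1 = 1 - x := by ring
    rw [h2, v_neg V h0, lc_neg] at h1
    exact ⟨h, h1.2.1, h1.2.2, h1.1⟩
  · right
    right
    by_cases hl : V.lc x = 1
    · exact Or.inl ⟨h, hl⟩
    · right
      have h1 := V.add_ne (x := 1) (y := -x) one_ne_zero hn
        (by rw [v_neg V h0, df_v_one, h])
        (by
          rw [lc_neg, map_one]
          intro h3
          exact hl (add_neg_eq_zero.1 h3).symm)
      rw [← sub_eq_add_neg, df_v_one, lc_neg, map_one, ← sub_eq_add_neg] at h1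
      exact ⟨h, hl, h1.2.1, h1.2.2, h1.1⟩
  · left
    have h1 := V.add_lt (x := 1) (y := -x) one_ne_zero
      (Or.inr (by rw [v_neg V h0, df_v_one]; exact h))
    rw [← sub_eq_add_neg, df_v_one, map_one] at h1
    exact ⟨h, h1.2.1, h1.2.2, h1.1⟩

private lemma df_B (V : AC L k) (j : ℕ) (x : L) (η : Tx j k) :
    wT (j + 1) (lg (V.lc (1 - x))) (wT j (lg (V.lc x)) η) =
      if x = 0 ∨ V.v x = 0 then wT (j + 1) (lg (1 - V.lc x)) (wT j (lg (V.lc x)) η) else 0 := by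
  by_cases h0 : x = 0
  · rw [if_pos (Or.inl h0), h0, map_zero, lg_zero, wT_zero, LinearMap.zero_apply, map_zero,
      map_zero]
  rcases df_cases V h0 with ⟨h1, h2, h3, h4⟩ | ⟨h1, h2, h3, h4⟩ | ⟨h1, h2⟩ | ⟨h1, h2, h3, h4, h5⟩
  · rw [if_neg (by rintro (h | h); exacts [h0 h, h1.ne' h]), h3, lg_one, wT_zero,
      LinearMap.zero_apply]
  · rw [if_neg (by rintro (h | h); exacts [h0 h, h1.ne h]), h3, wT_lg_neg _ (V.lc_ne h0), wT_self]
  · rw [if_pos (Or.inr h1), h2, lg_one, wT_zero, LinearMap.zero_apply, map_zero, map_zero]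
  · rw [if_pos (Or.inr h1), h4]

private lemma df_A (V : AC L k) (j : ℕ) (x : L) (η : Tx j k) :
    V.vH (lg (1 - x)) • wT j (lg (V.lc x)) η = V.vH (lg x) • wT j (lg (V.lc (1 - x))) η := by
  by_cases h0 : x = 0
  · rw [h0, sub_zero, lg_one, lg_zero, map_zero, zero_smul, zero_smul]
  rcases df_cases V h0 with ⟨h1, h2, h3, h4⟩ | ⟨h1, h2, h3, h4⟩ | ⟨h1, h2⟩ | ⟨h1, h2, h3, h4, h5⟩
  · rw [vH_lg V h4, vH_lg V h0, h2, h3, lg_one, wT_zero, zero_smul, LinearMap.zero_apply, smul_zero]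
  · rw [vH_lg V h4, vH_lg V h0, h2, h3, wT_lg_neg _ (V.lc_ne h0)]
  · rw [vH_lg V h0, h1, h2, lg_one, wT_zero, zero_smul, LinearMap.zero_apply, smul_zero]
  · rw [vH_lg V h5, vH_lg V h0, h1, h3, zero_smul, zero_smul]

lemma spX_d3 (V : AC L k) (j : ℕ) (z : X j L) : spX V (j + 1) (d3 j z) = d3 j (spX V j z) := by
  have : (spX V (j + 1)) ∘ₗ (d3 j) = (d3 j) ∘ₗ (spX V j) := by
    refine x_ext fun x ω => ?_
    rw [LinearMap.comp_apply, LinearMap.comp_apply, d3_bx, spX_bx, spX_bx]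
    split_ifs with h
    · rw [d3_bx, df_spT_wT, df_lH]
    · rw [map_zero]
  exact LinearMap.congr_fun this z

lemma reX_d3_zero (V : AC L k) (z : X 0 L) : reX V 0 (d3 0 z) = 0 := by
  have : (reX V 0) ∘ₗ (d3 0) = 0 := by
    refine x_ext fun x ω => ?_
    rw [LinearMap.comp_apply, LinearMap.zero_apply, d3_bx, reX_bx]
    split_ifs with h
    · rw [reT_wT_zero, df_vH V h, zero_smul, bx_zero]
    · rfl
  exact LinearMap.congr_fun this z

lemma reX_d3 (V : AC L k) (j : ℕ) (z : X (j + 1) L) :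
    reX V (j + 1) (d3 (j + 1) z) = - d3 j (reX V j z) := by
  have : (reX V (j + 1)) ∘ₗ (d3 (j + 1)) = -((d3 j) ∘ₗ (reX V j)) := by
    refine x_ext fun x ω => ?_
    rw [LinearMap.comp_apply, LinearMap.neg_apply, LinearMap.comp_apply, d3_bx, reX_bx, reX_bx]
    split_ifs with h
    · rw [reT_wT, df_vH V h, zero_smul, zero_sub, df_bx_neg, d3_bx, df_lH]
    · rw [map_zero, neg_zero]
  exact LinearMap.congr_fun this z

lemma spT_d2 (V : AC L k) (j : ℕ) (z : X j L) : spT V (j + 2) (d2 j z) = d2 j (spX V j z) := by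
  have : (spT V (j + 2)) ∘ₗ (d2 j) = (d2 j) ∘ₗ (spX V j) := by
    refine x_ext fun x ω => ?_
    rw [LinearMap.comp_apply, LinearMap.comp_apply, d2_bx, df_spT_wT, df_spT_wT, df_lH, df_lH,
      df_B, spX_bx]
    split_ifs with h
    · rw [d2_bx]
    · rw [map_zero]
  exact LinearMap.congr_fun this z

lemma reT_d2_zero (V : AC L k) (z : X 0 L) : reT V 1 (d2 0 z) = 0 := by
  have : (reT V 1) ∘ₗ (d2 0) = 0 := by
    refine x_ext fun x ω => ?_
    rw [LinearMap.comp_apply, LinearMap.zero_apply, d2_bx]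
    have h1 := reT_wT V 0 (lg (1 - x)) (wT 0 (lg x) ω)
    refine h1.trans ?_
    have h2 : spT V (0 + 1) (wT 0 (lg x) ω) = wT 0 (V.lH (lg x)) (spT V 0 ω) := df_spT_wT V 0 _ ω
    rw [h2, reT_wT_zero, map_smul, df_lH, df_lH, df_A, sub_self]
  exact LinearMap.congr_fun this z

lemma reT_d2 (V : AC L k) (j : ℕ) (z : X (j + 1) L) :
    reT V (j + 2) (d2 (j + 1) z) = d2 j (reX V j z) := by
  have : (reT V (j + 2)) ∘ₗ (d2 (j + 1)) = (d2 j) ∘ₗ (reX V j) := by
    refine x_ext fun x ω => ?_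
    rw [LinearMap.comp_apply, LinearMap.comp_apply, d2_bx]
    have h1 := reT_wT V (j + 1) (lg (1 - x)) (wT (j + 1) (lg x) ω)
    refine h1.trans ?_
    have h2 : spT V (j + 1 + 1) (wT (j + 1) (lg x) ω) =
        wT (j + 1) (V.lH (lg x)) (spT V (j + 1) ω) := df_spT_wT V (j + 1) _ ω
    rw [h2, reT_wT, map_sub, map_smul, df_lH, df_lH, df_A, sub_sub_cancel, df_B, reX_bx]
    split_ifs with h
    · rw [d2_bx]
    · rw [map_zero]
  exact LinearMap.congr_fun this z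

end

section
variable {F : Type v} [Field F] {L : Type w} [Field L]

private lemma df_resT_wT (j : ℕ) (φ : F →+* L) (x : F) (ω : Tx j F) :
    resT (j + 1) φ (wT j (lg x) ω) = wT j (lg (φ x)) (resT j φ ω) := by
  rw [resT_eq_tm, resT_eq_tm, tm_wT, resU_lg]

lemma d2_d3 (j : ℕ) (z : X j F) : d2 (j + 1) (d3 j z) = 0 := by
  have : (d2 (j + 1)) ∘ₗ (d3 j) = (0 : X j F →ₗ[ℚ] Tx (j + 1 + 2) F) := by
    refine x_ext fun x ω => ?_
    rw [LinearMap.comp_apply, LinearMap.zero_apply, d3_bx, d2_bx, wT_self, map_zero]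
  exact LinearMap.congr_fun this z

lemma mX_d3 (j : ℕ) (φ : F →+* L) (z : X j F) : mX (j + 1) φ (d3 j z) = d3 j (mX j φ z) := by
  have : (mX (j + 1) φ) ∘ₗ (d3 j) = (d3 j) ∘ₗ (mX j φ) := by
    refine x_ext fun x ω => ?_
    rw [LinearMap.comp_apply, LinearMap.comp_apply, d3_bx, mX_bx, mX_bx, d3_bx, df_resT_wT]
  exact LinearMap.congr_fun this z

lemma resT_d2 (j : ℕ) (φ : F →+* L) (z : X j F) :
    resT (j + 2) φ (d2 j z) = d2 j (mX j φ z) := by
  have : (resT (j + 2) φ) ∘ₗ (d2 j) = (d2 j) ∘ₗ (mX j φ) := by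
    refine x_ext fun x ω => ?_
    rw [LinearMap.comp_apply, LinearMap.comp_apply, d2_bx, mX_bx, d2_bx, df_resT_wT, df_resT_wT,
      map_sub, map_one]
  exact LinearMap.congr_fun this z

lemma d3_wX (j : ℕ) (v : Additive Fˣ) (z : X j F) :
    d3 (j + 1) (wX j v z) = - wX (j + 1) v (d3 j z) := by
  have : (d3 (j + 1)) ∘ₗ (wX j v) = -((wX (j + 1) v) ∘ₗ (d3 j)) := by
    refine x_ext fun x ω => ?_
    rw [LinearMap.comp_apply, LinearMap.neg_apply, LinearMap.comp_apply, wX_bx, d3_bx, d3_bx,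
      wX_bx, wT_wT, df_bx_neg]
  exact LinearMap.congr_fun this z

lemma d2_wX (j : ℕ) (v : Additive Fˣ) (z : X j F) :
    d2 (j + 1) (wX j v z) = wT (j + 2) v (d2 j z) := by
  have : (d2 (j + 1)) ∘ₗ (wX j v) = (wT (j + 2) v) ∘ₗ (d2 j) := by
    refine x_ext fun x ω => ?_
    rw [LinearMap.comp_apply, LinearMap.comp_apply, wX_bx, d2_bx, d2_bx, wT_wT j (lg x) v ω,
      map_neg, wT_wT (j + 1) (lg (1 - x)) v, neg_neg]
  exact LinearMap.congr_fun this z

end

end TGF
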