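import Pool.Agent.TGF.Df
import Pool.Agent.Helper11.Gon.Five

set_option autoImplicit false

/-!
# TGF-Rl: the five-term relations and the maps between chains

PLAN.  `Rel` is a span; for a linear map it is enough to treat the five types of generators
(`Submodule.span_le`, `Submodule.map_span_le`).
`d2_rel`: `[x]+[1/x]`: `lg (1 - 1/x) = lg (-1) + lg (1 - x) - lg x`, `wT_lg_neg`, `wT_self`, `wT_wT`; the
five-term relation: with `X = lg x`, `X' = lg (1-x)`, `Y`, `Y'`: `lg (y/x) = Y - X`,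
`lg (1 - y/x) = lg (x - y) - X`, `lg ((1-1/x)/(1-1/y)) = X' - X - Y' + Y`,
`lg (1 - (1-1/x)/(1-1/y)) = lg (x - y) - X - Y'` (up to `lg (-1)`), `lg ((1-x)/(1-y)) = X' - Y'`,
`lg (1 - (1-x)/(1-y)) = lg (x-y) - Y'`; expand (the identity is the one of `AF.five` in
Helper11/Gon/Five.lean: take `O u v := wT (j+1) u ∘ wT j v`, an alternating form with values in
`Tx j F →ₗ[ℚ] Tx (j+2) F`, and quote `AF.five`, `AF.St_inv`).
`mX_rel`, `wX_rel`: termwise.  `spX_rel`, `reX_rel`: let `σ = spT V j` or `reT V j` (only the value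
`η` of `σ ω` matters).  For `[x]ω + [1/x]ω`: `V.v (1/x) = - V.v x`, `V.lc (1/x) = (V.lc x)⁻¹`.
For `[x]ω + [1-x]ω`: the cases of Df.lean: `v > 0`: `[1 - x] ↦ [1]η`; `v < 0`: both dropped;
`v = 0`, `l ≠ 1`: `[l] + [1-l]`; `v = 0`, `l = 1` (`x ≠ 1`): `[1]η`, the other one is dropped.
Five-term: write `x̄ ∈ k ∪ {∞}` for the reduction; 16 cases as in the header of SRG/Place.lean; or
use the statement of QPL on the reduction map (`QPL` module `five`, if it is available: the map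
`x ↦ [V.rd x]` sends five-term combinations to five-term combinations).  It may be convenient to
quote `fv_comap` below: if `ψ : FV k W` then `x ↦ ψ (x̄)` (`0` at `∞`) is in `FV L W`; conclude with
`rel_of_fv` (take `W` = quotient by `Rel`, `ψ x = [x]η`).
-/

noncomputable section

open Polynomial TensorProduct
open scoped Classical

namespace TGF

open Helper14.Gon Helper14.W4 QPL

universe u v w

section
variable {F : Type v} [Field F] {L : Type w} [Field L]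

/-- the alternating form `u, v ↦ v ∧ u ∧` -/
private def rl_AF (j : ℕ) (F : Type v) [Field F] :
    Helper11.Gon.AF F (Tx j F →ₗ[ℚ] Tx (j + 2) F) where
  O := AddMonoidHom.mk' (fun a => AddMonoidHom.mk' (fun b => (wT (j + 1) b) ∘ₗ (wT j a))
      (fun b c => by rw [wT_add, LinearMap.add_comp]))
    (fun a b => by
      refine AddMonoidHom.ext fun c => ?_
      change (wT (j + 1) c) ∘ₗ (wT j (a + b)) =
        (wT (j + 1) c) ∘ₗ (wT j a) + (wT (j + 1) c) ∘ₗ (wT j b)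
      rw [wT_add, LinearMap.comp_add])
  alt := fun a => by
    change (wT (j + 1) a) ∘ₗ (wT j a) = 0
    exact LinearMap.ext fun ω => wT_self j a ω

private lemma rl_St (j : ℕ) (x : F) (ω : Tx j F) :
    d2 j (bx x ω) = (rl_AF j F).St x ω := by
  rw [d2_bx]
  rfl

/-- it is enough to treat the generators -/
private lemma rl_le {j : ℕ} {M : Submodule ℚ (X j F)} (h0 : ∀ ω : Tx j F, bx 0 ω ∈ M)
    (h1 : ∀ ω : Tx j F, bx 1 ω ∈ M) (h2 : ∀ (x : F) (ω : Tx j F), bx x ω + bx x⁻¹ ω ∈ M)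
    (h3 : ∀ (x : F) (ω : Tx j F), bx x ω + bx (1 - x) ω ∈ M)
    (h4 : ∀ (x y : F) (ω : Tx j F), x ≠ 0 → x ≠ 1 → y ≠ 0 → y ≠ 1 → x ≠ y → five x y ω ∈ M) :
    Rel j F ≤ M := by
  rw [Rel, Submodule.span_le]
  rintro z ((((⟨ω, rfl⟩ | ⟨ω, rfl⟩) | ⟨x, ω, rfl⟩) | ⟨x, ω, rfl⟩) | ⟨x, y, ω, a, b, c, d, e, rfl⟩)
  · exact h0 ω
  · exact h1 ω
  · exact h2 x ω
  · exact h3 x ω
  · exact h4 x y ω a b c d e

lemma d2_rel (j : ℕ) {z : X j F} (hz : z ∈ Rel j F) : d2 j z = 0 := by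
  have h : Rel j F ≤ LinearMap.ker (d2 j : X j F →ₗ[ℚ] Tx (j + 2) F) := by
    refine rl_le (fun ω => ?_) (fun ω => ?_) (fun x ω => ?_) (fun x ω => ?_)
      (fun x y ω a b c d e => ?_)
    · rw [LinearMap.mem_ker, d2_bx, lg_zero, wT_zero, LinearMap.zero_apply, map_zero]
    · rw [LinearMap.mem_ker, d2_bx, sub_self, lg_zero, wT_zero, LinearMap.zero_apply]
    · rw [LinearMap.mem_ker, map_add, rl_St, rl_St, Helper11.Gon.AF.St_inv, LinearMap.neg_apply,
        add_neg_cancel]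
    · rw [LinearMap.mem_ker, map_add, d2_bx, d2_bx, sub_sub_cancel, wT_wT j (lg x) (lg (1 - x)) ω,
        add_neg_cancel]
    · rw [LinearMap.mem_ker, five, map_add, map_sub, map_add, map_sub, rl_St, rl_St, rl_St, rl_St,
        rl_St]
      have h := (rl_AF j F).five a b c d e
      exact LinearMap.congr_fun h ω
  exact h hz

lemma mX_rel (j : ℕ) (φ : F →+* L) {z : X j F} (hz : z ∈ Rel j F) : mX j φ z ∈ Rel j L := by
  have hs : ∀ z, z ∈ ({z | ∃ ω : Tx j L, z = bx 0 ω} ∪ {z | ∃ ω : Tx j L, z = bx 1 ω} ∪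
      {z | ∃ (x : L) (ω : Tx j L), z = bx x ω + bx x⁻¹ ω} ∪
      {z | ∃ (x : L) (ω : Tx j L), z = bx x ω + bx (1 - x) ω} ∪
      {z | ∃ (x y : L) (ω : Tx j L), x ≠ 0 ∧ x ≠ 1 ∧ y ≠ 0 ∧ y ≠ 1 ∧ x ≠ y ∧ z = five x y ω}) →
      z ∈ Rel j L := fun z hz => Submodule.subset_span hz
  have h : Rel j F ≤ (Rel j L).comap (mX j φ) := by
    refine rl_le (fun ω => ?_) (fun ω => ?_) (fun x ω => ?_) (fun x ω => ?_)
      (fun x y ω a b c d e => ?_)
    · rw [Submodule.mem_comap, mX_bx, map_zero]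
      exact hs _ (Or.inl (Or.inl (Or.inl (Or.inl ⟨_, rfl⟩))))
    · rw [Submodule.mem_comap, mX_bx, map_one]
      exact hs _ (Or.inl (Or.inl (Or.inl (Or.inr ⟨_, rfl⟩))))
    · rw [Submodule.mem_comap, map_add, mX_bx, mX_bx, map_inv₀]
      exact hs _ (Or.inl (Or.inl (Or.inr ⟨_, _, rfl⟩)))
    · rw [Submodule.mem_comap, map_add, mX_bx, mX_bx, map_sub, map_one]
      exact hs _ (Or.inl (Or.inr ⟨_, _, rfl⟩))
    · refine hs _ (Or.inr ⟨φ x, φ y, resT j φ ω, ?_, ?_, ?_, ?_, ?_, ?_⟩)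
      · exact (map_ne_zero φ).2 a
      · intro h
        exact b (φ.injective (h.trans (map_one φ).symm))
      · exact (map_ne_zero φ).2 c
      · intro h
        exact d (φ.injective (h.trans (map_one φ).symm))
      · exact fun h => e (φ.injective h)
      · rw [five, five, map_add, map_sub, map_add, map_sub, mX_bx, mX_bx, mX_bx, mX_bx, mX_bx,
          map_div₀, map_div₀, map_div₀, map_sub, map_sub, map_sub, map_sub, map_inv₀, map_inv₀,
          map_one]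
  exact h hz

lemma wX_rel (j : ℕ) (v : Additive Fˣ) {z : X j F} (hz : z ∈ Rel j F) :
    wX j v z ∈ Rel (j + 1) F := by
  have hs : ∀ z, z ∈ ({z | ∃ ω : Tx (j + 1) F, z = bx 0 ω} ∪
      {z | ∃ ω : Tx (j + 1) F, z = bx 1 ω} ∪
      {z | ∃ (x : F) (ω : Tx (j + 1) F), z = bx x ω + bx x⁻¹ ω} ∪
      {z | ∃ (x : F) (ω : Tx (j + 1) F), z = bx x ω + bx (1 - x) ω} ∪
      {z | ∃ (x y : F) (ω : Tx (j + 1) F), x ≠ 0 ∧ x ≠ 1 ∧ y ≠ 0 ∧ y ≠ 1 ∧ x ≠ y ∧
        z = five x y ω}) → z ∈ Rel (j + 1) F := fun z hz => Submodule.subset_span hz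
  have h : Rel j F ≤ (Rel (j + 1) F).comap (wX j v) := by
    refine rl_le (fun ω => ?_) (fun ω => ?_) (fun x ω => ?_) (fun x ω => ?_)
      (fun x y ω a b c d e => ?_)
    · rw [Submodule.mem_comap, wX_bx]
      exact hs _ (Or.inl (Or.inl (Or.inl (Or.inl ⟨_, rfl⟩))))
    · rw [Submodule.mem_comap, wX_bx]
      exact hs _ (Or.inl (Or.inl (Or.inl (Or.inr ⟨_, rfl⟩))))
    · rw [Submodule.mem_comap, map_add, wX_bx, wX_bx]
      exact hs _ (Or.inl (Or.inl (Or.inr ⟨_, _, rfl⟩)))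
    · rw [Submodule.mem_comap, map_add, wX_bx, wX_bx]
      exact hs _ (Or.inl (Or.inr ⟨_, _, rfl⟩))
    · refine hs _ (Or.inr ⟨x, y, wT j v ω, a, b, c, d, e, ?_⟩)
      rw [five, five, map_add, map_sub, map_add, map_sub, wX_bx, wX_bx, wX_bx, wX_bx, wX_bx]
  exact h hz

end

end TGF
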