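import Pool.Agent.TGF.Defs

set_option autoImplicit false

/-!
# TGF-Tm: the maps `tm j σ : Λ^j F^* ⊗ ℚ → Λ^j L^* ⊗ ℚ` induced by group homomorphisms

PLAN.  `tm_dm`: as `sT_dm` (Helper14/W4/H3.lean): `LinearMap.baseChange_tmul`,
`exteriorPower.map_apply_ιMulti`.  `tm_wT`: as `sT_wT`.  `resT_eq_tm`: `rfl` or `Tx_ext`.
`tm_comp`, `tm_id`: `Tx_ext` and `tm_dm`.  `ctT_tm`: as `ctT_sT` (same file), or `Tx_ext` with
`ctT_dm`, `tm_dm`.  `tm_tors`: by `Tx_ind` it is enough to treat `wT j v ω`; `tm_wT`,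
`N • wT j (σ v) = wT j (N • σ v) = 0`.  `tm_congr`: `Tx_ext`, `tm_dm`: if `σ v - σ' v` is torsion for
every `v` then `tm j σ = tm j σ'` (induct on `j`: `Tx_ext_succ`, `tm_wT`, and `wT j w = 0` for
torsion `w`, see `wT_neg_one`).

`tm_unif` (change of the uniformizer): if `θ = 0` both sides are `0` (`ctT j 0 = 0`, e.g. by
`ctT_dm`).  Otherwise let `θ a₀ ≠ 0` and `c := (θ a₀)⁻¹ • toQ (σ a₀ - σ' a₀) : WQ L`
(`WQ`, `wW`, `wW_toQ`: Helper14/W4/H2.lean).  For every `v`: `toQ (σ v - σ' v) = θ v • c` (choose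
integers `m, n`, `n ≠ 0`, with `n θ v = m θ a₀` up to the rational factor; then `n • v - m • a₀` is
in `ker θ`).  Claim: `tm (j+1) σ ω = tm (j+1) σ' ω + wW j c (tm j σ' (ctT j θ ω))` for all
`ω : Tx (j+1) F` (`Tx_ext_succ` and induction on `j`: `tm_wT`, `ctT_wT`, `wW c (wW c _) = 0`,
`wW_wT`), and `tm 0 σ = tm 0 σ'`.  Apply it to `ctT j θ ω` and use `ctT_ctT` (`ctT θ (ctT θ ω) = 0`).
-/

noncomputable section

open Polynomial TensorProduct
open scoped Classical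

namespace TGF

open Helper14.Gon Helper14.W4

universe u v w

section
variable {F : Type u} [Field F] {L : Type v} [Field L] {M : Type w} [Field M]

lemma tm_dm (j : ℕ) (σ : Additive Fˣ →+ Additive Lˣ) (v : Fin j → Additive Fˣ) :
    tm j σ (dm v) = dm (fun i => σ (v i)) := by
  rw [tm, dm, toQ, LinearMap.baseChange_tmul, exteriorPower.map_apply_ιMulti]; rfl

lemma tm_wT (j : ℕ) (σ : Additive Fˣ →+ Additive Lˣ) (v : Additive Fˣ) (ω : Tx j F) :
    tm (j + 1) σ (wT j v ω) = wT j (σ v) (tm j σ ω) := by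
  have : (tm (j + 1) σ) ∘ₗ (wT j v) = (wT j (σ v)) ∘ₗ (tm j σ) := by
    refine Tx_ext fun w => ?_
    change tm (j + 1) σ (wT j v (dm w)) = wT j (σ v) (tm j σ (dm w))
    rw [wT_dm, tm_dm, tm_dm, wT_dm]
    congr 1
    funext i
    refine Fin.cases ?_ (fun i => ?_) i
    · rfl
    · rfl
  exact LinearMap.congr_fun this ω

lemma resT_eq_tm (j : ℕ) (φ : F →+* L) (ω : Tx j F) : resT j φ ω = tm j (resU φ) ω := rfl

lemma tm_comp (j : ℕ) (σ : Additive Fˣ →+ Additive Lˣ) (τ : Additive Lˣ →+ Additive Mˣ)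
    (ω : Tx j F) : tm j (τ.comp σ) ω = tm j τ (tm j σ ω) := by
  have : tm j (τ.comp σ) = (tm j τ) ∘ₗ (tm j σ) := by
    refine Tx_ext fun v => ?_
    change tm j (τ.comp σ) (dm v) = tm j τ (tm j σ (dm v))
    rw [tm_dm, tm_dm, tm_dm]
    rfl
  exact LinearMap.congr_fun this ω

lemma tm_id (j : ℕ) (ω : Tx j F) : tm j (AddMonoidHom.id (Additive Fˣ)) ω = ω := by
  have : tm j (AddMonoidHom.id (Additive Fˣ)) = (LinearMap.id : Tx j F →ₗ[ℚ] Tx j F) := by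
    refine Tx_ext fun v => ?_
    change tm j (AddMonoidHom.id (Additive Fˣ)) (dm v) = dm v
    rw [tm_dm]
    rfl
  exact LinearMap.congr_fun this ω

lemma ctT_tm (j : ℕ) (σ : Additive Fˣ →+ Additive Lˣ) (θ : Additive Lˣ →+ ℚ)
    (ω : Tx (j + 1) F) : ctT j θ (tm (j + 1) σ ω) = tm j σ (ctT j (θ.comp σ) ω) := by
  induction j with
  | zero =>
    have : (ctT 0 θ) ∘ₗ (tm 1 σ) = (tm 0 σ) ∘ₗ (ctT 0 (θ.comp σ)) := by
      refine Tx_ext_succ fun v ω => ?_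
      rw [LinearMap.comp_apply, LinearMap.comp_apply, tm_wT, ctT_wT_zero, ctT_wT_zero, map_smul]
      rfl
    exact LinearMap.congr_fun this ω
  | succ j ih =>
    have : (ctT (j + 1) θ) ∘ₗ (tm (j + 2) σ) = (tm (j + 1) σ) ∘ₗ (ctT (j + 1) (θ.comp σ)) := by
      refine Tx_ext_succ fun v ω => ?_
      rw [LinearMap.comp_apply, LinearMap.comp_apply, tm_wT, ctT_wT, ctT_wT, map_sub, map_smul,
        tm_wT, ih]
      rfl
    exact LinearMap.congr_fun this ω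

private lemma tm_aux_tors (j : ℕ) (w : Additive Lˣ) {N : ℤ} (hN : N ≠ 0) (h : N • w = 0) :
    wT j w = 0 := by
  have h1 : N • (wTH j w) = 0 := by rw [← map_zsmul, h, map_zero]
  exact q_tors hN h1

private lemma tm_aux_sub (j : ℕ) (w w' : Additive Lˣ) (h : wT j (w - w') = 0) :
    wT j w = wT j w' := by
  have h1 : wTH j (w - w') = 0 := h
  rw [map_sub, sub_eq_zero] at h1
  exact h1

private lemma tm_aux_zero (σ σ' : Additive Fˣ →+ Additive Lˣ) (ω : Tx 0 F) :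
    tm 0 σ ω = tm 0 σ' ω := by
  have : tm 0 σ = tm 0 σ' := by
    refine Tx_ext fun v => ?_
    change tm 0 σ (dm v) = tm 0 σ' (dm v)
    rw [tm_dm, tm_dm]
    congr 1
    funext i
    exact i.elim0
  rw [this]

/-- torsion homomorphisms -/
lemma tm_tors (j : ℕ) (σ : Additive Fˣ →+ Additive Lˣ)
    (h : ∀ v, ∃ N : ℤ, N ≠ 0 ∧ N • σ v = 0) (ω : Tx (j + 1) F) : tm (j + 1) σ ω = 0 := by
  have : tm (j + 1) σ = 0 := by
    refine Tx_ext_succ fun v ω => ?_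
    obtain ⟨N, hN, h1⟩ := h v
    rw [tm_wT, tm_aux_tors j _ hN h1, LinearMap.zero_apply, LinearMap.zero_apply]
  rw [this, LinearMap.zero_apply]

lemma tm_congr (j : ℕ) (σ σ' : Additive Fˣ →+ Additive Lˣ)
    (h : ∀ v, ∃ N : ℤ, N ≠ 0 ∧ N • (σ v - σ' v) = 0) (ω : Tx j F) : tm j σ ω = tm j σ' ω := by
  induction j with
  | zero => exact tm_aux_zero σ σ' ω
  | succ j ih =>
    have : tm (j + 1) σ = tm (j + 1) σ' := by
      refine Tx_ext_succ fun v ω => ?_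
      obtain ⟨N, hN, h1⟩ := h v
      rw [tm_wT, tm_wT, ih, tm_aux_sub j _ _ (tm_aux_tors j _ hN h1)]
    rw [this]

lemma ctT_smul (j : ℕ) (m : ℚ) (θ θ' : Additive Fˣ →+ ℚ) (h : ∀ v, θ' v = m * θ v)
    (ω : Tx (j + 1) F) : ctT j θ' ω = m • ctT j θ ω := by
  have : ctT j θ' = m • ctT j θ := by
    refine Tx_ext fun w => ?_
    change ctT j θ' (dm w) = m • ctT j θ (dm w)
    rw [ctT_dm, ctT_dm, Finset.smul_sum]
    refine Finset.sum_congr rfl fun i _ => ?_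
    rw [h, mul_smul, smul_comm m ((-1 : ℤ) ^ (i : ℕ))]
  rw [this, LinearMap.smul_apply]

lemma ctT_zero (j : ℕ) (θ : Additive Fˣ →+ ℚ) (h : ∀ v, θ v = 0)
    (ω : Tx (j + 1) F) : ctT j θ ω = 0 := by
  have h1 := ctT_smul j 0 θ θ (fun v => by rw [h v, zero_mul]) ω
  rw [zero_smul] at h1
  exact h1

private lemma tm_aux_key (j : ℕ) (σ σ' : Additive Fˣ →+ Additive Lˣ) (θ : Additive Fˣ →+ ℚ)
    (h : ∀ v, θ v = 0 → ∃ N : ℤ, N ≠ 0 ∧ N • (σ v - σ' v) = 0) (a : Additive Fˣ)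
    (ha : θ a ≠ 0) (v : Additive Fˣ) :
    wT j (σ v) = wT j (σ' v) + (θ v * (θ a)⁻¹) • wT j (σ a - σ' a) := by
  set q : ℚ := θ v * (θ a)⁻¹ with hq
  have hden : (q.den : ℤ) ≠ 0 := by exact_mod_cast q.den_ne_zero
  have hdq : (q.den : ℚ) ≠ 0 := by exact_mod_cast q.den_ne_zero
  have hqq : (q.num : ℚ) = q.den * q := by
    rw [mul_comm]; exact (Rat.mul_den_eq_num q).symm
  have hv : θ v = q * θ a := by rw [hq, mul_assoc, inv_mul_cancel₀ ha, mul_one]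
  have hw : θ ((q.den : ℤ) • v - q.num • a) = 0 := by
    rw [map_sub, map_zsmul, map_zsmul, zsmul_eq_mul, zsmul_eq_mul, hqq, hv]
    push_cast
    ring
  obtain ⟨N, hN, h1⟩ := h _ hw
  have h2 : wTH j (σ ((q.den : ℤ) • v - q.num • a) - σ' ((q.den : ℤ) • v - q.num • a)) = 0 :=
    tm_aux_tors j _ hN h1
  have h3 : σ ((q.den : ℤ) • v - q.num • a) - σ' ((q.den : ℤ) • v - q.num • a) =
      (q.den : ℤ) • (σ v - σ' v) - q.num • (σ a - σ' a) := by
    rw [map_sub, map_sub, map_zsmul, map_zsmul, map_zsmul, map_zsmul, zsmul_sub, zsmul_sub]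
    abel
  rw [h3, map_sub, map_zsmul, map_zsmul, sub_eq_zero, ← Int.cast_smul_eq_zsmul ℚ,
    ← Int.cast_smul_eq_zsmul ℚ, hqq, mul_smul, Int.cast_natCast] at h2
  have h4 : wTH j (σ v - σ' v) = q • wTH j (σ a - σ' a) := by
    have h5 := congrArg (fun z => (q.den : ℚ)⁻¹ • z) h2
    simp only [smul_smul] at h5
    rw [inv_mul_cancel₀ hdq, one_smul, ← mul_assoc, inv_mul_cancel₀ hdq, one_mul] at h5
    exact h5
  have h6 : wTH j (σ v) - wTH j (σ' v) = q • wTH j (σ a - σ' a) := by rw [← map_sub, h4]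
  have h7 : wTH j (σ v) = wTH j (σ' v) + q • wTH j (σ a - σ' a) := by
    rw [← h6]; abel
  exact h7

private lemma tm_aux_claim (j : ℕ) (σ σ' : Additive Fˣ →+ Additive Lˣ) (θ : Additive Fˣ →+ ℚ)
    (h : ∀ v, θ v = 0 → ∃ N : ℤ, N ≠ 0 ∧ N • (σ v - σ' v) = 0) (a : Additive Fˣ)
    (ha : θ a ≠ 0) (ω : Tx (j + 1) F) :
    tm (j + 1) σ ω = tm (j + 1) σ' ω +
      (θ a)⁻¹ • wT j (σ a - σ' a) (tm j σ' (ctT j θ ω)) := by
  induction j with
  | zero =>
    have : tm 1 σ = tm 1 σ' +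
        (θ a)⁻¹ • ((wT 0 (σ a - σ' a)) ∘ₗ (tm 0 σ') ∘ₗ (ctT 0 θ)) := by
      refine Tx_ext_succ fun v η => ?_
      change tm 1 σ (wT 0 v η) = tm 1 σ' (wT 0 v η) +
        (θ a)⁻¹ • wT 0 (σ a - σ' a) (tm 0 σ' (ctT 0 θ (wT 0 v η)))
      rw [tm_wT, tm_wT, ctT_wT_zero, tm_aux_zero σ σ', tm_aux_key 0 σ σ' θ h a ha v,
        LinearMap.add_apply, LinearMap.smul_apply, map_smul, map_smul, smul_smul,
        mul_comm (θ v)]
    exact LinearMap.congr_fun this ω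
  | succ j ih =>
    have : tm (j + 2) σ = tm (j + 2) σ' +
        (θ a)⁻¹ • ((wT (j + 1) (σ a - σ' a)) ∘ₗ (tm (j + 1) σ') ∘ₗ (ctT (j + 1) θ)) := by
      refine Tx_ext_succ fun v η => ?_
      change tm (j + 2) σ (wT (j + 1) v η) = tm (j + 2) σ' (wT (j + 1) v η) +
        (θ a)⁻¹ • wT (j + 1) (σ a - σ' a) (tm (j + 1) σ' (ctT (j + 1) θ (wT (j + 1) v η)))
      rw [tm_wT, tm_wT, ctT_wT, ih η, tm_aux_key (j + 1) σ σ' θ h a ha v]
      simp only [LinearMap.add_apply, LinearMap.smul_apply, map_add, map_sub, map_smul, tm_wT]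
      rw [wT_self, wT_wT j (σ a - σ' a) (σ' v)]
      module
    exact LinearMap.congr_fun this ω

/-- change of the uniformizer -/
theorem tm_unif (j : ℕ) (σ σ' : Additive Fˣ →+ Additive Lˣ) (θ : Additive Fˣ →+ ℚ)
    (h : ∀ v, θ v = 0 → ∃ N : ℤ, N ≠ 0 ∧ N • (σ v - σ' v) = 0) (ω : Tx (j + 1) F) :
    tm j σ (ctT j θ ω) = tm j σ' (ctT j θ ω) := by
  by_cases hθ : ∀ v, θ v = 0
  · rw [ctT_zero j θ hθ, map_zero, map_zero]
  · push Not at hθ
    obtain ⟨a, ha⟩ := hθ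
    cases j with
    | zero => exact tm_aux_zero σ σ' _
    | succ i =>
      have h1 := tm_aux_claim i σ σ' θ h a ha (ctT (i + 1) θ ω)
      have h2 : ctT i θ (ctT (i + 1) θ ω) = 0 := by
        have h3 := ctT_ctT i θ θ ω
        rw [← add_eq_zero_iff_eq_neg, ← two_smul ℚ] at h3
        exact (smul_eq_zero.1 h3).resolve_left two_ne_zero
      rw [h2, map_zero, map_zero, smul_zero, add_zero] at h1
      exact h1

end

end TGF
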