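import Pool.Agent.TGF.Df
import Pool.Agent.Helper14.W4.H6

set_option autoImplicit false

/-!
# TGF-Cc: chains and the complexes `Γ(F, n) ⊗ ℚ`

The maps `c3`, `c2` commute with the differentials, with the maps induced by field homomorphisms
and with exterior products, and they are surjective.
-/

noncomputable section

open Polynomial TensorProduct
open scoped Classical

namespace TGF

open Helper14.Gon Helper14.W4 QPL

universe u v w

section
variable {F : Type v} [Field F] {L : Type w} [Field L]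

lemma c2_d3 (j : ℕ) (z : X j F) : c2 (j + 1) (d3 j z) = dC 0 j (c3 j z) := by
  have h : (c2 (j + 1)) ∘ₗ (d3 j : X j F →ₗ[ℚ] X (j + 1) F) = (dC 0 j) ∘ₗ (c3 j) := by
    refine x_ext fun x ω => ?_
    rw [LinearMap.comp_apply, LinearMap.comp_apply, d3_bx, c2_bx, c3_bx]
    exact (dC_PB 0 j (some x) ω).symm
  exact LinearMap.congr_fun h z

lemma dT_c2 (j : ℕ) (z : X j F) : dT j (c2 j z) = d2 j z := by
  have h : (dT j) ∘ₗ (c2 j : X j F →ₗ[ℚ] Cx 2 j F) = d2 j := by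
    refine x_ext fun x ω => ?_
    rw [LinearMap.comp_apply, c2_bx, d2_bx]
    exact dT_PB j (some x) ω
  exact LinearMap.congr_fun h z

private lemma Cc_resC_PB (k j : ℕ) (φ : F →+* L) (x : F) (ω : Tx j F) :
    resC k j φ (PB (k + 1) j (cl (k + 1) (some x)) ω) =
      PB (k + 1) j (cl (k + 1) (some (φ x))) (resT j φ ω) := by
  have h : (resC k j φ) ∘ₗ (PB (k + 1) j (cl (k + 1) (some x))) =
      (PB (k + 1) j (cl (k + 1) (some (φ x)))) ∘ₗ (resT j φ) := by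
    refine Tx_ext' fun ω => ?_
    rw [LinearMap.comp_apply, LinearMap.comp_apply, PB_gen, resC_gen, resT_toQ, PB_gen,
      mapP_some]
  exact LinearMap.congr_fun h ω

lemma resC_c2 (j : ℕ) (φ : F →+* L) (z : X j F) : resC 1 j φ (c2 j z) = c2 j (mX j φ z) := by
  have h : (resC 1 j φ) ∘ₗ (c2 j) = (c2 j) ∘ₗ (mX j φ) := by
    refine x_ext fun x ω => ?_
    rw [LinearMap.comp_apply, LinearMap.comp_apply, mX_bx, c2_bx, c2_bx]
    exact Cc_resC_PB 1 j φ x ω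
  exact LinearMap.congr_fun h z

lemma resC_c3 (j : ℕ) (φ : F →+* L) (z : X j F) : resC 2 j φ (c3 j z) = c3 j (mX j φ z) := by
  have h : (resC 2 j φ) ∘ₗ (c3 j) = (c3 j) ∘ₗ (mX j φ) := by
    refine x_ext fun x ω => ?_
    rw [LinearMap.comp_apply, LinearMap.comp_apply, mX_bx, c3_bx, c3_bx]
    exact Cc_resC_PB 2 j φ x ω
  exact LinearMap.congr_fun h z

lemma wC_c2 (j : ℕ) (v : Additive Fˣ) (z : X j F) :
    wC 2 j v (c2 j z) = c2 (j + 1) (wX j v z) := by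
  have h : (wC 2 j v) ∘ₗ (c2 j) = (c2 (j + 1)) ∘ₗ (wX j v) := by
    refine x_ext fun x ω => ?_
    rw [LinearMap.comp_apply, LinearMap.comp_apply, wX_bx, c2_bx, c2_bx, wC_PB]
  exact LinearMap.congr_fun h z

lemma wC_c3 (j : ℕ) (v : Additive Fˣ) (z : X j F) :
    wC 3 j v (c3 j z) = c3 (j + 1) (wX j v z) := by
  have h : (wC 3 j v) ∘ₗ (c3 j) = (c3 (j + 1)) ∘ₗ (wX j v) := by
    refine x_ext fun x ω => ?_
    rw [LinearMap.comp_apply, LinearMap.comp_apply, wX_bx, c3_bx, c3_bx, wC_PB]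
  exact LinearMap.congr_fun h z

private lemma Cc_inf (k : ℕ) : cl (k + 1) (none : P1 F) = 0 :=
  (QuotientAddGroup.eq_zero_iff _).2 (br_inf_mem k)

/-- the map to `B_k ⊗ Λ^j` -/
private def Cc_c (k j : ℕ) : X j F →ₗ[ℚ] Cx k j F := xl fun x => PB k j (cl k (some x))

private lemma Cc_surj (k j : ℕ) (y : Cx (k + 1) j F) : ∃ z : X j F, Cc_c (k + 1) j z = y := by
  refine Cx_ind (fun y => ∃ z : X j F, Cc_c (k + 1) j z = y) ⟨0, map_zero _⟩ ?_ ?_ y
  · rintro a b ⟨z, hz⟩ ⟨t, ht⟩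
    exact ⟨z + t, by rw [map_add, hz, ht]⟩
  · intro x ω
    cases x with
    | none =>
      refine ⟨0, ?_⟩
      rw [map_zero, Cc_inf, map_zero, LinearMap.zero_apply]
    | some x =>
      exact ⟨bx x ω, xl_bx _ x ω⟩

lemma c3_surj (j : ℕ) (y : Cx 3 j F) : ∃ z : X j F, c3 j z = y := Cc_surj 2 j y

lemma c2_surj (j : ℕ) (y : Cx 2 j F) : ∃ z : X j F, c2 j z = y := Cc_surj 1 j y

/-- the image of `d3` modulo `ker c3`, in terms of symbols -/
lemma mem_bdry1 (j : ℕ) (y : Cx 3 (j + 1) F) :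
    y ∈ bdry F 1 (j + 1) ↔ ∃ z : X j F, y = c3 (j + 1) (d3 j z) := by
  have h : ∀ z : X j F, c3 (j + 1) (d3 j z) = dC 1 j (Cc_c 4 j z) := by
    intro z
    have h1 : (c3 (j + 1)) ∘ₗ (d3 j : X j F →ₗ[ℚ] X (j + 1) F) = (dC 1 j) ∘ₗ (Cc_c 4 j) := by
      refine x_ext fun x ω => ?_
      rw [LinearMap.comp_apply, LinearMap.comp_apply, d3_bx, c3_bx, Cc_c, xl_bx]
      exact (dC_PB 1 j (some x) ω).symm
    exact LinearMap.congr_fun h1 z
  constructor
  · intro hy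
    obtain ⟨w, hw⟩ : ∃ w : Cx 4 j F, dC 1 j w = y := hy
    obtain ⟨z, hz⟩ := Cc_surj 3 j w
    refine ⟨z, ?_⟩
    rw [h z, ← hw]
    exact congrArg (dC 1 j) hz.symm
  · rintro ⟨z, hz⟩
    have h2 : ∃ w : Cx 4 j F, dC 1 j w = y := ⟨Cc_c 4 j z, by rw [hz, h z]⟩
    exact h2

lemma mem_bdry0 (j : ℕ) (y : Cx 2 (j + 1) F) :
    y ∈ bdry F 0 (j + 1) ↔ ∃ z : X j F, y = c2 (j + 1) (d3 j z) := by
  constructor
  · intro hy
    obtain ⟨w, hw⟩ : ∃ w : Cx 3 j F, dC 0 j w = y := hy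
    obtain ⟨z, hz⟩ := c3_surj j w
    refine ⟨z, ?_⟩
    rw [c2_d3, hz, hw]
  · rintro ⟨z, hz⟩
    have h2 : ∃ w : Cx 3 j F, dC 0 j w = y := ⟨c3 j z, by rw [hz, c2_d3]⟩
    exact h2

end

end TGF
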