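import Pool.Agent.TGF.Tm

set_option autoImplicit false

/-!
# TGF-Pf: formal properties of `spX`, `reX`, `spT`, `reT`, `mX`, `wX`

PLAN.  All by `x_ext` / `x_ind` (Defs.lean) and the formulas `spX_bx`, `reX_bx`, `mX_bx`, `wX_bx`,
with `tm_wT`, `ctT_wT`, `ctT_wT_zero`, `tm_comp`, `ctT_tm`, `tm_unif`, `tm_congr`, `ctT_smul`,
`ctT_zero` (Tm.lean).  For the restriction `V.comap φ`: `(V.comap φ).vH = V.vH.comp (resU φ)`,
`(V.comap φ).lH = V.lH.comp (resU φ)` (`DFunLike.ext`, by definition), and the conditions `x ≠ 0`,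
`V.v (φ x) = 0` agree (`V.lc 0 = 0`).  For `V.push ψ`: `(V.push ψ).lH = (resU ψ).comp V.lH`.
`re_unif`: `V'.v x = m * V.v x` gives `V'.vH = m * V.vH`.  If `m = 0` then both sides vanish
(`ctT_zero`); if `m ≠ 0` the conditions `V.v x = 0` and `V'.v x = 0` agree for `x ≠ 0` and then
`V'.lc x = V.lc x`; use `tm_unif` with `θ = V.vH` (for units `v` with `V.vH v = 0`,
`V'.lH v = V.lH v`).
-/

noncomputable section

open Polynomial TensorProduct
open scoped Classical

namespace TGF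

open Helper14.Gon Helper14.W4 QPL

universe u v w

section
variable {F : Type u} [Field F] {L : Type v} [Field L] {k : Type w} [Field k]

private lemma pf_resU_id : resU (RingHom.id F) = AddMonoidHom.id (Additive Fˣ) := by
  refine AddMonoidHom.ext fun v => ?_
  exact congrArg Additive.ofMul (Units.ext rfl)

private lemma pf_resU_comp (φ : F →+* L) (ψ : L →+* k) :
    resU (ψ.comp φ) = (resU ψ).comp (resU φ) := by
  refine AddMonoidHom.ext fun v => ?_
  exact congrArg Additive.ofMul (Units.ext rfl)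

private lemma pf_bx_sub {j : ℕ} (x : F) (a b : Tx j F) : bx x (a - b) = bx x a - bx x b := by
  rw [← bxL_apply, map_sub, bxL_apply, bxL_apply]

private lemma pf_comap_lH (V : AC L k) (φ : F →+* L) :
    (V.comap φ).lH = V.lH.comp (resU φ) := by
  refine AddMonoidHom.ext fun v => ?_
  exact congrArg Additive.ofMul (Units.ext rfl)

private lemma pf_comap_vH (V : AC L k) (φ : F →+* L) :
    (V.comap φ).vH = V.vH.comp (resU φ) := by
  refine AddMonoidHom.ext fun v => ?_
  rfl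

private lemma pf_push_lH (V : AC L k) (ψ : k →+* F) :
    (V.push ψ).lH = (resU ψ).comp V.lH := by
  refine AddMonoidHom.ext fun v => ?_
  exact congrArg Additive.ofMul (Units.ext rfl)

private lemma pf_push_vH (V : AC L k) (ψ : k →+* F) : (V.push ψ).vH = V.vH := by
  refine AddMonoidHom.ext fun v => ?_
  rfl

lemma mX_id (j : ℕ) (z : X j F) : mX j (RingHom.id F) z = z := by
  induction z using x_ind with
  | h0 => rw [map_zero]
  | hadd a b ha hb => rw [map_add, ha, hb]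
  | h1 x ω => rw [mX_bx, resT_eq_tm, pf_resU_id, tm_id, RingHom.id_apply]

lemma mX_comp (j : ℕ) (φ : F →+* L) (ψ : L →+* k) (z : X j F) :
    mX j (ψ.comp φ) z = mX j ψ (mX j φ z) := by
  induction z using x_ind with
  | h0 => rw [map_zero, map_zero, map_zero]
  | hadd a b ha hb => rw [map_add, map_add, map_add, ha, hb]
  | h1 x ω =>
    rw [mX_bx, mX_bx, mX_bx, resT_eq_tm, resT_eq_tm, resT_eq_tm, pf_resU_comp, tm_comp,
      RingHom.comp_apply]

lemma mX_wX (j : ℕ) (φ : F →+* L) (v : Additive Fˣ) (z : X j F) :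
    mX (j + 1) φ (wX j v z) = wX j (resU φ v) (mX j φ z) := by
  induction z using x_ind with
  | h0 => rw [map_zero, map_zero, map_zero, map_zero]
  | hadd a b ha hb => rw [map_add, map_add, map_add, map_add, ha, hb]
  | h1 x ω => rw [wX_bx, mX_bx, mX_bx, wX_bx, resT_eq_tm, resT_eq_tm, tm_wT]

lemma reT_wT_zero (V : AC L k) (v : Additive Lˣ) (ω : Tx 0 L) :
    reT V 0 (wT 0 v ω) = V.vH v • spT V 0 ω := by
  change tm 0 V.lH (ctT 0 V.vH (wT 0 v ω)) = V.vH v • tm 0 V.lH ω
  rw [ctT_wT_zero, map_smul]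

lemma reT_wT (V : AC L k) (j : ℕ) (v : Additive Lˣ) (ω : Tx (j + 1) L) :
    reT V (j + 1) (wT (j + 1) v ω) = V.vH v • spT V (j + 1) ω - wT j (V.lH v) (reT V j ω) := by
  change tm (j + 1) V.lH (ctT (j + 1) V.vH (wT (j + 1) v ω)) =
    V.vH v • tm (j + 1) V.lH ω - wT j (V.lH v) (tm j V.lH (ctT j V.vH ω))
  rw [ctT_wT, map_sub, map_smul, tm_wT]

lemma reX_wX_zero (V : AC L k) (v : Additive Lˣ) (z : X 0 L) :
    reX V 0 (wX 0 v z) = V.vH v • spX V 0 z := by
  induction z using x_ind with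
  | h0 => rw [map_zero, map_zero, map_zero, smul_zero]
  | hadd a b ha hb => rw [map_add, map_add, map_add, ha, hb, smul_add]
  | h1 x ω =>
    rw [wX_bx, reX_bx, spX_bx]
    split_ifs
    · rw [reT_wT_zero, bx_smul]
    · rw [smul_zero]

lemma reX_wX (V : AC L k) (j : ℕ) (v : Additive Lˣ) (z : X (j + 1) L) :
    reX V (j + 1) (wX (j + 1) v z) = V.vH v • spX V (j + 1) z - wX j (V.lH v) (reX V j z) := by
  induction z using x_ind with
  | h0 => rw [map_zero, map_zero, map_zero, map_zero, map_zero, smul_zero, sub_zero]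
  | hadd a b ha hb =>
    rw [map_add, map_add, map_add, map_add, map_add, ha, hb, smul_add]
    abel
  | h1 x ω =>
    rw [wX_bx, reX_bx, spX_bx, reX_bx]
    split_ifs
    · rw [reT_wT, pf_bx_sub, bx_smul, wX_bx]
    · rw [smul_zero, map_zero, sub_zero]

lemma reT_comap (V : AC L k) (φ : F →+* L) (j : ℕ) (ω : Tx (j + 1) F) :
    reT (V.comap φ) j ω = reT V j (resT (j + 1) φ ω) := by
  change tm j (V.comap φ).lH (ctT j (V.comap φ).vH ω) =
    tm j V.lH (ctT j V.vH (resT (j + 1) φ ω))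
  rw [resT_eq_tm, ctT_tm, pf_comap_lH, pf_comap_vH, tm_comp]

lemma spT_comap (V : AC L k) (φ : F →+* L) (j : ℕ) (ω : Tx j F) :
    spT (V.comap φ) j ω = spT V j (resT j φ ω) := by
  change tm j (V.comap φ).lH ω = tm j V.lH (resT j φ ω)
  rw [resT_eq_tm, pf_comap_lH, tm_comp]

lemma reX_comap (V : AC L k) (φ : F →+* L) (j : ℕ) (z : X (j + 1) F) :
    reX (V.comap φ) j z = reX V j (mX (j + 1) φ z) := by
  induction z using x_ind with
  | h0 => rw [map_zero, map_zero, map_zero]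
  | hadd a b ha hb => rw [map_add, map_add, map_add, ha, hb]
  | h1 x ω =>
    rw [mX_bx, reX_bx, reX_bx]
    by_cases h : x = 0 ∨ V.v (φ x) = 0
    · have h2 : φ x = 0 ∨ V.v (φ x) = 0 := h.imp (fun h => by rw [h, map_zero]) id
      rw [if_pos h2, if_pos (show x = 0 ∨ (V.comap φ).v x = 0 from h), reT_comap]
      rfl
    · have h2 : ¬ (φ x = 0 ∨ V.v (φ x) = 0) := fun h3 => h (h3.imp (map_eq_zero φ).1 id)
      rw [if_neg h2, if_neg (show ¬ (x = 0 ∨ (V.comap φ).v x = 0) from h)]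

lemma spX_comap (V : AC L k) (φ : F →+* L) (j : ℕ) (z : X j F) :
    spX (V.comap φ) j z = spX V j (mX j φ z) := by
  induction z using x_ind with
  | h0 => rw [map_zero, map_zero, map_zero]
  | hadd a b ha hb => rw [map_add, map_add, map_add, ha, hb]
  | h1 x ω =>
    rw [mX_bx, spX_bx, spX_bx]
    by_cases h : x = 0 ∨ V.v (φ x) = 0
    · have h2 : φ x = 0 ∨ V.v (φ x) = 0 := h.imp (fun h => by rw [h, map_zero]) id
      rw [if_pos h2, if_pos (show x = 0 ∨ (V.comap φ).v x = 0 from h), spT_comap]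
      rfl
    · have h2 : ¬ (φ x = 0 ∨ V.v (φ x) = 0) := fun h3 => h (h3.imp (map_eq_zero φ).1 id)
      rw [if_neg h2, if_neg (show ¬ (x = 0 ∨ (V.comap φ).v x = 0) from h)]

lemma reT_push (V : AC L k) (ψ : k →+* F) (j : ℕ) (ω : Tx (j + 1) L) :
    reT (V.push ψ) j ω = resT j ψ (reT V j ω) := by
  change tm j (V.push ψ).lH (ctT j (V.push ψ).vH ω) = resT j ψ (tm j V.lH (ctT j V.vH ω))
  rw [resT_eq_tm, pf_push_lH, pf_push_vH, tm_comp]

lemma reX_push (V : AC L k) (ψ : k →+* F) (j : ℕ) (z : X (j + 1) L) :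
    reX (V.push ψ) j z = mX j ψ (reX V j z) := by
  induction z using x_ind with
  | h0 => rw [map_zero, map_zero, map_zero]
  | hadd a b ha hb => rw [map_add, map_add, map_add, ha, hb]
  | h1 x ω =>
    rw [reX_bx, reX_bx]
    by_cases h : x = 0 ∨ V.v x = 0
    · rw [if_pos h, if_pos (show x = 0 ∨ (V.push ψ).v x = 0 from h), reT_push, mX_bx]
      rfl
    · rw [if_neg h, if_neg (show ¬ (x = 0 ∨ (V.push ψ).v x = 0) from h), map_zero]

lemma reT_triv (V : AC L k) (ψ : L →+* k) (h : ∀ x : L, x ≠ 0 → V.v x = 0 ∧ V.lc x = ψ x)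
    (j : ℕ) (ω : Tx (j + 1) L) : reT V j ω = 0 := by
  change tm j V.lH (ctT j V.vH ω) = 0
  rw [ctT_zero j V.vH (fun v => (h _ (Units.ne_zero v.toMul)).1), map_zero]

lemma spT_triv (V : AC L k) (ψ : L →+* k) (h : ∀ x : L, x ≠ 0 → V.v x = 0 ∧ V.lc x = ψ x)
    (j : ℕ) (ω : Tx j L) : spT V j ω = resT j ψ ω := by
  have h1 : V.lH = resU ψ := by
    refine AddMonoidHom.ext fun v => ?_
    exact congrArg Additive.ofMul (Units.ext (h _ (Units.ne_zero v.toMul)).2)
  change tm j V.lH ω = resT j ψ ω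
  rw [resT_eq_tm, h1]

lemma reX_triv (V : AC L k) (ψ : L →+* k) (h : ∀ x : L, x ≠ 0 → V.v x = 0 ∧ V.lc x = ψ x)
    (j : ℕ) (z : X (j + 1) L) : reX V j z = 0 := by
  induction z using x_ind with
  | h0 => rw [map_zero]
  | hadd a b ha hb => rw [map_add, ha, hb, add_zero]
  | h1 x ω =>
    rw [reX_bx, reT_triv V ψ h, bx_zero, ite_self]

lemma spX_triv (V : AC L k) (ψ : L →+* k) (h : ∀ x : L, x ≠ 0 → V.v x = 0 ∧ V.lc x = ψ x)
    (j : ℕ) (z : X j L) : spX V j z = mX j ψ z := by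
  induction z using x_ind with
  | h0 => rw [map_zero, map_zero]
  | hadd a b ha hb => rw [map_add, map_add, ha, hb]
  | h1 x ω =>
    rw [spX_bx, mX_bx, spT_triv V ψ h]
    by_cases h0 : x = 0
    · rw [if_pos (Or.inl h0), h0, map_zero, map_zero]
    · rw [if_pos (Or.inr (h x h0).1), (h x h0).2]

lemma reT_unif (V V' : AC L k) (m : ℚ) (h : ∀ x : L, x ≠ 0 → V'.v x = m * V.v x)
    (h' : ∀ x : L, x ≠ 0 → V.v x = 0 → V'.lc x = V.lc x) (j : ℕ) (ω : Tx (j + 1) L) :
    reT V' j ω = m • reT V j ω := by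
  change tm j V'.lH (ctT j V'.vH ω) = m • tm j V.lH (ctT j V.vH ω)
  rw [ctT_smul j m V.vH V'.vH (fun v => h _ (Units.ne_zero v.toMul)), map_smul]
  congr 1
  refine tm_unif j V'.lH V.lH V.vH (fun v hv => ⟨1, one_ne_zero, ?_⟩) ω
  have h1 : V'.lH v = V.lH v :=
    congrArg Additive.ofMul (Units.ext (h' _ (Units.ne_zero v.toMul) hv))
  rw [h1, sub_self, smul_zero]

lemma reX_unif (V V' : AC L k) (m : ℚ) (h : ∀ x : L, x ≠ 0 → V'.v x = m * V.v x)
    (h' : ∀ x : L, x ≠ 0 → V.v x = 0 → V'.lc x = V.lc x) (j : ℕ) (z : X (j + 1) L) :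
    reX V' j z = m • reX V j z := by
  induction z using x_ind with
  | h0 => rw [map_zero, map_zero, smul_zero]
  | hadd a b ha hb => rw [map_add, map_add, ha, hb, smul_add]
  | h1 x ω =>
    rw [reX_bx, reX_bx, reT_unif V V' m h h']
    by_cases hm : m = 0
    · rw [hm, zero_smul, zero_smul, bx_zero, ite_self]
    · by_cases h0 : x = 0
      · rw [if_pos (Or.inl h0), if_pos (Or.inl h0), h0, map_zero, map_zero, bx_smul]
      · by_cases hv : V.v x = 0
        · have hv' : V'.v x = 0 := by rw [h x h0, hv, mul_zero]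
          rw [if_pos (Or.inr hv'), if_pos (Or.inr hv), h' x h0 hv, bx_smul]
        · have hv' : V'.v x ≠ 0 := by
            rw [h x h0]
            exact mul_ne_zero hm hv
          rw [if_neg (fun h3 => h3.elim h0 hv'), if_neg (fun h3 => h3.elim h0 hv), smul_zero]

end

end TGF
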