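import Pool.Agent.TGF.Fv
import Pool.Agent.QPL.Five

set_option autoImplicit false

/-!
# TGF-Rl2: the five-term relations specialise

PLAN.  `fv_place`: let `x̄ ∈ k ∪ {∞}` be the reduction of `x ∈ L` (`∞` if `x ≠ 0`, `V.v x < 0`; `0` if
`x = 0` or `V.v x > 0`; `V.lc x` otherwise), `φ x = ψ.g x̄`, `φ x = 0` if `x̄ = ∞`.  `zero`, `one`,
`inv`, `sub` are clear (cases as in the header of Df.lean).  Five-term relation for `x`, `y`,
`a = y / x`, `c = (1 - x) / (1 - y)`, `b = (1 - x⁻¹) / (1 - y⁻¹) = a c`: the cases are listed in the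
header of SRG/Place.lean (there for closed points):
* `x̄`, `ȳ` not in `{0, 1, ∞}`, `x̄ ≠ ȳ`: the relation of `ψ`;
* `x̄ = ȳ` not in `{0, 1, ∞}`: `ā = b̄ = c̄ = 1`;
* `x̄ = 0`, `ȳ` not in `{0, 1, ∞}`: `ā = b̄ = ∞`, `c̄ = 1 / (1 - ȳ)`; `x̄ = 1`: `ā = ȳ`,
  `b̄ = c̄ = 0`; `x̄ = ∞`: `ā = 0`, `c̄ = ∞`, `b̄ = 1 / (1 - ȳ⁻¹)`; the same with `x`, `y` exchanged;
* `x̄ = ȳ = 0`: `c̄ = 1`, `ā = b̄`; `x̄ = ȳ = 1`: `ā = 1`, `b̄ = c̄`; `x̄ = ȳ = ∞`: `b̄ = 1`,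
  `c̄ = ā⁻¹`;
* `x̄ ≠ ȳ` both in `{0, 1, ∞}`: all five are in `{0, 1, ∞}`.
(If helper14's module QPL for the five-term relation under `V.rd` is on main, quote it.)
`spX_rel`, `reX_rel`: let `W = X j k ⧸ Rel j k` and `ψ = fvOf (mkQ)`-type function with values in
`Tx j k →ₗ[ℚ] W`, `ψ x = η ↦ [x] η`; compose with `spT V j` (resp. `reT V j`): the function
`x ↦ (ω ↦ class of spX V j ([x] ω))` is `x ↦ (ψ x̄) ∘ spT V j`, which is in `FV L` by `fv_place`; use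
`rel_of_fv`.  (In `spX` the terms with `V.v x > 0`, `x ≠ 0` are dropped and not sent to `[0]`; modulo
`Rel` there is no difference.)
-/

noncomputable section

open Polynomial TensorProduct
open scoped Classical

namespace TGF

open Helper14.Gon Helper14.W4 QPL

universe u v w

section
variable {L : Type v} [Field L] {k : Type w} [Field k]

/-- the reduction of a five-term function -/
theorem fv_place {W : Type u} [AddCommGroup W] [Module ℚ W] (V : AC L k) (ψ : SRG.FV k W) :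
    ∃ φ : SRG.FV L W, ∀ x : L, φ.g x = if x = 0 ∨ V.v x = 0 then ψ.g (V.lc x) else 0 := by
  obtain ⟨φ, h⟩ := QPL.fv_rd V ψ
  refine ⟨φ, fun x => ?_⟩
  rw [h x]
  by_cases h0 : x = 0
  · rw [if_pos (Or.inl h0), h0, V.rd_zero, map_zero]
    rfl
  · rcases lt_trichotomy (V.v x) 0 with h1 | h1 | h1
    · rw [if_neg (by rintro (h2 | h2); exacts [h0 h2, h1.ne h2]), V.rd_neg h0 h1]
      rfl
    · rw [if_pos (Or.inr h1), V.rd_unit h0 h1]
      rfl
    · rw [if_neg (by rintro (h2 | h2); exacts [h0 h2, h1.ne' h2]), V.rd_pos h1]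
      exact ψ.zero

/-- the value at one element -/
private theorem rl2_ev (j : ℕ) (η : Tx j k) :
    ∃ g : SRG.FV k (X j k ⧸ Rel j k), ∀ x, g.g x = (Rel j k).mkQ (bx x η) := by
  obtain ⟨g, hg⟩ := fv_of j (Rel j k).mkQ (fun z hz => by
    rw [Submodule.mkQ_apply]
    exact (Submodule.Quotient.mk_eq_zero _).2 hz)
  refine ⟨⟨fun x => g.g x η, ?_, ?_, ?_, ?_, ?_⟩, fun x => hg x η⟩
  · rw [g.zero]
    rfl
  · rw [g.one]
    rfl
  · intro x
    rw [g.inv]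
    rfl
  · intro x
    rw [g.sub]
    rfl
  · intro x y hx hx1 hy hy1 hxy
    exact LinearMap.congr_fun (g.five x y hx hx1 hy hy1 hxy) η

private theorem rl2_main (V : AC L k) (i j : ℕ) (σ : Tx i L → Tx j k) (ψ : X i L →ₗ[ℚ] X j k)
    (h : ∀ x ω, ψ (bx x ω) = if x = 0 ∨ V.v x = 0 then bx (V.lc x) (σ ω) else 0)
    {z : X i L} (hz : z ∈ Rel i L) : ψ z ∈ Rel j k := by
  rw [← Submodule.Quotient.mk_eq_zero, ← Submodule.mkQ_apply]
  refine rel_of_fv' i ((Rel j k).mkQ ∘ₗ ψ) (fun ω => ?_) hz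
  obtain ⟨g, hg⟩ := rl2_ev (k := k) j (σ ω)
  obtain ⟨φ, hφ⟩ := fv_place V g
  refine ⟨φ, fun x => ?_⟩
  rw [hφ x, LinearMap.comp_apply, h x ω]
  split_ifs with h1
  · exact hg _
  · rw [map_zero]

lemma spX_rel (V : AC L k) (j : ℕ) {z : X j L} (hz : z ∈ Rel j L) : spX V j z ∈ Rel j k :=
  rl2_main V j j (spT V j) (spX V j) (spX_bx V j) hz

lemma reX_rel (V : AC L k) (j : ℕ) {z : X (j + 1) L} (hz : z ∈ Rel (j + 1) L) :
    reX V j z ∈ Rel j k :=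
  rl2_main V (j + 1) j (reT V j) (reX V j) (reX_bx V j) hz

end

end TGF
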