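import Pool.Agent.TGF.Rl

set_option autoImplicit false

/-!
# TGF-Fv: linear maps on chains and five-term functions

`fv_of`: `g x = ψ ∘ₗ (bxL x)`; `rel_of_fv`: `ψ := xl g.g` kills the five types of generators
of `Rel`.
-/

noncomputable section

open Polynomial TensorProduct
open scoped Classical

namespace TGF

open Helper14.Gon Helper14.W4 QPL

universe u v w

section
variable {F : Type v} [Field F]

/-- the five-term function of a linear map killing the five-term relations -/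
theorem fv_of {W : Type u} [AddCommGroup W] [Module ℚ W] (j : ℕ) (ψ : X j F →ₗ[ℚ] W)
    (h : ∀ z ∈ Rel j F, ψ z = 0) :
    ∃ g : SRG.FV F (Tx j F →ₗ[ℚ] W), ∀ x ω, g.g x ω = ψ (bx x ω) := by
  refine ⟨⟨fun x => ψ ∘ₗ bxL x, ?_, ?_, ?_, ?_, ?_⟩, fun x ω => rfl⟩
  · refine LinearMap.ext fun ω => ?_
    exact h _ (Submodule.subset_span (Or.inl (Or.inl (Or.inl (Or.inl ⟨ω, rfl⟩)))))
  · refine LinearMap.ext fun ω => ?_
    exact h _ (Submodule.subset_span (Or.inl (Or.inl (Or.inl (Or.inr ⟨ω, rfl⟩)))))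
  · intro x
    refine LinearMap.ext fun ω => ?_
    have h1 := h _ (Submodule.subset_span (Or.inl (Or.inl (Or.inr ⟨x, ω, rfl⟩))))
    rw [map_add] at h1
    show ψ (bx x⁻¹ ω) = - ψ (bx x ω)
    exact eq_neg_of_add_eq_zero_right h1
  · intro x
    refine LinearMap.ext fun ω => ?_
    have h1 := h _ (Submodule.subset_span (Or.inl (Or.inr ⟨x, ω, rfl⟩)))
    rw [map_add] at h1
    show ψ (bx (1 - x) ω) = - ψ (bx x ω)
    exact eq_neg_of_add_eq_zero_right h1
  · intro x y hx hx1 hy hy1 hxy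
    refine LinearMap.ext fun ω => ?_
    have h1 := h _ (Submodule.subset_span (Or.inr ⟨x, y, ω, hx, hx1, hy, hy1, hxy, rfl⟩))
    rw [five, map_add, map_sub, map_add, map_sub] at h1
    exact h1

theorem rel_of_fv {W : Type u} [AddCommGroup W] [Module ℚ W] (j : ℕ)
    (g : SRG.FV F (Tx j F →ₗ[ℚ] W)) {z : X j F} (hz : z ∈ Rel j F) :
    xl (fun x => g.g x) z = 0 := by
  have h : Rel j F ≤ LinearMap.ker (xl (fun x => g.g x)) := by
    refine Submodule.span_le.2 ?_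
    rintro z ((((⟨ω, rfl⟩ | ⟨ω, rfl⟩) | ⟨x, ω, rfl⟩) | ⟨x, ω, rfl⟩) |
      ⟨x, y, ω, hx, hx1, hy, hy1, hxy, rfl⟩)
    · show xl (fun x => g.g x) (bx 0 ω) = 0
      rw [xl_bx, g.zero, LinearMap.zero_apply]
    · show xl (fun x => g.g x) (bx 1 ω) = 0
      rw [xl_bx, g.one, LinearMap.zero_apply]
    · show xl (fun x => g.g x) (bx x ω + bx x⁻¹ ω) = 0
      rw [map_add, xl_bx, xl_bx, g.inv, LinearMap.neg_apply, add_neg_cancel]
    · show xl (fun x => g.g x) (bx x ω + bx (1 - x) ω) = 0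
      rw [map_add, xl_bx, xl_bx, g.sub, LinearMap.neg_apply, add_neg_cancel]
    · show xl (fun x => g.g x) (five x y ω) = 0
      have h1 := LinearMap.congr_fun (g.five x y hx hx1 hy hy1 hxy) ω
      rw [five, map_add, map_sub, map_add, map_sub, xl_bx, xl_bx, xl_bx, xl_bx, xl_bx]
      exact h1
  exact h hz

/-- one element `ω` at a time -/
theorem rel_of_fv' {W : Type u} [AddCommGroup W] [Module ℚ W] (j : ℕ) (ψ : X j F →ₗ[ℚ] W)
    (h : ∀ ω : Tx j F, ∃ g : SRG.FV F W, ∀ x, g.g x = ψ (bx x ω)) {z : X j F}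
    (hz : z ∈ Rel j F) : ψ z = 0 := by
  have h' : Rel j F ≤ LinearMap.ker ψ := by
    refine Submodule.span_le.2 ?_
    rintro z ((((⟨ω, rfl⟩ | ⟨ω, rfl⟩) | ⟨x, ω, rfl⟩) | ⟨x, ω, rfl⟩) |
      ⟨x, y, ω, hx, hx1, hy, hy1, hxy, rfl⟩)
    · obtain ⟨g, hg⟩ := h ω
      show ψ (bx 0 ω) = 0
      rw [← hg, g.zero]
    · obtain ⟨g, hg⟩ := h ω
      show ψ (bx 1 ω) = 0
      rw [← hg, g.one]
    · obtain ⟨g, hg⟩ := h ω
      show ψ (bx x ω + bx x⁻¹ ω) = 0
      rw [map_add, ← hg, ← hg, g.inv, add_neg_cancel]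
    · obtain ⟨g, hg⟩ := h ω
      show ψ (bx x ω + bx (1 - x) ω) = 0
      rw [map_add, ← hg, ← hg, g.sub, add_neg_cancel]
    · obtain ⟨g, hg⟩ := h ω
      show ψ (five x y ω) = 0
      rw [five, map_add, map_sub, map_add, map_sub, ← hg, ← hg, ← hg, ← hg, ← hg]
      exact g.five x y hx hx1 hy hy1 hxy
  exact h' hz

end

end TGF
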