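import Pool.Agent.TGF.Cc
import Pool.Agent.TGF.Fv
import Pool.Agent.SRG.R2b

set_option autoImplicit false

/-!
# TGF-S: `R_2` is generated by the five-term relations, on chains

PLAN.  `c2_rel`: `rel_of_fv'` with `ψ = c2 j`: for fixed `ω` the function `x ↦ PB 2 j (cl 2 (some x)) ω`
is `θ (bb (some x))` with `θ = tn 2 j ω`-like linear map `Cx 2 0 F → Cx 2 j F` (`mapT 2 T` with
`T : Tx 0 F → Tx j F`, `T (u0 F) = ω`; `bb x = PB 2 0 (cl 2 x) (u0 F)`, see Helper42/LT/Defs.lean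
`tn`, `tn_PB`), so it is a five-term function by `SRG.fv_of_lin`.
`ker_c2`: let `c2 j z = 0` and let `ψ = mkQ : X j F → W := X j F ⧸ Rel j F`, `g` from `fv_of`
(values in `W' = Tx j F →ₗ W`).  `SRG.lin_of_fv g` gives `θ : Cx 2 0 F → W'` with
`θ (bb (some x)) = g x`.  Let `Ψ : Cx 2 j F → W` be `liftC` of `b ↦ θ (PB 2 0 b (u0 F))`; then
`Ψ (c2 j z) = ψ z` (`x_ind`, `liftC_PB`), so `ψ z = 0`.
-/

noncomputable section

open Polynomial TensorProduct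
open scoped Classical

namespace TGF

open Helper14.Gon Helper14.W4 QPL

universe u v w

section
variable {F : Type v} [Field F]

/-- the maps `b ↦ b ⊗ ω` -/
private def s_tn (j : ℕ) (ω : Tx j F) : Cx 2 0 F →ₗ[ℚ] Cx 2 j F :=
  mapT 2 ((LinearMap.toSpanSingleton ℚ (Tx j F) ω) ∘ₗ (e0 F))

private lemma s_tn_bb (j : ℕ) (ω : Tx j F) (x : F) :
    s_tn j ω (bb (some x)) = PB 2 j (cl 2 (some x)) ω := by
  rw [s_tn, bb, mapT_PB, LinearMap.comp_apply, u0, e0_dm, LinearMap.toSpanSingleton_apply,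
    one_smul]

lemma c2_rel (j : ℕ) {z : X j F} (hz : z ∈ Rel j F) : c2 j z = 0 := by
  refine rel_of_fv' j (c2 j) (fun ω => ?_) hz
  obtain ⟨g, hg⟩ := SRG.fv_of_lin (s_tn j ω)
  refine ⟨g, fun x => ?_⟩
  rw [hg, s_tn_bb, c2_bx]

theorem ker_c2 (j : ℕ) {z : X j F} (hz : c2 j z = 0) : z ∈ Rel j F := by
  obtain ⟨g, hg⟩ := fv_of j ((Rel j F).mkQ) (fun y hy => by
    rw [Submodule.mkQ_apply, Submodule.Quotient.mk_eq_zero]
    exact hy)
  obtain ⟨θ, hθ⟩ := SRG.lin_of_fv g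
  let G : B 2 F →+ (Tx j F →ₗ[ℚ] (X j F ⧸ Rel j F)) :=
    AddMonoidHom.mk' (fun b => θ (PB 2 0 b (u0 F))) (fun a b => by
      rw [map_add, LinearMap.add_apply, map_add])
  have h1 : (liftC G) ∘ₗ (c2 j) = (Rel j F).mkQ := by
    refine x_ext fun x ω => ?_
    rw [LinearMap.comp_apply, c2_bx, liftC_PB]
    change θ (bb (some x)) ω = _
    rw [hθ, hg]
  have h2 := LinearMap.congr_fun h1 z
  rw [LinearMap.comp_apply, hz, map_zero, Submodule.mkQ_apply] at h2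
  exact (Submodule.Quotient.mk_eq_zero _).1 h2.symm

private lemma s_iff (j : ℕ) (z : X j F) : c2 j z = 0 ↔ z ∈ Rel j F :=
  ⟨ker_c2 j, c2_rel j⟩

/-- `N2 = BX` -/
theorem mem_N2 (j : ℕ) (z : X j F) : z ∈ N2 j F ↔ z ∈ BX j F := by
  cases j with
  | zero =>
    change c2 0 z ∈ bdry F 0 0 ↔ z ∈ Rel 0 F
    rw [← s_iff]
    change c2 0 z ∈ (⊥ : Submodule ℚ (Cx 2 0 F)) ↔ c2 0 z = 0
    exact Submodule.mem_bot ℚ
  | succ j =>
    change c2 (j + 1) z ∈ bdry F 0 (j + 1) ↔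
      z ∈ LinearMap.range (d3 j : X j F →ₗ[ℚ] X (j + 1) F) ⊔ Rel (j + 1) F
    rw [mem_bdry0, Submodule.mem_sup]
    constructor
    · rintro ⟨y, hy⟩
      refine ⟨d3 j y, ⟨y, rfl⟩, z - d3 j y, ?_, by abel⟩
      rw [← s_iff, map_sub, hy, sub_self]
    · rintro ⟨a, ⟨y, rfl⟩, b, hb, rfl⟩
      refine ⟨y, ?_⟩
      rw [map_add, c2_rel (j + 1) hb, add_zero]

/-- `ZX` consists of the chains whose class in `B_3 ⊗ Λ^j` is a cocycle -/
theorem mem_ZX (j : ℕ) (z : X j F) : z ∈ ZX j F ↔ dC 0 j (c3 j z) = 0 := by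
  change d3 j z ∈ Rel (j + 1) F ↔ _
  rw [← s_iff, c2_d3]

/-- `N0` is the image of `d2` -/
theorem mem_N0 (j : ℕ) (ω : Tx (j + 2) F) : ω ∈ N0 (j + 2) F ↔ ∃ z : X j F, ω = d2 j z := by
  change ω ∈ LinearMap.range (dT j : Cx 2 j F →ₗ[ℚ] Tx (j + 2) F) ↔ _
  rw [LinearMap.mem_range]
  constructor
  · rintro ⟨y, hy⟩
    obtain ⟨z, hz⟩ := c2_surj j y
    refine ⟨z, ?_⟩
    rw [← dT_c2, hz, hy]
  · rintro ⟨z, hz⟩
    exact ⟨c2 j z, by rw [dT_c2, hz]⟩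

end

end TGF
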