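import Pool.Agent.TGF.Inj1

set_option autoImplicit false

/-!
# TGF-Inj2: injectivity for algebraic extensions, in codegree at most one

PLAN.  `colimN` gives a finite set `S ⊆ F` such that `z` is null over every field `L`, `K → L → F`, whose
image contains `S`.  Use subfields of `F`: for a subfield `M` of `F` containing `φ K` let `ψ_M : K → M`.
`inj_step`: if `M ≤ M'` are subfields of `F`, `M' = M(x)` (`Subfield.closure (M ∪ {x})`), `x` algebraic
over `M`, then `map ψ_{M'} z ∈ N M' j` implies `map ψ_M z ∈ N M j`: the closed point `p : SRG.Pl M M'` is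
`P = minpoly M x`, `r = aeval x` with values in `M'` (surjective since `M' = M[x]`; kernel `(P)`:
`minpoly.dvd`), and `inj_simple` for `map ψ_M z ∈ Z M j` (`map_Z`, `map_comp`).
Then induction on the finite set `S` (`Finset.induction_on`): for all finite `S`, if `map ψ_M z ∈ N M j`
for `M = Subfield.closure (φ K ∪ S)`, then `map ψ z ∈ N (φ.fieldRange)`; finally `φ : K ≃ φ.fieldRange`
(`map_N` for the inverse isomorphism, `map_comp`, `map_id`).
-/

noncomputable section

open Polynomial TensorProduct
open scoped Classical

namespace TGF

open Helper14.Gon Helper14.W4 QPL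

universe u

/-- The closed point of a simple extension. -/
private def Inj2_pl {M F : Type u} [Field M] [Field F] [Algebra M F] (x : F)
    (hx : IsIntegral M x) : SRG.Pl M (IntermediateField.adjoin M {x}) where
  P := minpoly M (IntermediateField.AdjoinSimple.gen M x)
  monic := minpoly.monic ((IntermediateField.AdjoinSimple.isIntegral_gen M x).2 hx)
  irr := minpoly.irreducible ((IntermediateField.AdjoinSimple.isIntegral_gen M x).2 hx)
  r := (aeval (IntermediateField.AdjoinSimple.gen M x)).toRingHom
  surj := by
    intro y
    obtain ⟨f, hf⟩ := (IntermediateField.adjoin.powerBasis hx).exists_eq_aeval' y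
    rw [IntermediateField.adjoin.powerBasis_gen] at hf
    exact ⟨f, hf.symm⟩
  ker := fun A => (minpoly.dvd_iff).symm

theorem inj_alg (H : Thy.{u}) (hH : Laws H) (hE : Exact H) {K F : Type u} [Field K] [Field F]
    (φ : K →+* F) (halg : ∀ x : F, ∃ P : K[X], P ≠ 0 ∧ P.eval₂ φ x = 0) (j : ℕ) (z : H.Y K j)
    (hz : z ∈ H.Z K j) (h : H.map φ j z ∈ H.N F j) : z ∈ H.N K j := by
  letI : Algebra K F := φ.toAlgebra
  have hint : ∀ x : F, IsIntegral K x := by
    intro x
    obtain ⟨P, hP, hx⟩ := halg x
    exact (isAlgebraic_iff_isIntegral (K := K)).1 ⟨P, hP, hx⟩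
  obtain ⟨S, hS⟩ := hH.colimN F K φ j z h
  have key : ∀ M : IntermediateField K F, M = IntermediateField.adjoin K (S : Set F) →
      H.map (algebraMap K M) j z ∈ H.N M j → z ∈ H.N K j := by
    have key1 : H.map (algebraMap K (IntermediateField.adjoin K (S : Set F))) j z ∈
        H.N (IntermediateField.adjoin K (S : Set F)) j → z ∈ H.N K j := by
      refine IntermediateField.induction_on_adjoin_finset S
        (fun M => H.map (algebraMap K M) j z ∈ H.N M j → z ∈ H.N K j) ?_ ?_
      · intro h1
        have h2 := hH.map_N _ K ((IntermediateField.botEquiv K F).toAlgHom.toRingHom) j _ h1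
        rw [← hH.map_comp] at h2
        have h3 : ((IntermediateField.botEquiv K F).toAlgHom.toRingHom).comp
            (algebraMap K (⊥ : IntermediateField K F)) = RingHom.id K := by
          refine RingHom.ext fun y => ?_
          exact (IntermediateField.botEquiv K F).commutes y
        rw [h3, hH.map_id] at h2
        exact h2
      · intro M x _ hM h1
        apply hM
        have hxM : IsIntegral M x := (hint x).tower_top
        apply inj_simple H hH hE (Inj2_pl x hxM) j _ (hH.map_Z _ _ _ j z hz)
        let e : ↥((IntermediateField.adjoin M {x}).restrictScalars K) →+*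
            ↥(IntermediateField.adjoin M {x}) :=
          { toFun := fun y => ⟨y.1, y.2⟩
            map_one' := rfl
            map_mul' := fun _ _ => rfl
            map_zero' := rfl
            map_add' := fun _ _ => rfl }
        have h2 := hH.map_N _ _ e j _ h1
        rw [← hH.map_comp] at h2 ⊢
        have h3 : ((Inj2_pl x hxM).r.comp C).comp (algebraMap K M) =
            e.comp (algebraMap K ↥((IntermediateField.adjoin M {x}).restrictScalars K)) := by
          refine RingHom.ext fun y => ?_
          apply Subtype.ext
          change (((aeval (IntermediateField.AdjoinSimple.gen M x)) (C (algebraMap K M y)) :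
            ↥(IntermediateField.adjoin M {x})) : F) = algebraMap K F y
          rw [aeval_C]
          rfl
        rw [h3]
        exact h2
    intro M hM
    subst hM
    exact key1
  refine key _ rfl ?_
  refine hS ↥(IntermediateField.adjoin K (S : Set F)) (algebraMap K _)
    (algebraMap ↥(IntermediateField.adjoin K (S : Set F)) F) ?_ ?_
  · rfl
  · intro x hx
    exact ⟨⟨x, IntermediateField.subset_adjoin K _ hx⟩, rfl⟩

end TGF
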