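import Pool.Agent.TGF.Dr
import Pool.Agent.QPL.Th

set_option autoImplicit false

/-!
# TGF-Res: residues and exactness, for the three theories

The components of `QPL.th2`, `th1`, `th0` unfold by definition; the statements are `resid_X3`, `resid_X2`,
`resid_T`, `exact_X` and `exact_T` (Dr, Cp, Cp0).
-/

noncomputable section

open Polynomial TensorProduct
open scoped Classical

namespace TGF

open Helper14.Gon Helper14.W4 QPL

universe u

/-- Exactness of the localisation sequence at the middle term. -/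
def Exact (H : Thy.{u}) : Prop :=
  ∀ (K : Type u) [Field K] (j : ℕ) (z : H.Y (RatFunc K) (j + 1)), z ∈ H.Z (RatFunc K) (j + 1) →
    (∀ (k : Type u) [Field k] (p : SRG.Pl K k) (V : AC (RatFunc K) k), IsPt p V →
      H.re V j z ∈ H.N k j) →
    ∃ c : H.Y K (j + 1), z - H.map (RatFunc.C : K →+* RatFunc K) (j + 1) c ∈
      H.N (RatFunc K) (j + 1)

private lemma Res_BX {F : Type u} [Field F] {j : ℕ} {z : X j F} (h : z ∈ Rel j F) : z ∈ BX j F := by
  cases j with
  | zero => exact h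
  | succ j => exact Submodule.mem_sup_right h

private lemma Res_out {K k k' : Type u} [Field K] [Field k] [Field k'] (p : SRG.Pl K k)
    (p' : SRG.Pl K k') (h1 : p'.P ≠ p.P) (h2 : p.P.natDegree ≤ p'.P.natDegree) :
    p'.P ∉ insert p.P (SRG.lt K p.d) := by
  rintro (h | h)
  · exact h1 h
  · exact absurd h.2.2 (not_lt.2 h2)

private lemma Res_r2 {K k : Type u} [Field K] [Field k] (p : SRG.Pl K k) (V : AC (RatFunc K) k)
    (hV : IsPt p V) (j : ℕ) (w : X j k) (hw : w ∈ ZX j k) :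
    ∃ z : X (j + 1) (RatFunc K), z ∈ ZX (j + 1) (RatFunc K) ∧ reX V j z - w ∈ NX j k ∧
      ∀ (k' : Type u) [Field k'] (p' : SRG.Pl K k') (V' : AC (RatFunc K) k'), IsPt p' V' →
        p'.P ≠ p.P → p.P.natDegree ≤ p'.P.natDegree → reX V' j z = 0 := by
  obtain ⟨v, h1, h2, h3⟩ := resid_X3 hV j w hw
  refine ⟨v, h1, ?_, fun k' _ p' V' hV' hne hle => h3 k' p' V' hV' (Res_out p p' hne hle)⟩
  show c3 j (reX V j v - w) ∈ bdry k 1 j
  rw [Z0_c3 h2]
  exact zero_mem _

private lemma Res_r1 {K k : Type u} [Field K] [Field k] (p : SRG.Pl K k) (V : AC (RatFunc K) k)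
    (hV : IsPt p V) (j : ℕ) (w : X j k) (hw : w ∈ LinearMap.ker (d2 j : X j k →ₗ[ℚ] Tx (j + 2) k)) :
    ∃ z : X (j + 1) (RatFunc K),
      z ∈ LinearMap.ker (d2 (j + 1) : X (j + 1) (RatFunc K) →ₗ[ℚ] Tx (j + 1 + 2) (RatFunc K)) ∧
      reX V j z - w ∈ N2 j k ∧
      ∀ (k' : Type u) [Field k'] (p' : SRG.Pl K k') (V' : AC (RatFunc K) k'), IsPt p' V' →
        p'.P ≠ p.P → p.P.natDegree ≤ p'.P.natDegree → reX V' j z = 0 := by
  obtain ⟨v, h1, h2, h3⟩ := resid_X2 hV j w (LinearMap.mem_ker.1 hw)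
  exact ⟨v, LinearMap.mem_ker.2 h1, (mem_N2 j _).2 (Res_BX (Z0_rel h2)),
    fun k' _ p' V' hV' hne hle => h3 k' p' V' hV' (Res_out p p' hne hle)⟩

private lemma Res_r0 {K k : Type u} [Field K] [Field k] (p : SRG.Pl K k) (V : AC (RatFunc K) k)
    (hV : IsPt p V) (j : ℕ) (w : Tx j k) :
    ∃ z : Tx (j + 1) (RatFunc K), z ∈ (⊤ : Submodule ℚ (Tx (j + 1) (RatFunc K))) ∧
      reT V j z - w ∈ N0 j k ∧
      ∀ (k' : Type u) [Field k'] (p' : SRG.Pl K k') (V' : AC (RatFunc K) k'), IsPt p' V' →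
        p'.P ≠ p.P → p.P.natDegree ≤ p'.P.natDegree → reT V' j z = 0 := by
  obtain ⟨v, h1, h2⟩ := resid_T hV j w
  refine ⟨v, Submodule.mem_top, ?_,
    fun k' _ p' V' hV' hne hle => h2 k' p' V' hV' (Res_out p p' hne hle)⟩
  rw [h1, sub_self]
  exact zero_mem _

private lemma Res_e1 {K : Type u} [Field K] (j : ℕ) (z : X (j + 1) (RatFunc K))
    (hz : z ∈ LinearMap.ker (d2 (j + 1) : X (j + 1) (RatFunc K) →ₗ[ℚ] Tx (j + 1 + 2) (RatFunc K)))
    (h : ∀ (k : Type u) [Field k] (p : SRG.Pl K k) (V : AC (RatFunc K) k), IsPt p V →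
      reX V j z ∈ N2 j k) :
    ∃ c : X (j + 1) K, z - mX (j + 1) (RatFunc.C : K →+* RatFunc K) c ∈
      N2 (j + 1) (RatFunc K) := by
  obtain ⟨A, c, hc⟩ := exact_X j z (LinearMap.mem_ker.1 hz)
    fun k _ p V hV => (mem_N2 j _).1 (h k p V hV)
  refine ⟨c, ?_⟩
  rw [mem_N2]
  have h1 : z - mX (j + 1) (RatFunc.C : K →+* RatFunc K) c =
      d3 j A + (z - d3 j A - mX (j + 1) (RatFunc.C : K →+* RatFunc K) c) := by abel
  rw [h1]
  exact Submodule.add_mem_sup (LinearMap.mem_range_self _ _) hc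

theorem res2 : Resid th2.{u} := by
  intro K k _ _ p V hV j w hw
  exact Res_r2 p V hV j w hw

theorem res1 : Resid th1.{u} := by
  intro K k _ _ p V hV j w hw
  exact Res_r1 p V hV j w hw

theorem res0 : Resid th0.{u} := by
  intro K k _ _ p V hV j w _
  exact Res_r0 p V hV j w

theorem exact1 : Exact th1.{u} := by
  intro K _ j z hz h
  exact Res_e1 j z hz h

theorem exact0 : Exact th0.{u} := by
  intro K _ j z _ h
  exact exact_T j z h

end TGF
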