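import Pool.Agent.TGF.Df
import Pool.Agent.QPL.Frac

set_option autoImplicit false

/-!
# TGF-Pt: the valuation of a closed point, smooth elements

PLAN.  `exists_pt`: `V.v (A / B) = m(A) - m(B)`, `m(A) = multiplicity p.P A` (`emultiplicity`, finite for
`A ≠ 0`), `V.lc (A / B) = r(A / P^m(A)) / r(B / P^m(B))`.  It may be convenient to use the constructor
`exists_frac` of QPL (from `AC K[X] k` to `AC (RatFunc K) k`).  On `K[X]`: `v A = m(A)`,
`lc A = p.r (A / P^m)` (`0` for `A = 0`); `r` is multiplicative and `P` prime, so `lc` is; addition: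
`A = P^m A'`, `B = P^n B'`.
`pt_v`, `pt_lc`: values on `P^m A`, `¬ P ∣ A`.  `pt_unique`: `V.v`, `V.lc` are determined.
`El`-lemmas: `Sm S` is closed under products and divisors, every element of `SG S` is `lg` of a quotient
of two smooth polynomials.  `SG_v`: for `p.P ∉ S` all elements of `SG S` have value `0` at `p`.
`El_insert`: if `El (insert P S) x`, `x ≠ 0, 1`, then exactly one of: `v x > 0`, `v x < 0`,
`v (1 - x) > 0`, or `El S x` (`v x = v (1 - x) = 0`): if `v x = 0 = v (1 - x)` then `lg x`, `lg (1-x)` are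
in `SG (insert P S)` and have value `0`, hence are in `SG S` (`SG_insert`).
-/

noncomputable section

open Polynomial TensorProduct
open scoped Classical

namespace TGF

open Helper14.Gon Helper14.W4 QPL

universe u v w

section
variable {K : Type u} [Field K] {k : Type v} [Field k]

/-! ### the decomposition `A = P^m A'` -/

private lemma pt_ex (p : SRG.Pl K k) {A : K[X]} (hA : A ≠ 0) :
    ∃ q : ℕ × K[X], A = p.P ^ q.1 * q.2 ∧ ¬ p.P ∣ q.2 := by
  have h1 : FiniteMultiplicity p.P A := FiniteMultiplicity.of_not_isUnit p.irr.not_isUnit hA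
  obtain ⟨c, hc, hc'⟩ := h1.exists_eq_pow_mul_and_not_dvd
  exact ⟨(_, c), hc, hc'⟩

private lemma pt_uq (p : SRG.Pl K k) {m n : ℕ} {A B : K[X]} (h : p.P ^ m * A = p.P ^ n * B)
    (hA : ¬ p.P ∣ A) (hB : ¬ p.P ∣ B) : m = n ∧ A = B := by
  have hP : p.P ≠ 0 := p.irr.ne_zero
  rcases lt_trichotomy m n with hmn | hmn | hmn
  · exfalso
    obtain ⟨d, rfl⟩ := Nat.exists_eq_add_of_lt hmn
    have h2 : p.P ^ m * A = p.P ^ m * (p.P * (p.P ^ d * B)) := by
      rw [h]; ring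
    have h3 := mul_left_cancel₀ (pow_ne_zero m hP) h2
    exact hA ⟨_, h3⟩
  · subst hmn
    exact ⟨rfl, mul_left_cancel₀ (pow_ne_zero m hP) h⟩
  · exfalso
    obtain ⟨d, rfl⟩ := Nat.exists_eq_add_of_lt hmn
    have h2 : p.P ^ n * B = p.P ^ n * (p.P * (p.P ^ d * A)) := by
      rw [← h]; ring
    have h3 := mul_left_cancel₀ (pow_ne_zero n hP) h2
    exact hB ⟨_, h3⟩

private lemma pt_le (p : SRG.Pl K k) {m l : ℕ} {Z Y : K[X]}
    (h : p.P ^ m * Z = p.P ^ l * Y) (hY : ¬ p.P ∣ Y) : m ≤ l := by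
  have hP : p.P ≠ 0 := p.irr.ne_zero
  by_contra hcon
  push Not at hcon
  obtain ⟨d, rfl⟩ := Nat.exists_eq_add_of_lt hcon
  have h2 : p.P ^ l * Y = p.P ^ l * (p.P * (p.P ^ d * Z)) := by
    rw [← h]; ring
  have h3 := mul_left_cancel₀ (pow_ne_zero l hP) h2
  exact hY ⟨_, h3⟩

private lemma pt_prime (p : SRG.Pl K k) {A B : K[X]} (hA : ¬ p.P ∣ A) (hB : ¬ p.P ∣ B) :
    ¬ p.P ∣ A * B := by
  intro h
  rcases p.irr.prime.dvd_or_dvd h with h | h
  · exact hA h
  · exact hB h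

/-- the multiplicity -/
private def pt_m (p : SRG.Pl K k) (A : K[X]) : ℕ :=
  if h : A = 0 then 0 else (pt_ex p h).choose.1

/-- the prime to `P` part -/
private def pt_c (p : SRG.Pl K k) (A : K[X]) : K[X] :=
  if h : A = 0 then 0 else (pt_ex p h).choose.2

private lemma pt_spec (p : SRG.Pl K k) {A : K[X]} (h : A ≠ 0) :
    A = p.P ^ (pt_m p A) * pt_c p A ∧ ¬ p.P ∣ pt_c p A := by
  rw [pt_m, pt_c, dif_neg h, dif_neg h]
  exact (pt_ex p h).choose_spec

private lemma pt_eq (p : SRG.Pl K k) {A B : K[X]} {m : ℕ} (h : A = p.P ^ m * B)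
    (hB : ¬ p.P ∣ B) : pt_m p A = m ∧ pt_c p A = B := by
  have hA : A ≠ 0 := by
    rw [h]
    refine mul_ne_zero (pow_ne_zero m p.irr.ne_zero) ?_
    rintro rfl
    exact hB (dvd_zero _)
  obtain ⟨h1, h2⟩ := pt_spec p hA
  exact pt_uq p (h1.symm.trans h) h2 hB

/-- the valuation on polynomials -/
private def pt_V (p : SRG.Pl K k) : AC K[X] k where
  v A := (pt_m p A : ℚ)
  lc :=
    { toFun := fun A => p.r (pt_c p A)
      map_zero' := by
        rw [pt_c, dif_pos rfl, map_zero]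
      map_one' := by
        have h1 : ¬ p.P ∣ (1 : K[X]) := fun h => p.irr.not_isUnit (isUnit_of_dvd_one h)
        rw [(pt_eq p (A := 1) (B := 1) (m := 0) (by ring) h1).2, map_one]
      map_mul' := by
        intro A B
        by_cases hA : A = 0
        · subst hA
          rw [zero_mul, pt_c, dif_pos rfl, map_zero, zero_mul]
        by_cases hB : B = 0
        · subst hB
          rw [mul_zero, pt_c, dif_pos rfl, map_zero, mul_zero]
        obtain ⟨a1, a2⟩ := pt_spec p hA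
        obtain ⟨b1, b2⟩ := pt_spec p hB
        have h : A * B = p.P ^ (pt_m p A + pt_m p B) * (pt_c p A * pt_c p B) := by
          conv_lhs => rw [a1, b1]
          ring
        rw [(pt_eq p h (pt_prime p a2 b2)).2, map_mul] }
  lc_ne := by
    intro A hA h
    obtain ⟨a1, a2⟩ := pt_spec p hA
    exact a2 ((p.ker _).1 h)
  v_mul := by
    intro A B hA hB
    obtain ⟨a1, a2⟩ := pt_spec p hA
    obtain ⟨b1, b2⟩ := pt_spec p hB
    have h : A * B = p.P ^ (pt_m p A + pt_m p B) * (pt_c p A * pt_c p B) := by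
      conv_lhs => rw [a1, b1]
      ring
    rw [(pt_eq p h (pt_prime p a2 b2)).1, Nat.cast_add]
  add_lt := by
    intro A B hA hB
    obtain ⟨a1, a2⟩ := pt_spec p hA
    by_cases hB0 : B = 0
    · subst hB0
      rw [add_zero]
      exact ⟨hA, rfl, rfl⟩
    have hlt : pt_m p A < pt_m p B := by
      rcases hB with h | h
      · exact absurd h hB0
      · exact_mod_cast h
    obtain ⟨b1, b2⟩ := pt_spec p hB0
    obtain ⟨d, hd⟩ := Nat.exists_eq_add_of_lt hlt
    have h : A + B = p.P ^ (pt_m p A) * (pt_c p A + p.P * (p.P ^ d * pt_c p B)) := by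
      conv_lhs => rw [a1, b1, hd]
      ring
    have h2 : ¬ p.P ∣ pt_c p A + p.P * (p.P ^ d * pt_c p B) := by
      intro h3
      exact a2 ((dvd_add_left (dvd_mul_right _ _)).1 h3)
    obtain ⟨e1, e2⟩ := pt_eq p h h2
    refine ⟨?_, ?_, ?_⟩
    · rw [h]
      refine mul_ne_zero (pow_ne_zero _ p.irr.ne_zero) ?_
      intro h0
      exact h2 (h0 ▸ dvd_zero _)
    · change (pt_m p (A + B) : ℚ) = (pt_m p A : ℚ)
      rw [e1]
    · change p.r (pt_c p (A + B)) = p.r (pt_c p A)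
      rw [e2, map_add, (p.ker _).2 (dvd_mul_right _ _), add_zero]
  add_ne := by
    intro A B hA hB h1 h2
    obtain ⟨a1, a2⟩ := pt_spec p hA
    obtain ⟨b1, b2⟩ := pt_spec p hB
    have h1' : pt_m p A = pt_m p B := by exact_mod_cast h1
    change p.r (pt_c p A) + p.r (pt_c p B) ≠ 0 at h2
    have h : A + B = p.P ^ (pt_m p A) * (pt_c p A + pt_c p B) := by
      conv_lhs => rw [a1, b1, ← h1']
      ring
    have h3 : ¬ p.P ∣ pt_c p A + pt_c p B := by
      intro h4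
      exact h2 (by rw [← map_add, (p.ker _).2 h4])
    obtain ⟨e1, e2⟩ := pt_eq p h h3
    refine ⟨?_, ?_, ?_⟩
    · rw [h]
      refine mul_ne_zero (pow_ne_zero _ p.irr.ne_zero) ?_
      intro h0
      exact h3 (h0 ▸ dvd_zero _)
    · change (pt_m p (A + B) : ℚ) = (pt_m p A : ℚ)
      rw [e1]
    · change p.r (pt_c p (A + B)) = p.r (pt_c p A) + p.r (pt_c p B)
      rw [e2, map_add]
  add_eq := by
    intro A B hA hB h1 h2
    obtain ⟨a1, a2⟩ := pt_spec p hA
    obtain ⟨b1, b2⟩ := pt_spec p hB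
    have h1' : pt_m p A = pt_m p B := by exact_mod_cast h1
    change p.r (pt_c p A) + p.r (pt_c p B) = 0 at h2
    rw [← map_add, p.ker] at h2
    by_cases h0 : A + B = 0
    · exact Or.inl h0
    · right
      obtain ⟨Z, hZ⟩ := h2
      obtain ⟨s1, s2⟩ := pt_spec p h0
      have h : A + B = p.P ^ (pt_m p A + 1) * Z := by
        have h3 : A + B = p.P ^ (pt_m p A) * (pt_c p A + pt_c p B) := by
          conv_lhs => rw [a1, b1, ← h1']
          ring
        rw [h3, hZ]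
        ring
      have h4 := pt_le p (h.symm.trans s1) s2
      change (pt_m p A : ℚ) < (pt_m p (A + B) : ℚ)
      exact_mod_cast h4

theorem exists_pt (p : SRG.Pl K k) : ∃ V : AC (RatFunc K) k, IsPt p V := by
  obtain ⟨W, hW⟩ := exists_frac (pt_V p) (RatFunc K)
  have h1 : ¬ p.P ∣ (1 : K[X]) := fun h => p.irr.not_isUnit (isUnit_of_dvd_one h)
  have hPe := pt_eq p (A := p.P) (B := 1) (m := 1) (by ring) h1
  refine ⟨W, ?_, ?_, ?_, ?_⟩
  · rw [(hW p.P p.irr.ne_zero).1]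
    change (pt_m p p.P : ℚ) = 1
    rw [hPe.1, Nat.cast_one]
  · rw [(hW p.P p.irr.ne_zero).2]
    change p.r (pt_c p p.P) = 1
    rw [hPe.2, map_one]
  · intro A hA
    have hA0 : A ≠ 0 := by
      rintro rfl
      exact hA (dvd_zero _)
    rw [(hW A hA0).1]
    change (pt_m p A : ℚ) = 0
    rw [(pt_eq p (A := A) (B := A) (m := 0) (by ring) hA).1, Nat.cast_zero]
  · intro A hA
    have hA0 : A ≠ 0 := by
      rintro rfl
      exact hA (dvd_zero _)
    rw [(hW A hA0).2]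
    change p.r (pt_c p A) = p.r A
    rw [(pt_eq p (A := A) (B := A) (m := 0) (by ring) hA).2]

private lemma pt_vone {L : Type w} [Field L] (V : AC L k) : V.v 1 = 0 := by
  have h := V.v_mul (x := (1 : L)) (y := 1) one_ne_zero one_ne_zero
  rw [mul_one] at h
  linarith

private lemma pt_vpow {L : Type w} [Field L] (V : AC L k) {x : L} (hx : x ≠ 0) (m : ℕ) :
    V.v (x ^ m) = m * V.v x := by
  induction m with
  | zero => rw [pow_zero, pt_vone, Nat.cast_zero, zero_mul]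
  | succ m ih =>
    rw [pow_succ, V.v_mul (pow_ne_zero m hx) hx, ih, Nat.cast_succ]
    ring

private lemma pt_am {A : K[X]} (hA : A ≠ 0) : algebraMap K[X] (RatFunc K) A ≠ 0 :=
  RatFunc.algebraMap_ne_zero hA

lemma pt_pow {p : SRG.Pl K k} {V : AC (RatFunc K) k} (h : IsPt p V) (m : ℕ) {A : K[X]}
    (hA : ¬ p.P ∣ A) : V.v (algebraMap K[X] (RatFunc K) (p.P ^ m * A)) = m ∧
      V.lc (algebraMap K[X] (RatFunc K) (p.P ^ m * A)) = p.r A := by
  have hA0 : A ≠ 0 := by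
    rintro rfl
    exact hA (dvd_zero _)
  have hP := pt_am p.irr.ne_zero
  constructor
  · rw [map_mul, map_pow, V.v_mul (pow_ne_zero m hP) (pt_am hA0), pt_vpow V hP, h.vP, h.v A hA,
      mul_one, add_zero]
  · rw [map_mul, map_pow, map_mul, map_pow, h.lP, one_pow, one_mul, h.lc A hA]

lemma pt_unique {p : SRG.Pl K k} {V V' : AC (RatFunc K) k} (h : IsPt p V) (h' : IsPt p V')
    (x : RatFunc K) (hx : x ≠ 0) : V.v x = V'.v x ∧ V.lc x = V'.lc x := by
  have hd : x.denom ≠ 0 := x.denom_ne_zero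
  have hn : x.num ≠ 0 := RatFunc.num_ne_zero hx
  obtain ⟨⟨m, A⟩, hA, hA'⟩ := pt_ex p hn
  obtain ⟨⟨n, B⟩, hB, hB'⟩ := pt_ex p hd
  simp only at hA hA' hB hB'
  have e : x * algebraMap K[X] (RatFunc K) x.denom = algebraMap K[X] (RatFunc K) x.num :=
    ((div_eq_iff (pt_am hd)).1 (RatFunc.num_div_denom x)).symm
  have hv := V.v_mul hx (pt_am hd)
  have hv' := V'.v_mul hx (pt_am hd)
  have hl := map_mul V.lc x (algebraMap K[X] (RatFunc K) x.denom)
  have hl' := map_mul V'.lc x (algebraMap K[X] (RatFunc K) x.denom)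
  have hne := V.lc_ne (pt_am hd)
  rw [e] at hv hv' hl hl'
  rw [hB] at hv hv' hl hl' hne
  rw [hA] at hv hv' hl hl'
  obtain ⟨p1, p2⟩ := pt_pow h m hA'
  obtain ⟨p3, p4⟩ := pt_pow h n hB'
  obtain ⟨q1, q2⟩ := pt_pow h' m hA'
  obtain ⟨q3, q4⟩ := pt_pow h' n hB'
  rw [p1, p3] at hv
  rw [q1, q3] at hv'
  rw [p2, p4] at hl
  rw [q2, q4] at hl'
  rw [p4] at hne
  refine ⟨by linarith, ?_⟩
  exact mul_right_cancel₀ hne (hl.symm.trans hl')

/-! ### smooth polynomials -/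

private lemma pt_sm_unit (S : Set K[X]) {A : K[X]} (hA : IsUnit A) : SRG.Sm S A := by
  right
  intro Q _ hQi hQA
  exact absurd (isUnit_of_dvd_unit hQA hA) hQi.not_isUnit

private lemma pt_sm_mul {S : Set K[X]} {A B : K[X]} (hA : SRG.Sm S A) (hB : SRG.Sm S B) :
    SRG.Sm S (A * B) := by
  rcases hA with hA | hA
  · left; rw [hA, zero_mul]
  rcases hB with hB | hB
  · left; rw [hB, mul_zero]
  right
  intro Q hQm hQi hQA
  rcases hQi.prime.dvd_or_dvd hQA with h | h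
  · exact hA Q hQm hQi h
  · exact hB Q hQm hQi h

private lemma pt_sm_mono {S S' : Set K[X]} (h : S ⊆ S') {A : K[X]} (hA : SRG.Sm S A) :
    SRG.Sm S' A :=
  hA.imp id (fun h2 Q h3 h4 h5 => h (h2 Q h3 h4 h5))

private lemma pt_lg_inj {F : Type w} [Field F] {x y : F} (hx : x ≠ 0) (hy : y ≠ 0)
    (h : lg x = lg y) : x = y := by
  rw [lg, lg, dif_neg hx, dif_neg hy] at h
  have h2 := congrArg (fun u : Additive Fˣ => ((Additive.toMul u : Fˣ) : F)) h
  simpa using h2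

lemma SG_pl {S : Set K[X]} {A : K[X]} (hA : A ≠ 0) (h : SRG.Sm S A) :
    lg (algebraMap K[X] (RatFunc K) A) ∈ SG S :=
  AddSubgroup.subset_closure ⟨A, hA, h, rfl⟩

private lemma pt_SG_ex {S : Set K[X]} {v : Additive (RatFunc K)ˣ} (hv : v ∈ SG S) :
    ∃ A B : K[X], A ≠ 0 ∧ B ≠ 0 ∧ SRG.Sm S A ∧ SRG.Sm S B ∧
      v = lg (algebraMap K[X] (RatFunc K) A / algebraMap K[X] (RatFunc K) B) := by
  induction hv using AddSubgroup.closure_induction with
  | mem v hv =>
    obtain ⟨A, hA, hA', rfl⟩ := hv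
    exact ⟨A, 1, hA, one_ne_zero, hA', pt_sm_unit S isUnit_one, by rw [map_one, div_one]⟩
  | zero =>
    exact ⟨1, 1, one_ne_zero, one_ne_zero, pt_sm_unit S isUnit_one, pt_sm_unit S isUnit_one, by
      rw [map_one, div_one, lg_one]⟩
  | add v w _ _ hv hw =>
    obtain ⟨A, B, hA, hB, hA', hB', rfl⟩ := hv
    obtain ⟨C, D, hC, hD, hC', hD', rfl⟩ := hw
    refine ⟨A * C, B * D, mul_ne_zero hA hC, mul_ne_zero hB hD, pt_sm_mul hA' hC',
      pt_sm_mul hB' hD', ?_⟩
    rw [← lg_mul (div_ne_zero (pt_am hA) (pt_am hB)) (div_ne_zero (pt_am hC) (pt_am hD)),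
      div_mul_div_comm, map_mul, map_mul]
  | neg v _ hv =>
    obtain ⟨A, B, hA, hB, hA', hB', rfl⟩ := hv
    refine ⟨B, A, hB, hA, hB', hA', ?_⟩
    rw [lg_div (pt_am hA) (pt_am hB), lg_div (pt_am hB) (pt_am hA), neg_sub]

/-- every element of the group `K(t)^*` -/
lemma SG_iff (S : Set K[X]) (x : RatFunc K) (hx : x ≠ 0) : lg x ∈ SG S ↔
    ∃ A B : K[X], A ≠ 0 ∧ B ≠ 0 ∧ SRG.Sm S A ∧ SRG.Sm S B ∧
      x = algebraMap K[X] (RatFunc K) A / algebraMap K[X] (RatFunc K) B := by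
  constructor
  · intro h
    obtain ⟨A, B, hA, hB, hA', hB', e⟩ := pt_SG_ex h
    exact ⟨A, B, hA, hB, hA', hB', pt_lg_inj hx (div_ne_zero (pt_am hA) (pt_am hB)) e⟩
  · rintro ⟨A, B, hA, hB, hA', hB', rfl⟩
    rw [lg_div (pt_am hA) (pt_am hB)]
    exact (SG S).sub_mem (SG_pl hA hA') (SG_pl hB hB')

lemma SG_mono {S S' : Set K[X]} (h : S ⊆ S') : SG S ≤ SG S' := by
  refine AddSubgroup.closure_mono ?_
  rintro v ⟨A, hA, hA', rfl⟩
  exact ⟨A, hA, pt_sm_mono h hA', rfl⟩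

lemma SG_v {S : Set K[X]} {p : SRG.Pl K k} {V : AC (RatFunc K) k} (h : IsPt p V)
    (hP : p.P ∉ S) {v : Additive (RatFunc K)ˣ} (hv : v ∈ SG S) : V.vH v = 0 := by
  induction hv using AddSubgroup.closure_induction with
  | mem v hv =>
    obtain ⟨A, hA, hA', rfl⟩ := hv
    rw [vH_lg V (pt_am hA)]
    refine h.v A fun h2 => ?_
    rcases hA' with h3 | h3
    · exact hA h3
    · exact hP (h3 p.P p.monic p.irr h2)
  | zero => exact map_zero _
  | add v w _ _ hv hw => rw [map_add, hv, hw, add_zero]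
  | neg v _ hv => rw [map_neg, hv, neg_zero]

private lemma pt_lg_pow {F : Type w} [Field F] {x : F} (hx : x ≠ 0) (m : ℕ) :
    lg (x ^ m) = (m : ℤ) • lg x := by
  induction m with
  | zero => rw [pow_zero, lg_one, Nat.cast_zero, zero_zsmul]
  | succ m ih =>
    rw [pow_succ, lg_mul (pow_ne_zero m hx) hx, ih, Nat.cast_succ, add_zsmul, one_zsmul]

/-- elements of `SG (insert P S)` -/
lemma SG_insert {S : Set K[X]} (p : SRG.Pl K k) (hP : p.P ∉ S)
    {v : Additive (RatFunc K)ˣ} (hv : v ∈ SG (insert p.P S)) :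
    ∃ (m : ℤ) (w : Additive (RatFunc K)ˣ), w ∈ SG S ∧
      v = m • lg (algebraMap K[X] (RatFunc K) p.P) + w := by
  induction hv using AddSubgroup.closure_induction with
  | mem v hv =>
    obtain ⟨A, hA, hA', rfl⟩ := hv
    obtain ⟨⟨m, B⟩, hB, hB'⟩ := pt_ex p hA
    simp only at hB hB'
    have hB0 : B ≠ 0 := by
      rintro rfl
      exact hB' (dvd_zero _)
    refine ⟨m, lg (algebraMap K[X] (RatFunc K) B), SG_pl hB0 ?_, ?_⟩
    · right
      intro Q hQm hQi hQB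
      rcases hA' with h3 | h3
      · exact absurd h3 hA
      have h4 := h3 Q hQm hQi (by rw [hB]; exact dvd_mul_of_dvd_right hQB _)
      rcases h4 with h4 | h4
      · rw [h4] at hQB
        exact absurd hQB hB'
      · exact h4
    · rw [hB, map_mul, map_pow, lg_mul (pow_ne_zero m (pt_am p.irr.ne_zero)) (pt_am hB0),
        pt_lg_pow (pt_am p.irr.ne_zero)]
  | zero => exact ⟨0, 0, (SG S).zero_mem, by rw [zero_zsmul, add_zero]⟩
  | add v w _ _ hv hw =>
    obtain ⟨m, a, ha, rfl⟩ := hv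
    obtain ⟨n, b, hb, rfl⟩ := hw
    exact ⟨m + n, a + b, (SG S).add_mem ha hb, by rw [add_zsmul]; abel⟩
  | neg v _ hv =>
    obtain ⟨m, a, ha, rfl⟩ := hv
    exact ⟨-m, -a, (SG S).neg_mem ha, by rw [neg_zsmul, neg_add]⟩

lemma SG_insert_v {S : Set K[X]} {p : SRG.Pl K k} {V : AC (RatFunc K) k} (h : IsPt p V)
    (hP : p.P ∉ S) {v : Additive (RatFunc K)ˣ} (hv : v ∈ SG (insert p.P S)) (h0 : V.vH v = 0) :
    v ∈ SG S := by
  obtain ⟨m, w, hw, rfl⟩ := SG_insert p hP hv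
  rw [map_add, SG_v h hP hw, add_zero, map_zsmul, vH_lg V (pt_am p.irr.ne_zero), h.vP,
    zsmul_eq_mul, mul_one] at h0
  have hm : m = 0 := by exact_mod_cast h0
  rw [hm, zero_zsmul, zero_add]
  exact hw

lemma El_mono {S S' : Set K[X]} (h : S ⊆ S') {x : RatFunc K} (hx : El S x) : El S' x :=
  ⟨SG_mono h hx.1, SG_mono h hx.2⟩

private lemma pt_m1 (S : Set K[X]) : lg (-1 : RatFunc K) ∈ SG S := by
  have h1 : IsUnit (-1 : K[X]) := isUnit_one.neg
  have h2 := SG_pl (S := S) (A := (-1 : K[X])) h1.ne_zero (pt_sm_unit S h1)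
  rwa [map_neg, map_one] at h2

lemma El_inv {S : Set K[X]} {x : RatFunc K} (hx : El S x) : El S x⁻¹ := by
  by_cases hx0 : x = 0
  · rw [hx0, inv_zero, ← hx0]; exact hx
  have h1 : lg x⁻¹ = - lg x := by
    rw [inv_eq_one_div, lg_div one_ne_zero hx0, lg_one, zero_sub]
  refine ⟨?_, ?_⟩
  · rw [h1]; exact (SG S).neg_mem hx.1
  · by_cases hx1 : x = 1
    · rw [hx1, inv_one, sub_self, lg_zero]; exact (SG S).zero_mem
    · have h2 : 1 - x ≠ 0 := sub_ne_zero.2 (Ne.symm hx1)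
      have h3 : 1 - x⁻¹ = ((-1) * (1 - x)) / x := by
        rw [eq_div_iff hx0, sub_mul, inv_mul_cancel₀ hx0]; ring
      rw [h3, lg_div (mul_ne_zero (neg_ne_zero.2 one_ne_zero) h2) hx0,
        lg_mul (neg_ne_zero.2 one_ne_zero) h2]
      exact (SG S).sub_mem ((SG S).add_mem (pt_m1 S) hx.2) hx.1

lemma El_sub {S : Set K[X]} {x : RatFunc K} (hx : El S x) : El S (1 - x) :=
  ⟨hx.2, by rw [sub_sub_cancel]; exact hx.1⟩

/-- `El` and coprime (or arbitrary) representations -/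
lemma El_iff (S : Set K[X]) (x : RatFunc K) (hx : x ≠ 0) (hx1 : x ≠ 1) : El S x ↔
    ∃ A B D : K[X], A ≠ 0 ∧ B ≠ 0 ∧ D ≠ 0 ∧ A + D = B ∧ SRG.Sm S A ∧ SRG.Sm S B ∧ SRG.Sm S D ∧
      x = algebraMap K[X] (RatFunc K) A / algebraMap K[X] (RatFunc K) B := by
  have h1x : 1 - x ≠ 0 := sub_ne_zero.2 (Ne.symm hx1)
  constructor
  · rintro ⟨h1, h2⟩
    obtain ⟨A, B, hA, hB, hA', hB', e⟩ := (SG_iff S x hx).1 h1
    obtain ⟨C, D, hC, hD, hC', hD', e'⟩ := (SG_iff S (1 - x) h1x).1 h2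
    refine ⟨A * D, B * D, C * B, mul_ne_zero hA hD, mul_ne_zero hB hD, mul_ne_zero hC hB, ?_,
      pt_sm_mul hA' hD', pt_sm_mul hB' hD', pt_sm_mul hC' hB', ?_⟩
    · apply RatFunc.algebraMap_injective K
      have h3 : algebraMap K[X] (RatFunc K) A / algebraMap K[X] (RatFunc K) B +
          algebraMap K[X] (RatFunc K) C / algebraMap K[X] (RatFunc K) D = 1 := by
        rw [← e, ← e']; ring
      rw [div_add_div _ _ (pt_am hB) (pt_am hD), div_eq_one_iff_eq
        (mul_ne_zero (pt_am hB) (pt_am hD))] at h3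
      rw [map_add, map_mul, map_mul, map_mul, mul_comm (algebraMap K[X] (RatFunc K) C), h3]
    · rw [e, map_mul, map_mul, mul_div_mul_right _ _ (pt_am hD)]
  · rintro ⟨A, B, D, hA, hB, hD, hABD, hA', hB', hD', e⟩
    refine ⟨(SG_iff S x hx).2 ⟨A, B, hA, hB, hA', hB', e⟩,
      (SG_iff S (1 - x) h1x).2 ⟨D, B, hD, hB, hD', hB', ?_⟩⟩
    rw [e, eq_div_iff (pt_am hB), sub_mul, one_mul, div_mul_cancel₀ _ (pt_am hB), ← hABD,
      map_add, add_sub_cancel_left]

private lemma pt_stage (y : RatFunc K) : ∃ n : ℕ, ∀ S : Set K[X],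
    (∀ Q : K[X], Q.Monic → Irreducible Q → Q.natDegree < n → Q ∈ S) → lg y ∈ SG S := by
  by_cases hy : y = 0
  · refine ⟨0, fun S _ => ?_⟩
    rw [hy, lg_zero]
    exact (SG S).zero_mem
  have hd : y.denom ≠ 0 := y.denom_ne_zero
  have hn : y.num ≠ 0 := RatFunc.num_ne_zero hy
  refine ⟨y.num.natDegree + y.denom.natDegree + 1, fun S hS => ?_⟩
  refine (SG_iff S y hy).2 ⟨y.num, y.denom, hn, hd, ?_, ?_, (RatFunc.num_div_denom y).symm⟩
  · right
    intro Q hQm hQi hQA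
    refine hS Q hQm hQi ?_
    have := natDegree_le_of_dvd hQA hn
    omega
  · right
    intro Q hQm hQi hQA
    refine hS Q hQm hQi ?_
    have := natDegree_le_of_dvd hQA hd
    omega

/-- everything is smooth for a large finite set -/
lemma exists_stage (x : RatFunc K) (v : Additive (RatFunc K)ˣ) : ∃ n : ℕ,
    ∀ S : Set K[X], (∀ Q : K[X], Q.Monic → Irreducible Q → Q.natDegree < n → Q ∈ S) →
      El S x ∧ v ∈ SG S := by
  obtain ⟨n1, h1⟩ := pt_stage x
  obtain ⟨n2, h2⟩ := pt_stage (1 - x)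
  obtain ⟨n3, h3⟩ := pt_stage ((Additive.toMul v : (RatFunc K)ˣ) : RatFunc K)
  refine ⟨n1 + n2 + n3, fun S hS => ⟨⟨?_, ?_⟩, ?_⟩⟩
  · exact h1 S fun Q a b c => hS Q a b (by omega)
  · exact h2 S fun Q a b c => hS Q a b (by omega)
  · have h4 := h3 S fun Q a b c => hS Q a b (by omega)
    rw [lg_unit] at h4
    exact h4

end

end TGF
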