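import Pool.Agent.TGF.Defs

set_option autoImplicit false

/-!
# TGF-Lg: the two definitions of `lg` agree
-/

noncomputable section

open Polynomial TensorProduct
open scoped Classical

namespace TGF

universe u

lemma lg_eq {F : Type u} [Field F] (x : F) : Helper11.Gon.lg x = Helper14.Gon.lg x := rfl

lemma pl_eq {K : Type u} [Field K] (A : K[X]) :
    SRG.pl A = Helper14.Gon.lg (algebraMap K[X] (RatFunc K) A) := rfl

end TGF
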