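import Pool.Agent.TGF.Ts
import Pool.Agent.TGF.Pt
import Pool.Agent.TGF.Lg
import Pool.Agent.TGF.Fv
import Pool.Agent.SRG.Main

set_option autoImplicit false

/-!
# TGF-Om1: a functional which vanishes on the chains of level `S`, on the chains of level `S ∪ P`

PLAN.  Let `E = K(t)`, `W' = TS i (SG S) →ₗ[ℚ] W`.  `fv_of i ψ h1` gives `g : FV E (Tx i E →ₗ W)`;
restrict its values to `TS i (SG S)`: `f : FV E W'`, `f x = (g x) ∘ₗ (TS i (SG S)).subtype`.  `f` vanishes at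
`A / B` if `A`, `B`, `B - A` are smooth (`h2`: if `A = 0` or `B = 0` or `A = B` by `f.zero`, `f.one`;
otherwise `El S (A/B)`, `SG_pl`), so `SRG.Van S f N` for all `N`, and `SRG.rigid` (with `d = p.d`,
`1 ≤ p.d`) gives `o : AF E W'` with `f x = o.O (lg (1 - x)) (lg x)`, `o.O (pl A) (pl B) = 0` for smooth
`A`, `B`; so `o.O a b = 0` for `a, b ∈ SG S`.  Let `ρ : Tx i E →ₗ TS i (SG S)` be a projection
(`(TS i (SG S)).exists_isCompl`, or `LinearMap.exists_leftInverse_of_injective`), and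
`χ b ω := o.O (lg P) b (ρ ω)`.  For `El (insert P S) x`: `lg (1 - x) = m • π + a`, `lg x = n • π + b`
(`SG_insert`), `V.vH` of them are `m`, `n` (`IsPt.vP`, `SG_v`), `χ π = 0` (`o.alt`):
`o.O (m π + a) (n π + b) = m χ b - n χ a = m χ (lg x) - n χ (lg (1 - x))`.
-/

noncomputable section

open Polynomial TensorProduct
open scoped Classical

namespace TGF

open Helper14.Gon Helper14.W4 QPL

universe u v w

private lemma om1_O_zero {K : Type u} [Field K] {W : Type w} [AddCommGroup W] [Module ℚ W]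
    {S : Set K[X]} (o : Helper11.Gon.AF (RatFunc K) W)
    (h : ∀ A B : K[X], SRG.Sm S A → SRG.Sm S B → o.O (SRG.pl A) (SRG.pl B) = 0)
    {a b : Additive (RatFunc K)ˣ} (ha : a ∈ SG S) (hb : b ∈ SG S) : o.O a b = 0 := by
  induction ha using AddSubgroup.closure_induction with
  | mem v hv =>
    obtain ⟨A, _, hA', rfl⟩ := hv
    induction hb using AddSubgroup.closure_induction with
    | mem v hv =>
      obtain ⟨B, _, hB', rfl⟩ := hv
      exact h A B hA' hB'
    | zero => exact map_zero _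
    | add v w _ _ hv hw => rw [map_add, hv, hw, add_zero]
    | neg v _ hv => rw [map_neg, hv, neg_zero]
  | zero => rw [map_zero, AddMonoidHom.zero_apply]
  | add v w _ _ hv hw => rw [map_add, AddMonoidHom.add_apply, hv, hw, add_zero]
  | neg v _ hv => rw [map_neg, AddMonoidHom.neg_apply, hv, neg_zero]

/-- the restriction of the values to a subspace -/
private def om1_res {F : Type u} [Field F] {T : Type v} [AddCommGroup T] [Module ℚ T]
    {W : Type w} [AddCommGroup W] [Module ℚ W] (g : SRG.FV F (T →ₗ[ℚ] W)) (M : Submodule ℚ T) :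
    SRG.FV F (M →ₗ[ℚ] W) where
  g := fun x => (g.g x) ∘ₗ M.subtype
  zero := by rw [g.zero, LinearMap.zero_comp]
  one := by rw [g.one, LinearMap.zero_comp]
  inv := fun x => by rw [g.inv, LinearMap.neg_comp]
  sub := fun x => by rw [g.sub, LinearMap.neg_comp]
  five := fun x y a b c d e => by
    have h := g.five x y a b c d e
    rw [← LinearMap.sub_comp, ← LinearMap.add_comp, ← LinearMap.sub_comp, ← LinearMap.add_comp, h,
      LinearMap.zero_comp]

private lemma om1_lin {G : Type u} [AddCommGroup G] {W : Type w} [AddCommGroup W] [Module ℚ W]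
    (O : G →+ G →+ W) (alt : ∀ v, O v v = 0) (swap : ∀ u v, O u v = - O v u) {π a b : G} (m n : ℤ)
    (hab : O a b = 0) :
    O (m • π + a) (n • π + b) = (m : ℚ) • O π (n • π + b) - (n : ℚ) • O π (m • π + a) := by
  have e2 : ∀ c, O (m • π) c = m • O π c := fun c => by rw [map_zsmul]; rfl
  have h1 : O (m • π + a) (n • π + b) =
      m • n • O π π + m • O π b + (n • O a π + O a b) := by
    rw [map_add O, AddMonoidHom.add_apply, e2, map_add, map_add, map_zsmul, map_zsmul, smul_add]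
  have h2 : O π (n • π + b) = n • O π π + O π b := by rw [map_add, map_zsmul]
  have h3 : O π (m • π + a) = m • O π π + O π a := by rw [map_add, map_zsmul]
  rw [h1, h2, h3, alt, hab, swap a π, smul_zero, smul_zero, zero_add, zero_add,
    zero_add, add_zero, smul_neg, ← sub_eq_add_neg, Int.cast_smul_eq_zsmul, Int.cast_smul_eq_zsmul]

private lemma om1_fin {G : Type u} [AddCommGroup G] {T : Type v} [AddCommGroup T] [Module ℚ T]
    {W : Type w} [AddCommGroup W] [Module ℚ W] (M : Submodule ℚ T) (O : G →+ G →+ (M →ₗ[ℚ] W))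
    (alt : ∀ v, O v v = 0) (swap : ∀ u v, O u v = - O v u) (π : G) :
    ∃ χ : G →+ (T →ₗ[ℚ] W), ∀ (m n : ℤ) (a b : G), O a b = 0 → ∀ (μ : T) (hμ : μ ∈ M),
      O (m • π + a) (n • π + b) ⟨μ, hμ⟩ =
        (m : ℚ) • χ (n • π + b) μ - (n : ℚ) • χ (m • π + a) μ := by
  obtain ⟨ρ, hρ⟩ := M.subtype.exists_leftInverse_of_injective (Submodule.ker_subtype _)
  refine ⟨AddMonoidHom.mk' (fun b => (O π b) ∘ₗ ρ)
    (fun b c => by rw [map_add, LinearMap.add_comp]), ?_⟩
  intro m n a b hab μ hμ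
  have hρμ : ρ μ = ⟨μ, hμ⟩ := LinearMap.congr_fun hρ ⟨μ, hμ⟩
  rw [om1_lin O alt swap m n hab, LinearMap.sub_apply, LinearMap.smul_apply, LinearMap.smul_apply]
  change _ = (m : ℚ) • ((O π (n • π + b)) (ρ μ)) - (n : ℚ) • ((O π (m • π + a)) (ρ μ))
  rw [hρμ]

/-- the abstract form -/
private lemma om1_abs {G : Type u} [AddCommGroup G] {T : Type v} [AddCommGroup T] [Module ℚ T]
    {W : Type w} [AddCommGroup W] [Module ℚ W] (M : Submodule ℚ T) (O : G →+ G →+ (M →ₗ[ℚ] W))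
    (alt : ∀ v, O v v = 0) (swap : ∀ u v, O u v = - O v u) (π : G) (H : AddSubgroup G)
    (hH : ∀ a ∈ H, ∀ b ∈ H, O a b = 0) (vH : G →+ ℚ) (hπ : vH π = 1) (hv : ∀ a ∈ H, vH a = 0) :
    ∃ χ : G →+ (T →ₗ[ℚ] W), ∀ c d : G, (∃ (m : ℤ) (a : G), a ∈ H ∧ c = m • π + a) →
      (∃ (n : ℤ) (b : G), b ∈ H ∧ d = n • π + b) → ∀ (μ : T) (hμ : μ ∈ M),
      O c d ⟨μ, hμ⟩ = vH c • χ d μ - vH d • χ c μ := by
  obtain ⟨χ, hχ⟩ := om1_fin M O alt swap π
  refine ⟨χ, ?_⟩
  rintro c d ⟨m, a, ha, rfl⟩ ⟨n, b, hb, rfl⟩ μ hμ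
  have hv1 : vH (m • π + a) = m := by
    rw [map_add, hv a ha, add_zero, map_zsmul, hπ, zsmul_eq_mul, mul_one]
  have hv2 : vH (n • π + b) = n := by
    rw [map_add, hv b hb, add_zero, map_zsmul, hπ, zsmul_eq_mul, mul_one]
  rw [hv1, hv2]
  exact hχ m n a b (hH a ha b hb) μ hμ

theorem exists_chi {K : Type u} [Field K] {k : Type v} [Field k] {p : SRG.Pl K k}
    {V : AC (RatFunc K) k} {S : Set K[X]} (hS : SRG.Adm S p.d) (hP : p.P ∉ S) (hV : IsPt p V)
    {W : Type w} [AddCommGroup W] [Module ℚ W] (i : ℕ) (ψ : X i (RatFunc K) →ₗ[ℚ] W)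
    (h1 : ∀ z ∈ Rel i (RatFunc K), ψ z = 0) (h2 : ∀ z ∈ Lv i S, ψ z = 0) :
    ∃ χ : Additive (RatFunc K)ˣ →+ (Tx i (RatFunc K) →ₗ[ℚ] W),
      ∀ x : RatFunc K, El (insert p.P S) x → ∀ μ ∈ TS i (SG S),
        ψ (bx x μ) = V.vH (lg (1 - x)) • χ (lg x) μ - V.vH (lg x) • χ (lg (1 - x)) μ := by
  obtain ⟨g, hg⟩ := fv_of i ψ h1
  have hd : 1 ≤ p.d := p.irr.natDegree_pos
  have hV0 : ∀ N : ℕ, SRG.Van S (om1_res g (TS i (SG S))) N := by
    intro N A B C hABC hA hB hC _ _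
    by_cases hB0 : B = 0
    · rw [hB0]; exact SRG.G_zero_right _ A
    by_cases hA0 : A = 0
    · rw [hA0]; exact SRG.G_zero_left _ B
    by_cases hC0 : C = 0
    · rw [hC0, add_zero] at hABC
      rw [hABC]; exact SRG.G_self _ B
    have hb : algebraMap K[X] (RatFunc K) B ≠ 0 := RatFunc.algebraMap_ne_zero hB0
    have ha : algebraMap K[X] (RatFunc K) A ≠ 0 := RatFunc.algebraMap_ne_zero hA0
    have hc : algebraMap K[X] (RatFunc K) C ≠ 0 := RatFunc.algebraMap_ne_zero hC0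
    have hx : 1 - algebraMap K[X] (RatFunc K) A / algebraMap K[X] (RatFunc K) B =
        algebraMap K[X] (RatFunc K) C / algebraMap K[X] (RatFunc K) B := by
      rw [sub_eq_iff_eq_add, ← add_div, ← map_add, add_comm C A, hABC, div_self hb]
    have hEl : El S (algebraMap K[X] (RatFunc K) A / algebraMap K[X] (RatFunc K) B) := by
      refine ⟨?_, ?_⟩
      · rw [lg_div ha hb]
        exact (SG S).sub_mem (SG_pl hA0 hA) (SG_pl hB0 hB)
      · rw [hx, lg_div hc hb]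
        exact (SG S).sub_mem (SG_pl hC0 hC) (SG_pl hB0 hB)
    refine LinearMap.ext fun ω => ?_
    have h3 := h2 (bx _ (ω : Tx i (RatFunc K))) (Submodule.subset_span ⟨_, _, hEl, ω.2, rfl⟩)
    rw [← hg] at h3
    exact h3
  obtain ⟨o, ho, hf⟩ := SRG.rigid hd hS (om1_res g (TS i (SG S))) (hV0 _)
  have hπ : V.vH (lg (algebraMap K[X] (RatFunc K) p.P)) = 1 := by
    rw [vH_lg V (RatFunc.algebraMap_ne_zero p.irr.ne_zero), hV.vP]
  obtain ⟨χ, hχ⟩ := om1_abs (TS i (SG S)) o.O o.alt o.swap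
    (lg (algebraMap K[X] (RatFunc K) p.P)) (SG S) (fun a ha b hb => om1_O_zero o ho ha hb) V.vH hπ
    (fun a ha => SG_v hV hP ha)
  refine ⟨χ, fun x hx μ hμ => ?_⟩
  have h4 := hχ (lg (1 - x)) (lg x) (SG_insert p hP hx.2) (SG_insert p hP hx.1) μ hμ
  have h5 := LinearMap.congr_fun (hf x) ⟨μ, hμ⟩
  rw [← hg]
  exact h5.trans h4

end TGF
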