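import Pool.Agent.TGF.JD

set_option autoImplicit false

/-!
# TGF-Cv2: a point where a separable polynomial stays separable and splits
-/

noncomputable section

open Polynomial
open scoped Classical

namespace TGF

universe u

private theorem cv2_norm (p : ℕ) [Fact p.Prime] (q : (RatFunc (ZMod p))[X]) :
    ∃ (D : (ZMod p)[X]) (q0 : (ZMod p)[X][X]), D ≠ 0 ∧
      q0.map (algebraMap (ZMod p)[X] (RatFunc (ZMod p))) =
        C (algebraMap (ZMod p)[X] (RatFunc (ZMod p)) D) * q := by
  obtain ⟨b, hb1, hb2⟩ :=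
    IsLocalization.integerNormalization_spec (nonZeroDivisors (ZMod p)[X]) q
  refine ⟨b, _, nonZeroDivisors.ne_zero hb1, hb2.trans ?_⟩
  rw [← algebraMap_smul (RatFunc (ZMod p)) b q, smul_eq_C_mul]

private theorem cv2_bez (p : ℕ) [Fact p.Prime] (f0 : (ZMod p)[X][X])
    (hs : (f0.map (algebraMap (ZMod p)[X] (RatFunc (ZMod p)))).Separable) :
    ∃ (D : (ZMod p)[X]) (a b : (ZMod p)[X][X]), D ≠ 0 ∧ a * f0 + b * derivative f0 = C D := by
  obtain ⟨a, b, h⟩ := hs
  obtain ⟨Da, a0, ha, ha'⟩ := cv2_norm p a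
  obtain ⟨Db, b0, hb, hb'⟩ := cv2_norm p b
  refine ⟨Da * Db, C Db * a0, C Da * b0, mul_ne_zero ha hb, ?_⟩
  apply map_injective (algebraMap (ZMod p)[X] (RatFunc (ZMod p)))
    (RatFunc.algebraMap_injective (ZMod p))
  rw [derivative_map] at h
  simp only [Polynomial.map_add, Polynomial.map_mul, map_C, ha', hb', map_mul]
  linear_combination (C (algebraMap (ZMod p)[X] (RatFunc (ZMod p)) Da) *
    C (algebraMap (ZMod p)[X] (RatFunc (ZMod p)) Db)) * h

private theorem cv2_pt (p : ℕ) [Fact p.Prime] {F : Type u} [Field F] [CharP F p] [IsAlgClosed F]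
    (D : (ZMod p)[X]) (hD : D ≠ 0) :
    ∃ c : F, D.eval₂ (ZMod.castHom (dvd_refl p) F) c ≠ 0 ∧
      ∃ E : (ZMod p)[X], E ≠ 0 ∧ E.eval₂ (ZMod.castHom (dvd_refl p) F) c = 0 := by
  have hdeg : (D * X + 1 : (ZMod p)[X]).degree = ((D.natDegree + 1 : ℕ) : WithBot ℕ) := by
    have h1 : (D * X : (ZMod p)[X]).degree = ((D.natDegree + 1 : ℕ) : WithBot ℕ) := by
      rw [degree_mul, degree_X, degree_eq_natDegree hD]
      rfl
    rw [← h1]
    apply degree_add_eq_left_of_degree_lt
    rw [h1, degree_one]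
    exact_mod_cast Nat.succ_pos D.natDegree
  have hne : (D * X + 1 : (ZMod p)[X]).degree ≠ 0 := by
    rw [hdeg]
    exact_mod_cast Nat.succ_ne_zero D.natDegree
  obtain ⟨c, hc⟩ := IsAlgClosed.exists_eval₂_eq_zero (ZMod.castHom (dvd_refl p) F) _ hne
  refine ⟨c, fun h0 => ?_, D * X + 1, ?_, hc⟩
  · rw [eval₂_add, eval₂_mul, h0, zero_mul, zero_add, eval₂_one] at hc
    exact one_ne_zero hc
  · intro h0
    rw [h0, degree_zero] at hdeg
    exact WithBot.coe_ne_bot hdeg.symm

private theorem cv2_sep (p : ℕ) [Fact p.Prime] {F : Type u} [Field F] [CharP F p]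
    (f0 a b : (ZMod p)[X][X]) (D : (ZMod p)[X]) (h : a * f0 + b * derivative f0 = C D) (c : F)
    (hc : D.eval₂ (ZMod.castHom (dvd_refl p) F) c ≠ 0) :
    (f0.map (eval₂RingHom (ZMod.castHom (dvd_refl p) F) c)).Separable := by
  have h1 := congrArg (Polynomial.map (eval₂RingHom (ZMod.castHom (dvd_refl p) F) c)) h
  rw [Polynomial.map_add, Polynomial.map_mul, Polynomial.map_mul, map_C, ← derivative_map,
    coe_eval₂RingHom] at h1
  refine ⟨C (D.eval₂ (ZMod.castHom (dvd_refl p) F) c)⁻¹ *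
      a.map (eval₂RingHom (ZMod.castHom (dvd_refl p) F) c),
    C (D.eval₂ (ZMod.castHom (dvd_refl p) F) c)⁻¹ *
      b.map (eval₂RingHom (ZMod.castHom (dvd_refl p) F) c), ?_⟩
  rw [mul_assoc, mul_assoc, ← mul_add, h1, ← C_mul, inv_mul_cancel₀ hc, C_1]

private theorem cv2_int (p : ℕ) [Fact p.Prime] {F : Type u} [Field F] [CharP F p]
    [Algebra (ZMod p) F] (f0 : (ZMod p)[X][X]) (hm : f0.Monic) (c : F)
    (hc : IsIntegral (ZMod p) c) (x : F)
    (hx : (f0.map (eval₂RingHom (ZMod.castHom (dvd_refl p) F) c)).eval x = 0) :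
    IsIntegral (ZMod p) x := by
  have hcomp : (algebraMap (integralClosure (ZMod p) F) F).comp
      (eval₂RingHom (algebraMap (ZMod p) (integralClosure (ZMod p) F)) ⟨c, hc⟩) =
      eval₂RingHom (ZMod.castHom (dvd_refl p) F) c := by
    apply Polynomial.ringHom_ext
    · intro r
      have h1 : (ZMod.castHom (dvd_refl p) F) = algebraMap (ZMod p) F := Subsingleton.elim _ _
      rw [h1]
      simp only [RingHom.comp_apply, coe_eval₂RingHom, eval₂_C]
      rfl
    · simp only [RingHom.comp_apply, coe_eval₂RingHom, eval₂_X]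
      rfl
  refine isIntegral_trans (A := integralClosure (ZMod p) F) x
    ⟨f0.map (eval₂RingHom (algebraMap (ZMod p) (integralClosure (ZMod p) F)) ⟨c, hc⟩),
      hm.map _, ?_⟩
  rw [eval₂_map, hcomp, ← eval_map]
  exact hx

theorem exists_c (p : ℕ) [Fact p.Prime] {F : Type u} [Field F] [CharP F p] [IsAlgClosed F]
    (f0 : (ZMod p)[X][X]) (hm : f0.Monic)
    (hs : (f0.map (algebraMap (ZMod p)[X] (RatFunc (ZMod p)))).Separable) :
    ∃ (k0 : Subfield F) (c : F) (R : Finset F), Finite k0 ∧ c ∈ k0 ∧ (∀ x ∈ R, x ∈ k0) ∧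
      f0.map (eval₂RingHom (ZMod.castHom (dvd_refl p) F) c) = ∏ x ∈ R, (X - C x) := by
  obtain ⟨D, a, b, hD, hab⟩ := cv2_bez p f0 hs
  obtain ⟨c, hc, E, hE, hEc⟩ := cv2_pt (F := F) p D hD
  let _ : Algebra (ZMod p) F := (ZMod.castHom (dvd_refl p) F).toAlgebra
  have hci : IsIntegral (ZMod p) c := by
    have h1 : IsAlgebraic (ZMod p) c := ⟨E, hE, hEc⟩
    exact h1.isIntegral
  have hsep := cv2_sep p f0 a b D hab c hc
  have hmon : (f0.map (eval₂RingHom (ZMod.castHom (dvd_refl p) F) c)).Monic := hm.map _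
  have hspl := IsAlgClosed.splits (f0.map (eval₂RingHom (ZMod.castHom (dvd_refl p) F) c))
  have hnod := nodup_roots hsep
  have hR : ∀ x ∈ (f0.map (eval₂RingHom (ZMod.castHom (dvd_refl p) F) c)).roots.toFinset,
      IsIntegral (ZMod p) x := by
    intro x hx
    rw [Multiset.mem_toFinset, mem_roots hmon.ne_zero] at hx
    exact cv2_int p f0 hm c hci x hx
  refine ⟨(IntermediateField.adjoin (ZMod p) ((insert c
    (f0.map (eval₂RingHom (ZMod.castHom (dvd_refl p) F) c)).roots.toFinset : Finset F) :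
      Set F)).toSubfield, c,
    (f0.map (eval₂RingHom (ZMod.castHom (dvd_refl p) F) c)).roots.toFinset, ?_, ?_, ?_, ?_⟩
  · have hfd : FiniteDimensional (ZMod p) (IntermediateField.adjoin (ZMod p) ((insert c
        (f0.map (eval₂RingHom (ZMod.castHom (dvd_refl p) F) c)).roots.toFinset : Finset F) :
          Set F)) := by
      apply IntermediateField.finiteDimensional_adjoin
      intro x hx
      rw [Finset.mem_coe, Finset.mem_insert] at hx
      rcases hx with rfl | hx
      · exact hci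
      · exact hR x hx
    have hfin : Finite (IntermediateField.adjoin (ZMod p) ((insert c
        (f0.map (eval₂RingHom (ZMod.castHom (dvd_refl p) F) c)).roots.toFinset : Finset F) :
          Set F)) := Module.finite_of_finite (ZMod p)
    exact hfin
  · apply IntermediateField.subset_adjoin
    rw [Finset.mem_coe, Finset.mem_insert]
    exact Or.inl rfl
  · intro x hx
    apply IntermediateField.subset_adjoin
    rw [Finset.mem_coe, Finset.mem_insert]
    exact Or.inr hx
  · refine (hspl.eq_prod_roots_of_monic hmon).trans ?_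
    change _ = (Multiset.map (fun x => X - C x)
      (f0.map (eval₂RingHom (ZMod.castHom (dvd_refl p) F) c)).roots.toFinset.val).prod
    rw [Multiset.toFinset_val, Multiset.Nodup.dedup hnod]

end TGF
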