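import Pool.Agent.TGF.Cv1
import Pool.Agent.TGF.Cv2

set_option autoImplicit false

/-!
# TGF-Cv3: the curve

PLAN.  `exists_theta p S` gives `m`, `θ`, `f0`; `exists_c p f0` gives `k0`, `c`, `R`.  Let
`t = algebraMap _ F RatFunc.X`; it is transcendental over `ZMod p`, hence over `k0` (finite over `ZMod p`), and
so is `T = t - c`.  Let `ι : RatFunc k0 →+* F`, `X ↦ T` (`RatFunc.liftRingHom`/`IsFractionRing.lift`).
`f1 = f0(X + c) ∈ k0[X][X]` (each coefficient `a ∈ (ZMod p)[X]` is mapped to `a(X + c) ∈ k0[X]`): monic,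
`f1(ι) (θ) = 0`, `f1.map (evalRingHom 0) = ∏ (X - x)` over `x ∈ R` (as elements of `k0`).
`P` = minimal polynomial of `θ` over `RatFunc k0` (via `ι.toAlgebra`); `P = F1.map` for the monic
`F1 = minpoly k0[X] θ ∈ k0[X][X]` (`minpoly.isIntegrallyClosed_eq_field_fractions'`), `F1 ∣ f1`
(`minpoly.isIntegrallyClosed_dvd`).  So `F1.map (evalRingHom 0)` is monic and divides `∏ (X - x)`: it is the
product over a subset of `R` (`Polynomial.Splits`, separable), enumerate it by `Fin N`.
`L` = `Subfield.closure (range ι ∪ {θ})`, `p0 : SRG.Pl (RatFunc k0) L`: `P`, `r = aeval θ` with values in `L`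
(surjective: `L = RatFunc k0 [θ]`, `θ` algebraic), `ε = L.subtype`.
`M = Subfield.closure S`, `g : M → L`, `x ↦ x ^ (p ^ m)`: `x ^ (p ^ m) ∈ L` for `x ∈ S` since it is a polynomial
in `θ` over the image of `RatFunc (ZMod p)`, and `t = T + c ∈ L`.
`F` is algebraic over `L`: it is algebraic over `RatFunc (ZMod p)`, whose image is in `L`.
-/

noncomputable section

open Polynomial
open scoped Classical

namespace TGF

universe u

/-- a monic divisor of a product of distinct linear factors -/
private theorem cv3_fin {k : Type u} [Field k] (R : Finset k) (f : k[X]) (hf : f.Monic)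
    (h : f ∣ ∏ x ∈ R, (X - C x)) :
    ∃ (N : ℕ) (η : Fin N → k), Function.Injective η ∧ f = ∏ i, (X - C (η i)) := by
  have hR0 : (∏ x ∈ R, (X - C x) : k[X]) ≠ 0 :=
    Finset.prod_ne_zero_iff.2 fun x _ => X_sub_C_ne_zero x
  have hRs : (∏ x ∈ R, (X - C x) : k[X]).Splits := Splits.prod fun x _ => Splits.X_sub_C x
  have hRd : (∏ x ∈ R, (X - C x) : k[X]).Separable :=
    separable_prod_X_sub_C_iff'.2 fun x _ y _ hxy => hxy
  have hs : f.Splits := hRs.of_dvd hR0 h
  have hnod := nodup_roots (hRd.of_dvd h)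
  refine ⟨f.roots.toFinset.card, fun i => (f.roots.toFinset.equivFin.symm i : k), ?_, ?_⟩
  · intro i j hij
    exact f.roots.toFinset.equivFin.symm.injective (Subtype.ext hij)
  · have h1 : f = ∏ x ∈ f.roots.toFinset, (X - C x) := by
      refine (hs.eq_prod_roots_of_monic hf).trans ?_
      change _ = (Multiset.map (fun x => X - C x) f.roots.toFinset.val).prod
      rw [Multiset.toFinset_val, Multiset.Nodup.dedup hnod]
    have h2 : ∏ x ∈ f.roots.toFinset, (X - C x) =
        ∏ i : Fin f.roots.toFinset.card,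
          (X - C ((f.roots.toFinset.equivFin.symm i : f.roots.toFinset) : k)) := by
      rw [← Finset.prod_coe_sort]
      exact (Equiv.prod_comp f.roots.toFinset.equivFin.symm
        (fun x : f.roots.toFinset => (X - C (x : k)))).symm
    exact h1.trans h2

/-- the closed point given by an integral element -/
private def cv3_pl {K F : Type u} [Field K] [Field F] [Algebra K F] (θ : F)
    (h : IsIntegral K θ) : SRG.Pl K (IntermediateField.adjoin K {θ}) where
  P := minpoly K θ
  monic := minpoly.monic h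
  irr := minpoly.irreducible h
  r := (aeval (IntermediateField.AdjoinSimple.gen K θ)).toRingHom
  surj := by
    rintro ⟨x, hx⟩
    rw [← IntermediateField.mem_toSubalgebra,
      IntermediateField.adjoin_simple_toSubalgebra_of_isAlgebraic h.isAlgebraic,
      Algebra.adjoin_singleton_eq_range_aeval] at hx
    obtain ⟨q, hq⟩ := hx
    refine ⟨q, Subtype.ext ?_⟩
    have h1 := Polynomial.aeval_algHom_apply (IntermediateField.adjoin K {θ}).val
      (IntermediateField.AdjoinSimple.gen K θ) q
    exact h1.symm.trans hq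
  ker := by
    intro A
    rw [← IntermediateField.minpoly_gen K θ, minpoly.dvd_iff]
    rfl

/-- the polynomial `f0(X + c)` -/
private def cv3_rho (p : ℕ) [Fact p.Prime] {F : Type u} [Field F] [CharP F p] (k0 : Subfield F)
    (c : k0) : (ZMod p)[X] →+* k0[X] :=
  eval₂RingHom (C.comp (ZMod.castHom (dvd_refl p) k0)) (X + C c)

private theorem cv3_zero (p : ℕ) [Fact p.Prime] {F : Type u} [Field F] [CharP F p]
    (k0 : Subfield F) (c : k0) :
    (k0.subtype).comp ((evalRingHom 0).comp (cv3_rho p k0 c)) =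
      eval₂RingHom (ZMod.castHom (dvd_refl p) F) (c : F) := by
  apply Polynomial.ringHom_ext
  · intro r
    have h1 : (ZMod.castHom (dvd_refl p) F) =
        k0.subtype.comp (ZMod.castHom (dvd_refl p) k0) := Subsingleton.elim _ _
    rw [h1]
    simp [cv3_rho]
  · simp [cv3_rho]

private theorem cv3_rho_eval (p : ℕ) [Fact p.Prime] {F : Type u} [Field F] [CharP F p]
    [Algebra (RatFunc (ZMod p)) F] (k0 : Subfield F) (c : k0) :
    (eval₂RingHom k0.subtype (algebraMap (RatFunc (ZMod p)) F RatFunc.X - c)).comp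
        (cv3_rho p k0 c) =
      (algebraMap (RatFunc (ZMod p)) F).comp (algebraMap (ZMod p)[X] (RatFunc (ZMod p))) := by
  apply Polynomial.ringHom_ext
  · intro r
    have h1 : (k0.subtype.comp (ZMod.castHom (dvd_refl p) k0)) =
        ((algebraMap (RatFunc (ZMod p)) F).comp
          (algebraMap (ZMod p)[X] (RatFunc (ZMod p)))).comp C := Subsingleton.elim _ _
    have h2 := congrArg (fun φ : ZMod p →+* F => φ r) h1
    simp only [RingHom.comp_apply] at h2 ⊢
    rw [← h2]
    simp [cv3_rho]
  · simp [cv3_rho, RatFunc.algebraMap_X]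

private theorem cv3_tr (p : ℕ) [Fact p.Prime] {F : Type u} [Field F] [CharP F p]
    [Algebra (RatFunc (ZMod p)) F] (k0 : Subfield F) [Finite k0] (c : k0) :
    Function.Injective
      (eval₂RingHom k0.subtype (algebraMap (RatFunc (ZMod p)) F RatFunc.X - c)) := by
  set t : F := algebraMap (RatFunc (ZMod p)) F RatFunc.X with ht
  let _ : Algebra (ZMod p) F := (ZMod.castHom (dvd_refl p) F).toAlgebra
  let _ : Algebra (ZMod p) k0 := (ZMod.castHom (dvd_refl p) k0).toAlgebra
  have hst := IsScalarTower.of_algebraMap_eq' (R := ZMod p) (S := k0) (A := F)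
    (Subsingleton.elim _ _)
  have hfin : @Module.Finite (ZMod p) k0 _ _ Algebra.toModule :=
    @Module.Finite.of_finite (ZMod p) k0 _ _ Algebra.toModule _
  rw [injective_iff_map_eq_zero]
  intro P hP
  by_contra hP0
  have h1 : IsAlgebraic k0 (t - c) := ⟨P, hP0, hP⟩
  have h2 : IsAlgebraic k0 t := by
    have h3 : IsAlgebraic k0 (c : F) := isAlgebraic_algebraMap c
    have h4 := h1.add h3
    rwa [sub_add_cancel] at h4
  have h5 : IsAlgebraic (ZMod p) t := h2.restrictScalars (ZMod p)
  obtain ⟨Q, hQ0, hQ⟩ := h5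
  have h6 : (algebraMap (ZMod p) F) = ((algebraMap (RatFunc (ZMod p)) F).comp
      (algebraMap (ZMod p)[X] (RatFunc (ZMod p)))).comp C := Subsingleton.elim _ _
  have h7 : algebraMap (RatFunc (ZMod p)) F (algebraMap (ZMod p)[X] (RatFunc (ZMod p)) Q) = 0 := by
    rw [aeval_def, h6] at hQ
    rw [← hQ]
    have h8 : ((algebraMap (RatFunc (ZMod p)) F).comp
        (algebraMap (ZMod p)[X] (RatFunc (ZMod p)))) =
        eval₂RingHom (((algebraMap (RatFunc (ZMod p)) F).comp
          (algebraMap (ZMod p)[X] (RatFunc (ZMod p)))).comp C) t := by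
      apply Polynomial.ringHom_ext
      · intro r
        rw [coe_eval₂RingHom, eval₂_C]
        rfl
      · rw [coe_eval₂RingHom, eval₂_X, RingHom.comp_apply, RatFunc.algebraMap_X]
    exact congrArg (fun φ : (ZMod p)[X] →+* F => φ Q) h8
  rw [map_eq_zero] at h7
  exact hQ0 ((map_eq_zero_iff _ (RatFunc.algebraMap_injective (ZMod p))).1 h7)

theorem exists_curve (p : ℕ) [Fact p.Prime] {F : Type u} [Field F] [CharP F p] [IsAlgClosed F]
    [Algebra (RatFunc (ZMod p)) F] [Algebra.IsAlgebraic (RatFunc (ZMod p)) F] (S : Finset F) :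
    ∃ (k0 L : Type u) (_ : Field k0) (_ : Finite k0) (_ : Field L)
      (p0 : SRG.Pl (RatFunc k0) L) (ε : L →+* F) (m : ℕ) (M : Subfield F) (g : M →+* L),
      Spl p0 ∧ (S : Set F) ⊆ M ∧ (∀ x : M, ε (g x) = (x : F) ^ (p ^ m)) ∧
      ∀ x : F, ∃ P : L[X], P ≠ 0 ∧ P.eval₂ ε x = 0 := by
  obtain ⟨m, θ, f0, hm, hs, h0, hS⟩ := exists_theta p S
  obtain ⟨k0, c0, R, hfin, hc, hR, hf0⟩ := exists_c (F := F) p f0 hm hs
  obtain ⟨c, rfl⟩ : ∃ c : k0, (c : F) = c0 := ⟨⟨c0, hc⟩, rfl⟩
  set A0 : k0[X] →+* F :=
    eval₂RingHom k0.subtype (algebraMap (RatFunc (ZMod p)) F RatFunc.X - c) with hA0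
  have hA0i : Function.Injective A0 := cv3_tr p k0 c
  let _ : Algebra (RatFunc k0) F := (IsFractionRing.lift hA0i : RatFunc k0 →+* F).toAlgebra
  let _ : Algebra k0[X] F := A0.toAlgebra
  have hst : IsScalarTower k0[X] (RatFunc k0) F := IsScalarTower.of_algebraMap_eq fun x =>
    (IsFractionRing.lift_algebraMap hA0i x).symm
  have hrho := cv3_rho_eval p k0 c
  set f1 : k0[X][X] := f0.map (cv3_rho p k0 c) with hf1
  have hf1m : f1.Monic := hm.map _
  have hf1θ : aeval θ f1 = 0 := by
    rw [aeval_def, hf1, eval₂_map]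
    have h1 : (algebraMap k0[X] F).comp (cv3_rho p k0 c) =
      (algebraMap (RatFunc (ZMod p)) F).comp (algebraMap (ZMod p)[X] (RatFunc (ZMod p))) := hrho
    rw [h1]
    exact h0
  have hθ : IsIntegral k0[X] θ := ⟨f1, hf1m, hf1θ⟩
  have hθK : IsIntegral (RatFunc k0) θ := hθ.tower_top
  have hL : ∀ a : RatFunc (ZMod p), algebraMap (RatFunc (ZMod p)) F a ∈
      IntermediateField.adjoin (RatFunc k0) {θ} := by
    have h1 : ∀ q : (ZMod p)[X], algebraMap (RatFunc (ZMod p)) F
        (algebraMap (ZMod p)[X] (RatFunc (ZMod p)) q) ∈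
        IntermediateField.adjoin (RatFunc k0) {θ} := by
      intro q
      have h2 := congrArg (fun φ : (ZMod p)[X] →+* F => φ q) hrho
      have h3 : algebraMap (RatFunc (ZMod p)) F
          (algebraMap (ZMod p)[X] (RatFunc (ZMod p)) q) =
          algebraMap (RatFunc k0) F (algebraMap k0[X] (RatFunc k0) (cv3_rho p k0 c q)) := by
        rw [← IsScalarTower.algebraMap_apply k0[X] (RatFunc k0) F]
        exact h2.symm
      rw [h3]
      exact (IntermediateField.adjoin (RatFunc k0) {θ}).algebraMap_mem _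
    intro a
    rw [← RatFunc.num_div_denom a, map_div₀]
    exact div_mem (h1 _) (h1 _)
  have hθL : θ ∈ IntermediateField.adjoin (RatFunc k0) {θ} :=
    IntermediateField.mem_adjoin_simple_self (RatFunc k0) θ
  have hexp : ExpChar F p := ExpChar.prime Fact.out
  have hM : ∀ x : F, x ∈ Subfield.closure (S : Set F) →
      x ^ (p ^ m) ∈ IntermediateField.adjoin (RatFunc k0) {θ} := by
    have h1 : Subfield.closure (S : Set F) ≤
        ((IntermediateField.adjoin (RatFunc k0) {θ}).toSubfield).comap
          (iterateFrobenius F p m) := by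
      rw [Subfield.closure_le]
      intro x hx
      obtain ⟨g, hg⟩ := hS x hx
      show iterateFrobenius F p m x ∈ IntermediateField.adjoin (RatFunc k0) {θ}
      rw [iterateFrobenius_def, hg, eval₂_eq_sum]
      exact sum_mem fun i _ => mul_mem (hL _) (pow_mem hθL _)
    intro x hx
    have h2 := h1 hx
    rw [Subfield.mem_comap, iterateFrobenius_def] at h2
    exact h2
  refine ⟨k0, IntermediateField.adjoin (RatFunc k0) {θ}, inferInstance, hfin, inferInstance,
    cv3_pl θ hθK, (IntermediateField.adjoin (RatFunc k0) {θ}).val.toRingHom, m,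
    Subfield.closure (S : Set F),
    RingHom.codRestrict ((iterateFrobenius F p m).comp (Subfield.closure (S : Set F)).subtype)
      (IntermediateField.adjoin (RatFunc k0) {θ}) (fun x => ?_), ?_, Subfield.subset_closure,
    ?_, ?_⟩
  · rw [RingHom.comp_apply, iterateFrobenius_def]
    exact hM x x.2
  · -- the splitting
    have h1 := minpoly.isIntegrallyClosed_eq_field_fractions' (RatFunc k0) hθ
    have hfs : FaithfulSMul k0[X] F := (faithfulSMul_iff_algebraMap_injective k0[X] F).2 hA0i
    have h2 : minpoly k0[X] θ ∣ f1 := minpoly.isIntegrallyClosed_dvd hθ hf1θ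
    have h3 : (minpoly k0[X] θ).map (evalRingHom 0) ∣ f1.map (evalRingHom 0) :=
      Polynomial.map_dvd _ h2
    have h4 : f1.map (evalRingHom 0) =
        ∏ x ∈ R.subtype (fun x => x ∈ k0), (X - C (x : k0)) := by
      apply Polynomial.map_injective k0.subtype k0.subtype.injective
      rw [hf1, Polynomial.map_map, Polynomial.map_map, RingHom.comp_assoc, cv3_zero,
        hf0, Polynomial.map_prod]
      simp only [Polynomial.map_sub, Polynomial.map_X, Polynomial.map_C]
      symm
      exact Finset.prod_subtype_of_mem (fun x : F => (X - C x : F[X])) hR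
    rw [h4] at h3
    obtain ⟨N, η, hη, hp⟩ := cv3_fin _ _ ((minpoly.monic hθ).map (evalRingHom 0)) h3
    exact ⟨minpoly k0[X] θ, N, η, minpoly.monic hθ, hη, h1.symm, hp⟩
  · intro x
    show iterateFrobenius F p m (x : F) = _
    rw [iterateFrobenius_def]
  · intro x
    obtain ⟨q, hq0, hq⟩ := Algebra.IsAlgebraic.isAlgebraic (R := RatFunc (ZMod p)) x
    refine ⟨q.map (RingHom.codRestrict (algebraMap (RatFunc (ZMod p)) F)
      (IntermediateField.adjoin (RatFunc k0) {θ}) hL), ?_, ?_⟩
    · exact (Polynomial.map_ne_zero_iff (RingHom.injective _)).2 hq0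
    · rw [eval₂_map]
      exact hq

end TGF
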