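import Pool.Agent.TGF.JJ
import Pool.Agent.TGF.Cv3
import Pool.Agent.TGF.Inj2

set_option autoImplicit false

/-!
# TGF-TA: acyclicity over the algebraic closure of `F_p(t)`

`T_closed`: over an algebraically closed algebraic extension of `F_p(t)` every cocycle is null.
`T_alg`: the same over every algebraic extension of `F_p(t)`.
-/

noncomputable section

open Polynomial TensorProduct
open scoped Classical

namespace TGF

open Helper14.Gon Helper14.W4 QPL

universe u

private lemma ta_lift {L F Ω : Type u} [Field L] [Field F] [Field Ω] [IsAlgClosed Ω] (ε : L →+* F)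
    (halg : ∀ x : F, ∃ P : L[X], P ≠ 0 ∧ P.eval₂ ε x = 0) (y : L →+* Ω) :
    ∃ y' : F →+* Ω, y'.comp ε = y := by
  letI : Algebra L F := ε.toAlgebra
  letI : Algebra L Ω := y.toAlgebra
  haveI : Algebra.IsAlgebraic L F := ⟨fun x => by
    obtain ⟨P, hP, hPx⟩ := halg x
    exact ⟨P, hP, hPx⟩⟩
  let y' : F →ₐ[L] Ω := IsAlgClosed.lift
  exact ⟨y'.toRingHom, RingHom.ext fun x => y'.commutes x⟩

theorem T_closed (H : Thy.{u}) (hH : Laws H) (hR : RecP H) (p : ℕ) [Fact p.Prime] {F : Type u}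
    [Field F] [CharP F p] [IsAlgClosed F] [Algebra (RatFunc (ZMod p)) F]
    [Algebra.IsAlgebraic (RatFunc (ZMod p)) F] (j : ℕ) (hn : 2 ≤ j + H.off) (z : H.Y F j)
    (hz : z ∈ H.Z F j) : z ∈ H.N F j := by
  obtain ⟨S, hS⟩ := hH.colim F j z hz
  obtain ⟨k0, L, fk0, fin0, fL, p0, ε, m, M, g, hp0, hSM, hg, halg⟩ := exists_curve p (F := F) S
  obtain ⟨z', hz', hzz⟩ := hS M hSM
  have hp : p.Prime := Fact.out
  haveI : ExpChar F p := ExpChar.prime hp
  obtain ⟨Ω, fΩ, acΩ, y, hy⟩ := dies H hH hR p0 hp0 j hn (H.map g j z') (hH.map_Z M L g j z' hz')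
  obtain ⟨y', hy'⟩ := ta_lift ε halg y
  have h1 : H.map ε j (H.map g j z') ∈ H.N F j := by
    refine hH.inj F Ω y' j _ ?_
    rw [← hH.map_comp L F Ω ε y' j, hy']
    exact hy
  have hc : ε.comp g = (iterateFrobenius F p m).comp M.subtype := by
    refine RingHom.ext fun x => ?_
    rw [RingHom.comp_apply, RingHom.comp_apply, iterateFrobenius_def]
    exact hg x
  have h2 : H.map ε j (H.map g j z') = H.map (iterateFrobenius F p m) j z := by
    rw [← hzz, ← hH.map_comp M L F g ε j, ← hH.map_comp M F F M.subtype _ j, hc]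
  rw [h2] at h1
  have h3 := frob_iter H hH p hp F m j z
  have h4 : ((p : ℚ) ^ (m * (j + H.off))) • z ∈ H.N F j := by
    have h5 := Submodule.sub_mem _ h1 h3
    rwa [sub_sub_cancel] at h5
  exact (Submodule.smul_mem_iff _ (pow_ne_zero _ (Nat.cast_ne_zero.2 hp.ne_zero))).1 h4

theorem T_alg (H : Thy.{u}) (hH : Laws H) (hR : RecP H) (hE : Exact H) (p : ℕ) [Fact p.Prime]
    {F : Type u} [Field F] [CharP F p] [Algebra (RatFunc (ZMod p)) F]
    [Algebra.IsAlgebraic (RatFunc (ZMod p)) F] (j : ℕ) (hn : 2 ≤ j + H.off) (z : H.Y F j)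
    (hz : z ∈ H.Z F j) : z ∈ H.N F j := by
  haveI : CharP (AlgebraicClosure F) p :=
    charP_of_injective_algebraMap (algebraMap F (AlgebraicClosure F)).injective p
  haveI : Algebra.IsAlgebraic (RatFunc (ZMod p)) (AlgebraicClosure F) :=
    Algebra.IsAlgebraic.trans (RatFunc (ZMod p)) F (AlgebraicClosure F)
  refine inj_alg H hH hE (algebraMap F (AlgebraicClosure F)) (fun x => ?_) j z hz
    (T_closed H hH hR p j hn _ (hH.map_Z F (AlgebraicClosure F) _ j z hz))
  obtain ⟨P, hP, hPx⟩ := Algebra.IsAlgebraic.isAlgebraic (R := F) x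
  exact ⟨P, hP, hPx⟩

end TGF
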