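import Pool.Agent.TGF.Dict
import Pool.Agent.TGF.TA

set_option autoImplicit false

/-!
# TGF-Fac: vanishing in terms of cohomology groups

PLAN.  `F` has characteristic `p` (`charP_of_injective_algebraMap` for `ZMod p → RatFunc (ZMod p) → F`,
or `RatFunc (ZMod p)` has characteristic `p`).  Every class is `hc y`, `y = t z`, `z ∈ Z` (`t_surj`, `t_Z`),
`T_closed` / `T_alg` gives `z ∈ N`, so `y ∈ BC` (`t_B`) and the class is `0`.  `off`: `th2.off = 3`,
`th1.off = 2`, `th0.off = 0` (`rfl`), so the condition `2 ≤ j + off` holds.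
-/

noncomputable section

open Polynomial TensorProduct
open scoped Classical

namespace TGF

open Helper14.Gon Helper14.W4 Helper14.Loc QPL

universe u

section
variable (p : ℕ) [Fact p.Prime] (F : Type u) [Field F] [Algebra (RatFunc (ZMod p)) F]
  [Algebra.IsAlgebraic (RatFunc (ZMod p)) F]

omit [Algebra.IsAlgebraic (RatFunc (ZMod p)) F] in
private theorem fac_char : CharP F p := by
  have h1 : CharP (RatFunc (ZMod p)) p :=
    charP_of_injective_algebraMap (FaithfulSMul.algebraMap_injective (ZMod p) (RatFunc (ZMod p))) p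
  exact charP_of_injective_algebraMap (algebraMap (RatFunc (ZMod p)) F).injective p

include p

theorem van1 [IsAlgClosed F] (hH : Laws th2.{u}) (hR : RecP th2.{u}) (j : ℕ) :
    Subsingleton (HC F 1 j) := by
  have := fac_char p F
  have key : ∀ a : HC F 1 j, a = 0 := by
    intro a
    obtain ⟨y, rfl⟩ : ∃ y, hc y = a := Submodule.Quotient.mk_surjective _ a
    obtain ⟨z, hz⟩ := t2_surj j y.1
    have h1 : z ∈ th2.Z F j := (t2_Z j z).1 (by rw [hz]; exact y.2)
    have h2 := T_closed th2 hH hR p j (by change 2 ≤ j + 3; omega) z h1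
    have h3 := (t2_B j z).2 h2
    rw [hz] at h3
    exact (Submodule.Quotient.mk_eq_zero _).2 h3
  exact ⟨fun a b => by rw [key a, key b]⟩

theorem van0 (hH : Laws th1.{u}) (hR : RecP th1.{u}) (hE : Exact th1.{u}) (j : ℕ) :
    Subsingleton (HC F 0 j) := by
  have := fac_char p F
  have key : ∀ a : HC F 0 j, a = 0 := by
    intro a
    obtain ⟨y, rfl⟩ : ∃ y, hc y = a := Submodule.Quotient.mk_surjective _ a
    obtain ⟨z, hz⟩ := t1_surj j y.1
    have h1 : z ∈ th1.Z F j := (t1_Z j z).1 (by rw [hz]; exact y.2)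
    have h2 := T_alg th1 hH hR hE p j (by change 2 ≤ j + 2; omega) z h1
    have h3 := (t1_B j z).2 h2
    rw [hz] at h3
    exact (Submodule.Quotient.mk_eq_zero _).2 h3
  exact ⟨fun a b => by rw [key a, key b]⟩

theorem vanT (hH : Laws th0.{u}) (hR : RecP th0.{u}) (hE : Exact th0.{u}) (n : ℕ) (hn : 2 ≤ n) :
    Subsingleton (HT F n) := by
  have := fac_char p F
  have key : ∀ a : HT F n, a = 0 := by
    intro a
    obtain ⟨y, rfl⟩ : ∃ y, ht y = a := Submodule.Quotient.mk_surjective _ a
    obtain ⟨z, hz⟩ := t0_surj n y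
    have h1 : z ∈ th0.Z F n := Submodule.mem_top
    have h2 := T_alg th0 hH hR hE p n (by change 2 ≤ n + 0; omega) z h1
    have h3 := (t0_B n z).2 h2
    rw [hz] at h3
    exact (Submodule.Quotient.mk_eq_zero _).2 h3
  exact ⟨fun a b => by rw [key a, key b]⟩

end

end TGF
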