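import Pool.Agent.TGF.Fdes
import Pool.Agent.TGF.Fac
import Pool.Agent.TGF.Res
import Pool.Agent.QPL.Th2
import Pool.Agent.QPL.Th1
import Pool.Agent.QPL.Th0
import Pool.Agent.QPL.Tr
import Pool.Agent.QPL.Rec

set_option autoImplicit false

/-!
# TGF-Fin: the three theories satisfy all hypotheses
-/

noncomputable section

open Polynomial TensorProduct
open scoped Classical

namespace TGF

open QPL

universe u

theorem L2 : Laws th2.{u} := laws2 res2
theorem L1 : Laws th1.{u} := laws1 res1
theorem L0 : Laws th0.{u} := laws0 res0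

theorem trP (H : Thy.{u}) (hH : Laws H) : TrP H := by
  intro K k Kb _ _ _ _ p ι T hT j w hw
  exact QPL.Tr H hH p ι T hT j w hw

theorem recP (H : Thy.{u}) (hH : Laws H) : RecP H := by
  intro k0 L Ω _ _ _ _ _ p0 hp0 i G hG j hn z hz o h1 h2
  exact QPL.Rec H hH p0 hp0 i G hG j hn z hz o h1 h2

end TGF
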