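import Pool.Agent.TGF.Star2
import Pool.Agent.SRG.Stage
import Pool.Agent.SRG.Glob
import Pool.Agent.QPL.At

set_option autoImplicit false

/-!
# TGF-Lvs: levels

`SRG.lt K n`: the monic irreducible polynomials of degree `< n` (SRG/Glob.lean).

PLAN.  `Lv_mono`: `El_mono`, `TS_mono`, `SG_mono`.  `d3_Lv`, `d2_Lv`: `d3_bx`, `d2_bx`, `wT_mem_TS`.
`exists_Lv`: finite sums of `[x] dm v`: `exists_stage` for every `x` and `v i`, maximum of the `n`
(`SRG.lt K m ⊆ SRG.lt K n` for `m ≤ n`); `exists_TSl`: `exists_TS` and `exists_stage`.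
`SG_lt`: an element of `SG (lt K (n + 1))` is in `SG (lt K n ∪ T)` for a finite set `T` of monic irreducible
polynomials of degree `n`: write it as `A / B` (`SG_iff`), `T` = the factors of degree `n` of `A`, `B`
(`UniqueFactorizationMonoid.normalizedFactors`).  `Lv_fin`, `TS_fin`: finite unions.
`Lv_const`: `SRG.lt K 0` is empty, `Sm ∅ A` means that `A` is constant, so `SG ∅` consists of the
`lg (RatFunc.C c)` and `El ∅ x` implies that `x` is a constant (`x = 0` or `lg x ∈ SG ∅`).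
`spec_X`, `spec_T`: `QPL.exists_at` for `c = 0`: the restriction of `W` along `RatFunc.C` is trivial with
`lc = id` (`IsAt.v`, `IsAt.lc` for constant polynomials), `spX_comap`, `spX_triv`, `mX_id`.
-/

noncomputable section

open Polynomial TensorProduct
open scoped Classical

namespace TGF

open Helper14.Gon Helper14.W4 QPL

universe u v

section
variable {K : Type u} [Field K]

lemma Lv_mono (j : ℕ) {S S' : Set K[X]} (h : S ⊆ S') : Lv j S ≤ Lv j S' := by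
  refine Submodule.span_mono ?_
  rintro z ⟨x, ω, h1, h2, rfl⟩
  exact ⟨x, ω, El_mono h h1, TS_mono j (SG_mono h) h2, rfl⟩

lemma d3_Lv (j : ℕ) {S : Set K[X]} {z : X j (RatFunc K)} (hz : z ∈ Lv j S) :
    d3 j z ∈ Lv (j + 1) S := by
  have h : Lv j S ≤ (Lv (j + 1) S).comap (d3 j) := by
    refine Submodule.span_le.2 ?_
    rintro z ⟨x, ω, h1, h2, rfl⟩
    change d3 j (bx x ω) ∈ Lv (j + 1) S
    rw [d3_bx]
    exact Submodule.subset_span ⟨x, _, h1, wT_mem_TS j h1.1 h2, rfl⟩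
  exact h hz

lemma d2_Lv (j : ℕ) {S : Set K[X]} {z : X j (RatFunc K)} (hz : z ∈ Lv j S) :
    d2 j z ∈ TS (j + 2) (SG S) := by
  have h : Lv j S ≤ (TS (j + 2) (SG S)).comap (d2 j) := by
    refine Submodule.span_le.2 ?_
    rintro z ⟨x, ω, h1, h2, rfl⟩
    change d2 j (bx x ω) ∈ TS (j + 2) (SG S)
    rw [d2_bx]
    exact wT_mem_TS (j + 1) h1.2 (wT_mem_TS j h1.1 h2)
  exact h hz

private lemma Lvs_lt_mono {m n : ℕ} (h : m ≤ n) : SRG.lt K m ⊆ SRG.lt K n :=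
  fun _ hQ => ⟨hQ.1, hQ.2.1, hQ.2.2.trans_le h⟩

private lemma Lvs_stage (x : RatFunc K) (s : Finset (Additive (RatFunc K)ˣ)) :
    ∃ n : ℕ, El (SRG.lt K n) x ∧ ∀ v ∈ s, v ∈ SG (SRG.lt K n) := by
  induction s using Finset.induction_on with
  | empty =>
    obtain ⟨n, hn⟩ := exists_stage x 0
    exact ⟨n, (hn (SRG.lt K n) fun Q a b c => ⟨a, b, c⟩).1, fun v hv =>
      absurd hv (Finset.notMem_empty v)⟩
  | insert v s _ ih =>
    obtain ⟨n, hn, hn'⟩ := ih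
    obtain ⟨m, hm⟩ := exists_stage x v
    have h1 := Lvs_lt_mono (K := K) (le_max_left n m)
    have h2 := Lvs_lt_mono (K := K) (le_max_right n m)
    refine ⟨max n m, El_mono h1 hn, fun w hw => ?_⟩
    rcases Finset.mem_insert.1 hw with rfl | hw
    · exact SG_mono h2 (hm (SRG.lt K m) fun Q a b c => ⟨a, b, c⟩).2
    · exact SG_mono h1 (hn' w hw)

lemma exists_Lv (j : ℕ) (z : X j (RatFunc K)) : ∃ n : ℕ, z ∈ Lv j (SRG.lt K n) := by
  induction z using x_ind with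
  | h0 => exact ⟨0, (Lv j (SRG.lt K 0)).zero_mem⟩
  | hadd a b ha hb =>
    obtain ⟨n, hn⟩ := ha
    obtain ⟨m, hm⟩ := hb
    exact ⟨max n m, (Lv j (SRG.lt K (max n m))).add_mem (Lv_mono j (Lvs_lt_mono (le_max_left n m)) hn)
      (Lv_mono j (Lvs_lt_mono (le_max_right n m)) hm)⟩
  | h1 x ω =>
    obtain ⟨s, hs⟩ := exists_TS j ω
    obtain ⟨n, hn, hn'⟩ := Lvs_stage x s
    exact ⟨n, Submodule.subset_span ⟨x, ω, hn, hs _ hn', rfl⟩⟩

lemma exists_TSl (j : ℕ) (ω : Tx j (RatFunc K)) : ∃ n : ℕ, ω ∈ TS j (SG (SRG.lt K n)) := by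
  obtain ⟨s, hs⟩ := exists_TS j ω
  obtain ⟨n, -, hn'⟩ := Lvs_stage (0 : RatFunc K) s
  exact ⟨n, hs _ hn'⟩

/-- finite sets of monic irreducible polynomials of degree `n` -/
private def Lvs_ok (n : ℕ) (T : Finset K[X]) : Prop :=
  ∀ Q ∈ T, Q.Monic ∧ Irreducible Q ∧ Q.natDegree = n

private lemma Lvs_ok_empty (n : ℕ) : Lvs_ok n (∅ : Finset K[X]) :=
  fun Q hQ => absurd hQ (Finset.notMem_empty Q)

private lemma Lvs_ok_union {n : ℕ} {T T' : Finset K[X]} (h : Lvs_ok n T) (h' : Lvs_ok n T') :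
    Lvs_ok n (T ∪ T') := fun Q hQ => (Finset.mem_union.1 hQ).elim (h Q) (h' Q)

private lemma Lvs_sub_left (n : ℕ) (T T' : Finset K[X]) :
    SRG.lt K n ∪ (T : Set K[X]) ⊆ SRG.lt K n ∪ ((T ∪ T' : Finset K[X]) : Set K[X]) :=
  Set.union_subset_union_right _ (Finset.coe_subset.2 Finset.subset_union_left)

private lemma Lvs_sub_right (n : ℕ) (T T' : Finset K[X]) :
    SRG.lt K n ∪ (T' : Set K[X]) ⊆ SRG.lt K n ∪ ((T ∪ T' : Finset K[X]) : Set K[X]) :=
  Set.union_subset_union_right _ (Finset.coe_subset.2 Finset.subset_union_right)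

private lemma Lvs_sm (n : ℕ) {A : K[X]} (hA : A ≠ 0) (hs : SRG.Sm (SRG.lt K (n + 1)) A) :
    ∃ T : Finset K[X], Lvs_ok n T ∧ SRG.Sm (SRG.lt K n ∪ (T : Set K[X])) A := by
  refine ⟨((UniqueFactorizationMonoid.normalizedFactors A).toFinset).filter
    (fun Q => Q.Monic ∧ Irreducible Q ∧ Q.natDegree = n), fun Q hQ =>
      (Finset.mem_filter.1 hQ).2, Or.inr fun Q hQm hQi hQA => ?_⟩
  rcases hs with h0 | hs
  · exact absurd h0 hA
  have h1 : Q.natDegree < n + 1 := (hs Q hQm hQi hQA).2.2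
  rcases Nat.lt_succ_iff_lt_or_eq.1 h1 with h2 | h2
  · exact Or.inl ⟨hQm, hQi, h2⟩
  · right
    refine Finset.mem_coe.2 (Finset.mem_filter.2 ⟨?_, hQm, hQi, h2⟩)
    rw [Multiset.mem_toFinset, UniqueFactorizationMonoid.mem_normalizedFactors_iff' hA]
    exact ⟨hQi, hQm.normalize_eq_self, hQA⟩

private lemma Lvs_SG (n : ℕ) {v : Additive (RatFunc K)ˣ} (hv : v ∈ SG (SRG.lt K (n + 1))) :
    ∃ T : Finset K[X], Lvs_ok n T ∧ v ∈ SG (SRG.lt K n ∪ (T : Set K[X])) := by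
  induction hv using AddSubgroup.closure_induction with
  | mem v hv =>
    obtain ⟨A, hA, hA', rfl⟩ := hv
    obtain ⟨T, hT, hT'⟩ := Lvs_sm n hA hA'
    exact ⟨T, hT, SG_pl hA hT'⟩
  | zero => exact ⟨∅, Lvs_ok_empty n, AddSubgroup.zero_mem _⟩
  | add v w _ _ hv hw =>
    obtain ⟨T, hT, hT'⟩ := hv
    obtain ⟨U, hU, hU'⟩ := hw
    exact ⟨T ∪ U, Lvs_ok_union hT hU, AddSubgroup.add_mem _ (SG_mono (Lvs_sub_left n T U) hT')
      (SG_mono (Lvs_sub_right n T U) hU')⟩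
  | neg v _ hv =>
    obtain ⟨T, hT, hT'⟩ := hv
    exact ⟨T, hT, AddSubgroup.neg_mem _ hT'⟩

private lemma Lvs_TS (j n : ℕ) {ω : Tx j (RatFunc K)} (hω : ω ∈ TS j (SG (SRG.lt K (n + 1)))) :
    ∃ T : Finset K[X], Lvs_ok n T ∧ ω ∈ TS j (SG (SRG.lt K n ∪ (T : Set K[X]))) := by
  induction hω using Submodule.span_induction with
  | mem ω hω =>
    obtain ⟨v, hv, rfl⟩ := hω
    choose T hT hT' using fun i => Lvs_SG n (hv i)
    refine ⟨Finset.univ.biUnion T, fun Q hQ => ?_, dm_mem_TS fun i => ?_⟩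
    · obtain ⟨i, -, hi⟩ := Finset.mem_biUnion.1 hQ
      exact hT i Q hi
    · refine SG_mono (Set.union_subset_union_right _ (Finset.coe_subset.2 ?_)) (hT' i)
      exact Finset.subset_biUnion_of_mem T (Finset.mem_univ i)
  | zero => exact ⟨∅, Lvs_ok_empty n, Submodule.zero_mem _⟩
  | add a b _ _ ha hb =>
    obtain ⟨T, hT, hT'⟩ := ha
    obtain ⟨U, hU, hU'⟩ := hb
    exact ⟨T ∪ U, Lvs_ok_union hT hU, Submodule.add_mem _
      (TS_mono j (SG_mono (Lvs_sub_left n T U)) hT')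
      (TS_mono j (SG_mono (Lvs_sub_right n T U)) hU')⟩
  | smul c a _ ha =>
    obtain ⟨T, hT, hT'⟩ := ha
    exact ⟨T, hT, Submodule.smul_mem _ c hT'⟩

private lemma Lvs_Lv (j n : ℕ) {z : X j (RatFunc K)} (hz : z ∈ Lv j (SRG.lt K (n + 1))) :
    ∃ T : Finset K[X], Lvs_ok n T ∧ z ∈ Lv j (SRG.lt K n ∪ (T : Set K[X])) := by
  induction hz using Submodule.span_induction with
  | mem z hz =>
    obtain ⟨x, ω, ⟨h1, h2⟩, h3, rfl⟩ := hz
    obtain ⟨T1, a1, b1⟩ := Lvs_SG n h1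
    obtain ⟨T2, a2, b2⟩ := Lvs_SG n h2
    obtain ⟨T3, a3, b3⟩ := Lvs_TS j n h3
    refine ⟨T1 ∪ T2 ∪ T3, Lvs_ok_union (Lvs_ok_union a1 a2) a3, Submodule.subset_span
      ⟨x, ω, ⟨?_, ?_⟩, ?_, rfl⟩⟩
    · exact SG_mono (Lvs_sub_left n (T1 ∪ T2) T3) (SG_mono (Lvs_sub_left n T1 T2) b1)
    · exact SG_mono (Lvs_sub_left n (T1 ∪ T2) T3) (SG_mono (Lvs_sub_right n T1 T2) b2)
    · exact TS_mono j (SG_mono (Lvs_sub_right n (T1 ∪ T2) T3)) b3
  | zero => exact ⟨∅, Lvs_ok_empty n, Submodule.zero_mem _⟩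
  | add a b _ _ ha hb =>
    obtain ⟨T, hT, hT'⟩ := ha
    obtain ⟨U, hU, hU'⟩ := hb
    exact ⟨T ∪ U, Lvs_ok_union hT hU, Submodule.add_mem _
      (Lv_mono j (Lvs_sub_left n T U) hT') (Lv_mono j (Lvs_sub_right n T U) hU')⟩
  | smul c a _ ha =>
    obtain ⟨T, hT, hT'⟩ := ha
    exact ⟨T, hT, Submodule.smul_mem _ c hT'⟩

lemma Lv_fin (j n : ℕ) {z : X j (RatFunc K)} (hz : z ∈ Lv j (SRG.lt K (n + 1))) :
    ∃ T : Finset K[X], (∀ Q ∈ T, Q.Monic ∧ Irreducible Q ∧ Q.natDegree = n) ∧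
      z ∈ Lv j (SRG.lt K n ∪ (T : Set K[X])) := Lvs_Lv j n hz

lemma TS_fin (j n : ℕ) {ω : Tx j (RatFunc K)} (hω : ω ∈ TS j (SG (SRG.lt K (n + 1)))) :
    ∃ T : Finset K[X], (∀ Q ∈ T, Q.Monic ∧ Irreducible Q ∧ Q.natDegree = n) ∧
      ω ∈ TS j (SG (SRG.lt K n ∪ (T : Set K[X]))) := Lvs_TS j n hω

private lemma Lvs_sm_const {A : K[X]} (hA : A ≠ 0) (hs : SRG.Sm (SRG.lt K 0) A) :
    ∃ a : K, a ≠ 0 ∧ A = C a := by
  have hu : IsUnit A := by
    by_contra h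
    obtain ⟨Q, hQm, hQi, hQA⟩ := exists_monic_irreducible_factor A h
    rcases hs with h0 | hs
    · exact hA h0
    · exact absurd (hs Q hQm hQi hQA).2.2 (Nat.not_lt_zero _)
  obtain ⟨a, ha, rfl⟩ := Polynomial.isUnit_iff.1 hu
  exact ⟨a, ha.ne_zero, rfl⟩

private lemma Lvs_C (a : K) : algebraMap K[X] (RatFunc K) (C a) = (RatFunc.C : K →+* RatFunc K) a :=
  RatFunc.algebraMap_C a

private lemma Lvs_SG_const {v : Additive (RatFunc K)ˣ} (hv : v ∈ SG (SRG.lt K 0)) :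
    ∃ u : Additive Kˣ, resU (RatFunc.C : K →+* RatFunc K) u = v := by
  induction hv using AddSubgroup.closure_induction with
  | mem v hv =>
    obtain ⟨A, hA, hA', rfl⟩ := hv
    obtain ⟨a, -, rfl⟩ := Lvs_sm_const hA hA'
    exact ⟨lg a, by rw [resU_lg, Lvs_C]⟩
  | zero => exact ⟨0, map_zero _⟩
  | add v w _ _ hv hw =>
    obtain ⟨a, rfl⟩ := hv
    obtain ⟨b, rfl⟩ := hw
    exact ⟨a + b, map_add _ a b⟩
  | neg v _ hv =>
    obtain ⟨a, rfl⟩ := hv
    exact ⟨-a, map_neg _ a⟩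

private lemma Lvs_El_const {x : RatFunc K} (hx : El (SRG.lt K 0) x) :
    ∃ a : K, x = (RatFunc.C : K →+* RatFunc K) a := by
  by_cases h0 : x = 0
  · exact ⟨0, by rw [h0, map_zero]⟩
  · obtain ⟨A, B, hA, hB, hA', hB', e⟩ := (SG_iff _ x h0).1 hx.1
    obtain ⟨a, -, rfl⟩ := Lvs_sm_const hA hA'
    obtain ⟨b, -, rfl⟩ := Lvs_sm_const hB hB'
    exact ⟨a / b, by rw [e, Lvs_C, Lvs_C, map_div₀]⟩

private lemma Lvs_TS_const (j : ℕ) {ω : Tx j (RatFunc K)} (hω : ω ∈ TS j (SG (SRG.lt K 0))) :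
    ∃ c : Tx j K, ω = resT j (RatFunc.C : K →+* RatFunc K) c := by
  obtain ⟨c, -, hc⟩ := TS_surj j (G := (⊤ : AddSubgroup (Additive Kˣ)))
    (resU (RatFunc.C : K →+* RatFunc K))
    (fun w hw => (Lvs_SG_const hw).imp fun u hu => ⟨AddSubgroup.mem_top u, hu⟩) hω
  exact ⟨c, by rw [resT_eq_tm, hc]⟩

lemma Lv_const (j : ℕ) {z : X j (RatFunc K)} (hz : z ∈ Lv j (SRG.lt K 0)) :
    ∃ c : X j K, z = mX j (RatFunc.C : K →+* RatFunc K) c := by
  induction hz using Submodule.span_induction with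
  | mem z hz =>
    obtain ⟨x, ω, h1, h2, rfl⟩ := hz
    obtain ⟨a, rfl⟩ := Lvs_El_const h1
    obtain ⟨c, rfl⟩ := Lvs_TS_const j h2
    exact ⟨bx a c, by rw [mX_bx]⟩
  | zero => exact ⟨0, (map_zero _).symm⟩
  | add a b _ _ ha hb =>
    obtain ⟨c, rfl⟩ := ha
    obtain ⟨d, rfl⟩ := hb
    exact ⟨c + d, (map_add _ c d).symm⟩
  | smul q a _ ha =>
    obtain ⟨c, rfl⟩ := ha
    exact ⟨q • c, (map_smul _ q c).symm⟩

lemma TS_const (j : ℕ) {ω : Tx j (RatFunc K)} (hω : ω ∈ TS j (SG (SRG.lt K 0))) :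
    ∃ c : Tx j K, ω = resT j (RatFunc.C : K →+* RatFunc K) c := Lvs_TS_const j hω

private lemma Lvs_resU_id (K : Type u) [Field K] :
    resU (RingHom.id K) = AddMonoidHom.id (Additive Kˣ) := by
  refine AddMonoidHom.ext fun v => ?_
  exact congrArg Additive.ofMul (Units.ext rfl)

/-- a place over which the constants specialise to themselves -/
lemma exists_spec (K : Type u) [Field K] : ∃ W : AC (RatFunc K) K,
    (∀ (j : ℕ) (z : X j K), spX W j (mX j (RatFunc.C : K →+* RatFunc K) z) = z) ∧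
    (∀ (j : ℕ) (ω : Tx j K), spT W j (resT j (RatFunc.C : K →+* RatFunc K) ω) = ω) := by
  obtain ⟨W, hW⟩ := exists_at (0 : K)
  have h : ∀ x : K, x ≠ 0 → (W.comap (RatFunc.C : K →+* RatFunc K)).v x = 0 ∧
      (W.comap (RatFunc.C : K →+* RatFunc K)).lc x = (RingHom.id K) x := by
    intro x hx
    have hC : (C x : K[X]) ≠ 0 := C_ne_zero.2 hx
    have hr : (C x : K[X]).rootMultiplicity 0 = 0 := by
      refine rootMultiplicity_eq_zero ?_
      rw [IsRoot.def, eval_C]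
      exact hx
    constructor
    · change W.v (RatFunc.C x) = 0
      rw [← Lvs_C, hW.v _ hC, hr, Nat.cast_zero]
    · change W.lc (RatFunc.C x) = x
      rw [← Lvs_C, hW.lc _ hC, hr, pow_zero, divByMonic_one, eval_C]
  refine ⟨W, fun j z => ?_, fun j ω => ?_⟩
  · rw [← spX_comap, spX_triv _ (RingHom.id K) h, mX_id]
  · rw [← spT_comap, spT_triv _ (RingHom.id K) h, resT_eq_tm, Lvs_resU_id, tm_id]

/-- constants have no residues -/
private lemma Lvs_reX_const {k : Type v} [Field k] {p : SRG.Pl K k} {V : AC (RatFunc K) k}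
    (hV : IsPt p V) (j : ℕ) (z : X (j + 1) K) :
    reX V j (mX (j + 1) (RatFunc.C : K →+* RatFunc K) z) = 0 := by
  have h : ∀ x : K, x ≠ 0 → (V.comap (RatFunc.C : K →+* RatFunc K)).v x = 0 ∧
      (V.comap (RatFunc.C : K →+* RatFunc K)).lc x = (p.r.comp (C : K →+* K[X])) x := by
    intro x hx
    have hP : ¬ p.P ∣ C x := fun hd =>
      p.irr.not_isUnit (isUnit_of_dvd_unit hd (isUnit_C.2 (IsUnit.mk0 x hx)))
    constructor
    · change V.v (RatFunc.C x) = 0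
      rw [← Lvs_C, hV.v _ hP]
    · change V.lc (RatFunc.C x) = p.r (C x)
      rw [← Lvs_C, hV.lc _ hP]
  rw [← reX_comap, reX_triv _ _ h]

/-- constants have no residues -/
lemma NR_const (S : Set K[X]) (j : ℕ) (z : X j K) :
    NR S j (mX j (RatFunc.C : K →+* RatFunc K) z) := by
  cases j with
  | zero => exact trivial
  | succ j =>
    intro k _ p V hV _
    exact Lvs_reX_const hV j z

/-- constants have no residues -/
lemma reX_const {k : Type v} [Field k] {p : SRG.Pl K k} {V : AC (RatFunc K) k} (hV : IsPt p V)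
    (j : ℕ) (z : X (j + 1) K) : reX V j (mX (j + 1) (RatFunc.C : K →+* RatFunc K) z) = 0 :=
  Lvs_reX_const hV j z

end

end TGF
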