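import Mathlib
import Pool.Agent.SRG.Defs

set_option autoImplicit false

/-!
# TGF-JD: points and expansions on a curve (definitions)

`L = k0(T)(θ)` is given as the residue field of a closed point `p0` of the line over `k0(T)`
(`p0.P` is the minimal polynomial of `θ = p0.r X`).  A point `y : L → Ω` over `i : k0 → Ω` with
`y(T)` transcendental over `k0` has expansions `E : L → Ω((ε))`, `T ↦ y(T) + ε`.
-/

noncomputable section

open Polynomial
open scoped Classical

namespace TGF

universe u v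

/-- the map `K(t) → L(t)` induced by `φ : K → L` -/
def rm {K : Type u} {L : Type v} [Field K] [Field L] (φ : K →+* L) : RatFunc K →+* RatFunc L :=
  RatFunc.mapRingHom (mapRingHom φ) (by
    intro P hP
    rw [Submonoid.mem_comap, mem_nonZeroDivisors_iff_ne_zero]
    rw [mem_nonZeroDivisors_iff_ne_zero] at hP
    intro h
    exact hP (map_injective φ φ.injective (by rw [Polynomial.map_zero]; exact h)))

section
variable {k0 L Ω : Type u} [Field k0] [Field L] [Field Ω]

/-- the element `T` of `L` -/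
def cT (p0 : SRG.Pl (RatFunc k0) L) : L := p0.r (C RatFunc.X)

/-- the constants of `L` -/
def cC (p0 : SRG.Pl (RatFunc k0) L) : k0 →+* L := p0.r.comp (C.comp RatFunc.C)

/-- the element `θ` of `L` -/
def th (p0 : SRG.Pl (RatFunc k0) L) : L := p0.r X

/-- `y` is a nonconstant point of `L` over `i` -/
structure Pnt (p0 : SRG.Pl (RatFunc k0) L) (i : k0 →+* Ω) (y : L →+* Ω) : Prop where
  ov : ∀ c : k0, y (cC p0 c) = i c
  tr : ∀ P : k0[X], P ≠ 0 → P.eval₂ i (y (cT p0)) ≠ 0

/-- `τ : Ω(T) → Ω((ε))`, `T ↦ b + ε` -/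
structure IsTau (b : Ω) (τ : RatFunc Ω →+* LaurentSeries Ω) : Prop where
  C : ∀ c : Ω, τ (RatFunc.C c) = HahnSeries.C c
  X : τ RatFunc.X = HahnSeries.C b + HahnSeries.single 1 1

/-- `E` is the expansion of the elements of `L` at the point `y` -/
structure IsExp (p0 : SRG.Pl (RatFunc k0) L) (i : k0 →+* Ω) (y : L →+* Ω)
    (E : L →+* LaurentSeries Ω) : Prop where
  C : ∀ c : k0, E (cC p0 c) = HahnSeries.C (i c)
  T : E (cT p0) = HahnSeries.C (y (cT p0)) + HahnSeries.single 1 1
  ord : ∀ x : L, x ≠ 0 → (E x).order = 0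
  co : ∀ x : L, (E x).coeff 0 = y x

/-- the polynomial `G` over `Ω(T)` has order `m` at the point `y` of the curve -/
def OrdAt (p0 : SRG.Pl (RatFunc k0) L) (i : k0 →+* Ω) (G : (RatFunc Ω)[X]) (y : L →+* Ω)
    (m : ℤ) : Prop :=
  ∀ (E : L →+* LaurentSeries Ω) (τ : RatFunc Ω →+* LaurentSeries Ω), IsExp p0 i y E →
    IsTau (y (cT p0)) τ → G.eval₂ τ (E (th p0)) ≠ 0 ∧ (G.eval₂ τ (E (th p0))).order = m

/-- the minimal polynomial of `θ` has coefficients in `k0[T]` and splits with distinct roots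
at `T = 0` -/
def Spl (p0 : SRG.Pl (RatFunc k0) L) : Prop :=
  ∃ (F : k0[X][X]) (N : ℕ) (η : Fin N → k0), F.Monic ∧ Function.Injective η ∧
    F.map (algebraMap k0[X] (RatFunc k0)) = p0.P ∧
    F.map (evalRingHom 0) = ∏ i, (X - C (η i))

end

end TGF
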