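import Pool.Agent.TGF.Tq
import Pool.Agent.TGF.Pt
import Pool.Agent.TGF.Lg
import Pool.Agent.SRG.KQ
import Pool.Agent.SRG.KG
import Pool.Agent.SRG.Pade

set_option autoImplicit false

/-!
# TGF-Ker: the kernel of the reduction `TS j (SG S) → Λ^j k^* ⊗ ℚ`

PLAN.  `SG_surj`: every `x ∈ k^*` is `p.r A / p.r B` with `A`, `B` nonzero of degree `< p.d` (`SRG.pade`),
so smooth (`SRG.Adm.sm`), and `V.lc (A / B) = p.r A / p.r B` (`IsPt.lc`).
`ker_zero`: `Tx 0` is one-dimensional: `ω = q • dm _`, `tm_dm`; `dm` of the empty family is not zero and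
every `Tx 0 F` element is `q • dm`; or: `tm 0 σ` is injective because `tm 0 τ ∘ tm 0 σ = id` for
`τ = 0` (`Tx_ext`, `tm_dm`, functions on `Fin 0` are equal).
`ker_sp`: Let `M` be the quotient of `Tx (j + 1) E` by the span of the `k ∧ μ` of the statement.  By
`SRG.KG_gen` all `k ∧ μ` with `k ∈ SRG.KG p S`, `μ ∈ TS j (SG S)` are `0` in `M`, and, by `SRG.KQ_gen`,
all `wW j t μ` with `t` in the kernel of `ℚ ⊗ SG S → ℚ ⊗ k^*`.  Choose a linear section
`s : WQ k → WQ E` of the reduction with values in the span of `toQ (SG S)` (`SG_surj`,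
`LinearMap.exists_rightInverse_of_surjective`), and let `T` be the family of `exists_tq` (Tq.lean) for
`s`.  Claim: for `μ ∈ TS i (SG S)` the element `μ - T i (spT V i μ)` is in the span of the `wW t μ'`,
`t` in the kernel (of `ℚ ⊗ SG S → ℚ ⊗ k^*`), `μ' ∈ TS (i - 1) (SG S)`: induction on `i`,
`v ∧ μ - s v̄ ∧ T μ̄ = (v - s v̄) ∧ μ + s v̄ ∧ (μ - T μ̄)` (`TS_succ_ind`; `x ∧ (t ∧ μ') =
- t ∧ (x ∧ μ')`).  Apply it to `ω`.
-/

noncomputable section

open Polynomial TensorProduct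
open scoped Classical

namespace TGF

open Helper14.Gon Helper14.W4 QPL

universe u v w

section
variable {K : Type u} [Field K] {k : Type v} [Field k] {p : SRG.Pl K k} {V : AC (RatFunc K) k}
  {S : Set K[X]}

private lemma ker_am {A : K[X]} (hA : A ≠ 0) : algebraMap K[X] (RatFunc K) A ≠ 0 :=
  RatFunc.algebraMap_ne_zero hA

private lemma ker_lH {x : RatFunc K} (hx : x ≠ 0) : V.lH (lg x) = lg (V.lc x) := by
  have h : V.lc x ≠ 0 := V.lc_ne hx
  rw [lg, lg, dif_neg hx, dif_neg h]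
  refine congrArg Additive.ofMul (Units.ext ?_)
  rfl

lemma SG_surj (hS : SRG.Adm S p.d) (hV : IsPt p V) (w : Additive kˣ) :
    ∃ v ∈ SG S, V.lH v = w := by
  have hx : ((Additive.toMul w : kˣ) : k) ≠ 0 := Units.ne_zero _
  obtain ⟨A, B, hA, hB, dA, dB, h⟩ := SRG.pade p _ hx
  have hd := p.d_pos
  have dA' : A.natDegree < p.d := by omega
  have dB' : B.natDegree < p.d := by omega
  have rA := SRG.Pl.ne (p := p) hA dA'
  have rB := SRG.Pl.ne (p := p) hB dB'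
  have nA : ¬ p.P ∣ A := fun hc => rA ((p.ker A).2 hc)
  have nB : ¬ p.P ∣ B := fun hc => rB ((p.ker B).2 hc)
  have hne : algebraMap K[X] (RatFunc K) A / algebraMap K[X] (RatFunc K) B ≠ 0 :=
    div_ne_zero (ker_am hA) (ker_am hB)
  refine ⟨lg (algebraMap K[X] (RatFunc K) A / algebraMap K[X] (RatFunc K) B),
    (SG_iff S _ hne).2 ⟨A, B, hA, hB, hS.sm dA', hS.sm dB', rfl⟩, ?_⟩
  rw [ker_lH hne, map_div₀, hV.lc A nA, hV.lc B nB, h, mul_div_cancel_right₀ _ rB]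
  exact lg_unit _

lemma TS_sp_surj (hS : SRG.Adm S p.d) (hV : IsPt p V) (j : ℕ) (η : Tx j k) :
    ∃ ω ∈ TS j (SG S), spT V j ω = η :=
  TS_surj j V.lH (fun w _ => SG_surj hS hV w) (TS_top j η)

lemma KG_le (p : SRG.Pl K k) (S : Set K[X]) : SRG.KG p S ≤ SG S := by
  rw [SRG.KG, AddSubgroup.closure_le]
  rintro x ⟨A, B, hA, hB, hA', hB', -, rfl⟩
  exact (SG S).sub_mem (SG_pl hA hA') (SG_pl hB hB')

lemma ker_zero (V : AC (RatFunc K) k) {ω : Tx 0 (RatFunc K)} (h : spT V 0 ω = 0) : ω = 0 := by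
  have e1 : (tm 0 (0 : Additive (RatFunc K)ˣ →+ Additive (RatFunc K)ˣ)) = LinearMap.id := by
    refine Tx_ext fun v => ?_
    have h1 := tm_dm 0 (0 : Additive (RatFunc K)ˣ →+ Additive (RatFunc K)ˣ) v
    rw [dm] at h1
    rw [h1, LinearMap.id_apply]
    exact congrArg dm (funext fun i => Fin.elim0 i)
  have e2 : (0 : Additive (RatFunc K)ˣ →+ Additive (RatFunc K)ˣ) =
      (0 : Additive kˣ →+ Additive (RatFunc K)ˣ).comp V.lH := by
    ext v
    rfl
  have e3 := tm_comp 0 V.lH (0 : Additive kˣ →+ Additive (RatFunc K)ˣ) ω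
  rw [← e2, e1, LinearMap.id_apply] at e3
  rw [e3]
  have h' : tm 0 V.lH ω = 0 := h
  rw [h', map_zero]

/-- the span of the smooth elements in `E^* ⊗ ℚ` -/
private def ker_GQ (S : Set K[X]) : Submodule ℚ (WQ (RatFunc K)) :=
  Submodule.span ℚ ((fun A : K[X] => (toQ (SRG.pl A) : WQ (RatFunc K))) ''
    {A : K[X] | A ≠ 0 ∧ SRG.Sm S A})

/-- the reduction on `E^* ⊗ ℚ` -/
private def ker_rd (V : AC (RatFunc K) k) : WQ (RatFunc K) →ₗ[ℚ] WQ k :=
  LinearMap.baseChange ℚ V.lH.toIntLinearMap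

private lemma ker_rd_tmul (q : ℚ) (v : Additive (RatFunc K)ˣ) :
    ker_rd V (q ⊗ₜ[ℤ] v) = q ⊗ₜ[ℤ] V.lH v := by
  rw [ker_rd, LinearMap.baseChange_tmul]
  rfl

private lemma ker_rd_toQ (v : Additive (RatFunc K)ˣ) :
    ker_rd V (toQ v) = toQ (V.lH v) := ker_rd_tmul 1 v

private lemma ker_toQ_add {M : Type w} [AddCommGroup M] (a b : M) :
    (toQ (a + b) : ℚ ⊗[ℤ] M) = toQ a + toQ b := by
  rw [toQ, toQ, toQ, tmul_add]

private lemma ker_toQ_neg {M : Type w} [AddCommGroup M] (a : M) :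
    (toQ (-a) : ℚ ⊗[ℤ] M) = - toQ a := by
  rw [toQ, toQ, tmul_neg]

private lemma ker_toQ_zero {M : Type w} [AddCommGroup M] :
    (toQ (0 : M) : ℚ ⊗[ℤ] M) = 0 := by
  rw [toQ, tmul_zero]

private lemma ker_mem_GQ {v : Additive (RatFunc K)ˣ} (hv : v ∈ SG S) :
    (toQ v : WQ (RatFunc K)) ∈ ker_GQ S := by
  induction hv using AddSubgroup.closure_induction with
  | mem v hv =>
    obtain ⟨A, hA, hA', rfl⟩ := hv
    exact Submodule.subset_span ⟨A, ⟨hA, hA'⟩, rfl⟩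
  | zero => rw [ker_toQ_zero]; exact Submodule.zero_mem _
  | add v w _ _ hv hw => rw [ker_toQ_add]; exact Submodule.add_mem _ hv hw
  | neg v _ hv => rw [ker_toQ_neg]; exact Submodule.neg_mem _ hv

/-- the target -/
private def ker_N (p : SRG.Pl K k) (S : Set K[X]) (j : ℕ) :
    Submodule ℚ (Tx (j + 1) (RatFunc K)) :=
  Submodule.span ℚ {η : Tx (j + 1) (RatFunc K) | ∃ (A B : K[X]) (μ : Tx j (RatFunc K)),
      A ≠ 0 ∧ B ≠ 0 ∧ SRG.Sm S A ∧ SRG.Sm S B ∧ p.P ∣ A - B ∧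
      A.natDegree ≤ p.d + (p.d - 1) / 2 ∧ B.natDegree ≤ p.d + (p.d - 1) / 2 ∧
      μ ∈ TS j (SG S) ∧ η = wT j (SRG.pl A - SRG.pl B) μ}

private lemma ker_wW_mem (j : ℕ) {x : WQ (RatFunc K)} (hx : x ∈ ker_GQ S)
    {μ : Tx j (RatFunc K)} (hμ : μ ∈ TS j (SG S)) : wW j x μ ∈ TS (j + 1) (SG S) := by
  induction hx using Submodule.span_induction with
  | mem x hx =>
    obtain ⟨A, ⟨hA, hA'⟩, rfl⟩ := hx
    beta_reduce
    rw [wW_toQ]
    exact wT_mem_TS j (SG_pl hA hA') hμ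
  | zero => rw [map_zero, LinearMap.zero_apply]; exact Submodule.zero_mem _
  | add x y _ _ hx hy => rw [map_add, LinearMap.add_apply]; exact Submodule.add_mem _ hx hy
  | smul q x _ hx => rw [map_smul, LinearMap.smul_apply]; exact Submodule.smul_mem _ q hx

private lemma ker_KG (hS : SRG.Adm S p.d) (hP : p.P ∉ S) (j : ℕ)
    {y : Additive (RatFunc K)ˣ} (hy : y ∈ SRG.KG p S)
    {μ : Tx j (RatFunc K)} (hμ : μ ∈ TS j (SG S)) : wT j y μ ∈ ker_N p S j := by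
  rw [SRG.KG_gen hS hP] at hy
  induction hy using AddSubgroup.closure_induction with
  | mem y hy =>
    obtain ⟨A, B, hA, hB, hA', hB', hd, dA, dB, rfl⟩ := hy
    exact Submodule.subset_span ⟨A, B, μ, hA, hB, hA', hB', hd, dA, dB, hμ, rfl⟩
  | zero => rw [wT_zero, LinearMap.zero_apply]; exact Submodule.zero_mem _
  | add v w _ _ hv hw => rw [wT_add, LinearMap.add_apply]; exact Submodule.add_mem _ hv hw
  | neg v _ hv => rw [wT_neg, LinearMap.neg_apply]; exact Submodule.neg_mem _ hv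

private lemma ker_t (hS : SRG.Adm S p.d) (hP : p.P ∉ S) (hV : IsPt p V) (j : ℕ)
    {t : WQ (RatFunc K)} (ht : t ∈ ker_GQ S) (h0 : ker_rd V t = 0)
    {μ : Tx j (RatFunc K)} (hμ : μ ∈ TS j (SG S)) : wW j t μ ∈ ker_N p S j := by
  obtain ⟨c, hc, rfl⟩ := (Finsupp.mem_span_image_iff_linearCombination ℚ).1 ht
  rw [Finsupp.mem_supported] at hc
  have hc' : ∀ A ∈ c.support, A ≠ 0 ∧ SRG.Sm S A := fun A hA => hc hA
  have e1 : Finsupp.linearCombination ℚ (fun A : K[X] => (toQ (SRG.pl A) : WQ (RatFunc K))) c =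
      c.sum (fun A q => q ⊗ₜ[ℤ] (SRG.pl A : Additive (RatFunc K)ˣ)) := by
    rw [Finsupp.linearCombination_apply]
    refine Finsupp.sum_congr fun A _ => ?_
    rw [toQ, smul_tmul', smul_eq_mul, mul_one]
  rw [e1] at h0 ⊢
  have e2 : c.sum (fun A q => q ⊗ₜ[ℤ] (Helper11.Gon.lg (p.r A) : Additive kˣ)) = 0 := by
    rw [← h0, Finsupp.sum, Finsupp.sum, map_sum]
    refine Finset.sum_congr rfl fun A hA => ?_
    obtain ⟨hA0, hA'⟩ := hc' A hA
    rw [ker_rd_tmul, pl_eq, ker_lH (ker_am hA0),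
      hV.lc A (hA'.not_dvd hA0 p.monic p.irr hP)]
    rfl
  have h3 := SRG.KQ_gen (S := S) hP c hc' e2
  generalize c.sum (fun A q => q ⊗ₜ[ℤ] (SRG.pl A : Additive (RatFunc K)ˣ)) = t at h3 ⊢
  induction h3 using Submodule.span_induction with
  | mem x hx =>
    obtain ⟨y, hy, rfl⟩ := hx
    have e3 : wW j ((1 : ℚ) ⊗ₜ[ℤ] y : WQ (RatFunc K)) = wT j y := wW_toQ j y
    rw [e3]
    exact ker_KG hS hP j hy hμ
  | zero => rw [map_zero, LinearMap.zero_apply]; exact Submodule.zero_mem _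
  | add x y _ _ hx hy => rw [map_add, LinearMap.add_apply]; exact Submodule.add_mem _ hx hy
  | smul q x _ hx => rw [map_smul, LinearMap.smul_apply]; exact Submodule.smul_mem _ q hx

private lemma ker_x (j : ℕ) {x : WQ (RatFunc K)} (hx : x ∈ ker_GQ S)
    {ν : Tx (j + 1) (RatFunc K)} (hν : ν ∈ ker_N p S j) :
    wW (j + 1) x ν ∈ ker_N p S (j + 1) := by
  induction hν using Submodule.span_induction with
  | mem ν hν =>
    obtain ⟨A, B, μ, hA, hB, hA', hB', hd, dA, dB, hμ, rfl⟩ := hν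
    rw [wW_wT]
    exact Submodule.neg_mem _ (Submodule.subset_span
      ⟨A, B, wW j x μ, hA, hB, hA', hB', hd, dA, dB, ker_wW_mem j hx hμ, rfl⟩)
  | zero => rw [map_zero]; exact Submodule.zero_mem _
  | add a b _ _ ha hb => rw [map_add]; exact Submodule.add_mem _ ha hb
  | smul q a _ ha => rw [map_smul]; exact Submodule.smul_mem _ q ha

private lemma ker_sec (hS : SRG.Adm S p.d) (hV : IsPt p V) :
    ∃ s : WQ k →ₗ[ℚ] WQ (RatFunc K), (∀ y, s y ∈ ker_GQ S) ∧ ∀ y, ker_rd V (s y) = y := by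
  have h1 : Function.Surjective ((ker_rd V).domRestrict (ker_GQ S)) := by
    intro y
    induction y using TensorProduct.induction_on with
    | zero => exact ⟨0, map_zero _⟩
    | tmul q w =>
      obtain ⟨v, hv, hv'⟩ := SG_surj hS hV w
      refine ⟨⟨q • toQ v, Submodule.smul_mem _ q (ker_mem_GQ hv)⟩, ?_⟩
      rw [LinearMap.domRestrict_apply, map_smul, ker_rd_toQ, hv', toQ, smul_tmul', smul_eq_mul,
        mul_one]
    | add a b ha hb =>
      obtain ⟨x, hx⟩ := ha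
      obtain ⟨y, hy⟩ := hb
      exact ⟨x + y, by rw [map_add, hx, hy]⟩
  obtain ⟨s, hs⟩ := LinearMap.exists_rightInverse_of_surjective _ (LinearMap.range_eq_top.2 h1)
  refine ⟨(ker_GQ S).subtype ∘ₗ s, fun y => (s y).2, fun y => ?_⟩
  exact LinearMap.congr_fun hs y

private lemma ker_claim (hS : SRG.Adm S p.d) (hP : p.P ∉ S) (hV : IsPt p V)
    {s : WQ k →ₗ[ℚ] WQ (RatFunc K)} (hs : ∀ y, s y ∈ ker_GQ S) (hs' : ∀ y, ker_rd V (s y) = y)
    {T : (j : ℕ) → (Tx j k →ₗ[ℚ] Tx j (RatFunc K))}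
    (hT0 : ∀ v : Fin 0 → Additive kˣ, ∀ v' : Fin 0 → Additive (RatFunc K)ˣ,
      T 0 (dm v) = dm v')
    (hT : ∀ (j : ℕ) (w : Additive kˣ) (η : Tx j k),
      T (j + 1) (wT j w η) = wW j (s (toQ w)) (T j η)) (i : ℕ) :
    ∀ μ ∈ TS (i + 1) (SG S), μ - T (i + 1) (spT V (i + 1) μ) ∈ ker_N p S i := by
  have step : ∀ i : ℕ, (∀ v ∈ SG S, ∀ μ ∈ TS i (SG S),
      wW i (s (toQ (V.lH v))) (μ - T i (spT V i μ)) ∈ ker_N p S i) →
      ∀ μ ∈ TS (i + 1) (SG S), μ - T (i + 1) (spT V (i + 1) μ) ∈ ker_N p S i := by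
    intro i h1 μ hμ
    refine TS_succ_ind (fun μ => μ - T (i + 1) (spT V (i + 1) μ) ∈ ker_N p S i) ?_ ?_ ?_ hμ
    · rw [map_zero, map_zero, sub_zero]
      exact Submodule.zero_mem _
    · intro a b _ _ ha hb
      beta_reduce at ha hb ⊢
      rw [map_add, map_add, add_sub_add_comm]
      exact Submodule.add_mem _ ha hb
    · intro v hv μ hμ
      have e1 : spT V (i + 1) (wT i v μ) = wT i (V.lH v) (spT V i μ) := tm_wT i V.lH v μ
      rw [e1, hT]
      have e2 : wT i v μ - wW i (s (toQ (V.lH v))) (T i (spT V i μ)) =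
          wW i (toQ v - s (toQ (V.lH v))) μ +
            wW i (s (toQ (V.lH v))) (μ - T i (spT V i μ)) := by
        rw [map_sub, map_sub, LinearMap.sub_apply, wW_toQ]
        abel
      rw [e2]
      refine Submodule.add_mem _ (ker_t hS hP hV i ?_ ?_ hμ) (h1 v hv μ hμ)
      · exact Submodule.sub_mem _ (ker_mem_GQ hv) (hs _)
      · rw [map_sub, hs', ker_rd_toQ, sub_self]
  induction i with
  | zero =>
    refine step 0 fun v hv μ _ => ?_
    have e1 : (T 0) ∘ₗ (spT V 0) = LinearMap.id := by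
      refine Tx_ext fun v => ?_
      have h1 := tm_dm 0 V.lH v
      rw [LinearMap.comp_apply, LinearMap.id_apply]
      have h2 : spT V 0 (toQ (exteriorPower.ιMulti ℤ 0 v)) = dm (fun i => V.lH (v i)) := h1
      rw [h2]
      exact hT0 _ v
    have e2 : T 0 (spT V 0 μ) = μ := LinearMap.congr_fun e1 μ
    rw [e2, sub_self, map_zero]
    exact Submodule.zero_mem _
  | succ i ih =>
    refine step (i + 1) fun v hv μ hμ => ?_
    exact ker_x i (hs _) (ih μ hμ)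

/-- the kernel of the reduction is generated by the `k ∧ μ` -/
theorem ker_sp (hS : SRG.Adm S p.d) (hP : p.P ∉ S) (hV : IsPt p V) (j : ℕ)
    {ω : Tx (j + 1) (RatFunc K)} (hω : ω ∈ TS (j + 1) (SG S)) (h : spT V (j + 1) ω = 0) :
    ω ∈ Submodule.span ℚ {η : Tx (j + 1) (RatFunc K) | ∃ (A B : K[X]) (μ : Tx j (RatFunc K)),
      A ≠ 0 ∧ B ≠ 0 ∧ SRG.Sm S A ∧ SRG.Sm S B ∧ p.P ∣ A - B ∧
      A.natDegree ≤ p.d + (p.d - 1) / 2 ∧ B.natDegree ≤ p.d + (p.d - 1) / 2 ∧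
      μ ∈ TS j (SG S) ∧ η = wT j (SRG.pl A - SRG.pl B) μ} := by
  obtain ⟨s, hs, hs'⟩ := ker_sec (S := S) hS hV
  obtain ⟨T, hT0, hT⟩ := exists_tq s
  have h1 := ker_claim hS hP hV hs hs' hT0 hT j ω hω
  rw [h, map_zero, sub_zero] at h1
  exact h1

end

end TGF
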