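import Pool.Agent.TGF.Star2
import Pool.Agent.TGF.Ker
import Pool.Agent.TGF.Cc

set_option autoImplicit false

/-!
# TGF-Lift: chains with given residue

`Z0 j F` is the space of the `[0] ω`. Every chain over the residue field is, up to `Z0`, the residue of a chain of level
`insert P S`: an element `ξ ≠ 0` is the reduction of a smooth element (Padé approximation), and the slot is `π ∧ ω`.
-/

noncomputable section

open Polynomial TensorProduct
open scoped Classical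

namespace TGF

open Helper14.Gon Helper14.W4 QPL

universe u v

section
variable {F : Type u} [Field F]

/-- the chains `[0] ω` -/
def Z0 (j : ℕ) (F : Type u) [Field F] : Submodule ℚ (X j F) := LinearMap.range (bxL (0 : F))

lemma Z0_rel {j : ℕ} {z : X j F} (hz : z ∈ Z0 j F) : z ∈ Rel j F := by
  obtain ⟨ω, rfl⟩ := hz
  exact Submodule.subset_span (Or.inl (Or.inl (Or.inl (Or.inl ⟨ω, rfl⟩))))

lemma Z0_d3 {j : ℕ} {z : X j F} (hz : z ∈ Z0 j F) : d3 j z = 0 := by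
  obtain ⟨ω, rfl⟩ := hz
  rw [bxL_apply, d3_bx, lg_zero, wT_zero, LinearMap.zero_apply, bx_zero]

lemma Z0_d2 {j : ℕ} {z : X j F} (hz : z ∈ Z0 j F) : d2 j z = 0 := by
  obtain ⟨ω, rfl⟩ := hz
  rw [bxL_apply, d2_bx, lg_zero, wT_zero, LinearMap.zero_apply, map_zero]

lemma Z0_c3 {j : ℕ} {z : X j F} (hz : z ∈ Z0 j F) : c3 j z = 0 := by
  obtain ⟨ω, rfl⟩ := hz
  have h1 : cl 3 (some 0 : P1 F) = 0 := cl_zero 2
  rw [bxL_apply, c3_bx, h1, map_zero, LinearMap.zero_apply]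

end

section
variable {K : Type u} [Field K] {k : Type v} [Field k] {p : SRG.Pl K k} {V : AC (RatFunc K) k}
  {S : Set K[X]}

lemma exists_El (hS : SRG.Adm S p.d) (hV : IsPt p V) {ξ : k} (h : ξ ≠ 0) :
    ∃ x : RatFunc K, El S x ∧ x ≠ 0 ∧ V.v x = 0 ∧ V.lc x = ξ := by
  by_cases hξ : ξ = 1
  · refine ⟨1, ⟨?_, ?_⟩, one_ne_zero, v_one V, ?_⟩
    · rw [lg_one]
      exact (SG S).zero_mem
    · rw [sub_self, lg_zero]
      exact (SG S).zero_mem
    · rw [hξ, map_one]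
  have hd := p.d_pos
  obtain ⟨A, B, hA, hB, hA1, hB1, hr⟩ := SRG.pade p ξ h
  have hA2 : A.natDegree < p.d := by omega
  have hB2 : B.natDegree < p.d := by omega
  have hrA : p.r A ≠ 0 := SRG.Pl.ne hA hA2
  have hrB : p.r B ≠ 0 := SRG.Pl.ne hB hB2
  have hPA : ¬ p.P ∣ A := fun h1 => hrA ((p.ker A).2 h1)
  have hPB : ¬ p.P ∣ B := fun h1 => hrB ((p.ker B).2 h1)
  have hBA : B - A ≠ 0 := by
    intro h1
    have h2 : p.r A = p.r B := by rw [sub_eq_zero.1 h1]
    rw [h2] at hr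
    exact hξ (mul_right_cancel₀ hrB (by rw [one_mul]; exact hr.symm))
  have hBA2 : (B - A).natDegree < p.d :=
    lt_of_le_of_lt (natDegree_sub_le B A) (max_lt hB2 hA2)
  have hAm : algebraMap K[X] (RatFunc K) A ≠ 0 := RatFunc.algebraMap_ne_zero hA
  have hBm : algebraMap K[X] (RatFunc K) B ≠ 0 := RatFunc.algebraMap_ne_zero hB
  have hx0 : algebraMap K[X] (RatFunc K) A / algebraMap K[X] (RatFunc K) B ≠ 0 := div_ne_zero hAm hBm
  have hx1 : algebraMap K[X] (RatFunc K) A / algebraMap K[X] (RatFunc K) B ≠ 1 := by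
    intro h1
    rw [div_eq_one_iff_eq hBm] at h1
    exact hBA (by rw [RatFunc.algebraMap_injective K h1, sub_self])
  refine ⟨algebraMap K[X] (RatFunc K) A / algebraMap K[X] (RatFunc K) B, ?_, hx0, ?_, ?_⟩
  · exact (El_iff S _ hx0 hx1).2 ⟨A, B, B - A, hA, hB, hBA, by ring, hS.sm hA2, hS.sm hB2, hS.sm hBA2, rfl⟩
  · have h1 := V.v_mul hx0 hBm
    rw [div_mul_cancel₀ _ hBm, hV.v A hPA, hV.v B hPB, add_zero] at h1
    exact h1.symm
  · rw [map_div₀, hV.lc A hPA, hV.lc B hPB, hr, mul_div_cancel_right₀ _ hrB]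

private lemma Lift_pi (p : SRG.Pl K k) (S : Set K[X]) :
    lg (algebraMap K[X] (RatFunc K) p.P) ∈ SG (insert p.P S) := by
  refine SG_pl p.irr.ne_zero (Or.inr fun Q hQm hQi hQP => ?_)
  have h1 : Associated Q p.P := (hQi.dvd_irreducible_iff_associated p.irr).1 hQP
  rw [Polynomial.eq_of_monic_of_associated hQm p.monic h1]
  exact Set.mem_insert _ _

/-- the residue of `π ∧ ω` -/
private lemma Lift_re (hP : p.P ∉ S) (hV : IsPt p V) (j : ℕ) {ω : Tx j (RatFunc K)}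
    (hω : ω ∈ TS j (SG S)) : reT V j (wT j (lg (algebraMap K[X] (RatFunc K) p.P)) ω) = spT V j ω := by
  have h0 : V.vH (lg (algebraMap K[X] (RatFunc K) p.P)) = 1 := by
    rw [vH_lg V (RatFunc.algebraMap_ne_zero p.irr.ne_zero), hV.vP]
  cases j with
  | zero =>
    rw [reT_wT_zero, h0, one_smul]
  | succ j =>
    have h1 : reT V j ω = 0 := by
      have h2 : ctT j V.vH ω = 0 := ctT_TS j (fun v hv => SG_v hV hP hv) hω
      rw [reT, LinearMap.comp_apply, h2, map_zero]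
    rw [reT_wT, h0, one_smul, h1, map_zero, sub_zero]

private lemma Lift_mem (j : ℕ) (p : SRG.Pl K k) {ω : Tx j (RatFunc K)} (hω : ω ∈ TS j (SG S)) :
    wT j (lg (algebraMap K[X] (RatFunc K) p.P)) ω ∈ TS (j + 1) (SG (insert p.P S)) :=
  wT_mem_TS j (Lift_pi p S) (TS_mono j (SG_mono (Set.subset_insert _ _)) hω)

theorem lift_X (hS : SRG.Adm S p.d) (hP : p.P ∉ S) (hV : IsPt p V) (j : ℕ) (w : X j k) :
    ∃ v ∈ Lv (j + 1) (insert p.P S), reX V j v - w ∈ Z0 j k := by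
  refine x_ind (fun w => ∃ v ∈ Lv (j + 1) (insert p.P S), reX V j v - w ∈ Z0 j k) ?_ ?_ ?_ w
  · refine ⟨0, Submodule.zero_mem _, ?_⟩
    rw [map_zero, sub_zero]
    exact Submodule.zero_mem _
  · rintro a b ⟨v, hv, hva⟩ ⟨v', hv', hvb⟩
    refine ⟨v + v', Submodule.add_mem _ hv hv', ?_⟩
    have h1 : reX V j (v + v') - (a + b) = (reX V j v - a) + (reX V j v' - b) := by
      rw [map_add]
      abel
    rw [h1]
    exact Submodule.add_mem _ hva hvb
  · intro ξ η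
    by_cases hξ : ξ = 0
    · refine ⟨0, Submodule.zero_mem _, ?_⟩
      rw [map_zero, zero_sub, hξ]
      exact Submodule.neg_mem _ ⟨η, rfl⟩
    · obtain ⟨x, hx, hx0, hvx, hlx⟩ := exists_El hS hV hξ
      obtain ⟨ω, hω, hη⟩ := TS_sp_surj hS hV j η
      refine ⟨bx x (wT j (lg (algebraMap K[X] (RatFunc K) p.P)) ω),
        Submodule.subset_span ⟨x, _, El_mono (Set.subset_insert _ _) hx, Lift_mem j p hω, rfl⟩, ?_⟩
      rw [reX_bx, if_pos (Or.inr hvx), Lift_re hP hV j hω, hη, hlx, sub_self]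
      exact Submodule.zero_mem _

theorem lift_T (hS : SRG.Adm S p.d) (hP : p.P ∉ S) (hV : IsPt p V) (j : ℕ) (w : Tx j k) :
    ∃ v ∈ TS (j + 1) (SG (insert p.P S)), reT V j v = w := by
  obtain ⟨ω, hω, hη⟩ := TS_sp_surj hS hV j w
  refine ⟨wT j (lg (algebraMap K[X] (RatFunc K) p.P)) ω, Lift_mem j p hω, ?_⟩
  rw [Lift_re hP hV j hω, hη]

end

end TGF
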