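import Pool.Agent.TGF.RL0
import Pool.Agent.TGF.Lift
import Pool.Agent.TGF.Lvs
import Pool.Agent.TGF.S

set_option autoImplicit false

/-!
# TGF-Cp0: exactness in the last term, by levels

PLAN.  As in Cp.lean, with `TS` instead of `Lv`, `d2` instead of `d3`, and no relations.
`Ez` (one factor): `Ez_insert`: the residue at `P` is in `N0 0 k = ⊥`, so `RL0_zero`; `Ez_const`:
`TS_const`.
`E0`: `E0_insert`: let `ω ∈ TS (i + 2) (SG (insert P S))`, `reT V (i + 1) ω ∈ N0 (i + 1) k`.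
`i = 0`: `N0 1 k = ⊥`, put `v' = 0`.  `i = l + 1`: by `mem_N0` the residue is `d2 l w'`; `lift_X` gives
`v' ∈ Lv (l + 1) (insert P S)`, `reX V l v' - w' ∈ Z0`, and `reT V (l + 2) (d2 (l + 1) v') = d2 l (reX V l v')
= d2 l w'` (`reT_d2`, `Z0_d2`).  In both cases `ω₁ = ω - d2 i v'` has residue `0` and is in
`TS (i + 2) (SG (insert P S))` (`d2_Lv`); `RL0_succ`: `A₁`, `NR S i A₁`, `ω' = ω₁ - d2 i A₁ ∈ TS (i + 2) (SG S)`.
Its residues at the points of `S` are in `N0 (i + 1)`: `reT V' (i + 1) (d2 i _)` is `0` for `i = 0`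
(`reT_d2_zero`) and `d2 l (..)` for `i = l + 1` (`reT_d2`).  Take `A = v' + A₁ + A'`.
The rest as in Cp.lean (`TS_fin`, `TS_const`, `SRG.exists_plOf`, `exists_TSl`).
-/

noncomputable section

open Polynomial TensorProduct
open scoped Classical

namespace TGF

open Helper14.Gon Helper14.W4 QPL

universe u

section
variable {K : Type u} [Field K]

/-- one factor -/
def Ez (S : Set K[X]) : Prop :=
  ∀ ω ∈ TS 1 (SG S),
    (∀ (k : Type u) [Field k] (p : SRG.Pl K k) (V : AC (RatFunc K) k), IsPt p V → p.P ∈ S →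
      reT V 0 ω ∈ N0 0 k) →
    ∃ c : Tx 1 K, ω = resT 1 (RatFunc.C : K →+* RatFunc K) c

/-- at least two factors -/
def E0 (S : Set K[X]) (i : ℕ) : Prop :=
  ∀ ω ∈ TS (i + 2) (SG S),
    (∀ (k : Type u) [Field k] (p : SRG.Pl K k) (V : AC (RatFunc K) k), IsPt p V → p.P ∈ S →
      reT V (i + 1) ω ∈ N0 (i + 1) k) →
    ∃ A : X i (RatFunc K), NR S i A ∧ ∃ c : Tx (i + 2) K,
      ω - d2 i A = resT (i + 2) (RatFunc.C : K →+* RatFunc K) c

private theorem cp0_adm {n : ℕ} (T : Finset K[X])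
    (hT : ∀ Q ∈ T, Q.Monic ∧ Irreducible Q ∧ Q.natDegree = n) :
    SRG.Adm (SRG.lt K n ∪ (T : Set K[X])) n where
  monic := fun Q h => h.elim (fun h => h.1) fun h' => (hT Q (Finset.mem_coe.1 h')).1
  irr := fun Q h => h.elim (fun h => h.2.1) fun h' => (hT Q (Finset.mem_coe.1 h')).2.1
  le := fun Q h => h.elim (fun h => h.2.2.le) fun h' => (hT Q (Finset.mem_coe.1 h')).2.2.le
  small := fun Q h1 h2 h3 => Or.inl ⟨h1, h2, h3⟩

private theorem cp0_sub {n : ℕ} (T : Finset K[X])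
    (hT : ∀ Q ∈ T, Q.Monic ∧ Irreducible Q ∧ Q.natDegree = n) :
    SRG.lt K n ∪ (T : Set K[X]) ⊆ SRG.lt K (n + 1) := by
  rintro Q (h | h)
  · exact ⟨h.1, h.2.1, h.2.2.trans (Nat.lt_succ_self n)⟩
  · obtain ⟨h1, h2, h3⟩ := hT Q (Finset.mem_coe.1 h)
    exact ⟨h1, h2, h3 ▸ Nat.lt_succ_self n⟩

private theorem cp0_union (Φ : Set K[X] → Prop) (n : ℕ)
    (hstep : ∀ (S : Set K[X]) (k : Type u) [Field k] (p : SRG.Pl K k) (V : AC (RatFunc K) k),
      SRG.Adm S p.d → p.P ∉ S → IsPt p V → Φ S → Φ (insert p.P S))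
    (h : Φ (SRG.lt K n)) (T : Finset K[X])
    (hT : ∀ Q ∈ T, Q.Monic ∧ Irreducible Q ∧ Q.natDegree = n) :
    Φ (SRG.lt K n ∪ (T : Set K[X])) := by
  induction T using Finset.induction_on with
  | empty =>
    rw [Finset.coe_empty, Set.union_empty]
    exact h
  | insert Q T _ ih =>
    have hT' : ∀ R ∈ T, R.Monic ∧ Irreducible R ∧ R.natDegree = n := fun R hR =>
      hT R (Finset.mem_insert_of_mem hR)
    have h1 := ih hT'
    rw [Finset.coe_insert, Set.union_insert]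
    by_cases hQ : Q ∈ SRG.lt K n ∪ (T : Set K[X])
    · rw [Set.insert_eq_of_mem hQ]
      exact h1
    · obtain ⟨h2, h3, h4⟩ := hT Q (Finset.mem_insert_self Q T)
      obtain ⟨k, ik, p, rfl⟩ := SRG.exists_plOf h2 h3
      obtain ⟨V, hV⟩ := exists_pt p
      have hd : p.d = n := h4
      exact hstep _ k p V (by rw [hd]; exact cp0_adm T hT') hQ hV h1

private theorem cp0_d2 {L : Type u} [Field L] {k : Type u} [Field k] (V : AC L k) (i : ℕ)
    (z : X i L) : reT V (i + 1) (d2 i z) ∈ N0 (i + 1) k := by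
  cases i with
  | zero =>
    rw [reT_d2_zero]
    exact Submodule.zero_mem _
  | succ l =>
    rw [reT_d2]
    exact (mem_N0 l _).2 ⟨_, rfl⟩

theorem Ez_insert {k : Type u} [Field k] {p : SRG.Pl K k} {V : AC (RatFunc K) k} {S : Set K[X]}
    (hP : p.P ∉ S) (hV : IsPt p V) (h : Ez S) : Ez (insert p.P S) := by
  intro ω hω hres
  have h1 : reT V 0 ω ∈ (⊥ : Submodule ℚ (Tx 0 k)) := hres k p V hV (Set.mem_insert _ _)
  have h2 := RL0_zero hP hV hω ((Submodule.mem_bot ℚ).1 h1)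
  exact h ω h2 (fun k' _ p' V' hV' hp' => hres k' p' V' hV' (Set.mem_insert_of_mem _ hp'))

theorem Ez_lt (n : ℕ) : Ez (SRG.lt K n) := by
  induction n with
  | zero =>
    intro ω hω _
    exact TS_const 1 hω
  | succ n ih =>
    intro ω hω hres
    obtain ⟨T, hT, hωT⟩ := TS_fin 1 n hω
    have h1 : Ez (SRG.lt K n ∪ (T : Set K[X])) :=
      cp0_union (fun S => Ez S) n (fun S k _ p V _ hP hV h => Ez_insert hP hV h) ih T hT
    exact h1 ω hωT (fun k _ p V hV hp => hres k p V hV (cp0_sub T hT hp))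

theorem E0_insert {k : Type u} [Field k] {p : SRG.Pl K k} {V : AC (RatFunc K) k} {S : Set K[X]}
    (hS : SRG.Adm S p.d) (hP : p.P ∉ S) (hV : IsPt p V) (i : ℕ) (h : E0 S i) :
    E0 (insert p.P S) i := by
  intro ω hω hres
  have hv : ∃ v' ∈ Lv i (insert p.P S), reT V (i + 1) (d2 i v') = reT V (i + 1) ω := by
    have h0 := hres k p V hV (Set.mem_insert _ _)
    cases i with
    | zero =>
      have h1 : reT V 1 ω ∈ (⊥ : Submodule ℚ (Tx 1 k)) := h0
      refine ⟨0, Submodule.zero_mem _, ?_⟩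
      have h2 : reT V 1 ω = 0 := (Submodule.mem_bot ℚ).1 h1
      rw [map_zero, map_zero]
      exact h2.symm
    | succ l =>
      obtain ⟨w', hw'⟩ := (mem_N0 l _).1 h0
      obtain ⟨v', hv', hz⟩ := lift_X hS hP hV l w'
      refine ⟨v', hv', ?_⟩
      have h3 := Z0_d2 hz
      rw [map_sub, sub_eq_zero] at h3
      rw [reT_d2, h3]
      exact hw'.symm
  obtain ⟨v', hv', hr⟩ := hv
  have h1 : ω - d2 i v' ∈ TS (i + 2) (SG (insert p.P S)) := Submodule.sub_mem _ hω (d2_Lv i hv')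
  have h2 : reT V (i + 1) (ω - d2 i v') = 0 := by
    rw [map_sub, hr, sub_self]
  obtain ⟨A₁, hA₁, hω'⟩ := RL0_succ hS hP hV i h1 h2
  obtain ⟨A', hA', c, hc⟩ := h _ hω' (fun k' _ p' V' hV' hp' => by
    rw [map_sub, map_sub]
    exact Submodule.sub_mem _ (Submodule.sub_mem _
      (hres k' p' V' hV' (Set.mem_insert_of_mem _ hp')) (cp0_d2 V' i v')) (cp0_d2 V' i A₁))
  refine ⟨v' + A₁ + A', ?_, c, ?_⟩
  · exact NR_add _ i (NR_add _ i (NR_Lv _ i hv') (NR_mono (Set.subset_insert _ _) i hA₁))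
      (NR_mono (Set.subset_insert _ _) i hA')
  · rw [← hc, map_add, map_add]
    abel

theorem E0_lt (i n : ℕ) : E0 (SRG.lt K n) i := by
  induction n with
  | zero =>
    intro ω hω _
    obtain ⟨c, hc⟩ := TS_const (i + 2) hω
    exact ⟨0, NR_zero _ i, c, by rw [map_zero, sub_zero, hc]⟩
  | succ n ih =>
    intro ω hω hres
    obtain ⟨T, hT, hωT⟩ := TS_fin (i + 2) n hω
    have h1 : E0 (SRG.lt K n ∪ (T : Set K[X])) i :=
      cp0_union (fun S => E0 S i) n (fun S k _ p V hS hP hV h => E0_insert hS hP hV i h) ih T hT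
    obtain ⟨A, hA, c, hc⟩ := h1 ω hωT (fun k _ p V hV hp => hres k p V hV (cp0_sub T hT hp))
    exact ⟨A, NR_mono (cp0_sub T hT) i hA, c, hc⟩

/-- exactness in the last term -/
theorem exact_T (j : ℕ) (ω : Tx (j + 1) (RatFunc K))
    (h : ∀ (k : Type u) [Field k] (p : SRG.Pl K k) (V : AC (RatFunc K) k), IsPt p V →
      reT V j ω ∈ N0 j k) :
    ∃ c : Tx (j + 1) K,
      ω - resT (j + 1) (RatFunc.C : K →+* RatFunc K) c ∈ N0 (j + 1) (RatFunc K) := by
  cases j with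
  | zero =>
    obtain ⟨n, hn⟩ := exists_TSl 1 ω
    obtain ⟨c, hc⟩ := Ez_lt n ω hn (fun k _ p V hV _ => h k p V hV)
    refine ⟨c, ?_⟩
    have h1 : ω - resT (0 + 1) (RatFunc.C : K →+* RatFunc K) c = 0 := sub_eq_zero.2 hc
    rw [h1]
    exact Submodule.zero_mem _
  | succ i =>
    obtain ⟨n, hn⟩ := exists_TSl (i + 2) ω
    obtain ⟨A, _, c, hc⟩ := E0_lt i n ω hn (fun k _ p V hV _ => h k p V hV)
    refine ⟨c, (mem_N0 i _).2 ⟨A, ?_⟩⟩
    have h1 : ω - d2 i A = resT (i + 1 + 1) (RatFunc.C : K →+* RatFunc K) c := hc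
    rw [← h1, sub_sub_cancel]

end

end TGF
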