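import Pool.Agent.TGF.Cp
import Pool.Agent.TGF.Cp0

set_option autoImplicit false

/-!
# TGF-Dr: residues are onto

`S = SRG.lt K p.d`.  A chain `v0` of level `insert P S` with the given residue (`lift_X`, `lift_T`) is
corrected by chains without residues at `P` and outside `insert P S`: the reduction lemma (`RL`,
`RL0_succ`), the exactness on the level `S` (`Ex_lt`, `E0_lt`) and a constant chain, obtained by the
specialisation of `exists_spec`.
-/

noncomputable section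

open Polynomial TensorProduct
open scoped Classical

namespace TGF

open Helper14.Gon Helper14.W4 QPL

universe u

section
variable {K : Type u} [Field K] {k : Type u} [Field k] {p : SRG.Pl K k} {V : AC (RatFunc K) k}

private lemma dr_not_mem (p : SRG.Pl K k) : p.P ∉ SRG.lt K p.d := fun h =>
  lt_irrefl _ h.2.2

private lemma dr_NR_sub (S : Set K[X]) (j : ℕ) {z z' : X j (RatFunc K)} (h : NR S j z)
    (h' : NR S j z') : NR S j (z - z') := by
  have h1 := NR_add S j h (NR_smul S j (-1) h')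
  have h2 : z + (-1 : ℚ) • z' = z - z' := by
    rw [neg_one_smul, sub_eq_add_neg]
  rwa [h2] at h1

/-- the corrected chain: residue at `P` and residues outside `insert P S` -/
private lemma dr_fin (hV : IsPt p V) (j : ℕ) {w : X j k} {v0 A A' : X (j + 1) (RatFunc K)}
    (c : X (j + 1) K) (hv : v0 ∈ Lv (j + 1) (insert p.P (SRG.lt K p.d)))
    (hr : reX V j v0 - w ∈ Z0 j k) (hA : NR (SRG.lt K p.d) (j + 1) A)
    (hA' : NR (SRG.lt K p.d) (j + 1) A') :
    reX V j (v0 - A - A' - mX (j + 1) (RatFunc.C : K →+* RatFunc K) c) - w ∈ Z0 j k ∧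
      NR (insert p.P (SRG.lt K p.d)) (j + 1)
        (v0 - A - A' - mX (j + 1) (RatFunc.C : K →+* RatFunc K) c) := by
  constructor
  · have h1 : reX V j A = 0 := hA k p V hV (dr_not_mem p)
    have h2 : reX V j A' = 0 := hA' k p V hV (dr_not_mem p)
    rw [map_sub, map_sub, map_sub, h1, h2, reX_const hV j c, sub_zero, sub_zero, sub_zero]
    exact hr
  · exact dr_NR_sub _ _ (dr_NR_sub _ _ (dr_NR_sub _ _ (NR_Lv _ _ hv)
      (NR_mono (Set.subset_insert _ _) _ hA)) (NR_mono (Set.subset_insert _ _) _ hA'))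
      (NR_const _ _ c)

theorem resid_X3 (hV : IsPt p V) (j : ℕ) (w : X j k) (hw : d3 j w ∈ Rel (j + 1) k) :
    ∃ v : X (j + 1) (RatFunc K), d3 (j + 1) v ∈ Rel (j + 2) (RatFunc K) ∧
      reX V j v - w ∈ Z0 j k ∧ NR (insert p.P (SRG.lt K p.d)) (j + 1) v := by
  have hS : SRG.Adm (SRG.lt K p.d) p.d := SRG.adm_lt p.d
  have hP : p.P ∉ SRG.lt K p.d := dr_not_mem p
  obtain ⟨v0, hv0, hr0⟩ := lift_X hS hP hV j w
  have hres : reX V (j + 1) (d3 (j + 1) v0) ∈ Rel (j + 1) k := by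
    rw [reX_d3]
    have h1 : d3 j (reX V j v0) = d3 j w := by
      have h2 := Z0_d3 hr0
      rw [map_sub] at h2
      exact sub_eq_zero.1 h2
    rw [h1]
    exact neg_mem hw
  obtain ⟨A, hA, y', hy', hRL⟩ := RL hS hP hV (j + 1) (d3_Lv (j + 1) hv0) (d2_d3 (j + 1) v0) hres
  have hd2 : d2 (j + 2) y' = 0 := by
    have h1 := d2_rel (j + 2) hRL
    rw [map_sub, map_sub, d2_d3, d2_d3, sub_zero, zero_sub, neg_eq_zero] at h1
    exact h1
  obtain ⟨A', hA', c, hc⟩ := Ex_lt (K := K) (j + 1) p.d y' hy' hd2 (by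
    intro k' _ p' V' hV' _
    have h1 := reX_rel V' (j + 1) hRL
    have h2 : reX V' (j + 1) y' = - d3 j (reX V' j (v0 - A)) -
        reX V' (j + 1) (d3 (j + 1) v0 - d3 (j + 1) A - y') := by
      rw [← reX_d3, ← map_sub, map_sub (d3 (j + 1)) v0 A]
      congr 1
      abel
    rw [h2]
    refine sub_mem ?_ (Submodule.mem_sup_right h1)
    exact neg_mem (Submodule.mem_sup_left (LinearMap.mem_range_self _ _)))
  have hu : d3 (j + 1) (v0 - A - A') - mX (j + 2) (RatFunc.C : K →+* RatFunc K) c ∈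
      Rel (j + 2) (RatFunc K) := by
    have h1 := add_mem hRL hc
    have h2 : d3 (j + 1) (v0 - A - A') - mX (j + 2) (RatFunc.C : K →+* RatFunc K) c =
        d3 (j + 1) v0 - d3 (j + 1) A - y' +
          (y' - d3 (j + 1) A' - mX (j + 2) (RatFunc.C : K →+* RatFunc K) c) := by
      rw [map_sub, map_sub]
      abel
    rw [h2]
    exact h1
  obtain ⟨W, hW, -⟩ := exists_spec K
  have h3 := spX_rel W (j + 2) hu
  rw [map_sub, hW] at h3
  have h4 : spX W (j + 2) (d3 (j + 1) (v0 - A - A')) = d3 (j + 1) (spX W (j + 1) (v0 - A - A')) :=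
    spX_d3 W (j + 1) _
  rw [h4] at h3
  have h5 := mX_rel (j + 2) (RatFunc.C : K →+* RatFunc K) h3
  rw [map_sub] at h5
  have h6 : mX (j + 2) (RatFunc.C : K →+* RatFunc K) (d3 (j + 1) (spX W (j + 1) (v0 - A - A'))) =
      d3 (j + 1) (mX (j + 1) (RatFunc.C : K →+* RatFunc K) (spX W (j + 1) (v0 - A - A'))) :=
    mX_d3 (j + 1) _ _
  rw [h6] at h5
  have h7 := dr_fin hV j (spX W (j + 1) (v0 - A - A')) hv0 hr0 hA hA'
  refine ⟨v0 - A - A' - mX (j + 1) (RatFunc.C : K →+* RatFunc K) (spX W (j + 1) (v0 - A - A')),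
    ?_, h7.1, h7.2⟩
  have h8 := sub_mem hu h5
  rw [sub_sub_sub_cancel_right, ← map_sub] at h8
  exact h8

theorem resid_X2 (hV : IsPt p V) (j : ℕ) (w : X j k) (hw : d2 j w = 0) :
    ∃ v : X (j + 1) (RatFunc K), d2 (j + 1) v = 0 ∧
      reX V j v - w ∈ Z0 j k ∧ NR (insert p.P (SRG.lt K p.d)) (j + 1) v := by
  have hS : SRG.Adm (SRG.lt K p.d) p.d := SRG.adm_lt p.d
  have hP : p.P ∉ SRG.lt K p.d := dr_not_mem p
  obtain ⟨v0, hv0, hr0⟩ := lift_X hS hP hV j w
  have hres : reT V (j + 2) (d2 (j + 1) v0) = 0 := by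
    rw [reT_d2]
    have h2 := Z0_d2 hr0
    rw [map_sub, hw, sub_zero] at h2
    exact h2
  obtain ⟨A, hA, hA2⟩ := RL0_succ hS hP hV (j + 1) (d2_Lv (j + 1) hv0) hres
  obtain ⟨A', hA', c, hc⟩ := E0_lt (K := K) (j + 1) p.d _ hA2 (by
    intro k' _ p' V' hV' _
    rw [← map_sub]
    refine (mem_N0 j _).2 ⟨reX V' j (v0 - A), ?_⟩
    exact reT_d2 V' j (v0 - A))
  have hu : d2 (j + 1) (v0 - A - A') = resT (j + 3) (RatFunc.C : K →+* RatFunc K) c := by
    rw [map_sub, map_sub]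
    exact hc
  obtain ⟨W, -, hW⟩ := exists_spec K
  have h3 : d2 (j + 1) (spX W (j + 1) (v0 - A - A')) = c := by
    have h4 := spT_d2 W (j + 1) (v0 - A - A')
    rw [hu] at h4
    have h5 := hW (j + 3) c
    exact h4.symm.trans h5
  have h7 := dr_fin hV j (spX W (j + 1) (v0 - A - A')) hv0 hr0 hA hA'
  refine ⟨v0 - A - A' - mX (j + 1) (RatFunc.C : K →+* RatFunc K) (spX W (j + 1) (v0 - A - A')),
    ?_, h7.1, h7.2⟩
  have h8 : d2 (j + 1) (mX (j + 1) (RatFunc.C : K →+* RatFunc K) (spX W (j + 1) (v0 - A - A'))) =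
      resT (j + 3) (RatFunc.C : K →+* RatFunc K) c := by
    rw [← resT_d2, h3]
  rw [map_sub, h8, hu, sub_self]

theorem resid_T (hV : IsPt p V) (j : ℕ) (w : Tx j k) :
    ∃ v : Tx (j + 1) (RatFunc K), reT V j v = w ∧
      ∀ (l : Type u) [Field l] (q : SRG.Pl K l) (V' : AC (RatFunc K) l), IsPt q V' →
        q.P ∉ insert p.P (SRG.lt K p.d) → reT V' j v = 0 := by
  have hS : SRG.Adm (SRG.lt K p.d) p.d := SRG.adm_lt p.d
  obtain ⟨v, hv, hr⟩ := lift_T hS (dr_not_mem p) hV j w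
  refine ⟨v, hr, ?_⟩
  intro l _ q V' hV' hq
  have h1 : ctT j V'.vH v = 0 := ctT_TS j (fun g hg => SG_v hV' hq hg) hv
  rw [reT, LinearMap.comp_apply, h1, map_zero]

end

end TGF
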