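import Pool.Agent.TGF.Rl

set_option autoImplicit false

/-!
# TGF-Star1: the differential of the star element

PLAN.  Let `C = x / y`, `D = y (1 - x) / (x (1 - y))`, `G = (1 - x) / (1 - y)`; `X = lg x`,
`X' = lg (1 - x)`, `Y = lg y`, `Y' = lg (1 - y)`: `lg C = X - Y`, `lg G = X' - Y'`,
`lg D = Y + X' - X - Y' = lg G - lg C`.  By `d3_bx`, `wT_self`, `wT_wT` (all with `μ` on the right)
`d3 (star) = [C] C∧G - [D] D∧G - [x] X∧G - [y] Y∧G + [1] 0 + [G] G∧C + [1-x] X'∧Y - [1-y] Y'∧X`,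
`D∧G = - C∧G`, so `= ([C] + [D] - [G]) C∧G - [x] X∧(X'-Y') - [y] Y∧(X'-Y') + [1-x] X'∧Y - [1-y] Y'∧X`.
Modulo `Rel`: `[1-x] = -[x]`, `[1-y] = -[y]`, `[y/x] = -[C]` (`y/x = C⁻¹`) and `five x y`:
`[x] - [y] - [C] - [D] + [G] = 0` (`(1 - x⁻¹)/(1 - y⁻¹) = D`), so `[C] + [D] - [G] = [x] - [y]`.
The coefficients of `[x]`: `(X-Y)∧(X'-Y') - X∧X' + X∧Y' - X'∧Y = Y∧Y' = - Y'∧Y`; of `[y]`:
`-(X-Y)∧(X'-Y') - Y∧X' + Y∧Y' + Y'∧X = - X∧X' = X'∧X`.
-/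

noncomputable section

open Polynomial TensorProduct
open scoped Classical

namespace TGF

open Helper14.Gon Helper14.W4

universe u

private lemma star1_lg_div {F : Type u} [Field F] {a b : F} (ha : a ≠ 0) (hb : b ≠ 0) :
    lg (a / b) = lg a - lg b := by
  have h : lg (a / b * b) = lg (a / b) + lg b := lg_mul (div_ne_zero ha hb) hb
  rw [div_mul_cancel₀ a hb] at h
  rw [h, add_sub_cancel_right]

private lemma star1_wT_sub {F : Type u} [Field F] (j : ℕ) (a b : Additive Fˣ) :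
    wT j (a - b) = wT j a - wT j b := by
  rw [sub_eq_add_neg, wT_add, wT_neg, ← sub_eq_add_neg]

private lemma star1_aux {F : Type u} [Field F] (j : ℕ) (x y : F) (X X' Y Y' : Additive Fˣ)
    (c d g : F) (μ : Tx j F) :
    bx c (wT (j + 1) (X - Y) (wT j (X' - Y') μ)) -
      bx d (wT (j + 1) (Y + X' - (X + Y')) (wT j (X' - Y') μ)) -
      bx x (wT (j + 1) X (wT j (X' - Y') μ)) - bx y (wT (j + 1) Y (wT j (X' - Y') μ)) + 0 +
      bx g (wT (j + 1) (X' - Y') (wT j (X - Y) μ)) + bx (1 - x) (wT (j + 1) X' (wT j Y μ)) -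
      bx (1 - y) (wT (j + 1) Y' (wT j X μ)) + bx x (wT (j + 1) Y' (wT j Y μ)) -
      bx y (wT (j + 1) X' (wT j X μ)) =
    (bx c (wT (j + 1) (X - Y) (wT j (X' - Y') μ)) + bx c⁻¹ (wT (j + 1) (X - Y) (wT j (X' - Y') μ))) -
      (bx x (wT (j + 1) (X - Y) (wT j (X' - Y') μ)) - bx y (wT (j + 1) (X - Y) (wT j (X' - Y') μ)) +
        bx c⁻¹ (wT (j + 1) (X - Y) (wT j (X' - Y') μ)) -
        bx d (wT (j + 1) (X - Y) (wT j (X' - Y') μ)) +
        bx g (wT (j + 1) (X - Y) (wT j (X' - Y') μ))) +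
      (bx x (wT (j + 1) X' (wT j Y μ)) + bx (1 - x) (wT (j + 1) X' (wT j Y μ))) -
      (bx y (wT (j + 1) Y' (wT j X μ)) + bx (1 - y) (wT (j + 1) Y' (wT j X μ))) := by
  have a1 : wT (j + 1) X' (wT j X μ) = - wT (j + 1) X (wT j X' μ) := wT_wT j X' X μ
  have a2 : wT (j + 1) Y' (wT j X μ) = - wT (j + 1) X (wT j Y' μ) := wT_wT j Y' X μ
  have a3 : wT (j + 1) X' (wT j Y μ) = - wT (j + 1) Y (wT j X' μ) := wT_wT j X' Y μ
  have a4 : wT (j + 1) Y' (wT j Y μ) = - wT (j + 1) Y (wT j Y' μ) := wT_wT j Y' Y μ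
  have a5 : wT (j + 1) Y' (wT j X' μ) = - wT (j + 1) X' (wT j Y' μ) := wT_wT j Y' X' μ
  have s1 : wT (j + 1) X' (wT j X' μ) = 0 := wT_self j X' μ
  have s2 : wT (j + 1) Y' (wT j Y' μ) = 0 := wT_self j Y' μ
  simp only [← bxL_apply, star1_wT_sub, wT_add, LinearMap.sub_apply, LinearMap.add_apply, map_sub,
    map_add, a1, a2, a3, a4, a5, s1, s2, map_neg, map_zero]
  abel

theorem d3_star {F : Type u} [Field F] (j : ℕ) {x y : F} (hx : x ≠ 0) (hx1 : x ≠ 1) (hy : y ≠ 0)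
    (hy1 : y ≠ 1) (hxy : x ≠ y) (μ : Tx j F) :
    d3 (j + 1) (star j x y μ) + bx x (wT (j + 1) (lg (1 - y)) (wT j (lg y) μ)) -
      bx y (wT (j + 1) (lg (1 - x)) (wT j (lg x) μ)) ∈ Rel (j + 2) F := by
  have hx' : 1 - x ≠ 0 := sub_ne_zero.2 (Ne.symm hx1)
  have hy' : 1 - y ≠ 0 := sub_ne_zero.2 (Ne.symm hy1)
  have lC : lg (x / y) = lg x - lg y := star1_lg_div hx hy
  have lG : lg ((1 - x) / (1 - y)) = lg (1 - x) - lg (1 - y) := star1_lg_div hx' hy'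
  have lD : lg (y * (1 - x) / (x * (1 - y))) = lg y + lg (1 - x) - (lg x + lg (1 - y)) := by
    rw [star1_lg_div (mul_ne_zero hy hx') (mul_ne_zero hx hy'), lg_mul hy hx', lg_mul hx hy']
  have h1 : y / x = (x / y)⁻¹ := (inv_div x y).symm
  have h2 : (1 - x⁻¹) / (1 - y⁻¹) = y * (1 - x) / (x * (1 - y)) := by
    have e1 : 1 - x⁻¹ = -((1 - x) / x) := by
      field_simp
      ring
    have e2 : 1 - y⁻¹ = -((1 - y) / y) := by
      field_simp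
      ring
    rw [e1, e2, neg_div_neg_eq, div_div_div_eq, mul_comm (1 - x) y]
  have hs : ∀ z, z ∈ ({z | ∃ ω : Tx (j + 2) F, z = bx 0 ω} ∪
      {z | ∃ ω : Tx (j + 2) F, z = bx 1 ω} ∪
      {z | ∃ (x : F) (ω : Tx (j + 2) F), z = bx x ω + bx x⁻¹ ω} ∪
      {z | ∃ (x : F) (ω : Tx (j + 2) F), z = bx x ω + bx (1 - x) ω} ∪
      {z | ∃ (x y : F) (ω : Tx (j + 2) F), x ≠ 0 ∧ x ≠ 1 ∧ y ≠ 0 ∧ y ≠ 1 ∧ x ≠ y ∧
        z = five x y ω}) → z ∈ Rel (j + 2) F := fun z hz => Submodule.subset_span hz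
  have key : d3 (j + 1) (star j x y μ) + bx x (wT (j + 1) (lg (1 - y)) (wT j (lg y) μ)) -
      bx y (wT (j + 1) (lg (1 - x)) (wT j (lg x) μ)) =
      (bx (x / y) (wT (j + 1) (lg x - lg y) (wT j (lg (1 - x) - lg (1 - y)) μ)) +
        bx (x / y)⁻¹ (wT (j + 1) (lg x - lg y) (wT j (lg (1 - x) - lg (1 - y)) μ))) -
      five x y (wT (j + 1) (lg x - lg y) (wT j (lg (1 - x) - lg (1 - y)) μ)) +
      (bx x (wT (j + 1) (lg (1 - x)) (wT j (lg y) μ)) +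
        bx (1 - x) (wT (j + 1) (lg (1 - x)) (wT j (lg y) μ))) -
      (bx y (wT (j + 1) (lg (1 - y)) (wT j (lg x) μ)) +
        bx (1 - y) (wT (j + 1) (lg (1 - y)) (wT j (lg x) μ))) := by
    have e0 : d3 (j + 1) (star j x y μ) =
        bx (x / y) (wT (j + 1) (lg x - lg y) (wT j (lg (1 - x) - lg (1 - y)) μ)) -
        bx (y * (1 - x) / (x * (1 - y))) (wT (j + 1) (lg y + lg (1 - x) - (lg x + lg (1 - y)))
          (wT j (lg (1 - x) - lg (1 - y)) μ)) -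
        bx x (wT (j + 1) (lg x) (wT j (lg (1 - x) - lg (1 - y)) μ)) -
        bx y (wT (j + 1) (lg y) (wT j (lg (1 - x) - lg (1 - y)) μ)) + 0 +
        bx ((1 - x) / (1 - y)) (wT (j + 1) (lg (1 - x) - lg (1 - y)) (wT j (lg x - lg y) μ)) +
        bx (1 - x) (wT (j + 1) (lg (1 - x)) (wT j (lg y) μ)) -
        bx (1 - y) (wT (j + 1) (lg (1 - y)) (wT j (lg x) μ)) := by
      rw [star, map_sub, map_add, map_add, map_add, map_sub, map_sub, map_sub, d3_bx, d3_bx, d3_bx,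
        d3_bx, d3_bx, d3_bx, d3_bx, d3_bx, lC, lG, lD, lg_one, wT_zero, LinearMap.zero_apply,
        bx_zero]
    rw [e0, five, h1, h2]
    exact star1_aux j x y (lg x) (lg (1 - x)) (lg y) (lg (1 - y)) (x / y)
      (y * (1 - x) / (x * (1 - y))) ((1 - x) / (1 - y)) μ
  rw [key]
  refine Submodule.sub_mem _ (Submodule.add_mem _ (Submodule.sub_mem _ ?_ ?_) ?_) ?_
  · exact hs _ (Or.inl (Or.inl (Or.inr ⟨_, _, rfl⟩)))
  · exact hs _ (Or.inr ⟨x, y, _, hx, hx1, hy, hy1, hxy, rfl⟩)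
  · exact hs _ (Or.inl (Or.inr ⟨_, _, rfl⟩))
  · exact hs _ (Or.inl (Or.inr ⟨_, _, rfl⟩))

end TGF
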