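import Pool.Agent.TGF.Defs

set_option autoImplicit false

/-!
# TGF: theories

A theory `H : Thy` has groups `Y F j` of cochains for every field `F` and every `j` (with `j`
factors in the exterior part, of weight `j + off`), cocycles `Z F j` and null cochains `N F j`,
functorial maps `map`, products `cup` with units, specialisations `sp` and residues `re` for
valuations with leading coefficients.  The three theories are `H^{n-2}`, `H^{n-1}` and `H^n` of
Goncharov's complexes.  `Laws H` are the properties used for the reciprocity on curves.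
-/

noncomputable section

open Polynomial TensorProduct
open scoped Classical

namespace TGF

open Helper14.Gon Helper14.W4 QPL

universe u

/-- The data of a theory. -/
structure Thy where
  Y : (F : Type u) → [Field F] → ℕ → Type u
  iA : (F : Type u) → [Field F] → (j : ℕ) → AddCommGroup (Y F j)
  iM : (F : Type u) → [Field F] → (j : ℕ) → Module ℚ (Y F j)
  map : {F L : Type u} → [Field F] → [Field L] → (φ : F →+* L) → (j : ℕ) → Y F j →ₗ[ℚ] Y L j
  cup : {F : Type u} → [Field F] → (j : ℕ) → (v : Additive Fˣ) → Y F j →ₗ[ℚ] Y F (j + 1)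
  sp : {L k : Type u} → [Field L] → [Field k] → (V : AC L k) → (j : ℕ) → Y L j →ₗ[ℚ] Y k j
  re : {L k : Type u} → [Field L] → [Field k] → (V : AC L k) → (j : ℕ) → Y L (j + 1) →ₗ[ℚ] Y k j
  Z : (F : Type u) → [Field F] → (j : ℕ) → Submodule ℚ (Y F j)
  N : (F : Type u) → [Field F] → (j : ℕ) → Submodule ℚ (Y F j)
  off : ℕ

attribute [instance] Thy.iA Thy.iM

/-- The formal properties of a theory. -/
structure Laws (H : Thy.{u}) : Prop where
  map_id : ∀ (F : Type u) [Field F] (j : ℕ) (z : H.Y F j), H.map (RingHom.id F) j z = z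
  map_comp : ∀ (F L M : Type u) [Field F] [Field L] [Field M] (φ : F →+* L) (ψ : L →+* M) (j : ℕ)
    (z : H.Y F j), H.map (ψ.comp φ) j z = H.map ψ j (H.map φ j z)
  map_cup : ∀ (F L : Type u) [Field F] [Field L] (φ : F →+* L) (j : ℕ) (v : Additive Fˣ)
    (z : H.Y F j), H.map φ (j + 1) (H.cup j v z) = H.cup j (resU φ v) (H.map φ j z)
  map_Z : ∀ (F L : Type u) [Field F] [Field L] (φ : F →+* L) (j : ℕ) (z : H.Y F j),
    z ∈ H.Z F j → H.map φ j z ∈ H.Z L j
  map_N : ∀ (F L : Type u) [Field F] [Field L] (φ : F →+* L) (j : ℕ) (z : H.Y F j),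
    z ∈ H.N F j → H.map φ j z ∈ H.N L j
  cup_Z : ∀ (F : Type u) [Field F] (j : ℕ) (v : Additive Fˣ) (z : H.Y F j),
    z ∈ H.Z F j → H.cup j v z ∈ H.Z F (j + 1)
  re_Z : ∀ (L k : Type u) [Field L] [Field k] (V : AC L k) (j : ℕ) (z : H.Y L (j + 1)),
    z ∈ H.Z L (j + 1) → H.re V j z ∈ H.Z k j
  re_N : ∀ (L k : Type u) [Field L] [Field k] (V : AC L k) (j : ℕ) (z : H.Y L (j + 1)),
    z ∈ H.N L (j + 1) → H.re V j z ∈ H.N k j
  re_cup_zero : ∀ (L k : Type u) [Field L] [Field k] (V : AC L k) (v : Additive Lˣ)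
    (z : H.Y L 0), H.re V 0 (H.cup 0 v z) = V.vH v • H.sp V 0 z
  re_cup : ∀ (L k : Type u) [Field L] [Field k] (V : AC L k) (j : ℕ) (v : Additive Lˣ)
    (z : H.Y L (j + 1)), H.re V (j + 1) (H.cup (j + 1) v z) =
      V.vH v • H.sp V (j + 1) z - H.cup j (V.lH v) (H.re V j z)
  /-- restriction of the valuation -/
  re_comap : ∀ (F L k : Type u) [Field F] [Field L] [Field k] (V : AC L k) (φ : F →+* L) (j : ℕ)
    (z : H.Y F (j + 1)), H.re (V.comap φ) j z = H.re V j (H.map φ (j + 1) z)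
  sp_comap : ∀ (F L k : Type u) [Field F] [Field L] [Field k] (V : AC L k) (φ : F →+* L) (j : ℕ)
    (z : H.Y F j), H.sp (V.comap φ) j z = H.sp V j (H.map φ j z)
  /-- extension of the residue field -/
  re_push : ∀ (L k l : Type u) [Field L] [Field k] [Field l] (V : AC L k) (ψ : k →+* l) (j : ℕ)
    (z : H.Y L (j + 1)), H.re (V.push ψ) j z = H.map ψ j (H.re V j z)
  /-- trivial valuations -/
  re_triv : ∀ (L k : Type u) [Field L] [Field k] (V : AC L k) (ψ : L →+* k),
    (∀ x : L, x ≠ 0 → V.v x = 0 ∧ V.lc x = ψ x) → ∀ (j : ℕ) (z : H.Y L (j + 1)), H.re V j z = 0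
  sp_triv : ∀ (L k : Type u) [Field L] [Field k] (V : AC L k) (ψ : L →+* k),
    (∀ x : L, x ≠ 0 → V.v x = 0 ∧ V.lc x = ψ x) → ∀ (j : ℕ) (z : H.Y L j),
      H.sp V j z = H.map ψ j z
  /-- change of the uniformizer and of the normalisation -/
  re_unif : ∀ (L k : Type u) [Field L] [Field k] (V V' : AC L k) (m : ℚ),
    (∀ x : L, x ≠ 0 → V'.v x = m * V.v x) → (∀ x : L, x ≠ 0 → V.v x = 0 → V'.lc x = V.lc x) →
    ∀ (j : ℕ) (z : H.Y L (j + 1)), H.re V' j z = m • H.re V j z
  /-- Frobenius -/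
  frob : ∀ (p : ℕ) (_ : p.Prime) (F : Type u) [Field F] [CharP F p] [ExpChar F p] (j : ℕ)
    (z : H.Y F j), H.map (frobenius F p) j z - ((p : ℚ) ^ (j + H.off)) • z ∈ H.N F j
  /-- residues of cochains which reduce to a field algebraic over `F_p` -/
  small : ∀ (p : ℕ) (_ : p.Prime) (F L k : Type u) [Field F] [Field L] [Field k] [CharP k p]
    (V : AC L k) (φ : F →+* L), (∀ x : F, x ≠ 0 → ∃ m : ℕ, m ≠ 0 ∧ V.lc (φ x) ^ m = 1) →
    ∀ (j : ℕ), 2 ≤ j + H.off → ∀ (v : Additive Lˣ) (z : H.Y F j),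
      H.re V j (H.cup j v (H.map φ j z)) ∈ H.N k j
  /-- null cochains over an algebraically closed field can be detected in extensions -/
  inj : ∀ (F L : Type u) [Field F] [Field L] [IsAlgClosed F] (φ : F →+* L) (j : ℕ)
    (z : H.Y F j), H.map φ j z ∈ H.N L j → z ∈ H.N F j
  /-- cocycles are defined over finitely generated subfields -/
  colim : ∀ (F : Type u) [Field F] (j : ℕ) (z : H.Y F j), z ∈ H.Z F j →
    ∃ S : Finset F, ∀ L : Subfield F, (S : Set F) ⊆ L →
      ∃ z' : H.Y L j, z' ∈ H.Z L j ∧ H.map L.subtype j z' = z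
  /-- null cochains are null over finitely generated extensions -/
  colimN : ∀ (F M : Type u) [Field F] [Field M] (φ : M →+* F) (j : ℕ) (z : H.Y M j),
    H.map φ j z ∈ H.N F j → ∃ S : Finset F, ∀ (L : Type u) [Field L] (ψ : M →+* L) (i : L →+* F),
      i.comp ψ = φ → (∀ x ∈ S, ∃ y : L, i y = x) → H.map ψ j z ∈ H.N L j
  /-- reciprocity on the line over an algebraically closed field -/
  recip : ∀ (K : Type u) [Field K] [IsAlgClosed K] (j : ℕ) (z : H.Y (RatFunc K) (j + 1)),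
    z ∈ H.Z (RatFunc K) (j + 1) → ∀ (V : K → AC (RatFunc K) K) (V' : AC (RatFunc K) K),
      (∀ a, IsAt a (V a)) → IsInf V' → ∃ s : Finset K, (∀ a, a ∉ s → H.re (V a) j z = 0) ∧
        ∑ a ∈ s, H.re (V a) j z + H.re V' j z ∈ H.N K j
  /-- residues are surjective -/
  resid : ∀ (K k : Type u) [Field K] [Field k] (p : SRG.Pl K k) (V : AC (RatFunc K) k),
    IsPt p V → ∀ (j : ℕ) (w : H.Y k j), w ∈ H.Z k j → ∃ z : H.Y (RatFunc K) (j + 1),
      z ∈ H.Z (RatFunc K) (j + 1) ∧ H.re V j z - w ∈ H.N k j ∧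
      ∀ (k' : Type u) [Field k'] (p' : SRG.Pl K k') (V' : AC (RatFunc K) k'), IsPt p' V' →
        p'.P ≠ p.P → p.P.natDegree ≤ p'.P.natDegree → H.re V' j z = 0

end TGF
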