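import Pool.Agent.TGF.RL
import Pool.Agent.TGF.Lift
import Pool.Agent.TGF.Lvs
import Pool.Agent.TGF.Rl2

set_option autoImplicit false

/-!
# TGF-Cp: exactness in codegree one, by levels

PLAN.  `Ex_insert`.  Let `P = p.P`, `y ∈ Lv (j + 1) (insert P S)`, `d2 y = 0`, residues in `BX`.
There are `v' : X j E`, `v' ∈ Lv j (insert P S)`, and `y₁ = y + d3 j v'` with `reX V j y₁ ∈ Rel j k`
(for all `j`): `j = 0`: `BX 0 k = Rel 0 k`, `v' = 0`.  `j = i + 1`: `reX V (i + 1) y = d3 i w' + r`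
(`Submodule.mem_sup`), `lift_X` gives `v' ∈ Lv (i + 1) (insert P S)` with `reX V i v' - w' ∈ Z0`, and
`reX V (i + 1) (d3 (i + 1) v') = - d3 i (reX V i v') = - d3 i w'` (`reX_d3`, `Z0_d3`).
`y₁ ∈ Lv (j + 1) (insert P S)` (`d3_Lv`), `d2 y₁ = 0` (`d2_d3`).  `RL`: `A₁` with `NR S j A₁`,
`y' ∈ Lv (j + 1) S`, `y₁ - d3 A₁ - y' ∈ Rel`.  `d2 y' = 0` (`d2_rel`).  For `p'.P ∈ S`:
`reX V' j y' = reX V' j y + reX V' j (d3 (v' - A₁)) - (Rel)` and `reX V' j (d3 j _) ∈ BX j` (`reX_d3`,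
`reX_d3_zero`; `reX_rel`), so the hypothesis `h : Ex S j` applies to `y'`: `A'`, `c`.
Take `A = A₁ + A' - v'`: `NR (insert P S) j A` by `NR_mono`, `NR_Lv`, `NR_add`, `NR_smul`.
`Ex_union`: `Finset.induction_on` (if `Q` is already in the set nothing changes); `SRG.exists_plOf` gives the
closed point `p` with `p.P = Q`; `SRG.Adm (lt K n ∪ T) n`.
`Ex_lt`: induction on `n`; `n = 0`: `Lv_const`, `A = 0`.  `n + 1`: `Lv_fin`, `Ex_union`, `NR_mono`.
-/

noncomputable section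

open Polynomial TensorProduct
open scoped Classical

namespace TGF

open Helper14.Gon Helper14.W4 QPL

universe u

section
variable {K : Type u} [Field K]

/-- See the header. -/
def Ex (S : Set K[X]) (j : ℕ) : Prop :=
  ∀ y ∈ Lv (j + 1) S, d2 (j + 1) y = 0 →
    (∀ (k : Type u) [Field k] (p : SRG.Pl K k) (V : AC (RatFunc K) k), IsPt p V → p.P ∈ S →
      reX V j y ∈ BX j k) →
    ∃ A : X j (RatFunc K), NR S j A ∧ ∃ c : X (j + 1) K,
      y - d3 j A - mX (j + 1) (RatFunc.C : K →+* RatFunc K) c ∈ Rel (j + 1) (RatFunc K)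

private lemma cp_rel_le {F : Type u} [Field F] (j : ℕ) : Rel j F ≤ BX j F := by
  cases j with
  | zero => exact le_rfl
  | succ j => exact le_sup_right (a := LinearMap.range (d3 j : X j F →ₗ[ℚ] X (j + 1) F))

private lemma cp_re_d3 {k : Type u} [Field k] (V : AC (RatFunc K) k) (j : ℕ)
    (B : X j (RatFunc K)) : reX V j (d3 j B) ∈ BX j k := by
  cases j with
  | zero =>
    rw [reX_d3_zero]
    exact Submodule.zero_mem _
  | succ i =>
    rw [reX_d3]
    exact Submodule.mem_sup_left (Submodule.neg_mem _ ⟨reX V i B, rfl⟩)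

private lemma cp_first {k : Type u} [Field k] {p : SRG.Pl K k} {V : AC (RatFunc K) k}
    {S : Set K[X]} (hS : SRG.Adm S p.d) (hP : p.P ∉ S) (hV : IsPt p V) (j : ℕ)
    (y : X (j + 1) (RatFunc K)) (hr : reX V j y ∈ BX j k) :
    ∃ v ∈ Lv j (insert p.P S), reX V j (y + d3 j v) ∈ Rel j k := by
  cases j with
  | zero =>
    refine ⟨0, Submodule.zero_mem _, ?_⟩
    rw [map_zero, add_zero]
    exact hr
  | succ i =>
    obtain ⟨a, ⟨w, rfl⟩, r, hr1, hr2⟩ := Submodule.mem_sup.1 hr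
    obtain ⟨v, hv, hw⟩ := lift_X hS hP hV i w
    refine ⟨v, hv, ?_⟩
    have h1 := Z0_d3 hw
    rw [map_sub, sub_eq_zero] at h1
    rw [map_add, reX_d3, h1, ← hr2]
    have h2 : d3 i w + r + -d3 i w = r := by abel
    rw [h2]
    exact hr1

theorem Ex_insert {k : Type u} [Field k] {p : SRG.Pl K k} {V : AC (RatFunc K) k} {S : Set K[X]}
    (hS : SRG.Adm S p.d) (hP : p.P ∉ S) (hV : IsPt p V) (j : ℕ) (h : Ex S j) :
    Ex (insert p.P S) j := by
  intro y hy h2 hres
  obtain ⟨v, hv, hr⟩ := cp_first hS hP hV j y (hres k p V hV (Set.mem_insert _ _))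
  have hy1 : y + d3 j v ∈ Lv (j + 1) (insert p.P S) := Submodule.add_mem _ hy (d3_Lv j hv)
  have h21 : d2 (j + 1) (y + d3 j v) = 0 := by
    rw [map_add, h2, d2_d3, add_zero]
  obtain ⟨A1, hA1, y', hy', hrel⟩ := RL hS hP hV j hy1 h21 hr
  have h2' : d2 (j + 1) y' = 0 := by
    have e := d2_rel (j + 1) hrel
    rw [map_sub, map_sub, h21, d2_d3, sub_zero, zero_sub, neg_eq_zero] at e
    exact e
  have hres' : ∀ (k' : Type u) [Field k'] (p' : SRG.Pl K k') (V' : AC (RatFunc K) k'),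
      IsPt p' V' → p'.P ∈ S → reX V' j y' ∈ BX j k' := by
    intro k' _ p' V' hV' hP'
    have e : y' = y + d3 j (v - A1) - (y + d3 j v - d3 j A1 - y') := by
      rw [map_sub]
      abel
    rw [e, map_sub, map_add]
    refine Submodule.sub_mem _ (Submodule.add_mem _
      (hres k' p' V' hV' (Set.mem_insert_of_mem _ hP')) (cp_re_d3 V' j _)) ?_
    exact cp_rel_le j (reX_rel V' j hrel)
  obtain ⟨A', hA', c, hc⟩ := h y' hy' h2' hres'
  refine ⟨A1 + A' + (-1 : ℚ) • v, ?_, c, ?_⟩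
  · refine NR_add _ j (NR_add _ j ?_ ?_) (NR_smul _ j _ (NR_Lv _ j hv))
    · exact NR_mono (Set.subset_insert _ _) j hA1
    · exact NR_mono (Set.subset_insert _ _) j hA'
  · have e : y - d3 j (A1 + A' + (-1 : ℚ) • v) - mX (j + 1) (RatFunc.C : K →+* RatFunc K) c =
        (y + d3 j v - d3 j A1 - y') +
          (y' - d3 j A' - mX (j + 1) (RatFunc.C : K →+* RatFunc K) c) := by
      rw [map_add, map_add, map_smul, neg_one_smul]
      abel
    rw [e]
    exact Submodule.add_mem _ hrel hc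

theorem Ex_union (j n : ℕ) (h : Ex (SRG.lt K n) j) (T : Finset K[X])
    (hT : ∀ Q ∈ T, Q.Monic ∧ Irreducible Q ∧ Q.natDegree = n) :
    Ex (SRG.lt K n ∪ (T : Set K[X])) j := by
  classical
  induction T using Finset.induction_on with
  | empty =>
    rw [Finset.coe_empty, Set.union_empty]
    exact h
  | insert Q T hQ ih =>
    have ih' := ih fun R hR => hT R (Finset.mem_insert_of_mem hR)
    obtain ⟨hm, hi, hn⟩ := hT Q (Finset.mem_insert_self _ _)
    obtain ⟨k, _, p, hp⟩ := SRG.exists_plOf hm hi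
    obtain ⟨V, hV⟩ := exists_pt p
    have hd : p.d = n := by
      rw [SRG.Pl.d, hp, hn]
    have hS : SRG.Adm (SRG.lt K n ∪ (T : Set K[X])) p.d := by
      rw [hd]
      refine ⟨?_, ?_, ?_, ?_⟩
      · rintro R (hR | hR)
        · exact hR.1
        · exact (hT R (Finset.mem_insert_of_mem hR)).1
      · rintro R (hR | hR)
        · exact hR.2.1
        · exact (hT R (Finset.mem_insert_of_mem hR)).2.1
      · rintro R (hR | hR)
        · exact hR.2.2.le
        · exact (hT R (Finset.mem_insert_of_mem hR)).2.2.le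
      · intro R h1 h2 h3
        exact Or.inl ⟨h1, h2, h3⟩
    have hPS : p.P ∉ SRG.lt K n ∪ (T : Set K[X]) := by
      rw [hp]
      rintro (h1 | h1)
      · exact absurd hn (h1.2.2).ne
      · exact hQ h1
    have e : SRG.lt K n ∪ ((insert Q T : Finset K[X]) : Set K[X]) =
        insert p.P (SRG.lt K n ∪ (T : Set K[X])) := by
      rw [hp, Finset.coe_insert, Set.union_insert]
    rw [e]
    exact Ex_insert hS hPS hV j ih'

theorem Ex_lt (j n : ℕ) : Ex (SRG.lt K n) j := by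
  induction n with
  | zero =>
    intro y hy _ _
    obtain ⟨c, hc⟩ := Lv_const (j + 1) hy
    refine ⟨0, NR_zero _ j, c, ?_⟩
    rw [map_zero, sub_zero, hc, sub_self]
    exact Submodule.zero_mem _
  | succ n ih =>
    intro y hy h2 hres
    obtain ⟨T, hT, hyT⟩ := Lv_fin (j + 1) n hy
    have hsub : SRG.lt K n ∪ (T : Set K[X]) ⊆ SRG.lt K (n + 1) := by
      rintro R (hR | hR)
      · exact ⟨hR.1, hR.2.1, hR.2.2.trans (Nat.lt_succ_self n)⟩
      · obtain ⟨h3, h4, h5⟩ := hT R hR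
        exact ⟨h3, h4, h5 ▸ Nat.lt_succ_self _⟩
    obtain ⟨A, hA, c, hc⟩ := Ex_union j n ih T hT y hyT h2
      (fun k _ p V hV hP => hres k p V hV (hsub hP))
    exact ⟨A, NR_mono hsub j hA, c, hc⟩

/-- exactness in codegree one -/
theorem exact_X (j : ℕ) (y : X (j + 1) (RatFunc K)) (h2 : d2 (j + 1) y = 0)
    (h : ∀ (k : Type u) [Field k] (p : SRG.Pl K k) (V : AC (RatFunc K) k), IsPt p V →
      reX V j y ∈ BX j k) :
    ∃ A : X j (RatFunc K), ∃ c : X (j + 1) K,
      y - d3 j A - mX (j + 1) (RatFunc.C : K →+* RatFunc K) c ∈ Rel (j + 1) (RatFunc K) := by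
  obtain ⟨n, hn⟩ := exists_Lv (j + 1) y
  obtain ⟨A, _, c, hc⟩ := Ex_lt j n y hn h2 (fun k _ p V hV _ => h k p V hV)
  exact ⟨A, c, hc⟩

end

end TGF
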