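import Pool.Agent.TGF.Fdef
import Pool.Agent.TGF.S
import Pool.Agent.QPL.Th

set_option autoImplicit false

/-!
# TGF-Dict: chains and the cohomology groups `HC`, `HT`

`t1`, `t2`, `t0` are the classes of chains; they are surjective, and they identify the cocycles, the coboundaries and the
functorial maps of the groups `HC`, `HT` with those of the theories `th1`, `th2`, `th0`.
-/

noncomputable section

open Polynomial TensorProduct
open scoped Classical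

namespace TGF

open Helper14.Gon Helper14.W4 Helper14.Loc QPL

universe u

section
variable {F L : Type u} [Field F] [Field L]

/-- the class of a chain in `B_2 ⊗ Λ^j` -/
def t1 (j : ℕ) : X j F →ₗ[ℚ] CC 0 j F := (eC F 0 j).symm.toLinearMap ∘ₗ (c2 j)

/-- the class of a chain in `B_3 ⊗ Λ^j` -/
def t2 (j : ℕ) : X j F →ₗ[ℚ] CC 1 j F := (eC F 1 j).symm.toLinearMap ∘ₗ (c3 j)

/-- the last term -/
def t0 (n : ℕ) : Tx n F →ₗ[ℚ] TT n F := (eT F n).symm.toLinearMap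

private lemma Dict_e1 (j : ℕ) (z : X j F) : eC F 0 j (t1 j z) = c2 j z :=
  LinearEquiv.apply_symm_apply _ _

private lemma Dict_e2 (j : ℕ) (z : X j F) : eC F 1 j (t2 j z) = c3 j z :=
  LinearEquiv.apply_symm_apply _ _

private lemma Dict_e0 (n : ℕ) (z : Tx n F) : eT F n (t0 n z) = z :=
  LinearEquiv.apply_symm_apply _ _

lemma t1_surj (j : ℕ) (y : CC 0 j F) : ∃ z : X j F, t1 j z = y := by
  obtain ⟨z, hz⟩ := c2_surj j (eC F 0 j y)
  exact ⟨z, (eC F 0 j).injective (by rw [Dict_e1, hz])⟩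

lemma t1_Z (j : ℕ) (z : X j F) : t1 j z ∈ ZC F 0 j ↔ z ∈ th1.Z F j := by
  rw [mem_ZC, Dict_e1]
  change dT j (c2 j z) = 0 ↔ d2 j z = 0
  rw [dT_c2]

lemma t1_B (j : ℕ) (z : X j F) : t1 j z ∈ BC F 0 j ↔ z ∈ th1.N F j := by
  rw [mem_BC, Dict_e1]
  rfl

lemma t1_rs (j : ℕ) (φ : F →+* L) (z : X j F) : rs 0 j φ (t1 j z) = t1 j (th1.map φ j z) := by
  refine (eC L 0 j).injective ?_
  rw [rs_eq, Dict_e1]
  refine (resC_c2 j φ z).trans ?_
  exact (Dict_e1 j (mX j φ z)).symm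

lemma t2_surj (j : ℕ) (y : CC 1 j F) : ∃ z : X j F, t2 j z = y := by
  obtain ⟨z, hz⟩ := c3_surj j (eC F 1 j y)
  exact ⟨z, (eC F 1 j).injective (by rw [Dict_e2, hz])⟩

lemma t2_Z (j : ℕ) (z : X j F) : t2 j z ∈ ZC F 1 j ↔ z ∈ th2.Z F j := by
  rw [mem_ZC, Dict_e2]
  exact (mem_ZX j z).symm

lemma t2_B (j : ℕ) (z : X j F) : t2 j z ∈ BC F 1 j ↔ z ∈ th2.N F j := by
  rw [mem_BC, Dict_e2]
  rfl

lemma t2_rs (j : ℕ) (φ : F →+* L) (z : X j F) : rs 1 j φ (t2 j z) = t2 j (th2.map φ j z) := by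
  refine (eC L 1 j).injective ?_
  rw [rs_eq, Dict_e2]
  refine (resC_c3 j φ z).trans ?_
  exact (Dict_e2 j (mX j φ z)).symm

lemma t0_surj (n : ℕ) (y : TT n F) : ∃ z : Tx n F, t0 n z = y :=
  ⟨eT F n y, LinearEquiv.symm_apply_apply _ _⟩

lemma t0_B (n : ℕ) (z : Tx n F) : t0 n z ∈ BT F n ↔ z ∈ th0.N F n := by
  match n, z with
  | 0, z =>
    change t0 0 z ∈ (⊥ : Submodule ℚ (TT 0 F)) ↔ z ∈ (⊥ : Submodule ℚ (Tx 0 F))
    rw [Submodule.mem_bot, Submodule.mem_bot]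
    exact LinearEquiv.map_eq_zero_iff (eT F 0).symm
  | 1, z =>
    change t0 1 z ∈ (⊥ : Submodule ℚ (TT 1 F)) ↔ z ∈ (⊥ : Submodule ℚ (Tx 1 F))
    rw [Submodule.mem_bot, Submodule.mem_bot]
    exact LinearEquiv.map_eq_zero_iff (eT F 1).symm
  | n + 2, z =>
    rw [mem_BT, Dict_e0]
    rfl

lemma t0_rt (n : ℕ) (φ : F →+* L) (z : Tx n F) : rt n φ (t0 n z) = t0 n (th0.map φ n z) := by
  refine (eT L n).injective ?_
  rw [rt_eq, Dict_e0]
  exact (Dict_e0 n (resT n φ z)).symm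

end

end TGF
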