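import Pool.Agent.TGF.Koz

set_option autoImplicit false

/-!
# TGF-Tq: maps on `Λ^j F^* ⊗ ℚ` induced by `ℚ`-linear maps on `F^* ⊗ ℚ`

PLAN.  Recursion on `j` (`Nat.rec` on the existence, or choose `T j` by `Classical.choice` with the
property for `j`): `T 0 = tm 0 0` (`tm_dm`: `dm v ↦ dm _`).  `T 1` from `koszul0` with
`χ w η = wW 0 (s (toQ w)) (T 0 η)`; `T (j + 2)` from `koszul` with `G = H = ⊤` and
`χ w η = wW (j + 1) (s (toQ w)) (T (j + 1) η)`; the condition is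
`wW (j+1) x (wW j x _) = 0` (`x = s (toQ w)`; expand `x` in a finite sum of `q • toQ v`, `wW_toQ`, or
`wW_wT` and induction: `wW (j + 1) x (wW j y ω) = - wW (j + 1) y (wW j x ω)`).
To organise the recursion: prove `∀ n, ∃ T : (i : ℕ) → Tx i F →ₗ[ℚ] Tx i L, (property for all i < n)`
is not enough for one family; use instead the sigma type of a linear map `T` on `Tx j` together with
the fact that `T` is `dm v ↦ s v_1 ∧ … ∧ s v_j` (unique!), so: for every `j` there is a unique linear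
map with `T (dm v) = dq s v`, where `dq s v` is defined by recursion,
`dq (j + 1) v = wW j (s (toQ (v 0))) (dq j (tail v))`.
-/

noncomputable section

open Polynomial TensorProduct
open scoped Classical

namespace TGF

open Helper14.Gon Helper14.W4

universe u v w

section
variable {F : Type u} [Field F] {L : Type v} [Field L]

private lemma tq_toQ_add (a b : Additive Fˣ) : (toQ (a + b) : WQ F) = toQ a + toQ b := by
  rw [toQ, toQ, toQ, tmul_add]

private lemma tq_anti (j : ℕ) (x y : WQ L) (ω : Tx j L) :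
    wW (j + 1) x (wW j y ω) = - wW (j + 1) y (wW j x ω) := by
  let f : WQ L →ₗ[ℚ] Tx (j + 2) L := (wW (j + 1) x) ∘ₗ (LinearMap.applyₗ ω) ∘ₗ (wW j)
  let g : WQ L →ₗ[ℚ] Tx (j + 2) L := -((LinearMap.applyₗ (wW j x ω)) ∘ₗ (wW (j + 1)))
  have h : f = g := by
    refine WQ_ext fun v => ?_
    change wW (j + 1) x (wW j (toQ v) ω) = - wW (j + 1) (toQ v) (wW j x ω)
    rw [wW_toQ, wW_toQ, wW_wT]
  exact LinearMap.congr_fun h y

private lemma tq_self (j : ℕ) (x : WQ L) (ω : Tx j L) : wW (j + 1) x (wW j x ω) = 0 := by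
  have h := tq_anti j x x ω
  rw [← add_eq_zero_iff_eq_neg, ← two_smul ℚ] at h
  exact (smul_eq_zero.1 h).resolve_left two_ne_zero

/-- the property of the first `n` maps -/
private def tq_P (s : WQ F →ₗ[ℚ] WQ L) (n : ℕ) (T : (j : ℕ) → (Tx j F →ₗ[ℚ] Tx j L)) : Prop :=
  (∀ v : Fin 0 → Additive Fˣ, ∀ v' : Fin 0 → Additive Lˣ, T 0 (dm v) = dm v') ∧
    ∀ j < n, ∀ (w : Additive Fˣ) (η : Tx j F), T (j + 1) (wT j w η) = wW j (s (toQ w)) (T j η)

private lemma tq_uniq (s : WQ F →ₗ[ℚ] WQ L) {n m : ℕ} {T T' : (j : ℕ) → (Tx j F →ₗ[ℚ] Tx j L)}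
    (h : tq_P s n T) (h' : tq_P s m T') (i : ℕ) (hn : i ≤ n) (hm : i ≤ m) : T i = T' i := by
  induction i with
  | zero =>
    refine Tx_ext fun v => ?_
    have h1 := h.1 v (fun i => i.elim0)
    have h2 := h'.1 v (fun i => i.elim0)
    exact h1.trans h2.symm
  | succ i ih =>
    refine Tx_ext_succ fun v ω => ?_
    rw [h.2 i (by omega), h'.2 i (by omega), ih (by omega) (by omega)]

private def tq_chi (s : WQ F →ₗ[ℚ] WQ L) (j : ℕ) (T : Tx j F →ₗ[ℚ] Tx j L) :
    Additive Fˣ →+ (Tx j F →ₗ[ℚ] Tx (j + 1) L) :=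
  AddMonoidHom.mk' (fun w => (wW j (s (toQ w))) ∘ₗ T) (fun a b => by
    rw [tq_toQ_add, map_add, map_add, LinearMap.add_comp])

private lemma tq_step (s : WQ F →ₗ[ℚ] WQ L) (n : ℕ) (T : (j : ℕ) → (Tx j F →ₗ[ℚ] Tx j L))
    (h : tq_P s n T) : ∃ Om : Tx (n + 1) F →ₗ[ℚ] Tx (n + 1) L,
      ∀ (w : Additive Fˣ) (η : Tx n F), Om (wT n w η) = wW n (s (toQ w)) (T n η) := by
  cases n with
  | zero =>
    obtain ⟨Om, hOm⟩ := koszul0 (tq_chi s 0 (T 0))
    exact ⟨Om, fun w η => hOm w η⟩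
  | succ m =>
    obtain ⟨Om, hOm⟩ := koszul m (⊤ : AddSubgroup (Additive Fˣ)) ⊤ le_rfl
      (tq_chi s (m + 1) (T (m + 1))) (by
        intro k _ μ _
        change wW (m + 1) (s (toQ k)) (T (m + 1) (wT m k μ)) = 0
        rw [h.2 m (by omega), tq_self])
    exact ⟨Om, fun w η => hOm w (AddSubgroup.mem_top w) η (TS_top (m + 1) η)⟩

private lemma tq_ex (s : WQ F →ₗ[ℚ] WQ L) (n : ℕ) :
    ∃ T : (j : ℕ) → (Tx j F →ₗ[ℚ] Tx j L), tq_P s n T := by
  induction n with
  | zero =>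
    refine ⟨fun j => tm j 0, fun v v' => ?_, fun j hj => absurd hj (Nat.not_lt_zero j)⟩
    rw [tm_dm]
    congr 1
    funext i
    exact i.elim0
  | succ n ih =>
    obtain ⟨T, hT⟩ := ih
    obtain ⟨Om, hOm⟩ := tq_step s n T hT
    refine ⟨Function.update T (n + 1) Om, fun v v' => ?_, fun j hj w η => ?_⟩
    · rw [Function.update_of_ne (by omega)]
      exact hT.1 v v'
    · rcases Nat.lt_succ_iff_lt_or_eq.1 hj with hj' | rfl
      · rw [Function.update_of_ne (by omega), Function.update_of_ne (by omega)]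
        exact hT.2 j hj' w η
      · rw [Function.update_self, Function.update_of_ne (by omega)]
        exact hOm w η

end

theorem exists_tq {F : Type u} [Field F] {L : Type v} [Field L] (s : WQ F →ₗ[ℚ] WQ L) :
    ∃ T : (j : ℕ) → (Tx j F →ₗ[ℚ] Tx j L),
      (∀ v : Fin 0 → Additive Fˣ, ∀ v' : Fin 0 → Additive Lˣ, T 0 (dm v) = dm v') ∧
      ∀ (j : ℕ) (w : Additive Fˣ) (η : Tx j F), T (j + 1) (wT j w η) = wW j (s (toQ w)) (T j η) := by
  choose Tn hTn using tq_ex s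
  refine ⟨fun j => Tn j j, fun v v' => (hTn 0).1 v v', fun j w η => ?_⟩
  have h1 := (hTn (j + 1)).2 j (Nat.lt_succ_self j) w η
  rw [tq_uniq s (hTn (j + 1)) (hTn j) j (Nat.le_succ j) le_rfl] at h1
  exact h1

end TGF
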