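import Pool.Agent.TGF.Tm

set_option autoImplicit false

/-!
# TGF-Ts: the subspaces `TS j G`

`TS j G` is the span of the `dm v` with all `v i ∈ G`.  Induction on its elements, contractions,
adjoining one element to `G`, and the maps induced by homomorphisms.
-/

noncomputable section

open Polynomial TensorProduct
open scoped Classical

namespace TGF

open Helper14.Gon Helper14.W4

universe u v w

section
variable {F : Type u} [Field F] {L : Type v} [Field L]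

lemma dm_mem_TS {j : ℕ} {G : AddSubgroup (Additive Fˣ)} {v : Fin j → Additive Fˣ}
    (h : ∀ i, v i ∈ G) : (dm v : Tx j F) ∈ TS j G :=
  Submodule.subset_span ⟨v, h, rfl⟩

/-- a subspace containing all decomposable elements is everything -/
private lemma ts_all {j : ℕ} (P : Submodule ℚ (Tx j F))
    (h : ∀ v : Fin j → Additive Fˣ, (dm v : Tx j F) ∈ P) (ω : Tx j F) : ω ∈ P := by
  have h1 : P.mkQ = 0 := by
    refine Tx_ext fun v => ?_
    rw [LinearMap.zero_apply, Submodule.mkQ_apply, Submodule.Quotient.mk_eq_zero]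
    exact h v
  rw [← Submodule.Quotient.mk_eq_zero, ← Submodule.mkQ_apply, h1, LinearMap.zero_apply]

private lemma ts_zsmul (j : ℕ) (m : ℤ) (v : Additive Fˣ) (ω : Tx j F) :
    wT j (m • v) ω = wT j v (m • ω) := by
  have h1 : wTH j (m • v) = m • wTH j v := map_zsmul _ _ _
  have h2 : wT j (m • v) = m • wT j v := h1
  rw [h2, map_zsmul]
  rfl

lemma TS_mono (j : ℕ) {G G' : AddSubgroup (Additive Fˣ)} (h : G ≤ G') : TS j G ≤ TS j G' := by
  refine Submodule.span_mono ?_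
  rintro ω ⟨v, hv, rfl⟩
  exact ⟨v, fun i => h (hv i), rfl⟩

lemma TS_zero (G : AddSubgroup (Additive Fˣ)) (ω : Tx 0 F) : ω ∈ TS 0 G :=
  ts_all _ (fun _ => dm_mem_TS fun i => i.elim0) ω

lemma TS_top (j : ℕ) (ω : Tx j F) : ω ∈ TS j (⊤ : AddSubgroup (Additive Fˣ)) :=
  ts_all _ (fun _ => dm_mem_TS fun _ => AddSubgroup.mem_top _) ω

lemma wT_mem_TS (j : ℕ) {G : AddSubgroup (Additive Fˣ)} {v : Additive Fˣ} (hv : v ∈ G)
    {ω : Tx j F} (hω : ω ∈ TS j G) : wT j v ω ∈ TS (j + 1) G := by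
  have h1 : TS j G ≤ (TS (j + 1) G).comap (wT j v) := by
    rw [TS, Submodule.span_le]
    rintro ω ⟨w, hw, rfl⟩
    change wT j v (dm w) ∈ TS (j + 1) G
    rw [wT_dm]
    refine dm_mem_TS fun i => ?_
    refine Fin.cases ?_ (fun i => ?_) i
    · exact hv
    · exact hw i
  exact h1 hω

/-- induction on the elements of `TS (j + 1) G` -/
lemma TS_succ_ind {j : ℕ} {G : AddSubgroup (Additive Fˣ)} (q : Tx (j + 1) F → Prop) (h0 : q 0)
    (hadd : ∀ a b, a ∈ TS (j + 1) G → b ∈ TS (j + 1) G → q a → q b → q (a + b))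
    (h1 : ∀ v ∈ G, ∀ ω ∈ TS j G, q (wT j v ω)) {z : Tx (j + 1) F} (hz : z ∈ TS (j + 1) G) : q z := by
  induction hz using Submodule.closure_induction with
  | zero => exact h0
  | add x y hx hy h2 h3 => exact hadd x y hx hy h2 h3
  | smul_mem r x hx =>
    obtain ⟨w, hw, rfl⟩ := hx
    have e : Matrix.vecCons (w 0) (fun i => w i.succ) = w := by
      funext i
      refine Fin.cases ?_ (fun i => ?_) i
      · rfl
      · rfl
    have h2 : (dm w : Tx (j + 1) F) = wT j (w 0) (dm fun i => w i.succ) := by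
      rw [wT_dm, e]
    rw [h2, ← map_smul]
    exact h1 _ (hw 0) _ (Submodule.smul_mem _ r (dm_mem_TS fun i => hw i.succ))

lemma ctT_TS (j : ℕ) {G : AddSubgroup (Additive Fˣ)} {θ : Additive Fˣ →+ ℚ}
    (h : ∀ v ∈ G, θ v = 0) {ω : Tx (j + 1) F} (hω : ω ∈ TS (j + 1) G) : ctT j θ ω = 0 := by
  induction j with
  | zero =>
    refine TS_succ_ind (fun z => ctT 0 θ z = 0) (map_zero _) ?_ ?_ hω
    · intro a b _ _ ha hb
      change ctT 0 θ (a + b) = 0
      rw [map_add, ha, hb, add_zero]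
    · intro v hv ω _
      change ctT 0 θ (wT 0 v ω) = 0
      rw [ctT_wT_zero, h v hv, zero_smul]
  | succ j ih =>
    refine TS_succ_ind (fun z => ctT (j + 1) θ z = 0) (map_zero _) ?_ ?_ hω
    · intro a b _ _ ha hb
      change ctT (j + 1) θ (a + b) = 0
      rw [map_add, ha, hb, add_zero]
    · intro v hv ω hω
      change ctT (j + 1) θ (wT (j + 1) v ω) = 0
      rw [ctT_wT, h v hv, zero_smul, ih hω, map_zero, sub_zero]

lemma ctT_mem_TS (j : ℕ) {G : AddSubgroup (Additive Fˣ)} (θ : Additive Fˣ →+ ℚ)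
    {ω : Tx (j + 1) F} (hω : ω ∈ TS (j + 1) G) : ctT j θ ω ∈ TS j G := by
  induction j with
  | zero => exact TS_zero G _
  | succ j ih =>
    refine TS_succ_ind (fun z => ctT (j + 1) θ z ∈ TS (j + 1) G) ?_ ?_ ?_ hω
    · change ctT (j + 1) θ 0 ∈ TS (j + 1) G
      rw [map_zero]
      exact Submodule.zero_mem _
    · intro a b _ _ ha hb
      change ctT (j + 1) θ (a + b) ∈ TS (j + 1) G
      rw [map_add]
      exact Submodule.add_mem _ ha hb
    · intro v hv ω hω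
      change ctT (j + 1) θ (wT (j + 1) v ω) ∈ TS (j + 1) G
      rw [ctT_wT]
      exact Submodule.sub_mem _ (Submodule.smul_mem _ _ hω) (wT_mem_TS j hv (ih hω))

/-- elements of `TS (j + 1) (G + ℤ π)` -/
lemma TS_ins (j : ℕ) {G G' : AddSubgroup (Additive Fˣ)} {π : Additive Fˣ}
    (h : G' ≤ G ⊔ AddSubgroup.zmultiples π) {ω : Tx (j + 1) F} (hω : ω ∈ TS (j + 1) G') :
    ∃ a ∈ TS (j + 1) G, ∃ b ∈ TS j G, ω = a + wT j π b := by
  have hv0 : ∀ v ∈ G', ∃ g ∈ G, ∃ m : ℤ, v = g + m • π := by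
    intro v hv
    obtain ⟨g, hg, z, hz, rfl⟩ := AddSubgroup.mem_sup.1 (h hv)
    obtain ⟨m, rfl⟩ := AddSubgroup.mem_zmultiples_iff.1 hz
    exact ⟨g, hg, m, rfl⟩
  have hzero : ∀ i : ℕ, ∃ a ∈ TS (i + 1) G, ∃ b ∈ TS i G, (0 : Tx (i + 1) F) = a + wT i π b :=
    fun i => ⟨0, Submodule.zero_mem _, 0, Submodule.zero_mem _, by rw [map_zero, add_zero]⟩
  have hsum : ∀ (i : ℕ) (x y : Tx (i + 1) F),
      (∃ a ∈ TS (i + 1) G, ∃ b ∈ TS i G, x = a + wT i π b) →
      (∃ a ∈ TS (i + 1) G, ∃ b ∈ TS i G, y = a + wT i π b) →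
      ∃ a ∈ TS (i + 1) G, ∃ b ∈ TS i G, x + y = a + wT i π b := by
    rintro i x y ⟨a, ha, b, hb, rfl⟩ ⟨a', ha', b', hb', rfl⟩
    refine ⟨a + a', Submodule.add_mem _ ha ha', b + b', Submodule.add_mem _ hb hb', ?_⟩
    rw [map_add]
    abel
  induction j with
  | zero =>
    refine TS_succ_ind (fun z => ∃ a ∈ TS 1 G, ∃ b ∈ TS 0 G, z = a + wT 0 π b) (hzero 0)
      (fun x y _ _ hx hy => hsum 0 x y hx hy) ?_ hω
    intro v hv ω _
    obtain ⟨g, hg, m, rfl⟩ := hv0 v hv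
    refine ⟨wT 0 g ω, wT_mem_TS 0 hg (TS_zero G ω), m • ω, TS_zero G _, ?_⟩
    rw [wT_add, LinearMap.add_apply, ts_zsmul]
  | succ j ih =>
    refine TS_succ_ind (fun z => ∃ a ∈ TS (j + 2) G, ∃ b ∈ TS (j + 1) G, z = a + wT (j + 1) π b)
      (hzero (j + 1)) (fun x y _ _ hx hy => hsum (j + 1) x y hx hy) ?_ hω
    intro v hv ω hω
    obtain ⟨g, hg, m, rfl⟩ := hv0 v hv
    obtain ⟨a, ha, b, hb, rfl⟩ := ih hω
    refine ⟨wT (j + 1) g a, wT_mem_TS (j + 1) hg ha, m • a - wT j g b,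
      Submodule.sub_mem _ (zsmul_mem ha m) (wT_mem_TS j hg hb), ?_⟩
    rw [wT_add, LinearMap.add_apply, ts_zsmul, map_sub, map_add, wT_wT j g π b, map_zsmul,
      map_zsmul, map_add, wT_self, add_zero]
    abel

lemma exists_TS (j : ℕ) (ω : Tx j F) : ∃ s : Finset (Additive Fˣ),
    ∀ G : AddSubgroup (Additive Fˣ), (∀ v ∈ s, v ∈ G) → ω ∈ TS j G := by
  have hω : ω ∈ TS j (⊤ : AddSubgroup (Additive Fˣ)) := TS_top j ω
  induction hω using Submodule.span_induction with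
  | mem x hx =>
    obtain ⟨v, -, rfl⟩ := hx
    refine ⟨Finset.univ.image v, fun G hG => dm_mem_TS fun i => hG _ ?_⟩
    exact Finset.mem_image_of_mem v (Finset.mem_univ i)
  | zero => exact ⟨∅, fun G _ => Submodule.zero_mem _⟩
  | add x y _ _ hx hy =>
    obtain ⟨s, hs⟩ := hx
    obtain ⟨t, ht⟩ := hy
    refine ⟨s ∪ t, fun G hG => Submodule.add_mem _ (hs G fun v hv => ?_) (ht G fun v hv => ?_)⟩
    · exact hG v (Finset.mem_union_left t hv)
    · exact hG v (Finset.mem_union_right s hv)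
  | smul r x _ hx =>
    obtain ⟨s, hs⟩ := hx
    exact ⟨s, fun G hG => Submodule.smul_mem _ r (hs G hG)⟩

lemma TS_map (j : ℕ) {G : AddSubgroup (Additive Fˣ)} {G' : AddSubgroup (Additive Lˣ)}
    (σ : Additive Fˣ →+ Additive Lˣ) (h : ∀ v ∈ G, σ v ∈ G') {ω : Tx j F} (hω : ω ∈ TS j G) :
    tm j σ ω ∈ TS j G' := by
  have h1 : TS j G ≤ (TS j G').comap (tm j σ) := by
    rw [TS, Submodule.span_le]
    rintro ω ⟨w, hw, rfl⟩
    change tm j σ (dm w) ∈ TS j G'
    rw [tm_dm]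
    exact dm_mem_TS fun i => h _ (hw i)
  exact h1 hω

/-- if `σ` maps `G` onto `G'` then `TS j G'` is the image of `TS j G` -/
lemma TS_surj (j : ℕ) {G : AddSubgroup (Additive Fˣ)} {G' : AddSubgroup (Additive Lˣ)}
    (σ : Additive Fˣ →+ Additive Lˣ) (h : ∀ w ∈ G', ∃ v ∈ G, σ v = w) {η : Tx j L}
    (hη : η ∈ TS j G') : ∃ ω ∈ TS j G, tm j σ ω = η := by
  have h1 : TS j G' ≤ (TS j G).map (tm j σ) := by
    rw [TS, Submodule.span_le]
    rintro η ⟨w, hw, rfl⟩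
    choose v hv hvw using fun i => h (w i) (hw i)
    refine ⟨dm v, dm_mem_TS hv, ?_⟩
    rw [tm_dm]
    congr 1
    funext i
    exact hvw i
  obtain ⟨ω, hω, h2⟩ := h1 hη
  exact ⟨ω, hω, h2⟩

end

end TGF
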