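import Pool.Agent.TGF.Ts
import Pool.Agent.TGF.Pt

set_option autoImplicit false

/-!
# TGF-Star2: residues of the star element; residues of smooth chains

PLAN.  `reX_TS`: `reX_bx`, `reT`, `ctT_TS`.  `reX_Lv`: span of such.  `star_res`: with `v = V.v`:
`v x = 0` and `v (1 - x) = 0` (`SG_v`, `El S x`, `P ∉ S`), `v (1 - y) = 0`, `V.lc (1 - y) = 1`
(`add_lt` for `1 + (-y)`).  The terms `[C]`, `[D]`, `[y]` are dropped (`v C = - v y < 0`,
`v D = v y > 0`, `v y > 0`), the slots of `[x]`, `[1]` are `G ∧ μ` with `v G = 0`, residue `0`;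
`[G] C ∧ μ ↦ - v(y) [lc G] μ̄` with `lc G = lc (1 - x)`; `[1 - x] Y ∧ μ ↦ v(y) [lc (1 - x)] μ̄`;
`[1 - y] X ∧ μ ↦ 0`.  (`reT_wT`, `reT_wT_zero` according to `j`; `ctT_TS` for `μ`.)
`star_Lv`: all entries and slots of `star` are in `SG (insert P S)` and its entries are `El`:
`1 - C = (y - x)/y`, ... : CAREFUL, `y - x` need not be smooth, so `star` is not in `Lv`; but the slots
are in `TS (j + 1) (SG (insert P S))`, so the residues at the points outside `insert P S` vanish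
(`reX_TS`): this is `star_NR`.
-/

noncomputable section

open Polynomial TensorProduct
open scoped Classical

namespace TGF

open Helper14.Gon Helper14.W4 QPL

universe u v

section
variable {K : Type u} [Field K] {k : Type v} [Field k] {p : SRG.Pl K k} {V : AC (RatFunc K) k}
  {S : Set K[X]}

private lemma Star2_reT (V : AC (RatFunc K) k) (j : ℕ) {G : AddSubgroup (Additive (RatFunc K)ˣ)}
    (h : ∀ v ∈ G, V.vH v = 0) {ω : Tx (j + 1) (RatFunc K)} (hω : ω ∈ TS (j + 1) G) :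
    reT V j ω = 0 := by
  change tm j V.lH (ctT j V.vH ω) = 0
  rw [ctT_TS j h hω, map_zero]

private lemma Star2_reT_wT (V : AC (RatFunc K) k) (j : ℕ)
    {G : AddSubgroup (Additive (RatFunc K)ˣ)} (h : ∀ v ∈ G, V.vH v = 0)
    (v : Additive (RatFunc K)ˣ) {μ : Tx j (RatFunc K)} (hμ : μ ∈ TS j G) :
    reT V j (wT j v μ) = V.vH v • spT V j μ := by
  cases j with
  | zero => exact reT_wT_zero V v μ
  | succ j => rw [reT_wT, Star2_reT V j h hμ, map_zero, sub_zero]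

lemma reX_TS (V : AC (RatFunc K) k) (j : ℕ) {G : AddSubgroup (Additive (RatFunc K)ˣ)}
    (h : ∀ v ∈ G, V.vH v = 0) (x : RatFunc K) {ω : Tx (j + 1) (RatFunc K)}
    (hω : ω ∈ TS (j + 1) G) : reX V j (bx x ω) = 0 := by
  rw [reX_bx, Star2_reT V j h hω, bx_zero, ite_self]

lemma reX_Lv (hV : IsPt p V) (hP : p.P ∉ S) (j : ℕ) {z : X (j + 1) (RatFunc K)}
    (hz : z ∈ Lv (j + 1) S) : reX V j z = 0 := by
  have h : Lv (j + 1) S ≤ LinearMap.ker (reX V j) := by
    refine Submodule.span_le.2 ?_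
    rintro _ ⟨x, ω, _, hω, rfl⟩
    exact LinearMap.mem_ker.2 (reX_TS V j (fun v hv => SG_v hV hP hv) x hω)
  exact LinearMap.mem_ker.1 (h hz)

lemma NR_Lv (S : Set K[X]) (j : ℕ) {z : X j (RatFunc K)} (hz : z ∈ Lv j S) : NR S j z := by
  cases j with
  | zero => trivial
  | succ j =>
    intro k _ p V hV hP
    exact reX_Lv hV hP j hz

lemma NR_bx (S : Set K[X]) (j : ℕ) (x : RatFunc K) {ω : Tx j (RatFunc K)}
    (hω : ω ∈ TS j (SG S)) : NR S j (bx x ω) := by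
  cases j with
  | zero => trivial
  | succ j =>
    intro k _ p V hV hP
    exact reX_TS V j (fun v hv => SG_v hV hP hv) x hω

lemma NR_add (S : Set K[X]) (j : ℕ) {z z' : X j (RatFunc K)} (h : NR S j z) (h' : NR S j z') :
    NR S j (z + z') := by
  cases j with
  | zero => trivial
  | succ j =>
    intro k _ p V hV hP
    rw [map_add, h k p V hV hP, h' k p V hV hP, add_zero]

lemma NR_smul (S : Set K[X]) (j : ℕ) (c : ℚ) {z : X j (RatFunc K)} (h : NR S j z) :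
    NR S j (c • z) := by
  cases j with
  | zero => trivial
  | succ j =>
    intro k _ p V hV hP
    rw [map_smul, h k p V hV hP, smul_zero]

lemma NR_zero (S : Set K[X]) (j : ℕ) : NR S j (0 : X j (RatFunc K)) := by
  cases j with
  | zero => trivial
  | succ j =>
    intro k _ p V hV hP
    rw [map_zero]

lemma NR_mono {S S' : Set K[X]} (hS : S ⊆ S') (j : ℕ) {z : X j (RatFunc K)} (h : NR S j z) :
    NR S' j z := by
  cases j with
  | zero => trivial
  | succ j =>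
    intro k _ p V hV hP
    exact h k p V hV (fun h1 => hP (hS h1))

theorem star_res (hV : IsPt p V) (hP : p.P ∉ S) (j : ℕ) {x y : RatFunc K} (hx : El S x)
    (hx0 : x ≠ 0) (hx1 : x ≠ 1) (hy0 : y ≠ 0) (hy : 0 < V.v y) {μ : Tx j (RatFunc K)}
    (hμ : μ ∈ TS j (SG S)) : reX V j (star j x y μ) = 0 := by
  have hG : ∀ v ∈ SG S, V.vH v = 0 := fun v hv => SG_v hV hP hv
  have hx1' : 1 - x ≠ 0 := sub_ne_zero.2 (Ne.symm hx1)
  have vx : V.v x = 0 := by rw [← vH_lg V hx0]; exact hG _ hx.1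
  have vx1 : V.v (1 - x) = 0 := by rw [← vH_lg V hx1']; exact hG _ hx.2
  have hny : -y ≠ 0 := neg_ne_zero.2 hy0
  have h1 := V.add_lt (x := 1) (y := -y) one_ne_zero
    (Or.inr (by rw [v_neg V hy0, v_one]; exact hy))
  rw [← sub_eq_add_neg, v_one, map_one] at h1
  obtain ⟨hy1', vy1, ly1⟩ := h1
  have hdiv : ∀ {a b : RatFunc K}, a ≠ 0 → b ≠ 0 → V.v (a / b) = V.v a - V.v b := by
    intro a b ha hb
    rw [div_eq_mul_inv, V.v_mul ha (inv_ne_zero hb), v_inv V hb, sub_eq_add_neg]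
  have hA0 : (1 - x) / (1 - y) ≠ 0 := div_ne_zero hx1' hy1'
  have vA : V.v ((1 - x) / (1 - y)) = 0 := by rw [hdiv hx1' hy1', vx1, vy1, sub_zero]
  have lA : V.lc ((1 - x) / (1 - y)) = V.lc (1 - x) := by
    rw [map_div₀, ly1, div_one]
  have hC0 : x / y ≠ 0 := div_ne_zero hx0 hy0
  have vC : V.v (x / y) = - V.v y := by rw [hdiv hx0 hy0, vx, zero_sub]
  have hD0 : y * (1 - x) / (x * (1 - y)) ≠ 0 :=
    div_ne_zero (mul_ne_zero hy0 hx1') (mul_ne_zero hx0 hy1')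
  have vD : V.v (y * (1 - x) / (x * (1 - y))) = V.v y := by
    rw [hdiv (mul_ne_zero hy0 hx1') (mul_ne_zero hx0 hy1'), V.v_mul hy0 hx1', V.v_mul hx0 hy1',
      vx, vx1, vy1]
    ring
  have hnz : ∀ {z : RatFunc K} (ω : Tx (j + 1) (RatFunc K)), z ≠ 0 → V.v z ≠ 0 →
      reX V j (bx z ω) = 0 := by
    intro z ω hz hv
    rw [reX_bx, if_neg (by rintro (h | h); exacts [hz h, hv h])]
  have hsl : ∀ (z w : RatFunc K), w ≠ 0 → V.v w = 0 → reX V j (bx z (wT j (lg w) μ)) = 0 := by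
    intro z w hw hv
    rw [reX_bx, Star2_reT_wT V j hG (lg w) hμ, vH_lg V hw, hv, zero_smul, bx_zero, ite_self]
  rw [star]
  simp only [map_add, map_sub]
  rw [hnz _ hC0 (by rw [vC]; exact neg_ne_zero.2 hy.ne'), hnz _ hD0 (by rw [vD]; exact hy.ne'),
    hsl x _ hA0 vA, hnz _ hy0 hy.ne', hsl 1 _ hA0 vA, hsl (1 - y) _ hx0 vx]
  rw [reX_bx, if_pos (Or.inr vA), lA, Star2_reT_wT V j hG _ hμ, vH_lg V hC0, vC,
    reX_bx, if_pos (Or.inr vx1), Star2_reT_wT V j hG _ hμ, vH_lg V hy0, bx_smul, bx_smul]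
  rw [neg_smul]
  abel

theorem star_NR (j : ℕ) {x y : RatFunc K} (hx : El S x)
    (hx0 : x ≠ 0) (hx1 : x ≠ 1) (hy0 : y ≠ 0) (hy1 : y ≠ 1) (hy : El S y)
    {μ : Tx j (RatFunc K)} (hμ : μ ∈ TS j (SG S)) : NR S (j + 1) (star j x y μ) := by
  intro k _ p V hV hP
  have hG : ∀ v ∈ SG S, V.vH v = 0 := fun v hv => SG_v hV hP hv
  have hx1' : 1 - x ≠ 0 := sub_ne_zero.2 (Ne.symm hx1)
  have hy1' : 1 - y ≠ 0 := sub_ne_zero.2 (Ne.symm hy1)
  have hA : lg ((1 - x) / (1 - y)) ∈ SG S := by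
    rw [lg_div hx1' hy1']
    exact sub_mem hx.2 hy.2
  have hC : lg (x / y) ∈ SG S := by
    rw [lg_div hx0 hy0]
    exact sub_mem hx.1 hy.1
  have h : ∀ (z : RatFunc K) {v : Additive (RatFunc K)ˣ}, v ∈ SG S →
      reX V j (bx z (wT j v μ)) = 0 := fun z v hv => reX_TS V j hG z (wT_mem_TS j hv hμ)
  rw [star]
  simp only [map_add, map_sub]
  rw [h _ hA, h _ hA, h _ hA, h _ hA, h _ hA, h _ hC, h _ hy.1, h _ hx.1]
  simp

end

end TGF
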