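import Pool.Agent.TGF.Ts

set_option autoImplicit false

/-!
# TGF-Koz: exactness of the Koszul complex

`χ : F^* → Hom(Tx (j + 1) F, W)` with `χ k (k ∧ μ) = 0` for `k ∈ H`, `μ ∈ TS j G` extends: there is
`Om : Tx (j + 2) F → W` with `Om (k ∧ λ) = χ k λ` for `k ∈ H ≤ G`, `λ ∈ TS (j + 1) G`.

The relations `∑ k_i ∧ λ_i = 0` are treated by induction on the number of terms, in an abstract form (`Koz_abs`): either some
`k_1` is a linear combination of the others, or the contraction with a functional which is zero on the others expresses `λ_1`.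
-/

noncomputable section

open Polynomial TensorProduct
open scoped Classical

namespace TGF

open Helper14.Gon Helper14.W4

universe u v w

private lemma Koz_zero {N : Type w} [AddCommGroup N] [Module ℚ N] {x : N} (h : x = -x) : x = 0 := by
  have h1 : (2 : ℚ) • x = 0 := by
    rw [two_smul]
    nth_rewrite 1 [h]
    exact neg_add_cancel x
  exact (smul_eq_zero.1 h1).resolve_left two_ne_zero

section abs

variable {V A0 A1 A2 W N : Type*} [AddCommGroup V] [Module ℚ V] [AddCommGroup A0] [Module ℚ A0]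
  [AddCommGroup A1] [Module ℚ A1] [AddCommGroup A2] [Module ℚ A2] [AddCommGroup W] [Module ℚ W]
  [AddCommGroup N] [Module ℚ N] {ι : Type*}

/-- case B: change of the second factors -/
private lemma Koz_B (B : V →ₗ[ℚ] A1 →ₗ[ℚ] N) (s : Finset ι) (k : ι → V) (l : ι → A1) (c : ι → ℚ) (m : A1) :
    ∑ i ∈ s, B (k i) (l i + c i • m) = B (∑ i ∈ s, c i • k i) m + ∑ i ∈ s, B (k i) (l i) := by
  rw [map_sum, LinearMap.sum_apply, ← Finset.sum_add_distrib]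
  refine Finset.sum_congr rfl fun i _ => ?_
  rw [map_add, map_smul, map_smul, LinearMap.smul_apply, add_comm]

/-- case A: elimination of the first term -/
private lemma Koz_A (B : V →ₗ[ℚ] A1 →ₗ[ℚ] N) (w0 : V →ₗ[ℚ] A0 →ₗ[ℚ] A1) (P0 : Submodule ℚ A0)
    (K : Submodule ℚ V) (hB : ∀ x ∈ K, ∀ y ∈ K, ∀ a ∈ P0, B x (w0 y a) = - B y (w0 x a))
    (s : Finset ι) (k : ι → V) (l : ι → A1) (n : ι → A0) (x : V) (y : A1) (m : A0)
    (hx : x ∈ K) (hk : ∀ i ∈ s, k i ∈ K) (hm : m ∈ P0) (hn : ∀ i ∈ s, n i ∈ P0)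
    (hy : y = w0 x m + ∑ i ∈ s, w0 (k i) (n i)) :
    B x y + ∑ i ∈ s, B (k i) (l i) = ∑ i ∈ s, B (k i) (l i - w0 x (n i)) := by
  have h1 : B x (w0 x m) = 0 := Koz_zero (hB x hx x hx m hm)
  rw [hy, map_add, h1, zero_add, map_sum, ← Finset.sum_add_distrib]
  refine Finset.sum_congr rfl fun i hi => ?_
  rw [hB x hx (k i) (hk i hi) (n i) (hn i hi), map_sub]
  abel

private theorem Koz_abs (w0 : V →ₗ[ℚ] A0 →ₗ[ℚ] A1) (w1 : V →ₗ[ℚ] A1 →ₗ[ℚ] A2)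
    (χ : V →ₗ[ℚ] A1 →ₗ[ℚ] W)
    (c0 : (V →ₗ[ℚ] ℚ) → A1 → A0) (c1 : (V →ₗ[ℚ] ℚ) → A2 →ₗ[ℚ] A1)
    (P0 : Submodule ℚ A0) (P1 : Submodule ℚ A1) (K : Submodule ℚ V)
    (hw : ∀ x y a, w1 x (w0 y a) = - w1 y (w0 x a))
    (hc : ∀ f x b, c1 f (w1 x b) = f x • b - w0 x (c0 f b))
    (hc0 : ∀ f, ∀ b ∈ P1, c0 f b ∈ P0)
    (hw0 : ∀ x ∈ K, ∀ a ∈ P0, w0 x a ∈ P1)
    (hχ : ∀ x ∈ K, ∀ y ∈ K, ∀ a ∈ P0, χ x (w0 y a) = - χ y (w0 x a))
    (s : Finset ι) : ∀ (k : ι → V) (l : ι → A1), (∀ i ∈ s, k i ∈ K) → (∀ i ∈ s, l i ∈ P1) →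
      ∑ i ∈ s, w1 (k i) (l i) = 0 → ∑ i ∈ s, χ (k i) (l i) = 0 := by
  induction s using Finset.induction with
  | empty =>
    intro k l _ _ _
    exact Finset.sum_empty
  | insert a s ha ih =>
    intro k l hk hl h0
    rw [Finset.sum_insert ha] at h0 ⊢
    have hka := hk a (Finset.mem_insert_self a s)
    have hla := hl a (Finset.mem_insert_self a s)
    have hks : ∀ i ∈ s, k i ∈ K := fun i hi => hk i (Finset.mem_insert_of_mem hi)
    have hls : ∀ i ∈ s, l i ∈ P1 := fun i hi => hl i (Finset.mem_insert_of_mem hi)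
    by_cases hmem : k a ∈ Submodule.span ℚ (k '' (s : Set ι))
    · rw [Submodule.mem_span_image_finset_iff_exists_fun'] at hmem
      obtain ⟨c, hc'⟩ := hmem
      have h1 := Koz_B w1 s k l c (l a)
      have h2 := Koz_B χ s k l c (l a)
      rw [hc'] at h1 h2
      rw [← h2]
      refine ih k (fun i => l i + c i • l a) hks (fun i hi => P1.add_mem (hls i hi) (P1.smul_mem _ hla)) ?_
      rw [h1, h0]
    · obtain ⟨f, hf, hfs⟩ := Submodule.exists_le_ker_of_notMem hmem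
      have hg1 : ((f (k a))⁻¹ • f) (k a) = 1 := by
        rw [LinearMap.smul_apply, smul_eq_mul, inv_mul_cancel₀ hf]
      have hg2 : ∀ i ∈ s, ((f (k a))⁻¹ • f) (k i) = 0 := by
        intro i hi
        have h1 : f (k i) = 0 := hfs (Submodule.subset_span ⟨i, hi, rfl⟩)
        rw [LinearMap.smul_apply, h1, smul_zero]
      generalize (f (k a))⁻¹ • f = g at hg1 hg2
      have h1 : c1 g (w1 (k a) (l a) + ∑ i ∈ s, w1 (k i) (l i)) = 0 := by
        rw [h0, map_zero]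
      rw [map_add, map_sum, hc, hg1, one_smul] at h1
      have h2 : ∑ i ∈ s, c1 g (w1 (k i) (l i)) = - ∑ i ∈ s, w0 (k i) (c0 g (l i)) := by
        rw [← Finset.sum_neg_distrib]
        refine Finset.sum_congr rfl fun i hi => ?_
        rw [hc, hg2 i hi, zero_smul, zero_sub]
      rw [h2] at h1
      have hy : l a = w0 (k a) (c0 g (l a)) + ∑ i ∈ s, w0 (k i) (c0 g (l i)) := by
        have h3 : l a = (l a - w0 (k a) (c0 g (l a)) + - ∑ i ∈ s, w0 (k i) (c0 g (l i))) +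
          (w0 (k a) (c0 g (l a)) + ∑ i ∈ s, w0 (k i) (c0 g (l i))) := by abel
        rw [h1, zero_add] at h3
        exact h3
      have hna := hc0 g _ hla
      have hns : ∀ i ∈ s, c0 g (l i) ∈ P0 := fun i hi => hc0 g _ (hls i hi)
      have h4 := Koz_A w1 w0 P0 K (fun x _ y _ a _ => hw x y a) s k l (fun i => c0 g (l i)) (k a) (l a)
        (c0 g (l a)) hka hks hna hns hy
      have h5 := Koz_A χ w0 P0 K hχ s k l (fun i => c0 g (l i)) (k a) (l a)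
        (c0 g (l a)) hka hks hna hns hy
      rw [h5]
      rw [h0] at h4
      exact ih k (fun i => l i - w0 (k a) (c0 g (l i))) hks
        (fun i hi => P1.sub_mem (hls i hi) (hw0 _ hka _ (hns i hi))) h4.symm

private lemma Koz_0 (B : V →ₗ[ℚ] A1 →ₗ[ℚ] N) (x y : V) (a : A0) :
    B x ((0 : V →ₗ[ℚ] A0 →ₗ[ℚ] A1) y a) = - B y ((0 : V →ₗ[ℚ] A0 →ₗ[ℚ] A1) x a) := by
  rw [LinearMap.zero_apply, LinearMap.zero_apply, LinearMap.zero_apply, LinearMap.zero_apply, map_zero, map_zero,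
    neg_zero]

private theorem Koz_ext (w1 : V →ₗ[ℚ] A1 →ₗ[ℚ] A2) (χ : V →ₗ[ℚ] A1 →ₗ[ℚ] W) (K : Submodule ℚ V)
    (P1 : Submodule ℚ A1)
    (h : ∀ (s : Finset (K × P1)) (k : K × P1 → V) (l : K × P1 → A1), (∀ i ∈ s, k i ∈ K) →
      (∀ i ∈ s, l i ∈ P1) → ∑ i ∈ s, w1 (k i) (l i) = 0 → ∑ i ∈ s, χ (k i) (l i) = 0) :
    ∃ Om : A2 →ₗ[ℚ] W, ∀ x ∈ K, ∀ b ∈ P1, Om (w1 x b) = χ x b := by
  obtain ⟨Φ, hΦ⟩ : ∃ Φ : (K × P1 →₀ ℚ) →ₗ[ℚ] A2,
      Φ = Finsupp.linearCombination ℚ (fun p : K × P1 => w1 p.1 p.2) := ⟨_, rfl⟩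
  obtain ⟨Ψ, hΨ⟩ : ∃ Ψ : (K × P1 →₀ ℚ) →ₗ[ℚ] W,
      Ψ = Finsupp.linearCombination ℚ (fun p : K × P1 => χ p.1 p.2) := ⟨_, rfl⟩
  have hker : LinearMap.ker Φ ≤ LinearMap.ker Ψ := by
    intro d hd
    rw [LinearMap.mem_ker] at hd ⊢
    rw [hΦ, Finsupp.linearCombination_apply, Finsupp.sum] at hd
    rw [hΨ, Finsupp.linearCombination_apply, Finsupp.sum]
    have h1 := h d.support (fun p => p.1) (fun p => d p • (p.2 : A1)) (fun p _ => p.1.2)
      (fun p _ => P1.smul_mem _ p.2.2)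
    simp only [map_smul] at h1
    exact h1 hd
  obtain ⟨Om, hOm⟩ := LinearMap.exists_extend
    (((LinearMap.ker Φ).liftQ Ψ hker).comp Φ.quotKerEquivRange.symm.toLinearMap)
  refine ⟨Om, fun x hx b hb => ?_⟩
  have h1 : Φ (Finsupp.single (⟨x, hx⟩, ⟨b, hb⟩) 1) = w1 x b := by
    rw [hΦ, Finsupp.linearCombination_single, one_smul]
  have h2 : Ψ (Finsupp.single (⟨x, hx⟩, ⟨b, hb⟩) 1) = χ x b := by
    rw [hΨ, Finsupp.linearCombination_single, one_smul]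
  have h3 := LinearMap.congr_fun hOm ⟨Φ (Finsupp.single (⟨x, hx⟩, ⟨b, hb⟩) 1), LinearMap.mem_range_self _ _⟩
  rw [LinearMap.comp_apply, LinearMap.comp_apply, Submodule.subtype_apply, LinearEquiv.coe_coe,
    LinearMap.quotKerEquivRange_symm_apply_image, Submodule.mkQ_apply, Submodule.liftQ_apply] at h3
  rw [← h1, ← h2]
  exact h3

end abs

section conc

variable {F : Type u} [Field F]

private lemma Koz_add (v v' : Additive Fˣ) : (toQ (v + v') : WQ F) = toQ v + toQ v' := TensorProduct.tmul_add _ _ _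

/-- the additive map of a functional -/
private def Koz_th (f : WQ F →ₗ[ℚ] ℚ) : Additive Fˣ →+ ℚ where
  toFun v := f (toQ v)
  map_zero' := by
    have h1 : (toQ (0 : Additive Fˣ) : WQ F) = 0 := TensorProduct.tmul_zero _ _
    rw [h1, map_zero]
  map_add' v v' := by rw [Koz_add, map_add]

private lemma Koz_ww (j : ℕ) (x y : WQ F) (ω : Tx j F) :
    wW (j + 1) x (wW j y ω) = - wW (j + 1) y (wW j x ω) := by
  let f : WQ F →ₗ[ℚ] Tx (j + 2) F := (wW (j + 1) x) ∘ₗ ((LinearMap.applyₗ ω) ∘ₗ (wW j))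
  let g : WQ F →ₗ[ℚ] Tx (j + 2) F := -((LinearMap.applyₗ (wW j x ω)) ∘ₗ (wW (j + 1)))
  have h : f = g := by
    refine WQ_ext fun v => ?_
    change wW (j + 1) x (wW j (toQ v) ω) = - wW (j + 1) (toQ v) (wW j x ω)
    rw [wW_toQ, wW_toQ, wW_wT]
  exact LinearMap.congr_fun h y

private lemma Koz_ct (j : ℕ) (f : WQ F →ₗ[ℚ] ℚ) (x : WQ F) (ω : Tx (j + 1) F) :
    ctT (j + 1) (Koz_th f) (wW (j + 1) x ω) = f x • ω - wW j x (ctT j (Koz_th f) ω) := by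
  let g : WQ F →ₗ[ℚ] Tx (j + 1) F :=
    (ctT (j + 1) (Koz_th f)) ∘ₗ ((LinearMap.applyₗ ω) ∘ₗ (wW (j + 1)))
  let g' : WQ F →ₗ[ℚ] Tx (j + 1) F :=
    f.smulRight ω - ((LinearMap.applyₗ (ctT j (Koz_th f) ω)) ∘ₗ (wW j))
  have h : g = g' := by
    refine WQ_ext fun v => ?_
    change ctT (j + 1) (Koz_th f) (wW (j + 1) (toQ v) ω) =
      f (toQ v) • ω - wW j (toQ v) (ctT j (Koz_th f) ω)
    rw [wW_toQ, wW_toQ, ctT_wT]
    rfl
  exact LinearMap.congr_fun h x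

private lemma Koz_ct0 (f : WQ F →ₗ[ℚ] ℚ) (x : WQ F) (ω : Tx 0 F) :
    ctT 0 (Koz_th f) (wW 0 x ω) = f x • ω := by
  let g : WQ F →ₗ[ℚ] Tx 0 F := (ctT 0 (Koz_th f)) ∘ₗ ((LinearMap.applyₗ ω) ∘ₗ (wW 0))
  let g' : WQ F →ₗ[ℚ] Tx 0 F := f.smulRight ω
  have h : g = g' := by
    refine WQ_ext fun v => ?_
    change ctT 0 (Koz_th f) (wW 0 (toQ v) ω) = f (toQ v) • ω
    rw [wW_toQ, ctT_wT_zero]
    rfl
  exact LinearMap.congr_fun h x

/-- the linear extension -/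
private def Koz_lin {A : Type v} {W : Type w} [AddCommGroup A] [Module ℚ A] [AddCommGroup W] [Module ℚ W]
    (χ : Additive Fˣ →+ (A →ₗ[ℚ] W)) : WQ F →ₗ[ℚ] (A →ₗ[ℚ] W) :=
  LinearMap.liftBaseChange ℚ χ.toIntLinearMap

private lemma Koz_lin_toQ {A : Type v} {W : Type w} [AddCommGroup A] [Module ℚ A] [AddCommGroup W] [Module ℚ W]
    (χ : Additive Fˣ →+ (A →ₗ[ℚ] W)) (v : Additive Fˣ) : Koz_lin χ (toQ v) = χ v := by
  simp only [Koz_lin, toQ]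
  exact LinearMap.liftBaseChange_one_tmul ℚ _ _

/-- the span of the classes of the elements of `H` -/
private def Koz_sp (H : AddSubgroup (Additive Fˣ)) : Submodule ℚ (WQ F) :=
  Submodule.span ℚ {x | ∃ v ∈ H, x = toQ v}

private lemma Koz_ind {H : AddSubgroup (Additive Fˣ)} {N : Type w} [AddCommGroup N] [Module ℚ N]
    (f g : WQ F →ₗ[ℚ] N) (h : ∀ v ∈ H, f (toQ v) = g (toQ v)) {x : WQ F} (hx : x ∈ Koz_sp H) : f x = g x := by
  have h1 : Koz_sp H ≤ LinearMap.eqLocus f g := by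
    refine Submodule.span_le.2 ?_
    rintro _ ⟨v, hv, rfl⟩
    exact h v hv
  exact h1 hx

end conc

theorem koszul {F : Type u} [Field F] {W : Type w} [AddCommGroup W] [Module ℚ W] (j : ℕ)
    (G H : AddSubgroup (Additive Fˣ)) (hHG : H ≤ G)
    (χ : Additive Fˣ →+ (Tx (j + 1) F →ₗ[ℚ] W))
    (h : ∀ k ∈ H, ∀ μ ∈ TS j G, χ k (wT j k μ) = 0) :
    ∃ Om : Tx (j + 2) F →ₗ[ℚ] W, ∀ k ∈ H, ∀ μ ∈ TS (j + 1) G, Om (wT (j + 1) k μ) = χ k μ := by
  -- antisymmetry on `H`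
  have hanti : ∀ k ∈ H, ∀ k' ∈ H, ∀ μ ∈ TS j G, χ k (wT j k' μ) = - χ k' (wT j k μ) := by
    intro k hk k' hk' μ hμ
    have h1 := h (k + k') (H.add_mem hk hk') μ hμ
    rw [map_add, wT_add, LinearMap.add_apply, LinearMap.add_apply, map_add, map_add, h k hk μ hμ,
      h k' hk' μ hμ, zero_add, add_zero] at h1
    exact eq_neg_of_add_eq_zero_left h1
  have hχ : ∀ x ∈ Koz_sp H, ∀ y ∈ Koz_sp H, ∀ a ∈ TS j G,
      Koz_lin χ x (wW j y a) = - Koz_lin χ y (wW j x a) := by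
    intro x hx y hy a ha
    have h1 : ∀ k ∈ H, Koz_lin χ (toQ k) (wW j y a) = - Koz_lin χ y (wW j (toQ k) a) := by
      intro k hk
      refine Koz_ind ((Koz_lin χ (toQ k)) ∘ₗ ((LinearMap.applyₗ a) ∘ₗ (wW j)))
        (-((LinearMap.applyₗ (wW j (toQ k) a)) ∘ₗ (Koz_lin χ))) (fun k' hk' => ?_) hy
      change Koz_lin χ (toQ k) (wW j (toQ k') a) = - Koz_lin χ (toQ k') (wW j (toQ k) a)
      rw [wW_toQ, wW_toQ, Koz_lin_toQ, Koz_lin_toQ]
      exact hanti k hk k' hk' a ha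
    exact Koz_ind ((LinearMap.applyₗ (wW j y a)) ∘ₗ (Koz_lin χ))
      (-((Koz_lin χ y) ∘ₗ ((LinearMap.applyₗ a) ∘ₗ (wW j)))) h1 hx
  have hw0 : ∀ x ∈ Koz_sp H, ∀ a ∈ TS j G, wW j x a ∈ TS (j + 1) G := by
    intro x hx a ha
    have h1 : Koz_sp H ≤ (TS (j + 1) G).comap ((LinearMap.applyₗ a) ∘ₗ (wW j)) := by
      refine Submodule.span_le.2 ?_
      rintro _ ⟨v, hv, rfl⟩
      change wW j (toQ v) a ∈ TS (j + 1) G
      rw [wW_toQ]
      exact wT_mem_TS j (hHG hv) ha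
    exact h1 hx
  obtain ⟨Om, hOm⟩ := Koz_ext (wW (j + 1)) (Koz_lin χ) (Koz_sp H) (TS (j + 1) G) fun s k l hk hl h0 =>
    Koz_abs (wW j) (wW (j + 1)) (Koz_lin χ) (fun f b => ctT j (Koz_th f) b) (fun f => ctT (j + 1) (Koz_th f))
      (TS j G) (TS (j + 1) G) (Koz_sp H) (fun x y a => Koz_ww j x y a) (fun f x b => Koz_ct j f x b)
      (fun f b hb => ctT_mem_TS j (Koz_th f) hb) hw0 hχ s k l hk hl h0
  refine ⟨Om, fun k hk μ hμ => ?_⟩
  have h1 := hOm (toQ k) (Submodule.subset_span ⟨k, hk, rfl⟩) μ hμ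
  rw [wW_toQ, Koz_lin_toQ] at h1
  exact h1

/-- the case of one factor: no condition -/
theorem koszul0 {F : Type u} [Field F] {W : Type w} [AddCommGroup W] [Module ℚ W]
    (χ : Additive Fˣ →+ (Tx 0 F →ₗ[ℚ] W)) :
    ∃ Om : Tx 1 F →ₗ[ℚ] W, ∀ (k : Additive Fˣ) (μ : Tx 0 F), Om (wT 0 k μ) = χ k μ := by
  obtain ⟨Om, hOm⟩ := Koz_ext (wW 0) (Koz_lin χ) ⊤ ⊤ fun s k l hk hl h0 =>
    Koz_abs (0 : WQ F →ₗ[ℚ] Tx 0 F →ₗ[ℚ] Tx 0 F) (wW 0) (Koz_lin χ) (fun _ _ => 0) (fun f => ctT 0 (Koz_th f))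
      ⊤ ⊤ ⊤ (fun x y a => Koz_0 (wW 0) x y a) (fun f x b => by
        rw [Koz_ct0, LinearMap.zero_apply, LinearMap.zero_apply, sub_zero])
      (fun _ _ _ => Submodule.mem_top) (fun _ _ _ _ => Submodule.mem_top) 
      (fun x _ y _ a _ => Koz_0 (Koz_lin χ) x y a) s k l hk hl h0
  refine ⟨Om, fun k μ => ?_⟩
  have h1 := hOm (toQ k) Submodule.mem_top μ Submodule.mem_top
  rw [wW_toQ, Koz_lin_toQ] at h1
  exact h1

end TGF
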