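import Pool.Agent.TGF.Ts
import Pool.Agent.TGF.Pt
import Pool.Agent.TGF.Lg
import Pool.Agent.SRG.Quad

set_option autoImplicit false

/-!
# TGF-Om2: the quadratic relation on `KG p S`

The relation is checked on the generators `A / B` of small degree (`om2_gen`, from `h3` and `hχ`)
and extended by `SRG.quad`.
-/

noncomputable section

open Polynomial TensorProduct
open scoped Classical

namespace TGF

open Helper14.Gon Helper14.W4 QPL

universe u v w

private lemma om2_gen {K : Type u} [Field K] {k : Type v} [Field k] {p : SRG.Pl K k}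
    {V : AC (RatFunc K) k} {S : Set K[X]} (hS : SRG.Adm S p.d) (hP : p.P ∉ S) (hV : IsPt p V)
    {W : Type w} [AddCommGroup W] [Module ℚ W] (j : ℕ) (ψ : X (j + 1) (RatFunc K) →ₗ[ℚ] W)
    (h3 : ∀ x : RatFunc K, El (insert p.P S) x → ∀ μ ∈ TS j (SG S), ψ (d3 j (bx x μ)) = 0)
    (χ : Additive (RatFunc K)ˣ →+ (Tx (j + 1) (RatFunc K) →ₗ[ℚ] W))
    (hχ : ∀ x : RatFunc K, El (insert p.P S) x → ∀ μ ∈ TS (j + 1) (SG S),
      ψ (bx x μ) = V.vH (lg (1 - x)) • χ (lg x) μ - V.vH (lg x) • χ (lg (1 - x)) μ)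
    {μ : Tx j (RatFunc K)} (hμ : μ ∈ TS j (SG S)) {A B : K[X]} (hA0 : A ≠ 0) (hB0 : B ≠ 0)
    (hA : SRG.Sm S A) (hB : SRG.Sm S B) (hh : p.P ∣ A - B) (dA : A.natDegree ≤ 2 * p.d - 1)
    (dB : B.natDegree ≤ 2 * p.d - 1) :
    χ (SRG.pl A - SRG.pl B) (wT j (SRG.pl A - SRG.pl B) μ) = 0 := by
  by_cases hAB : A = B
  · rw [hAB, sub_self, map_zero]
    rfl
  obtain ⟨C, hC⟩ : p.P ∣ B - A := by
    rw [← neg_sub]
    exact dvd_neg.2 hh
  have hBA : B - A ≠ 0 := sub_ne_zero.2 (Ne.symm hAB)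
  have hC0 : C ≠ 0 := by
    rintro rfl
    rw [mul_zero] at hC
    exact hBA hC
  have hdeg : (B - A).natDegree ≤ 2 * p.d - 1 :=
    le_trans (natDegree_sub_le B A) (max_le dB dA)
  rw [hC, natDegree_mul p.irr.ne_zero hC0] at hdeg
  have hd : p.P.natDegree = p.d := rfl
  have hd1 : 0 < p.d := p.d_pos
  have hCs : SRG.Sm S C := hS.sm (by omega)
  have hPa : algebraMap K[X] (RatFunc K) p.P ≠ 0 := RatFunc.algebraMap_ne_zero p.irr.ne_zero
  have hAa : algebraMap K[X] (RatFunc K) A ≠ 0 := RatFunc.algebraMap_ne_zero hA0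
  have hBa : algebraMap K[X] (RatFunc K) B ≠ 0 := RatFunc.algebraMap_ne_zero hB0
  have hCa : algebraMap K[X] (RatFunc K) C ≠ 0 := RatFunc.algebraMap_ne_zero hC0
  obtain ⟨x, hx⟩ : ∃ x, x = algebraMap K[X] (RatFunc K) A / algebraMap K[X] (RatFunc K) B :=
    ⟨_, rfl⟩
  have hlx : lg x = SRG.pl A - SRG.pl B := by
    rw [hx, lg_div hAa hBa]
    rfl
  have h1x : 1 - x = algebraMap K[X] (RatFunc K) p.P * algebraMap K[X] (RatFunc K) C /
      algebraMap K[X] (RatFunc K) B := by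
    rw [hx, ← map_mul, ← hC, map_sub, _root_.sub_div, div_self hBa]
  have hl1 : lg (1 - x) = lg (algebraMap K[X] (RatFunc K) p.P) +
      (lg (algebraMap K[X] (RatFunc K) C) - lg (algebraMap K[X] (RatFunc K) B)) := by
    rw [h1x, lg_div (mul_ne_zero hPa hCa) hBa, lg_mul hPa hCa, add_sub_assoc]
  have hlxS : lg x ∈ SG S := by
    rw [hx, lg_div hAa hBa]
    exact (SG S).sub_mem (SG_pl hA0 hA) (SG_pl hB0 hB)
  have hCB : lg (algebraMap K[X] (RatFunc K) C) - lg (algebraMap K[X] (RatFunc K) B) ∈ SG S :=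
    (SG S).sub_mem (SG_pl hC0 hCs) (SG_pl hB0 hB)
  have hins : S ⊆ insert p.P S := Set.subset_insert _ _
  have hPs : SRG.Sm (insert p.P S) p.P := by
    right
    intro Q hQ hQi hQd
    left
    exact eq_of_monic_of_associated hQ p.monic
      ((hQi.dvd_irreducible_iff_associated p.irr).1 hQd)
  have hEl : El (insert p.P S) x := by
    refine ⟨SG_mono hins hlxS, ?_⟩
    rw [hl1]
    exact (SG _).add_mem (SG_pl p.irr.ne_zero hPs) (SG_mono hins hCB)
  have hv0 : V.vH (lg x) = 0 := SG_v hV hP hlxS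
  have hv1 : V.vH (lg (1 - x)) = 1 := by
    rw [hl1, map_add, SG_v hV hP hCB, vH_lg V hPa, hV.vP, add_zero]
  have h4 := h3 x hEl μ hμ
  rw [d3_bx, hχ x hEl _ (wT_mem_TS j hlxS hμ), hv0, hv1, one_smul, zero_smul, sub_zero] at h4
  rw [← hlx]
  exact h4

/-- the bilinear map `(g, g') ↦ χ g (g' ∧ μ)` -/
private def om2_b {F : Type u} [Field F] {W : Type w} [AddCommGroup W] [Module ℚ W] (j : ℕ)
    (χ : Additive Fˣ →+ (Tx (j + 1) F →ₗ[ℚ] W)) (μ : Tx j F) (H : AddSubgroup (Additive Fˣ)) :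
    H →+ H →+ W where
  toFun g :=
    { toFun := fun g' => χ g (wT j g' μ)
      map_zero' := by
        rw [AddSubgroup.coe_zero, wT_zero, LinearMap.zero_apply, map_zero]
      map_add' := fun a b => by
        rw [AddSubgroup.coe_add, wT_add, LinearMap.add_apply, map_add] }
  map_zero' := by
    ext g'
    change χ ((0 : H) : Additive Fˣ) (wT j g' μ) = 0
    rw [AddSubgroup.coe_zero, map_zero, LinearMap.zero_apply]
  map_add' a b := by
    ext g'
    change χ ((a + b : H) : Additive Fˣ) (wT j g' μ) = χ a (wT j g' μ) + χ b (wT j g' μ)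
    rw [AddSubgroup.coe_add, map_add, LinearMap.add_apply]

theorem chi_quad {K : Type u} [Field K] {k : Type v} [Field k] {p : SRG.Pl K k}
    {V : AC (RatFunc K) k} {S : Set K[X]} (hS : SRG.Adm S p.d) (hP : p.P ∉ S) (hV : IsPt p V)
    {W : Type w} [AddCommGroup W] [Module ℚ W] (j : ℕ) (ψ : X (j + 1) (RatFunc K) →ₗ[ℚ] W)
    (h3 : ∀ x : RatFunc K, El (insert p.P S) x → ∀ μ ∈ TS j (SG S), ψ (d3 j (bx x μ)) = 0)
    (χ : Additive (RatFunc K)ˣ →+ (Tx (j + 1) (RatFunc K) →ₗ[ℚ] W))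
    (hχ : ∀ x : RatFunc K, El (insert p.P S) x → ∀ μ ∈ TS (j + 1) (SG S),
      ψ (bx x μ) = V.vH (lg (1 - x)) • χ (lg x) μ - V.vH (lg x) • χ (lg (1 - x)) μ) :
    ∀ g ∈ SRG.KG p S, ∀ μ ∈ TS j (SG S), χ g (wT j g μ) = 0 := by
  intro g hg μ hμ
  exact SRG.quad hS hP (om2_b j χ μ (SRG.KG p S))
    (fun A B hA0 hB0 hA hB hh dA dB => om2_gen hS hP hV j ψ h3 χ hχ hμ hA0 hB0 hA hB hh dA dB)
    ⟨g, hg⟩

end TGF
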