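import Pool.Agent.TGF.Om1
import Pool.Agent.TGF.Om2
import Pool.Agent.TGF.Koz
import Pool.Agent.TGF.Ker

set_option autoImplicit false

/-!
# TGF-Om3: subtracting a form on the last term

PLAN.  `exists_chi` (`i = j + 1`), `chi_quad`, `koszul` with `G = SG S`, `H = SRG.KG p S` (`KG_le`) give
`χ` and `Om` with `Om (wT (j + 1) g μ) = χ g μ` for `g ∈ KG`, `μ ∈ TS (j + 1) (SG S)`.  For
`El (insert P S) x`, `μ ∈ TS (j + 1) (SG S)`: with `a = V.vH (lg (1 - x))`, `b = V.vH (lg x)`,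
`ctT (j + 2) V.vH (d2 (j + 1) (bx x μ)) = a • (lg x ∧ μ) - b • (lg (1 - x) ∧ μ)` (`ctT_wT` twice,
`ctT_TS`: `V.vH = 0` on `SG S`).  Cases (for `x = 0, 1` all terms vanish):
* `a = b = 0`: both sides are `0`.
* `a > 0`, `b = 0`: `lg x ∈ KG p S`: `x ∈ SG S` (`SG_insert_v`), `x = A / B` (`SG_iff`) with smooth `A`, `B`,
  and `v (1 - x) > 0` means `P ∣ B - A` (`IsPt.v`); `KG_mk`.
* `b > 0`, `a = 0`: `lg (1 - x) ∈ KG p S`, the same with `1 - x`.
* `b < 0`: then `a = b` (v (1 - x) = v x, see Df.lean), `x⁻¹` has `v > 0` and `lg (1 - x⁻¹) ∈ KG p S`, and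
  `lg (1 - x⁻¹) = lg (-1) + lg (1 - x) - lg x`; both sides are `- b •` the value at
  `lg (1 - x) - lg x` (`χ (lg (-1)) = 0`, `wT (lg (-1)) = 0`: torsion).
* the case `a > 0`, `b > 0` or `a < 0`, `b ≥ 0` is impossible (`x + (1 - x) = 1`, `add_lt`).
-/

noncomputable section

open Polynomial TensorProduct
open scoped Classical

namespace TGF

open Helper14.Gon Helper14.W4 QPL

universe u v w

private lemma om3_KG {K : Type u} [Field K] {k : Type v} [Field k] {p : SRG.Pl K k}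
    {V : AC (RatFunc K) k} {S : Set K[X]} (hP : p.P ∉ S) (hV : IsPt p V) {y : RatFunc K}
    (hy : y ≠ 0) (h1 : 1 - y ≠ 0) (hyS : lg y ∈ SG S) (hv : 0 < V.v (1 - y)) :
    lg y ∈ SRG.KG p S := by
  obtain ⟨A, B, hA, hB, hsA, hsB, e⟩ := (SG_iff S y hy).1 hyS
  have hAa : algebraMap K[X] (RatFunc K) A ≠ 0 := RatFunc.algebraMap_ne_zero hA
  have hBa : algebraMap K[X] (RatFunc K) B ≠ 0 := RatFunc.algebraMap_ne_zero hB
  have hBP : ¬ p.P ∣ B := hsB.not_dvd hB p.monic p.irr hP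
  have hmul : (1 - y) * algebraMap K[X] (RatFunc K) B = algebraMap K[X] (RatFunc K) (B - A) := by
    rw [e, map_sub, sub_mul, one_mul, div_mul_cancel₀ _ hBa]
  have hdvd : p.P ∣ B - A := by
    by_contra hn
    have h2 := V.v_mul h1 hBa
    rw [hmul, hV.v _ hn, hV.v _ hBP, add_zero] at h2
    exact hv.ne h2
  have hlg : lg y = SRG.pl A - SRG.pl B := by
    rw [e, lg_div hAa hBa]
    rfl
  rw [hlg]
  refine SRG.KG_mk hA hB hsA hsB ?_
  rw [← neg_sub]
  exact (dvd_neg).2 hdvd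

private lemma om3_ct {K : Type u} [Field K] {k : Type v} [Field k] {p : SRG.Pl K k}
    {V : AC (RatFunc K) k} {S : Set K[X]} (hP : p.P ∉ S) (hV : IsPt p V) (j : ℕ)
    (x : RatFunc K) {μ : Tx (j + 1) (RatFunc K)} (hμ : μ ∈ TS (j + 1) (SG S)) :
    ctT (j + 2) V.vH (d2 (j + 1) (bx x μ)) =
      V.vH (lg (1 - x)) • wT (j + 1) (lg x) μ - V.vH (lg x) • wT (j + 1) (lg (1 - x)) μ := by
  have h0 : ctT j V.vH μ = 0 := ctT_TS j (fun v hv => SG_v hV hP hv) hμ
  rw [d2_bx, ctT_wT, ctT_wT, h0, map_zero, sub_zero, map_smul]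

private lemma om3_two {N : Type w} [AddCommGroup N] [Module ℚ N] {F : Type u} [Field F]
    (f : Additive Fˣ →+ N) : f (lg (-1 : F)) = 0 := by
  have h := congrArg f (lg_neg_one (F := F))
  rw [map_zsmul, map_zero, ← Int.cast_smul_eq_zsmul ℚ] at h
  refine (smul_eq_zero.1 h).resolve_left ?_
  norm_num

private lemma om3_inv {F : Type u} [Field F] {x : F} (hx : x ≠ 0) (h1 : 1 - x ≠ 0) :
    lg (1 - x⁻¹) = lg (-1 : F) + lg (1 - x) - lg x := by
  have h2 : (1 : F) - x⁻¹ = -1 * (1 - x) / x := by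
    field_simp
    ring
  rw [h2, lg_div (mul_ne_zero (neg_ne_zero.2 one_ne_zero) h1) hx,
    lg_mul (neg_ne_zero.2 one_ne_zero) h1]

theorem exists_om {K : Type u} [Field K] {k : Type v} [Field k] {p : SRG.Pl K k}
    {V : AC (RatFunc K) k} {S : Set K[X]} (hS : SRG.Adm S p.d) (hP : p.P ∉ S) (hV : IsPt p V)
    {W : Type w} [AddCommGroup W] [Module ℚ W] (j : ℕ) (ψ : X (j + 1) (RatFunc K) →ₗ[ℚ] W)
    (h1 : ∀ z ∈ Rel (j + 1) (RatFunc K), ψ z = 0) (h2 : ∀ z ∈ Lv (j + 1) S, ψ z = 0)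
    (h3 : ∀ x : RatFunc K, El (insert p.P S) x → ∀ μ ∈ TS j (SG S), ψ (d3 j (bx x μ)) = 0) :
    ∃ Om : Tx (j + 2) (RatFunc K) →ₗ[ℚ] W,
      ∀ x : RatFunc K, El (insert p.P S) x → ∀ μ ∈ TS (j + 1) (SG S),
        ψ (bx x μ) = Om (ctT (j + 2) V.vH (d2 (j + 1) (bx x μ))) := by
  obtain ⟨χ, hχ⟩ := exists_chi hS hP hV (j + 1) ψ h1 h2
  have hq := chi_quad hS hP hV j ψ h3 χ hχ
  obtain ⟨Om, hOm⟩ := koszul j (SG S) (SRG.KG p S) (KG_le p S) χ hq
  refine ⟨Om, ?_⟩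
  intro x hx μ hμ
  rw [hχ x hx μ hμ, om3_ct hP hV j x hμ, map_sub, map_smul, map_smul]
  by_cases hx0 : x = 0
  · simp only [hx0, sub_zero, lg_zero, lg_one, map_zero, zero_smul]
  by_cases hx1 : x = 1
  · simp only [hx1, sub_self, lg_zero, lg_one, map_zero, zero_smul]
  have h1x : 1 - x ≠ 0 := sub_ne_zero.2 (Ne.symm hx1)
  have hxn : -x ≠ 0 := neg_ne_zero.2 hx0
  have hv1 : V.v 1 = 0 := v_one V
  have e1 : (1 : RatFunc K) + -x = 1 - x := by ring
  rcases lt_trichotomy (V.v x) 0 with hb | hb | hb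
  · -- `v x < 0`
    have ha : V.v (1 - x) = V.v x := by
      have h4 := (V.add_lt (x := -x) (y := 1) hxn (Or.inr (by rw [v_neg V hx0, hv1]; exact hb))).2.1
      rw [add_comm, e1, v_neg V hx0] at h4
      exact h4
    have hi0 : x⁻¹ ≠ 0 := inv_ne_zero hx0
    have hi1 : x⁻¹ ≠ 1 := fun h => hx1 (inv_eq_one.1 h)
    have hy : 1 - x⁻¹ ≠ 0 := sub_ne_zero.2 (Ne.symm hi1)
    have hvi : V.v x⁻¹ = - V.v x := v_inv V hx0
    have hvy : V.v (1 - x⁻¹) = 0 := by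
      have h4 := (V.add_lt (x := (1 : RatFunc K)) (y := -x⁻¹) one_ne_zero
        (Or.inr (by rw [v_neg V hi0, hv1, hvi]; linarith))).2.1
      rw [← sub_eq_add_neg, hv1] at h4
      exact h4
    have hyS : lg (1 - x⁻¹) ∈ SG S := by
      refine SG_insert_v hV hP (El_inv hx).2 ?_
      rw [vH_lg V hy, hvy]
    have hk : lg (1 - x⁻¹) ∈ SRG.KG p S := by
      refine om3_KG hP hV hy ?_ hyS ?_
      · rw [sub_sub_cancel]
        exact hi0
      · rw [sub_sub_cancel, hvi]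
        linarith
    have h5 := hOm _ hk μ hμ
    have e2 : wT (j + 1) (lg (1 - x⁻¹)) = wT (j + 1) (lg (1 - x)) - wT (j + 1) (lg x) := by
      rw [om3_inv hx0 h1x, sub_eq_add_neg (lg (-1 : RatFunc K) + lg (1 - x)) (lg x), wT_add,
        wT_add, wT_neg, wT_neg_one, zero_add, ← sub_eq_add_neg]
    have e3 : χ (lg (1 - x⁻¹)) = χ (lg (1 - x)) - χ (lg x) := by
      rw [om3_inv hx0 h1x, map_sub, map_add, om3_two χ, zero_add]
    rw [e2, e3, LinearMap.sub_apply, LinearMap.sub_apply, map_sub] at h5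
    rw [vH_lg V h1x, vH_lg V hx0, ha, ← smul_sub, ← smul_sub,
      ← neg_sub (χ (lg (1 - x)) μ), ← h5, neg_sub]
  · -- `v x = 0`
    rcases lt_trichotomy (V.v (1 - x)) 0 with ha | ha | ha
    · exfalso
      have h4 := (V.add_lt (x := 1 - x) (y := x) h1x (Or.inr (by rw [hb]; exact ha))).2.1
      rw [sub_add_cancel, hv1] at h4
      exact ha.ne h4.symm
    · rw [vH_lg V h1x, vH_lg V hx0, ha, hb, zero_smul, zero_smul, zero_smul, zero_smul]
    · have hxS : lg x ∈ SG S := by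
        refine SG_insert_v hV hP hx.1 ?_
        rw [vH_lg V hx0, hb]
      have hk := om3_KG hP hV hx0 h1x hxS ha
      rw [vH_lg V hx0, hb, zero_smul, zero_smul, hOm _ hk μ hμ]
  · -- `v x > 0`
    have ha : V.v (1 - x) = 0 := by
      have h4 := (V.add_lt (x := (1 : RatFunc K)) (y := -x) one_ne_zero
        (Or.inr (by rw [v_neg V hx0, hv1]; exact hb))).2.1
      rw [e1, hv1] at h4
      exact h4
    have hyS : lg (1 - x) ∈ SG S := by
      refine SG_insert_v hV hP hx.2 ?_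
      rw [vH_lg V h1x, ha]
    have hk : lg (1 - x) ∈ SRG.KG p S := by
      refine om3_KG hP hV h1x ?_ hyS ?_
      · rw [sub_sub_cancel]
        exact hx0
      · rw [sub_sub_cancel]
        exact hb
    rw [vH_lg V h1x, ha, zero_smul, zero_smul, hOm _ hk μ hμ]

end TGF
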