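import Pool.Agent.TGF.Psi2
import Pool.Agent.TGF.Om3
import Pool.Agent.TGF.Star2

set_option autoImplicit false

/-!
# TGF-RL: the reduction lemma

PLAN.  `RL_core`: let `E = K(t)`, `N = Lv (j + 1) S ⊔ Rel (j + 1) E ⊔ U.map (d3 j)`, `W = X (j + 1) E ⧸ N`,
`ψ = N.mkQ`.  `exists_om` gives `Om`; `ψ' := ψ - Om ∘ₗ ctT (j + 2) V.vH ∘ₗ d2 (j + 1)`.  `HP p V S j ψ'`:
`rel` (`d2_rel`), `sm` (`exists_om`), `d3` (`d2_d3`, `hU`).  `hk` for `ψ'` (`ψ' (d3 z) = ψ (d3 z) = 0` for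
`z ∈ U`); `exists_psibar` gives `Ψ` with `ψ' y = Ψ (reX V j y) = 0` by `hr`; `ψ y = ψ' y` since `d2 y = 0`.
So `y ∈ N` (`Submodule.mem_sup`).
`RL`: cases on `j`.  `j = 0`: `U` = span of the `bx x μ` of `hU`, `hk` by `psi_ker_zero`; `NR S 0` is
`True`.  `j = i + 1`: `U` = span of these and of the `star i x y μ` with `El S x`, `x ≠ 0, 1`,
`El (insert P S) y`, `y ≠ 0`, `0 < V.v y`, `μ ∈ TS i (SG S)`; `hk` by `psi_ker_succ`.  The elements of `U`
have no residues outside `S`: for `bx x μ` by `NR_bx`; for the star: outside `insert P S` by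
`star_NR` (for `insert P S`: `El_mono`, `TS_mono`, `SG_mono`; `y ≠ 1` since `V.v 1 = 0`), at `P` by
`star_res` (for every `V'` with `IsPt p' V'`, `p'.P = p.P`; apply `star_res` to `p'`, the hypothesis
`0 < V'.v y` follows from `0 < V.v y` by `pt_unique`-type arguments: `V'.v y` and `V.v y` are determined
by `P`: use `SG_iff` for `insert P S` or prove a lemma `v_same`: `IsPt p V`, `IsPt p' V'`, `p.P = p'.P`
imply `V.v = V'.v` on nonzero elements, by writing a polynomial as `P ^ m * A`, `pt_pow`).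
-/

noncomputable section

open Polynomial TensorProduct
open scoped Classical

namespace TGF

open Helper14.Gon Helper14.W4 QPL

universe u v w

section
variable {K : Type u} [Field K] {k : Type v} [Field k] {p : SRG.Pl K k}
    {V : AC (RatFunc K) k} {S : Set K[X]}

private lemma rl_ex (P : K[X]) (hP : Irreducible P) {A : K[X]} (hA : A ≠ 0) :
    ∃ (m : ℕ) (B : K[X]), A = P ^ m * B ∧ ¬ P ∣ B := by
  have h1 : FiniteMultiplicity P A := FiniteMultiplicity.of_not_isUnit hP.not_isUnit hA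
  obtain ⟨c, hc, hc'⟩ := h1.exists_eq_pow_mul_and_not_dvd
  exact ⟨_, c, hc, hc'⟩

lemma v_same {l : Type w} [Field l] {p' : SRG.Pl K l} {V' : AC (RatFunc K) l} (hV : IsPt p V)
    (hV' : IsPt p' V') (h : p'.P = p.P) (x : RatFunc K) (hx : x ≠ 0) : V'.v x = V.v x := by
  have hd : x.denom ≠ 0 := x.denom_ne_zero
  have hn : x.num ≠ 0 := RatFunc.num_ne_zero hx
  have hd' : algebraMap K[X] (RatFunc K) x.denom ≠ 0 := RatFunc.algebraMap_ne_zero hd
  obtain ⟨m, A, hA, hA'⟩ := rl_ex p.P p.irr hn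
  obtain ⟨n, B, hB, hB'⟩ := rl_ex p.P p.irr hd
  have e : x * algebraMap K[X] (RatFunc K) x.denom = algebraMap K[X] (RatFunc K) x.num :=
    ((div_eq_iff hd').1 (RatFunc.num_div_denom x)).symm
  have hv := V.v_mul hx hd'
  have hv' := V'.v_mul hx hd'
  rw [e, hB, hA] at hv hv'
  have p1 := (pt_pow hV m hA').1
  have p3 := (pt_pow hV n hB').1
  have q1 := (pt_pow hV' m (A := A) (by rw [h]; exact hA')).1
  have q3 := (pt_pow hV' n (A := B) (by rw [h]; exact hB')).1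
  rw [h] at q1 q3
  rw [p1, p3] at hv
  rw [q1, q3] at hv'
  linarith

theorem RL_core (hS : SRG.Adm S p.d) (hP : p.P ∉ S) (hV : IsPt p V) (j : ℕ)
    (U : Submodule ℚ (X j (RatFunc K)))
    (hU : ∀ x : RatFunc K, El (insert p.P S) x → ∀ μ ∈ TS j (SG S), bx x μ ∈ U)
    (hk : ∀ {W : Type u} [AddCommGroup W] [Module ℚ W] (ψ : X (j + 1) (RatFunc K) →ₗ[ℚ] W),
      HP p V S j ψ → (∀ z ∈ U, ψ (d3 j z) = 0) → ∀ x : RatFunc K, El S x → ∀ μ ∈ TS j (SG S),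
      spT V j μ = 0 → ψ (bx x (wT j (lg (algebraMap K[X] (RatFunc K) p.P)) μ)) = 0)
    {y : X (j + 1) (RatFunc K)} (hy : y ∈ Lv (j + 1) (insert p.P S)) (h2 : d2 (j + 1) y = 0)
    (hr : reX V j y ∈ Rel j k) :
    ∃ A ∈ U, ∃ y' ∈ Lv (j + 1) S, y - d3 j A - y' ∈ Rel (j + 1) (RatFunc K) := by
  set N : Submodule ℚ (X (j + 1) (RatFunc K)) :=
    (Lv (j + 1) S ⊔ Rel (j + 1) (RatFunc K)) ⊔ U.map (d3 j) with hN
  have n1 : ∀ z ∈ Lv (j + 1) S, N.mkQ z = 0 := fun z hz => by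
    rw [Submodule.mkQ_apply, Submodule.Quotient.mk_eq_zero]
    exact (le_sup_left.trans le_sup_left : Lv (j + 1) S ≤ N) hz
  have n2 : ∀ z ∈ Rel (j + 1) (RatFunc K), N.mkQ z = 0 := fun z hz => by
    rw [Submodule.mkQ_apply, Submodule.Quotient.mk_eq_zero]
    exact (le_sup_right.trans le_sup_left : Rel (j + 1) (RatFunc K) ≤ N) hz
  have n3 : ∀ z ∈ U, N.mkQ (d3 j z) = 0 := fun z hz => by
    rw [Submodule.mkQ_apply, Submodule.Quotient.mk_eq_zero]
    exact (le_sup_right : U.map (d3 j) ≤ N) (Submodule.mem_map_of_mem hz)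
  obtain ⟨Om, hOm⟩ := exists_om hS hP hV j N.mkQ n2 n1
    (fun x hx μ hμ => n3 _ (hU x hx μ hμ))
  set ψ : X (j + 1) (RatFunc K) →ₗ[ℚ] (X (j + 1) (RatFunc K) ⧸ N) :=
    N.mkQ - Om ∘ₗ (ctT (j + 2) V.vH) ∘ₗ (d2 (j + 1)) with hψ
  have eψ : ∀ z, ψ z = N.mkQ z - Om (ctT (j + 2) V.vH (d2 (j + 1) z)) := fun z => rfl
  have u3 : ∀ z ∈ U, ψ (d3 j z) = 0 := fun z hz => by
    rw [eψ, n3 z hz, d2_d3, map_zero, map_zero, sub_zero]
  have hp : HP p V S j ψ := by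
    refine ⟨fun z hz => ?_, fun x hx μ hμ => ?_, fun x hx μ hμ => u3 _ (hU x hx μ hμ)⟩
    · rw [eψ, n2 z hz, d2_rel (j + 1) hz, map_zero, map_zero, sub_zero]
    · rw [eψ, hOm x hx μ hμ, sub_self]
  obtain ⟨Ψ, hΨ1, hΨ2⟩ := exists_psibar hS hP hV hp (hk ψ hp u3)
  have e1 : ψ y = 0 := by rw [hΨ2 y hy, hΨ1 _ hr]
  rw [eψ, h2, map_zero, map_zero, sub_zero, Submodule.mkQ_apply,
    Submodule.Quotient.mk_eq_zero] at e1
  obtain ⟨a, ha, b, hb, hab⟩ := Submodule.mem_sup.1 e1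
  obtain ⟨a1, ha1, a2, ha2, haa⟩ := Submodule.mem_sup.1 ha
  obtain ⟨A, hA, rfl⟩ := (Submodule.mem_map).1 hb
  refine ⟨A, hA, a1, ha1, ?_⟩
  have e2 : y - d3 j A - a1 = a2 := by
    rw [← hab, ← haa]
    abel
  rw [e2]
  exact ha2

theorem RL (hS : SRG.Adm S p.d) (hP : p.P ∉ S) (hV : IsPt p V) (j : ℕ)
    {y : X (j + 1) (RatFunc K)} (hy : y ∈ Lv (j + 1) (insert p.P S)) (h2 : d2 (j + 1) y = 0)
    (hr : reX V j y ∈ Rel j k) :
    ∃ A : X j (RatFunc K), NR S j A ∧ ∃ y' ∈ Lv (j + 1) S,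
      y - d3 j A - y' ∈ Rel (j + 1) (RatFunc K) := by
  cases j with
  | zero =>
    obtain ⟨A, -, h⟩ := RL_core hS hP hV 0
      (Submodule.span ℚ {z | ∃ (x : RatFunc K) (μ : Tx 0 (RatFunc K)), El (insert p.P S) x ∧
        μ ∈ TS 0 (SG S) ∧ z = bx x μ})
      (fun x hx μ hμ => Submodule.subset_span ⟨x, μ, hx, hμ, rfl⟩)
      (fun ψ _ _ x _ μ _ h0 => psi_ker_zero x h0) hy h2 hr
    exact ⟨A, trivial, h⟩
  | succ i =>
    obtain ⟨A, hA, h⟩ := RL_core hS hP hV (i + 1)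
      (Submodule.span ℚ ({z | ∃ (x : RatFunc K) (μ : Tx (i + 1) (RatFunc K)),
        El (insert p.P S) x ∧ μ ∈ TS (i + 1) (SG S) ∧ z = bx x μ} ∪
        {z | ∃ (x y : RatFunc K) (μ : Tx i (RatFunc K)), El S x ∧ x ≠ 0 ∧ x ≠ 1 ∧
          El (insert p.P S) y ∧ y ≠ 0 ∧ 0 < V.v y ∧ μ ∈ TS i (SG S) ∧ z = star i x y μ}))
      (fun x hx μ hμ => Submodule.subset_span (Or.inl ⟨x, μ, hx, hμ, rfl⟩))
      (fun ψ hp hu x hx μ hμ h0 => psi_ker_succ hS hP hV hp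
        (fun x y hx hx0 hx1 hy hy0 hv μ hμ => hu _ (Submodule.subset_span
          (Or.inr ⟨x, y, μ, hx, hx0, hx1, hy, hy0, hv, hμ, rfl⟩))) hx hμ h0) hy h2 hr
    refine ⟨A, ?_, h⟩
    clear h
    induction hA using Submodule.span_induction with
    | mem z hz =>
      rcases hz with ⟨x, μ, hx, hμ, rfl⟩ | ⟨x, y, μ, hx, hx0, hx1, hy, hy0, hv, hμ, rfl⟩
      · exact NR_bx S (i + 1) x hμ
      · intro l _ p' V' hV' hP'
        by_cases hpp : p'.P = p.P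
        · refine star_res hV' hP' i hx hx0 hx1 hy0 ?_ hμ
          rw [v_same hV hV' hpp y hy0]
          exact hv
        · have hy1 : y ≠ 1 := by
            rintro rfl
            rw [v_one] at hv
            exact lt_irrefl _ hv
          have h3 := star_NR i (El_mono (Set.subset_insert p.P S) hx) hx0 hx1 hy0 hy1 hy
            (TS_mono i (SG_mono (Set.subset_insert p.P S)) hμ)
          refine h3 l p' V' hV' ?_
          rintro (h4 | h4)
          · exact hpp h4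
          · exact hP' h4
    | zero => exact NR_zero S (i + 1)
    | add a b _ _ ha hb => exact NR_add S (i + 1) ha hb
    | smul c a _ ha => exact NR_smul S (i + 1) c ha

end

end TGF
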