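import Pool.Agent.TGF.JD

set_option autoImplicit false

/-!
# TGF-Cv1: finitely many elements are, up to Frobenius, in a simple separable extension of `F_p(t)`

The `p^m`-th powers of the elements of `S` are separable over `F_p(t)` for a common `m`
(`cv1_exp`), so they are in a finite separable extension, which has a primitive element; a multiple
of this element is integral over `F_p[t]`.
-/

noncomputable section

open Polynomial
open scoped Classical

namespace TGF

universe u

private theorem cv1_pow {K0 F : Type*} [Field K0] [Field F] [Algebra K0 F]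
    [Algebra.IsAlgebraic K0 F] (p : ℕ) [ExpChar K0 p] (x : F) :
    ∃ n : ℕ, x ^ (p ^ n) ∈ separableClosure K0 F := by
  have : ExpChar (separableClosure K0 F) p :=
    expChar_of_injective_algebraMap (algebraMap K0 (separableClosure K0 F)).injective p
  obtain ⟨n, y, hy⟩ := IsPurelyInseparable.pow_mem (separableClosure K0 F) p x
  refine ⟨n, ?_⟩
  rw [← hy]
  exact y.2

private theorem cv1_exp {K0 F : Type*} [Field K0] [Field F] [Algebra K0 F]
    [Algebra.IsAlgebraic K0 F] (p : ℕ) [ExpChar K0 p] (S : Finset F) :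
    ∃ n : ℕ, ∀ x ∈ S, x ^ (p ^ n) ∈ separableClosure K0 F := by
  choose f hf using cv1_pow (K0 := K0) (F := F) p
  refine ⟨∑ x ∈ S, f x, fun x hx => ?_⟩
  obtain ⟨k, hk⟩ := Nat.exists_eq_add_of_le
    (Finset.single_le_sum (f := f) (fun _ _ => Nat.zero_le _) hx)
  rw [hk, pow_add, pow_mul]
  exact pow_mem (hf x) _

private theorem cv1_gen {A K0 F : Type*} [CommRing A] [IsDomain A] [Field K0] [Algebra A K0]
    [IsFractionRing A K0] [Field F] [Algebra K0 F] [Algebra A F] [IsScalarTower A K0 F]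
    [Algebra.IsAlgebraic K0 F] (p : ℕ) [ExpChar K0 p] (S : Finset F) :
    ∃ (m : ℕ) (θ : F), IsIntegral A θ ∧ IsSeparable K0 θ ∧
      ∀ x ∈ S, ∃ g : K0[X], x ^ (p ^ m) = Polynomial.aeval θ g := by
  obtain ⟨m, hm⟩ := cv1_exp (K0 := K0) p S
  obtain ⟨L, hL⟩ : ∃ L : IntermediateField K0 F,
      L = IntermediateField.adjoin K0 (↑(S.image fun x => x ^ (p ^ m)) : Set F) := ⟨_, rfl⟩
  have hLs : L ≤ separableClosure K0 F := by
    rw [hL, IntermediateField.adjoin_le_iff]
    intro y hy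
    obtain ⟨x, hx, rfl⟩ := Finset.mem_image.1 (Finset.mem_coe.1 hy)
    exact hm x hx
  have hmem : ∀ x ∈ S, x ^ (p ^ m) ∈ L := by
    intro x hx
    rw [hL]
    exact IntermediateField.subset_adjoin K0 _
      (Finset.mem_coe.2 (Finset.mem_image_of_mem _ hx))
  have hfin : FiniteDimensional K0 L := by
    rw [hL]
    exact IntermediateField.finiteDimensional_adjoin fun x _ =>
      (Algebra.IsAlgebraic.isAlgebraic x).isIntegral
  have hsep : Algebra.IsSeparable K0 L := (le_separableClosure_iff K0 F L).1 hLs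
  obtain ⟨pb⟩ : Nonempty (PowerBasis K0 L) := ⟨Field.powerBasisOfFiniteOfSeparable K0 L⟩
  obtain ⟨⟨b, hb⟩, hbi⟩ := IsIntegral.exists_multiple_integral_of_isLocalization
    (nonZeroDivisors A) (Rₘ := K0) ((pb.gen : L) : F)
    (Algebra.IsAlgebraic.isAlgebraic ((pb.gen : L) : F)).isIntegral
  have hb0 : algebraMap A K0 b ≠ 0 := IsFractionRing.to_map_ne_zero_of_mem_nonZeroDivisors hb
  have hθ : b • ((pb.gen : L) : F) = algebraMap K0 F (algebraMap A K0 b) * ((pb.gen : L) : F) := by
    rw [Algebra.smul_def, IsScalarTower.algebraMap_apply A K0 F]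
  refine ⟨m, b • ((pb.gen : L) : F), hbi, ?_, fun x hx => ?_⟩
  · rw [← mem_separableClosure_iff, hθ]
    exact mul_mem ((separableClosure K0 F).algebraMap_mem _) (hLs pb.gen.2)
  · obtain ⟨g, hg⟩ := pb.exists_eq_aeval' ⟨x ^ (p ^ m), hmem x hx⟩
    have h1 := congrArg L.val hg
    rw [← Polynomial.aeval_algHom_apply] at h1
    refine ⟨g.comp (C (algebraMap A K0 b)⁻¹ * X), ?_⟩
    rw [Polynomial.aeval_comp, map_mul, aeval_C, aeval_X, hθ, ← mul_assoc, ← map_mul,
      inv_mul_cancel₀ hb0, map_one, one_mul]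
    exact h1

theorem exists_theta (p : ℕ) [Fact p.Prime] {F : Type u} [Field F] [Algebra (RatFunc (ZMod p)) F]
    [Algebra.IsAlgebraic (RatFunc (ZMod p)) F] (S : Finset F) :
    ∃ (m : ℕ) (θ : F) (f0 : (ZMod p)[X][X]), f0.Monic ∧
      (f0.map (algebraMap (ZMod p)[X] (RatFunc (ZMod p)))).Separable ∧
      f0.eval₂ ((algebraMap (RatFunc (ZMod p)) F).comp
        (algebraMap (ZMod p)[X] (RatFunc (ZMod p)))) θ = 0 ∧
      ∀ x ∈ S, ∃ g : (RatFunc (ZMod p))[X],
        x ^ (p ^ m) = g.eval₂ (algebraMap (RatFunc (ZMod p)) F) θ := by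
  have hch : CharP (RatFunc (ZMod p)) p :=
    charP_of_injective_algebraMap (algebraMap (ZMod p) (RatFunc (ZMod p))).injective p
  have hexp : ExpChar (RatFunc (ZMod p)) p := ExpChar.prime Fact.out
  let _ : Algebra (ZMod p)[X] F := ((algebraMap (RatFunc (ZMod p)) F).comp
    (algebraMap (ZMod p)[X] (RatFunc (ZMod p)))).toAlgebra
  have hst : IsScalarTower (ZMod p)[X] (RatFunc (ZMod p)) F := IsScalarTower.of_algebraMap_eq' rfl
  obtain ⟨m, θ, h1, h2, h3⟩ := cv1_gen (A := (ZMod p)[X]) (K0 := RatFunc (ZMod p)) p S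
  refine ⟨m, θ, minpoly (ZMod p)[X] θ, minpoly.monic h1, ?_, minpoly.aeval _ θ, h3⟩
  rw [← minpoly.isIntegrallyClosed_eq_field_fractions' (RatFunc (ZMod p)) h1]
  exact h2

end TGF
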