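import Pool.Agent.Helper14.Loc.Defs
import Pool.Agent.QPL.Defs
import Pool.Agent.SRG.Defs

set_option autoImplicit false

/-!
# TGF: chains (definitions)

`X j F = F →₀ Λ^j F^* ⊗ ℚ` is the space of formal combinations of the symbols `[x] ω`
(`x ∈ F`, `ω ∈ Λ^j F^* ⊗ ℚ`), used both in weight three and in weight two; `d3`, `d2` are the
differentials, `Rel j F` the five-term relations, `c3`, `c2` the maps to the terms
`B_3 ⊗ Λ^j`, `B_2 ⊗ Λ^j` of Goncharov's complexes.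
-/

noncomputable section

open Polynomial TensorProduct
open scoped Classical

namespace TGF

open Helper14.Gon Helper14.W4

universe u v w

section
variable (j : ℕ) (F : Type u) [Field F]

/-- chains -/
abbrev X : Type u := F →₀ Tx j F

end

section
variable {j : ℕ} {F : Type u} [Field F]

/-- the chain `[x] ω` -/
def bx (x : F) (ω : Tx j F) : X j F := Finsupp.single x ω

/-- linear maps on chains -/
def xl {N : Type v} [AddCommGroup N] [Module ℚ N] (g : F → (Tx j F →ₗ[ℚ] N)) : X j F →ₗ[ℚ] N :=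
  Finsupp.lsum ℚ g

@[simp] lemma xl_bx {N : Type v} [AddCommGroup N] [Module ℚ N] (g : F → (Tx j F →ₗ[ℚ] N))
    (x : F) (ω : Tx j F) : xl g (bx x ω) = g x ω := by
  rw [xl, bx, Finsupp.lsum_single]

/-- linear maps on chains agreeing on the `[x] ω` are equal -/
lemma x_ext {N : Type v} [AddCommGroup N] [Module ℚ N] {f g : X j F →ₗ[ℚ] N}
    (h : ∀ (x : F) (ω : Tx j F), f (bx x ω) = g (bx x ω)) : f = g := by
  refine Finsupp.lhom_ext fun x ω => h x ω

/-- induction on chains -/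
lemma x_ind (p : X j F → Prop) (h0 : p 0) (hadd : ∀ a b, p a → p b → p (a + b))
    (h1 : ∀ (x : F) (ω : Tx j F), p (bx x ω)) (z : X j F) : p z := by
  induction z using Finsupp.induction_linear with
  | zero => exact h0
  | add a b ha hb => exact hadd a b ha hb
  | single x ω => exact h1 x ω

lemma bx_add (x : F) (ω ω' : Tx j F) : bx x (ω + ω') = bx x ω + bx x ω' := by
  rw [bx, bx, bx, Finsupp.single_add]

lemma bx_smul (x : F) (q : ℚ) (ω : Tx j F) : bx x (q • ω) = q • bx x ω := by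
  rw [bx, bx, Finsupp.smul_single]

lemma bx_zero (x : F) : bx x (0 : Tx j F) = 0 := by
  rw [bx, Finsupp.single_zero]

/-- `bx x` as a linear map -/
def bxL (x : F) : Tx j F →ₗ[ℚ] X j F := Finsupp.lsingle x

lemma bxL_apply (x : F) (ω : Tx j F) : bxL x ω = bx x ω := rfl

end

section
variable (j : ℕ) {F : Type u} [Field F]

/-- the differential in weight three (and above), `[x] ω ↦ [x] x ∧ ω` -/
def d3 : X j F →ₗ[ℚ] X (j + 1) F := xl fun x => (bxL x) ∘ₗ (wT j (lg x))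

/-- the differential in weight two, `[x] ω ↦ (1 - x) ∧ x ∧ ω` -/
def d2 : X j F →ₗ[ℚ] Tx (j + 2) F := xl fun x => (wT (j + 1) (lg (1 - x))) ∘ₗ (wT j (lg x))

/-- the map to `B_3 ⊗ Λ^j` -/
def c3 : X j F →ₗ[ℚ] Cx 3 j F := xl fun x => PB 3 j (cl 3 (some x))

/-- the map to `B_2 ⊗ Λ^j` -/
def c2 : X j F →ₗ[ℚ] Cx 2 j F := xl fun x => PB 2 j (cl 2 (some x))

/-- exterior product of a chain with a unit (from the left) -/
def wX (v : Additive Fˣ) : X j F →ₗ[ℚ] X (j + 1) F := xl fun x => (bxL x) ∘ₗ (wT j v)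

@[simp] lemma d3_bx (x : F) (ω : Tx j F) : d3 j (bx x ω) = bx x (wT j (lg x) ω) := by
  rw [d3, xl_bx]; rfl

@[simp] lemma d2_bx (x : F) (ω : Tx j F) :
    d2 j (bx x ω) = wT (j + 1) (lg (1 - x)) (wT j (lg x) ω) := by
  rw [d2, xl_bx]; rfl

@[simp] lemma c3_bx (x : F) (ω : Tx j F) : c3 j (bx x ω) = PB 3 j (cl 3 (some x)) ω := by
  rw [c3, xl_bx]

@[simp] lemma c2_bx (x : F) (ω : Tx j F) : c2 j (bx x ω) = PB 2 j (cl 2 (some x)) ω := by
  rw [c2, xl_bx]

@[simp] lemma wX_bx (v : Additive Fˣ) (x : F) (ω : Tx j F) :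
    wX j v (bx x ω) = bx x (wT j v ω) := by
  rw [wX, xl_bx]; rfl

end

section
variable {F : Type u} [Field F] {L : Type v} [Field L]

/-- the map `Λ^j F^* ⊗ ℚ → Λ^j L^* ⊗ ℚ` induced by a group homomorphism -/
def tm (j : ℕ) (σ : Additive Fˣ →+ Additive Lˣ) : Tx j F →ₗ[ℚ] Tx j L :=
  LinearMap.baseChange ℚ (exteriorPower.map j σ.toIntLinearMap)

/-- the map on chains induced by a field homomorphism -/
def mX (j : ℕ) (φ : F →+* L) : X j F →ₗ[ℚ] X j L := xl fun x => (bxL (φ x)) ∘ₗ (resT j φ)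

@[simp] lemma mX_bx (j : ℕ) (φ : F →+* L) (x : F) (ω : Tx j F) :
    mX j φ (bx x ω) = bx (φ x) (resT j φ ω) := by
  rw [mX, xl_bx]; rfl

end

section
variable (j : ℕ) (F : Type u) [Field F]

/-- the five-term combination -/
def five {j : ℕ} {F : Type u} [Field F] (x y : F) (ω : Tx j F) : X j F :=
  bx x ω - bx y ω + bx (y / x) ω - bx ((1 - x⁻¹) / (1 - y⁻¹)) ω + bx ((1 - x) / (1 - y)) ω

/-- the five-term relations -/
def Rel : Submodule ℚ (X j F) := Submodule.span ℚ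
  ({z | ∃ ω : Tx j F, z = bx 0 ω} ∪ {z | ∃ ω : Tx j F, z = bx 1 ω} ∪
   {z | ∃ (x : F) (ω : Tx j F), z = bx x ω + bx x⁻¹ ω} ∪
   {z | ∃ (x : F) (ω : Tx j F), z = bx x ω + bx (1 - x) ω} ∪
   {z | ∃ (x y : F) (ω : Tx j F), x ≠ 0 ∧ x ≠ 1 ∧ y ≠ 0 ∧ y ≠ 1 ∧ x ≠ y ∧ z = five x y ω})

/-- coboundaries in weight two: `Rel` and the `[x] x ∧ ω` -/
def BX : (j : ℕ) → (F : Type u) → [Field F] → Submodule ℚ (X j F)
  | 0, F, _ => Rel 0 F
  | j + 1, F, _ => LinearMap.range (d3 j : X j F →ₗ[ℚ] X (j + 1) F) ⊔ Rel (j + 1) F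

/-- cocycles in weight three (five-term form) -/
def ZX : Submodule ℚ (X j F) := (Rel (j + 1) F).comap (d3 j)

/-- the chains whose class in `B_3 ⊗ Λ^j` is a coboundary -/
def NX : Submodule ℚ (X j F) := (bdry F 1 j).comap (c3 j)

/-- the chains whose class in `B_2 ⊗ Λ^j` is a coboundary -/
def N2 : Submodule ℚ (X j F) := (bdry F 0 j).comap (c2 j)

/-- coboundaries in the last term `Λ^j F^* ⊗ ℚ` -/
def N0 : (j : ℕ) → (F : Type u) → [Field F] → Submodule ℚ (Tx j F)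
  | 0, _, _ => ⊥
  | 1, _, _ => ⊥
  | j + 2, F, _ => LinearMap.range (dT j : Cx 2 j F →ₗ[ℚ] Tx (j + 2) F)

end

/-! ### places -/

section
variable {L : Type u} {k : Type v} [Field L] [Field k]

/-- specialisation of `Λ^j` -/
def spT (V : QPL.AC L k) (j : ℕ) : Tx j L →ₗ[ℚ] Tx j k := tm j V.lH

/-- residue on `Λ^{j+1}` -/
def reT (V : QPL.AC L k) (j : ℕ) : Tx (j + 1) L →ₗ[ℚ] Tx j k := (tm j V.lH) ∘ₗ (ctT j V.vH)

/-- specialisation of chains -/
def spX (V : QPL.AC L k) (j : ℕ) : X j L →ₗ[ℚ] X j k :=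
  xl fun x => if x = 0 ∨ V.v x = 0 then (bxL (V.lc x)) ∘ₗ (spT V j) else 0

/-- residue of chains -/
def reX (V : QPL.AC L k) (j : ℕ) : X (j + 1) L →ₗ[ℚ] X j k :=
  xl fun x => if x = 0 ∨ V.v x = 0 then (bxL (V.lc x)) ∘ₗ (reT V j) else 0

lemma spX_bx (V : QPL.AC L k) (j : ℕ) (x : L) (ω : Tx j L) :
    spX V j (bx x ω) = if x = 0 ∨ V.v x = 0 then bx (V.lc x) (spT V j ω) else 0 := by
  rw [spX, xl_bx]
  split_ifs
  · rfl
  · rfl

lemma reX_bx (V : QPL.AC L k) (j : ℕ) (x : L) (ω : Tx (j + 1) L) :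
    reX V j (bx x ω) = if x = 0 ∨ V.v x = 0 then bx (V.lc x) (reT V j ω) else 0 := by
  rw [reX, xl_bx]
  split_ifs
  · rfl
  · rfl

end

/-! ### smooth elements of `K(t)` -/

section
variable {K : Type u} [Field K]

/-- the group generated by the smooth polynomials (products of constants and elements of `S`) -/
def SG (S : Set K[X]) : AddSubgroup (Additive (RatFunc K)ˣ) :=
  AddSubgroup.closure {v | ∃ A : K[X], A ≠ 0 ∧ SRG.Sm S A ∧
    v = lg (algebraMap K[X] (RatFunc K) A)}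

/-- `x` and `1 - x` are smooth (or zero) -/
def El (S : Set K[X]) (x : RatFunc K) : Prop := lg x ∈ SG S ∧ lg (1 - x) ∈ SG S

/-- the span of the `v_1 ∧ … ∧ v_j`, `v_i ∈ G` -/
def TS {F : Type u} [Field F] (j : ℕ) (G : AddSubgroup (Additive Fˣ)) : Submodule ℚ (Tx j F) :=
  Submodule.span ℚ {ω | ∃ v : Fin j → Additive Fˣ, (∀ i, v i ∈ G) ∧ ω = dm v}

/-- the chains of level `S` -/
def Lv (j : ℕ) (S : Set K[X]) : Submodule ℚ (X j (RatFunc K)) :=
  Submodule.span ℚ {z | ∃ (x : RatFunc K) (ω : Tx j (RatFunc K)), El S x ∧ ω ∈ TS j (SG S) ∧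
    z = bx x ω}

/-- `V` is the valuation of the closed point `p`, with uniformizer `P` -/
structure IsPt {k : Type v} [Field k] (p : SRG.Pl K k) (V : QPL.AC (RatFunc K) k) : Prop where
  vP : V.v (algebraMap K[X] (RatFunc K) p.P) = 1
  lP : V.lc (algebraMap K[X] (RatFunc K) p.P) = 1
  v : ∀ A : K[X], ¬ p.P ∣ A → V.v (algebraMap K[X] (RatFunc K) A) = 0
  lc : ∀ A : K[X], ¬ p.P ∣ A → V.lc (algebraMap K[X] (RatFunc K) A) = p.r A

/-- all residues at the closed points outside `S` are zero -/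
def NR (S : Set K[X]) : (j : ℕ) → X j (RatFunc K) → Prop
  | 0, _ => True
  | j + 1, z => ∀ (k : Type u) [Field k] (p : SRG.Pl K k) (V : QPL.AC (RatFunc K) k),
      IsPt p V → p.P ∉ S → reX V j z = 0

/-- the element with differential `- [x] (1 - y) ∧ y ∧ μ + [y] (1 - x) ∧ x ∧ μ` modulo `Rel` -/
def star {F : Type u} [Field F] (j : ℕ) (x y : F) (μ : Tx j F) : X (j + 1) F :=
  bx (x / y) (wT j (lg ((1 - x) / (1 - y))) μ) -
    bx (y * (1 - x) / (x * (1 - y))) (wT j (lg ((1 - x) / (1 - y))) μ) -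
    bx x (wT j (lg ((1 - x) / (1 - y))) μ) -
    bx y (wT j (lg ((1 - x) / (1 - y))) μ) +
    bx 1 (wT j (lg ((1 - x) / (1 - y))) μ) +
    bx ((1 - x) / (1 - y)) (wT j (lg (x / y)) μ) +
    bx (1 - x) (wT j (lg y) μ) - bx (1 - y) (wT j (lg x) μ)

end

end TGF
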