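import Pool.Agent.Helper14.Loc.Main

set_option autoImplicit false

/-!
# TGF-Fdef: maps on cohomology and Galois descent (definitions)
-/

noncomputable section

open Polynomial TensorProduct
open scoped Classical

namespace TGF

open Helper14.Gon Helper14.W4 Helper14.Loc

universe u

section
variable {F L : Type u} [Field F] [Field L]

theorem exists_hm (k j : ℕ) (φ : F →+* L) : ∃ e : HC F k j →ₗ[ℚ] HC L k j, Ind (rs k j φ) e := by
  have c0 : ∀ z ∈ ZC F k j, rs k j φ z ∈ ZC L k j := by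
    intro z hz
    rw [mem_ZC, rs_eq]
    exact resC_cyc φ k j ((mem_ZC k j z).1 hz)
  have b0 : ∀ z ∈ BC F k j, rs k j φ z ∈ BC L k j := by
    intro z hz
    rw [mem_BC, rs_eq]
    exact resC_bdry φ k j ((mem_BC k j z).1 hz)
  refine ⟨((BC F k j).submoduleOf (ZC F k j)).mapQ ((BC L k j).submoduleOf (ZC L k j))
    ((rs k j φ).restrict c0) (fun z hz => b0 _ hz), fun z => ⟨c0 _ z.2, ?_⟩⟩
  rfl

theorem exists_hmt (n : ℕ) (φ : F →+* L) : ∃ e : HT F n →ₗ[ℚ] HT L n, IndT (rt n φ) e := by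
  have b0 : ∀ z ∈ BT F n, rt n φ z ∈ BT L n := by
    intro z hz
    match n, z, hz with
    | 0, z, hz =>
      have : z = 0 := hz
      rw [this, map_zero]; exact zero_mem _
    | 1, z, hz =>
      have : z = 0 := hz
      rw [this, map_zero]; exact zero_mem _
    | n + 2, z, hz =>
      rw [mem_BT, rt_eq]
      obtain ⟨y, hy⟩ := (mem_BT n z).1 hz
      refine ⟨resC 1 n φ y, ?_⟩
      rw [resT_dT n φ, hy]
  exact ⟨(BT F n).mapQ (BT L n) (rt n φ) b0, fun z => rfl⟩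

/-- The map `H^{j+1}(Γ(F, k + j + 2) ⊗ ℚ) → H^{j+1}(Γ(L, k + j + 2) ⊗ ℚ)` induced by
`φ : F → L` (the class of a cocycle `z` is mapped to the class of `φ(z)`). -/
def hm (k j : ℕ) (φ : F →+* L) : HC F k j →ₗ[ℚ] HC L k j := (exists_hm k j φ).choose

/-- The map `H^n(Γ(F, n) ⊗ ℚ) → H^n(Γ(L, n) ⊗ ℚ)` in the top degree induced by `φ : F → L`. -/
def hmt (n : ℕ) (φ : F →+* L) : HT F n →ₗ[ℚ] HT L n := (exists_hmt n φ).choose

theorem hm_ind (k j : ℕ) (φ : F →+* L) : Ind (rs k j φ) (hm k j φ) :=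
  (exists_hm k j φ).choose_spec

theorem hmt_ind (n : ℕ) (φ : F →+* L) : IndT (rt n φ) (hmt n φ) := (exists_hmt n φ).choose_spec

end

section
variable (M F : Type u) [Field M] [Field F] [Algebra M F]

/-- A class in `H^{j+1}(Γ(F, k + j + 2) ⊗ ℚ)` comes from `M` if and only if it is fixed by all
automorphisms of `F` over `M`. -/
def Desc (k j : ℕ) : Prop :=
  ∀ c : HC F k j, (∃ x : HC M k j, hm k j (algebraMap M F) x = c) ↔
    ∀ σ : F ≃ₐ[M] F, hm k j (σ : F →+* F) c = c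

/-- The map `H^{j+1}(Γ(M, k + j + 2) ⊗ ℚ) → H^{j+1}(Γ(F, k + j + 2) ⊗ ℚ)` is injective. -/
def DInj (k j : ℕ) : Prop := Function.Injective (hm k j (algebraMap M F))

/-- A class in `H^n(Γ(F, n) ⊗ ℚ)` comes from `M` if and only if it is fixed by all
automorphisms of `F` over `M`. -/
def DescT (n : ℕ) : Prop :=
  ∀ c : HT F n, (∃ x : HT M n, hmt n (algebraMap M F) x = c) ↔
    ∀ σ : F ≃ₐ[M] F, hmt n (σ : F →+* F) c = c

/-- The map `H^n(Γ(M, n) ⊗ ℚ) → H^n(Γ(F, n) ⊗ ℚ)` is injective. -/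
def DInjT (n : ℕ) : Prop := Function.Injective (hmt n (algebraMap M F))

end

end TGF
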