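import Pool.Agent.TGF.On1

set_option autoImplicit false

/-!
# TGF-On2: Galois invariant classes descend

PLAN.  `onto_fin` gives `k`, `p`, `y`, `w'`, `c`.  `T` (`exists_T`, here the hypothesis `hT0`) is the finite set
of the `y' : k → F` with `y' ∘ (p.r ∘ C) = φ`; `y ∈ T`.  `hT` gives `s ∈ Z M j` with
`∑ y' ∈ T, map y' w' - map φ s ∈ N F j`.  For `y' ∈ T` there is `σ : F →+* F` with `σ ∘ y = y'`: `F` is
algebraic over `k` via `y` (`halg`: a polynomial over `M` is a polynomial over `k`), regard `F` as a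
`k`-algebra via `y` and, as target, via `y'` (`IsAlgClosed.lift`, with `RingHom.toAlgebra` instances given
explicitly).  Then `σ ∘ φ = φ` and `map y' w' = map σ (map y w')`, which is `c • w` modulo `N` (`map_N` for
`σ`, `hw`).  So `(T.card * c) • w - map φ s ∈ N`; divide (`T.card ≠ 0` since `y ∈ T`).
-/

noncomputable section

open Polynomial TensorProduct
open scoped Classical

namespace TGF

open Helper14.Gon Helper14.W4 QPL

universe u

/-- The statement of the transfer theorem. -/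
def TrP (H : Thy.{u}) : Prop :=
  ∀ (K k Kb : Type u) [Field K] [Field k] [Field Kb] [IsAlgClosed Kb] (p : SRG.Pl K k)
    (ι : K →+* Kb) (T : Finset (k →+* Kb)), (∀ y, y ∈ T ↔ y.comp (p.r.comp C) = ι) →
    ∀ (j : ℕ) (w : H.Y k j), w ∈ H.Z k j →
      ∃ s ∈ H.Z K j, ∑ y ∈ T, H.map y j w - H.map ι j s ∈ H.N Kb j

private lemma on2_lift {k A B : Type u} [Field k] [Field A] [Field B] [IsAlgClosed B]
    (y : k →+* A) (y' : k →+* B) (h : ∀ x : A, ∃ P : k[X], P ≠ 0 ∧ P.eval₂ y x = 0) :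
    ∃ σ : A →+* B, σ.comp y = y' := by
  let : Algebra k A := y.toAlgebra
  let : Algebra k B := y'.toAlgebra
  have : Algebra.IsAlgebraic k A := ⟨fun x => by
    obtain ⟨P, hP, hx⟩ := h x
    exact ⟨P, hP, hx⟩⟩
  let f : A →ₐ[k] B := IsAlgClosed.lift
  exact ⟨f.toRingHom, RingHom.ext fun x => f.commutes x⟩

private lemma on2_T {M k F : Type u} [Field M] [Field k] [Field F] (p : SRG.Pl M k)
    (φ : M →+* F) : {y : k →+* F | y.comp (p.r.comp C) = φ}.Finite := by
  have key : ∀ y : k →+* F, y.comp (p.r.comp C) = φ →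
      ∀ Q : M[X], y (p.r Q) = Q.eval₂ φ (y (p.r Polynomial.X)) := by
    intro y hy Q
    have h1 : y.comp p.r = Polynomial.eval₂RingHom φ (y (p.r Polynomial.X)) := by
      refine Polynomial.ringHom_ext (fun a => ?_) ?_
      · rw [Polynomial.coe_eval₂RingHom, Polynomial.eval₂_C, ← hy]
        rfl
      · rw [Polynomial.coe_eval₂RingHom, Polynomial.eval₂_X]
        rfl
    have h2 := DFunLike.congr_fun h1 Q
    rw [Polynomial.coe_eval₂RingHom] at h2
    exact h2
  refine Set.Finite.of_finite_image (f := fun y : k →+* F => y (p.r Polynomial.X)) ?_ ?_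
  · refine (((p.P.map φ).roots.toFinset : Finset F).finite_toSet).subset ?_
    rintro _ ⟨y, hy, rfl⟩
    rw [Finset.mem_coe, Multiset.mem_toFinset, Polynomial.mem_roots, Polynomial.IsRoot.def,
      Polynomial.eval_map, ← key y hy, (p.ker p.P).2 dvd_rfl, map_zero]
    exact (Polynomial.map_ne_zero_iff φ.injective).2 p.irr.ne_zero
  · intro y hy y' hy' h
    refine RingHom.ext fun x => ?_
    obtain ⟨Q, rfl⟩ := p.surj x
    rw [key y hy, key y' hy']
    exact congrArg (fun t => Q.eval₂ φ t) h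

theorem onto_alg (H : Thy.{u}) (hH : Laws H) (hT : TrP H) {M F : Type u} [Field M] [Field F]
    [IsAlgClosed F] (φ : M →+* F) (halg : ∀ x : F, ∃ P : M[X], P ≠ 0 ∧ P.eval₂ φ x = 0) (j : ℕ)
    (w : H.Y F j) (hw : w ∈ H.Z F j)
    (hi : ∀ σ : F →+* F, σ.comp φ = φ → H.map σ j w - w ∈ H.N F j) :
    ∃ s ∈ H.Z M j, H.map φ j s - w ∈ H.N F j := by
  obtain ⟨k, hk, p, y, w', c, hc, hy, hw'Z, hw'⟩ := onto_fin H hH φ halg j w hw
  set T : Finset (k →+* F) := (on2_T p φ).toFinset with hTdef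
  have hmem : ∀ y' : k →+* F, y' ∈ T ↔ y'.comp (p.r.comp C) = φ := by
    intro y'
    rw [hTdef, Set.Finite.mem_toFinset]
    rfl
  obtain ⟨s, hsZ, hs⟩ := hT M k F p φ T hmem j w' hw'Z
  have halg' : ∀ x : F, ∃ P : k[X], P ≠ 0 ∧ P.eval₂ y x = 0 := by
    intro x
    obtain ⟨P, hP, hx⟩ := halg x
    refine ⟨P.map (p.r.comp C), (Polynomial.map_ne_zero_iff (p.r.comp C).injective).2 hP, ?_⟩
    rw [Polynomial.eval₂_map, hy, hx]
  have h1 : ∀ y' ∈ T, H.map y' j w' - c • w ∈ H.N F j := by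
    intro y' hy'
    obtain ⟨σ, hσ⟩ := on2_lift y y' halg'
    have h2 : σ.comp φ = φ := by
      rw [← hy, ← RingHom.comp_assoc, hσ, (hmem y').1 hy', hy]
    have h3 : H.map y' j w' = H.map σ j (H.map y j w') := by
      rw [← hσ, hH.map_comp]
    have h4 : H.map σ j (H.map y j w') - c • H.map σ j w ∈ H.N F j := by
      have h5 := hH.map_N F F σ j _ hw'
      rwa [map_sub, map_smul] at h5
    have h6 : c • (H.map σ j w - w) ∈ H.N F j := (H.N F j).smul_mem c (hi σ h2)
    have h7 := (H.N F j).add_mem h4 h6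
    have h8 : H.map σ j (H.map y j w') - c • H.map σ j w + c • (H.map σ j w - w) =
        H.map y' j w' - c • w := by
      rw [h3, smul_sub]
      abel
    rwa [h8] at h7
  have h2 : ∑ y' ∈ T, H.map y' j w' - ((T.card : ℚ) * c) • w ∈ H.N F j := by
    have h3 : ∑ y' ∈ T, (H.map y' j w' - c • w) ∈ H.N F j := (H.N F j).sum_mem h1
    rw [Finset.sum_sub_distrib, Finset.sum_const, ← Nat.cast_smul_eq_nsmul ℚ, smul_smul] at h3
    exact h3
  have hyT : y ∈ T := (hmem y).2 hy
  have hcard : (T.card : ℚ) ≠ 0 := by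
    have : 0 < T.card := Finset.card_pos.2 ⟨y, hyT⟩
    exact_mod_cast this.ne'
  set e : ℚ := (T.card : ℚ) * c with he
  have he0 : e ≠ 0 := mul_ne_zero hcard hc
  have h4 : H.map φ j s - e • w ∈ H.N F j := by
    have h5 := (H.N F j).sub_mem h2 hs
    have h6 : ∑ y' ∈ T, H.map y' j w' - e • w - (∑ y' ∈ T, H.map y' j w' - H.map φ j s) =
        H.map φ j s - e • w := by abel
    rwa [h6] at h5
  refine ⟨e⁻¹ • s, (H.Z M j).smul_mem _ hsZ, ?_⟩
  have h7 := (H.N F j).smul_mem e⁻¹ h4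
  rwa [smul_sub, smul_smul, inv_mul_cancel₀ he0, one_smul, ← map_smul] at h7

end TGF
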