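import Pool.Agent.TGF.Dict
import Pool.Agent.TGF.On2
import Pool.Agent.TGF.Inj2

set_option autoImplicit false

/-!
# TGF-Fdes: Galois descent in terms of cohomology groups

PLAN.  `F` is an algebraic closure of `M` (`IsAlgClosure.isAlgClosed`, `IsAlgClosure.isAlgebraic`); with
`φ = algebraMap M F` the hypothesis `halg` of `onto_alg`, `inj_alg` holds (`Algebra.IsAlgebraic`,
`Polynomial.eval₂`/`aeval`).
`desc_of` (the same argument for `k = 0` with `t1` and for `k = 1` with `t2`).  `→`: `c = hm φ x`, `x = hc z`;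
`hm σ (hm φ x) = hm (σ ∘ φ) x = hm φ x` on classes: `hm_ind` for representatives; `σ ∘ φ = φ`;
`rs k j (σ.comp φ) = rs σ ∘ rs φ` (from `t_rs` and `Laws.map_comp`, or `CC_ext` and `rs_gn`).
`←`: `c = hc y` with `y = t z`, `z ∈ Z` (`t_surj`, `t_Z`).  For `σ : F →+* F` with `σ ∘ φ = φ`, `σ` is an
automorphism over `M` (`Algebra.IsAlgebraic.algHom_bijective`, `AlgEquiv.ofBijective`), so
`hm σ c = c` gives `rs σ y - y ∈ BC`, i.e. `map σ z - z ∈ N` (`t_rs`, `t_B`).  `onto_alg` gives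
`s ∈ Z M j` with `map φ s - z ∈ N F j`; `x = hc (t s)`.
`dinj`: `x = hc (t z)`, `hm φ x = 0` gives `rs φ (t z) ∈ BC`, so `map φ z ∈ N`, `inj_alg`: `z ∈ N`, `x = 0`.
The versions with `T` are the same with `ht`, `t0` (every element is a cocycle).
Equality of classes: `Submodule.Quotient.eq`; `hc z = hc z' ↔ z.1 - z'.1 ∈ BC`.
-/

noncomputable section

open Polynomial TensorProduct
open scoped Classical

namespace TGF

open Helper14.Gon Helper14.W4 Helper14.Loc QPL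

universe u

section
variable {F L : Type u} [Field F] [Field L]

private theorem fdes_hc_surj {k j : ℕ} (x : HC F k j) : ∃ z : ↥(ZC F k j), hc z = x :=
  Submodule.Quotient.mk_surjective _ x

private theorem fdes_hc_eq {k j : ℕ} (z z' : ↥(ZC F k j)) :
    hc z = hc z' ↔ z.1 - z'.1 ∈ BC F k j :=
  Submodule.Quotient.eq ((BC F k j).submoduleOf (ZC F k j))

private theorem fdes_hc_zero {k j : ℕ} (z : ↥(ZC F k j)) : hc z = 0 ↔ z.1 ∈ BC F k j :=
  Submodule.Quotient.mk_eq_zero ((BC F k j).submoduleOf (ZC F k j))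

private theorem fdes_ht_surj {n : ℕ} (x : HT F n) : ∃ z : TT n F, ht z = x :=
  Submodule.Quotient.mk_surjective _ x

private theorem fdes_ht_eq {n : ℕ} (z z' : TT n F) : ht z = ht z' ↔ z - z' ∈ BT F n :=
  Submodule.Quotient.eq (BT F n)

private theorem fdes_ht_zero {n : ℕ} (z : TT n F) : ht z = 0 ↔ z ∈ BT F n :=
  Submodule.Quotient.mk_eq_zero (BT F n)

end

section
variable (M F : Type u) [Field M] [Field F] [Algebra M F] [IsAlgClosure M F]

private theorem fdes_alg (x : F) : ∃ P : M[X], P ≠ 0 ∧ P.eval₂ (algebraMap M F) x = 0 := by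
  haveI : Algebra.IsAlgebraic M F := IsAlgClosure.isAlgebraic
  obtain ⟨P, hP, h⟩ := Algebra.IsAlgebraic.isAlgebraic (R := M) x
  exact ⟨P, hP, by rw [← Polynomial.aeval_def]; exact h⟩

/-- an endomorphism over `M` is an automorphism -/
private theorem fdes_aut (σ : F →+* F) (h : σ.comp (algebraMap M F) = algebraMap M F) :
    ∃ e : F ≃ₐ[M] F, (e : F →+* F) = σ := by
  haveI : Algebra.IsAlgebraic M F := IsAlgClosure.isAlgebraic
  let τ : F →ₐ[M] F := { σ with commutes' := fun r => RingHom.congr_fun h r }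
  have hb : Function.Bijective τ := Algebra.IsAlgebraic.algHom_bijective τ
  exact ⟨AlgEquiv.ofBijective τ hb, RingHom.ext fun x => rfl⟩

private theorem fdes_comp (σ : F ≃ₐ[M] F) :
    (σ : F →+* F).comp (algebraMap M F) = algebraMap M F :=
  RingHom.ext fun x => σ.commutes x

private theorem fdes_desc (H : Thy.{u}) (hH : Laws H) (hT : TrP H) (k j : ℕ)
    (t : (L : Type u) → [Field L] → H.Y L j →ₗ[ℚ] CC k j L)
    (t_surj : ∀ (L : Type u) [Field L] (y : CC k j L), ∃ z, t L z = y)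
    (t_Z : ∀ (L : Type u) [Field L] (z : H.Y L j), t L z ∈ ZC L k j ↔ z ∈ H.Z L j)
    (t_B : ∀ (L : Type u) [Field L] (z : H.Y L j), t L z ∈ BC L k j ↔ z ∈ H.N L j)
    (t_rs : ∀ (L L' : Type u) [Field L] [Field L'] (φ : L →+* L') (z : H.Y L j),
      rs k j φ (t L z) = t L' (H.map φ j z)) : Desc M F k j := by
  haveI : IsAlgClosed F := IsAlgClosure.isAlgClosed M
  intro c
  constructor
  · rintro ⟨x, rfl⟩ σ
    obtain ⟨z, rfl⟩ := fdes_hc_surj x
    obtain ⟨h, e⟩ := hm_ind k j (algebraMap M F) z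
    rw [e]
    obtain ⟨h', e'⟩ := hm_ind k j (σ : F →+* F) ⟨_, h⟩
    rw [e', fdes_hc_eq]
    obtain ⟨w, hw⟩ := t_surj M z.1
    have h1 : rs k j (σ : F →+* F) (rs k j (algebraMap M F) z.1) =
        rs k j (algebraMap M F) z.1 := by
      rw [← hw, t_rs, t_rs, ← hH.map_comp, fdes_comp]
    change rs k j (σ : F →+* F) (rs k j (algebraMap M F) z.1) -
      rs k j (algebraMap M F) z.1 ∈ BC F k j
    rw [h1, sub_self]
    exact zero_mem _
  · intro hσ
    obtain ⟨y, rfl⟩ := fdes_hc_surj c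
    obtain ⟨z, hz⟩ := t_surj F y.1
    have hzZ : z ∈ H.Z F j := by
      rw [← t_Z, hz]
      exact y.2
    obtain ⟨s, hs, hsz⟩ := onto_alg H hH hT (algebraMap M F) (fdes_alg M F) j z hzZ (by
      intro σ hσφ
      obtain ⟨e, he⟩ := fdes_aut M F σ hσφ
      have h1 := hσ e
      rw [he] at h1
      obtain ⟨h, e1⟩ := hm_ind k j σ y
      rw [e1, fdes_hc_eq] at h1
      change rs k j σ y.1 - y.1 ∈ BC F k j at h1
      rw [← hz, t_rs, ← map_sub, t_B] at h1
      exact h1)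
    refine ⟨hc ⟨t M s, (t_Z M s).2 hs⟩, ?_⟩
    obtain ⟨h, e1⟩ := hm_ind k j (algebraMap M F) ⟨t M s, (t_Z M s).2 hs⟩
    rw [e1, fdes_hc_eq]
    change rs k j (algebraMap M F) (t M s) - y.1 ∈ BC F k j
    rw [t_rs, ← hz, ← map_sub, t_B]
    exact hsz

private theorem fdes_dinj (H : Thy.{u}) (hH : Laws H) (hE : Exact H) (k j : ℕ)
    (t : (L : Type u) → [Field L] → H.Y L j →ₗ[ℚ] CC k j L)
    (t_surj : ∀ (L : Type u) [Field L] (y : CC k j L), ∃ z, t L z = y)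
    (t_Z : ∀ (L : Type u) [Field L] (z : H.Y L j), t L z ∈ ZC L k j ↔ z ∈ H.Z L j)
    (t_B : ∀ (L : Type u) [Field L] (z : H.Y L j), t L z ∈ BC L k j ↔ z ∈ H.N L j)
    (t_rs : ∀ (L L' : Type u) [Field L] [Field L'] (φ : L →+* L') (z : H.Y L j),
      rs k j φ (t L z) = t L' (H.map φ j z)) : DInj M F k j := by
  unfold DInj
  rw [injective_iff_map_eq_zero]
  intro x hx
  obtain ⟨z, rfl⟩ := fdes_hc_surj x
  obtain ⟨h, e⟩ := hm_ind k j (algebraMap M F) z
  rw [e, fdes_hc_zero] at hx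
  change rs k j (algebraMap M F) z.1 ∈ BC F k j at hx
  obtain ⟨w, hw⟩ := t_surj M z.1
  rw [← hw, t_rs, t_B] at hx
  have hwZ : w ∈ H.Z M j := by
    rw [← t_Z, hw]
    exact z.2
  rw [fdes_hc_zero, ← hw, t_B]
  exact inj_alg H hH hE (algebraMap M F) (fdes_alg M F) j w hwZ hx

theorem desc1 (hH : Laws th2.{u}) (hT : TrP th2.{u}) (j : ℕ) : Desc M F 1 j :=
  fdes_desc M F th2 hH hT 1 j (fun _ _ => t2 j) (fun _ _ y => t2_surj j y)
    (fun _ _ z => t2_Z j z) (fun _ _ z => t2_B j z) (fun _ _ _ _ φ z => t2_rs j φ z)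

theorem desc0 (hH : Laws th1.{u}) (hT : TrP th1.{u}) (j : ℕ) : Desc M F 0 j :=
  fdes_desc M F th1 hH hT 0 j (fun _ _ => t1 j) (fun _ _ y => t1_surj j y)
    (fun _ _ z => t1_Z j z) (fun _ _ z => t1_B j z) (fun _ _ _ _ φ z => t1_rs j φ z)

private theorem fdes_descT (H : Thy.{u}) (hH : Laws H) (hT : TrP H) (n : ℕ)
    (t : (L : Type u) → [Field L] → H.Y L n →ₗ[ℚ] TT n L)
    (t_surj : ∀ (L : Type u) [Field L] (y : TT n L), ∃ z, t L z = y)
    (t_Z : ∀ (L : Type u) [Field L] (z : H.Y L n), z ∈ H.Z L n)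
    (t_B : ∀ (L : Type u) [Field L] (z : H.Y L n), t L z ∈ BT L n ↔ z ∈ H.N L n)
    (t_rs : ∀ (L L' : Type u) [Field L] [Field L'] (φ : L →+* L') (z : H.Y L n),
      rt n φ (t L z) = t L' (H.map φ n z)) : DescT M F n := by
  haveI : IsAlgClosed F := IsAlgClosure.isAlgClosed M
  intro c
  constructor
  · rintro ⟨x, rfl⟩ σ
    obtain ⟨z, rfl⟩ := fdes_ht_surj x
    rw [hmt_ind n (algebraMap M F) z, hmt_ind n (σ : F →+* F) _]
    obtain ⟨w, hw⟩ := t_surj M z
    have h1 : rt n (σ : F →+* F) (rt n (algebraMap M F) z) = rt n (algebraMap M F) z := by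
      rw [← hw, t_rs, t_rs, ← hH.map_comp, fdes_comp]
    rw [h1]
  · intro hσ
    obtain ⟨y, rfl⟩ := fdes_ht_surj c
    obtain ⟨z, hz⟩ := t_surj F y
    obtain ⟨s, hs, hsz⟩ := onto_alg H hH hT (algebraMap M F) (fdes_alg M F) n z (t_Z F z) (by
      intro σ hσφ
      obtain ⟨e, he⟩ := fdes_aut M F σ hσφ
      have h1 := hσ e
      rw [he, hmt_ind n σ y, fdes_ht_eq, ← hz, t_rs, ← map_sub, t_B] at h1
      exact h1)
    refine ⟨ht (t M s), ?_⟩
    rw [hmt_ind n (algebraMap M F), fdes_ht_eq, t_rs, ← hz, ← map_sub, t_B]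
    exact hsz

private theorem fdes_dinjT (H : Thy.{u}) (hH : Laws H) (hE : Exact H) (n : ℕ)
    (t : (L : Type u) → [Field L] → H.Y L n →ₗ[ℚ] TT n L)
    (t_surj : ∀ (L : Type u) [Field L] (y : TT n L), ∃ z, t L z = y)
    (t_Z : ∀ (L : Type u) [Field L] (z : H.Y L n), z ∈ H.Z L n)
    (t_B : ∀ (L : Type u) [Field L] (z : H.Y L n), t L z ∈ BT L n ↔ z ∈ H.N L n)
    (t_rs : ∀ (L L' : Type u) [Field L] [Field L'] (φ : L →+* L') (z : H.Y L n),
      rt n φ (t L z) = t L' (H.map φ n z)) : DInjT M F n := by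
  unfold DInjT
  rw [injective_iff_map_eq_zero]
  intro x hx
  obtain ⟨z, rfl⟩ := fdes_ht_surj x
  obtain ⟨w, hw⟩ := t_surj M z
  rw [hmt_ind n (algebraMap M F) z, fdes_ht_zero, ← hw, t_rs, t_B] at hx
  rw [fdes_ht_zero, ← hw, t_B]
  exact inj_alg H hH hE (algebraMap M F) (fdes_alg M F) n w (t_Z M w) hx

theorem descT (hH : Laws th0.{u}) (hT : TrP th0.{u}) (n : ℕ) : DescT M F n :=
  fdes_descT M F th0 hH hT n (fun _ _ => t0 n) (fun _ _ y => t0_surj n y)
    (fun L _ z => (Submodule.mem_top : (show Tx n L from z) ∈ (⊤ : Submodule ℚ (Tx n L)))) (fun _ _ z => t0_B n z) (fun _ _ _ _ φ z => t0_rt n φ z)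

theorem dinj0 (hH : Laws th1.{u}) (hE : Exact th1.{u}) (j : ℕ) : DInj M F 0 j :=
  fdes_dinj M F th1 hH hE 0 j (fun _ _ => t1 j) (fun _ _ y => t1_surj j y)
    (fun _ _ z => t1_Z j z) (fun _ _ z => t1_B j z) (fun _ _ _ _ φ z => t1_rs j φ z)

theorem dinjT (hH : Laws th0.{u}) (hE : Exact th0.{u}) (n : ℕ) : DInjT M F n :=
  fdes_dinjT M F th0 hH hE n (fun _ _ => t0 n) (fun _ _ y => t0_surj n y)
    (fun L _ z => (Submodule.mem_top : (show Tx n L from z) ∈ (⊤ : Submodule ℚ (Tx n L)))) (fun _ _ z => t0_B n z) (fun _ _ _ _ φ z => t0_rt n φ z)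

end

end TGF
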