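import Pool.Agent.TGF.Thy

set_option autoImplicit false

/-!
# TGF-Fi: iterates of the Frobenius

PLAN.  Induction on `m`: `iterateFrobenius F p 0 = RingHom.id F` (`map_id`), `iterateFrobenius F p (m + 1) =
(frobenius F p).comp (iterateFrobenius F p m)` (`RingHom.ext`, `iterateFrobenius_def`, `pow_mul`),
`map_comp`, `frob`, `map_N` (not needed), `map` and `smul` commute.  `N F j` is a `ℚ`-subspace.
-/

noncomputable section

open Polynomial TensorProduct
open scoped Classical

namespace TGF

open Helper14.Gon Helper14.W4 QPL

universe u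

theorem frob_iter (H : Thy.{u}) (hH : Laws H) (p : ℕ) (hp : p.Prime) (F : Type u) [Field F]
    [CharP F p] [ExpChar F p] (m j : ℕ) (z : H.Y F j) :
    H.map (iterateFrobenius F p m) j z - ((p : ℚ) ^ (m * (j + H.off))) • z ∈ H.N F j := by
  induction m with
  | zero =>
    have h1 : iterateFrobenius F p 0 = RingHom.id F := by
      ext x
      simp
    rw [h1, hH.map_id, Nat.zero_mul, pow_zero, one_smul, sub_self]
    exact (H.N F j).zero_mem
  | succ m ih =>
    have h1 : iterateFrobenius F p (m + 1) = (frobenius F p).comp (iterateFrobenius F p m) := by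
      ext x
      rw [RingHom.comp_apply, iterateFrobenius_def, iterateFrobenius_def, frobenius_def, ← pow_mul,
        ← pow_succ]
    have h2 := hH.frob p hp F j (H.map (iterateFrobenius F p m) j z)
    have h3 := (H.N F j).smul_mem ((p : ℚ) ^ (j + H.off)) ih
    have h4 := (H.N F j).add_mem h2 h3
    rw [h1, hH.map_comp]
    have h5 : H.map (frobenius F p) j (H.map (iterateFrobenius F p m) j z) -
        ((p : ℚ) ^ ((m + 1) * (j + H.off))) • z =
        H.map (frobenius F p) j (H.map (iterateFrobenius F p m) j z) -
          (p : ℚ) ^ (j + H.off) • H.map (iterateFrobenius F p m) j z +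
        (p : ℚ) ^ (j + H.off) • (H.map (iterateFrobenius F p m) j z -
          (p : ℚ) ^ (m * (j + H.off)) • z) := by
      have h6 : (m + 1) * (j + H.off) = (j + H.off) + m * (j + H.off) := by ring
      rw [h6, pow_add, mul_smul, smul_sub]
      abel
    rw [h5]
    exact h4

end TGF
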