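import Pool.Agent.TGF.Res
import Pool.Agent.TGF.Pt
import Pool.Agent.QPL.At

set_option autoImplicit false

/-!
# TGF-Inj1: injectivity for simple extensions, in codegree at most one

PLAN.  Let `E = RatFunc K`, `P = p.P`, `π = lg P ∈ E^*`, `zE = map C z`, `y = cup j π zE ∈ Z E (j + 1)`
(`map_Z`, `cup_Z`).  For a closed point `q` with valuation `V` (`IsPt q V`): `V.comap C` is trivial with
`ψ = q.r.comp C` (`IsPt.v`, `IsPt.lc` for constants), so `sp V zE = map ψ z` (`sp_comap`, `sp_triv`) and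
`re V zE = 0` (`re_comap`, `re_triv`); `re V j y = V.vH π • map ψ z` (`re_cup_zero` for `j = 0`, `re_cup`).
If `q.P ≠ P` then `V.vH π = 0` (`¬ q.P ∣ P`: both monic irreducible).  If `q.P = P`: `q.r` and `p.r` have the
same kernel, so there is `χ : k → k'` with `q.r = χ ∘ p.r` (`RingHom.liftOfSurjective`-type lemma:
`RingHom.liftOfRightInverse` or `Ideal.Quotient.lift`), and `map ψ z = map χ (map (p.r.comp C) z) ∈ N`
(`map_N`).  By `hE`: `y - map C c ∈ N E (j + 1)`.  Let `V'` be a place at infinity (`QPL.exists_inf`):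
`re V' (y - map C c) ∈ N K j` (`re_N`), `re V' (map C c) = 0`, `re V' y = V'.vH π • z`, where
`V'.vH π = - deg P` (`IsInf.v`), `V'.comap C` trivial with `ψ = id` (`IsInf.lc`), `map_id`.  So
`deg P • z ∈ N K j`, `deg P ≠ 0`.
-/

noncomputable section

open Polynomial TensorProduct
open scoped Classical

namespace TGF

open Helper14.Gon Helper14.W4 QPL

universe u

private lemma Inj1_C {K : Type u} [Field K] (a : K) :
    algebraMap K[X] (RatFunc K) (C a) = (RatFunc.C : K →+* RatFunc K) a := RatFunc.algebraMap_C a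

/-- residues of the product with a unit of a constant cochain -/
private lemma Inj1_re (H : Thy.{u}) (hH : Laws H) {K k : Type u} [Field K] [Field k]
    (V : AC (RatFunc K) k) (ψ : K →+* k)
    (hψ : ∀ x : K, x ≠ 0 → (V.comap (RatFunc.C : K →+* RatFunc K)).v x = 0 ∧
      (V.comap (RatFunc.C : K →+* RatFunc K)).lc x = ψ x)
    (v : Additive (RatFunc K)ˣ) (j : ℕ) (z : H.Y K j) :
    H.re V j (H.cup j v (H.map (RatFunc.C : K →+* RatFunc K) j z)) =
      V.vH v • H.map ψ j z := by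
  cases j with
  | zero =>
    rw [hH.re_cup_zero, ← hH.sp_comap, hH.sp_triv _ _ _ ψ hψ]
  | succ j =>
    rw [hH.re_cup, ← hH.sp_comap, hH.sp_triv _ _ _ ψ hψ, ← hH.re_comap, hH.re_triv _ _ _ ψ hψ,
      map_zero, sub_zero]

/-- the valuation of a closed point is trivial on the constants -/
private lemma Inj1_pt {K k : Type u} [Field K] [Field k] {q : SRG.Pl K k}
    {V : AC (RatFunc K) k} (hV : IsPt q V) (x : K) (hx : x ≠ 0) :
    (V.comap (RatFunc.C : K →+* RatFunc K)).v x = 0 ∧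
      (V.comap (RatFunc.C : K →+* RatFunc K)).lc x = (q.r.comp (C : K →+* K[X])) x := by
  have hP : ¬ q.P ∣ C x := fun hd =>
    q.irr.not_isUnit (isUnit_of_dvd_unit hd (isUnit_C.2 (IsUnit.mk0 x hx)))
  constructor
  · change V.v (RatFunc.C x) = 0
    rw [← Inj1_C, hV.v _ hP]
  · change V.lc (RatFunc.C x) = q.r (C x)
    rw [← Inj1_C, hV.lc _ hP]

/-- the valuation at infinity is trivial on the constants -/
private lemma Inj1_inf {K : Type u} [Field K] {V : AC (RatFunc K) K} (hV : IsInf V) (x : K)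
    (hx : x ≠ 0) : (V.comap (RatFunc.C : K →+* RatFunc K)).v x = 0 ∧
      (V.comap (RatFunc.C : K →+* RatFunc K)).lc x = (RingHom.id K) x := by
  have hC : (C x : K[X]) ≠ 0 := C_ne_zero.2 hx
  constructor
  · change V.v (RatFunc.C x) = 0
    rw [← Inj1_C, hV.v _ hC, natDegree_C, Nat.cast_zero, neg_zero]
  · change V.lc (RatFunc.C x) = x
    rw [← Inj1_C, hV.lc _ hC, leadingCoeff_C]

/-- two closed points with the same polynomial -/
private lemma Inj1_chi {K k l : Type u} [Field K] [Field k] [Field l] (p : SRG.Pl K k)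
    (q : SRG.Pl K l) (h : q.P = p.P) : ∃ χ : k →+* l, χ.comp (p.r.comp (C : K →+* K[X])) =
      q.r.comp (C : K →+* K[X]) := by
  have hk : RingHom.ker p.r ≤ RingHom.ker q.r := by
    intro A hA
    rw [RingHom.mem_ker] at hA ⊢
    rw [q.ker, h, ← p.ker, hA]
  refine ⟨p.r.liftOfRightInverse _ (Function.rightInverse_surjInv p.surj) ⟨q.r, hk⟩, ?_⟩
  refine RingHom.ext fun x => ?_
  exact RingHom.liftOfRightInverse_comp_apply p.r _ (Function.rightInverse_surjInv p.surj)
    ⟨q.r, hk⟩ (C x)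

theorem inj_simple (H : Thy.{u}) (hH : Laws H) (hE : Exact H) {K k : Type u} [Field K] [Field k]
    (p : SRG.Pl K k) (j : ℕ) (z : H.Y K j) (hz : z ∈ H.Z K j)
    (h : H.map (p.r.comp C) j z ∈ H.N k j) : z ∈ H.N K j := by
  have hP0 : algebraMap K[X] (RatFunc K) p.P ≠ 0 := RatFunc.algebraMap_ne_zero p.irr.ne_zero
  set π : Additive (RatFunc K)ˣ := lg (algebraMap K[X] (RatFunc K) p.P) with hπ
  have hy : H.cup j π (H.map (RatFunc.C : K →+* RatFunc K) j z) ∈ H.Z (RatFunc K) (j + 1) :=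
    hH.cup_Z _ _ _ _ (hH.map_Z _ _ _ _ _ hz)
  obtain ⟨c, hc⟩ := hE K j _ hy (by
    intro l _ q V hV
    rw [Inj1_re H hH V _ (Inj1_pt hV) π j z]
    by_cases hq : q.P = p.P
    · obtain ⟨χ, hχ⟩ := Inj1_chi p q hq
      rw [← hχ, hH.map_comp]
      exact Submodule.smul_mem _ _ (hH.map_N _ _ _ _ _ h)
    · have h1 : ¬ q.P ∣ p.P := by
        intro hd
        apply hq
        exact eq_of_monic_of_associated q.monic p.monic (q.irr.associated_of_dvd p.irr hd)
      rw [hπ, vH_lg V hP0, hV.v _ h1, zero_smul]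
      exact Submodule.zero_mem _)
  obtain ⟨V, hV⟩ := exists_inf (k := K)
  have h2 := hH.re_N _ _ V j _ hc
  rw [map_sub, Inj1_re H hH V _ (Inj1_inf hV) π j z, ← hH.re_comap,
    hH.re_triv _ _ _ _ (Inj1_inf hV), sub_zero, hH.map_id, hπ, vH_lg V hP0,
    hV.v _ p.irr.ne_zero] at h2
  have h3 : -(p.P.natDegree : ℚ) ≠ 0 :=
    neg_ne_zero.2 (Nat.cast_ne_zero.2 p.irr.natDegree_pos.ne')
  exact (Submodule.smul_mem_iff _ h3).1 h2

end TGF
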