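import Pool.Agent.TGF.JD
import Pool.Agent.TGJ.Fin

set_option autoImplicit false

/-!
# TGF-J: the function with divisor `y₁ + q^n Frob^{-1}(μ) - μ`  (section 8 of the proof)

`k0 = F_q`, `Ω = AlgebraicClosure (LaurentSeries k0)`, `R = k0[[s]]`.
-/

noncomputable section

open Polynomial
open scoped Classical

namespace TGF

universe u

section
variable {k0 L : Type u} [Field k0] [Field L] [Finite k0]

/-- The main theorem of section 8. -/
theorem J_data (p0 : SRG.Pl (RatFunc k0) L) (hp0 : Spl p0) (n : ℕ) (hn : 2 ≤ n) :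
    ∃ (Ω : Type u) (_ : Field Ω) (_ : IsAlgClosed Ω) (i : k0 →+* Ω) (G : (RatFunc Ω)[X])
      (y₁ : L →+* Ω) (μ : (L →+* Ω) →₀ ℤ) (φ : Ω →+* Ω),
      (∀ x, φ x = x ^ Nat.card k0) ∧ Pnt p0 i y₁ ∧ (∀ y, μ y ≠ 0 → Pnt p0 i y) ∧
      IsCoprime (p0.P.map (rm i)) G ∧
      ∀ y : L →+* Ω, Pnt p0 i y → OrdAt p0 i G y
        ((if y = y₁ then 1 else 0) + (Nat.card k0 : ℤ) ^ n * μ (φ.comp y) - μ y) :=
  TGJ.J_data' p0 hp0 n hn

end

end TGF
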