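import Pool.Agent.TGF.Fi
import Pool.Agent.TGF.J

set_option autoImplicit false

/-!
# TGF-JJ: cocycles over a curve die over some extension

PLAN.  `J_data p0 hp0 n hn` with `n = j + H.off` gives `Ω`, `i`, `G`, `y₁`, `μ`, `φ`.  Let
`o : (L →+* Ω) →₀ ℤ`, `o y = (if y = y₁ then 1 else 0) + q ^ n * μ (φ.comp y) - μ y`, `q = Nat.card k0`
(`Finsupp.ofSupportFinite`; `y ↦ φ.comp y` is injective since `φ` is).  `hR` gives
`o.sum (fun y m => m • map y z) ∈ N Ω j`, i.e. (write the sum over a finite set containing all supports)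
`map y₁ z + ∑_y (q ^ n * μ (φ.comp y)) • map y z - ∑_y μ y • map y z ∈ N`.
`k0` is finite, `q = p ^ e`, `Ω` has characteristic `p` (`i`), `φ = iterateFrobenius Ω p e`
(`RingHom.ext`), so `map φ x - q ^ n • x ∈ N` (`frob_iter`), `n e = e (j + off)`.  Every `y'` is `φ.comp y`
for a unique `y` (`Ω` is perfect: `φ` is bijective, `y = φ⁻¹ ∘ y'`), and
`q ^ n • map y z = map φ (map y z) = map (φ.comp y) z` modulo `N`.  So
`∑_y (q ^ n * μ (φ.comp y)) • map y z = ∑_{y'} μ y' • map y' z` modulo `N`, and `map y₁ z ∈ N`.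
The conditions of `hR`: `o y ≠ 0` implies `Pnt p0 i y`: `y = y₁`, or `μ y ≠ 0`, or `μ (φ.comp y) ≠ 0` and then
`Pnt p0 i (φ.comp y)`, hence `Pnt p0 i y`: `φ (y (cC c)) = i c = φ (i c)` (`c ^ q = c` in `k0`:
`FiniteField.pow_card`), and if `P.eval₂ i (y T) = 0` then applying `φ`: `P.eval₂ i (φ (y T)) = 0`
(`φ ∘ i = i`, `Polynomial.hom_eval₂`).
-/

noncomputable section

open Polynomial TensorProduct
open scoped Classical

namespace TGF

open Helper14.Gon Helper14.W4 QPL

universe u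

/-- The statement of the reciprocity law on curves. -/
def RecP (H : Thy.{u}) : Prop :=
  ∀ (k0 L Ω : Type u) [Field k0] [Finite k0] [Field L] [Field Ω] [IsAlgClosed Ω]
    (p0 : SRG.Pl (RatFunc k0) L), Spl p0 → ∀ (i : k0 →+* Ω) (G : (RatFunc Ω)[X]),
    IsCoprime (p0.P.map (rm i)) G → ∀ (j : ℕ), 2 ≤ j + H.off → ∀ (z : H.Y L j), z ∈ H.Z L j →
    ∀ (o : (L →+* Ω) →₀ ℤ), (∀ y, Pnt p0 i y → OrdAt p0 i G y (o y)) →
    (∀ y, o y ≠ 0 → Pnt p0 i y) → o.sum (fun y m => m • H.map y j z) ∈ H.N Ω j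

private theorem JJ_pnt {k0 L Ω : Type u} [Field k0] [Finite k0] [Field L] [Field Ω]
    (p0 : SRG.Pl (RatFunc k0) L) (i : k0 →+* Ω) (φ : Ω →+* Ω)
    (hφ : ∀ x, φ x = x ^ Nat.card k0) (y : L →+* Ω) (h : Pnt p0 i (φ.comp y)) : Pnt p0 i y := by
  haveI := Fintype.ofFinite k0
  have h1 : φ.comp i = i := by
    refine RingHom.ext fun c => ?_
    rw [RingHom.comp_apply, hφ, ← map_pow, Nat.card_eq_fintype_card, FiniteField.pow_card]
  constructor
  · intro c
    have h2 := h.ov c
    rw [RingHom.comp_apply] at h2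
    refine φ.injective ?_
    rw [h2, ← RingHom.comp_apply, h1]
  · intro P hP h2
    refine h.tr P hP ?_
    have h3 := congrArg φ h2
    rw [map_zero, Polynomial.hom_eval₂, h1] at h3
    exact h3

private theorem JJ_sum {H : Thy.{u}} {L Ω : Type u} [Field L] [Field Ω] (j : ℕ) (z : H.Y L j)
    (c : ℤ) (f : (L →+* Ω) ≃ (L →+* Ω))
    (h : ∀ y, H.map y j z - c • H.map (f y) j z ∈ H.N Ω j) (μ : (L →+* Ω) →₀ ℤ) :
    Finsupp.linearCombination ℤ (fun y : L →+* Ω => H.map y j z) μ -
      c • Finsupp.linearCombination ℤ ((fun y : L →+* Ω => H.map y j z) ∘ f) μ ∈ H.N Ω j := by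
  induction μ using Finsupp.induction_linear with
  | zero => rw [map_zero, map_zero, smul_zero, sub_zero]; exact zero_mem _
  | add a b ha hb =>
    rw [map_add, map_add, smul_add, add_sub_add_comm]
    exact add_mem ha hb
  | single y m =>
    rw [Finsupp.linearCombination_single, Finsupp.linearCombination_single, smul_comm c m,
      ← smul_sub]
    exact zsmul_mem (h y) m

theorem dies (H : Thy.{u}) (hH : Laws H) (hR : RecP H) {k0 L : Type u} [Field k0] [Finite k0]
    [Field L] (p0 : SRG.Pl (RatFunc k0) L) (hp0 : Spl p0) (j : ℕ) (hn : 2 ≤ j + H.off)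
    (z : H.Y L j) (hz : z ∈ H.Z L j) :
    ∃ (Ω : Type u) (_ : Field Ω) (_ : IsAlgClosed Ω) (y : L →+* Ω), H.map y j z ∈ H.N Ω j := by
  obtain ⟨Ω, iF, iA, i, G, y₁, μ, φ, hφ, hy₁, hμ, hcop, hord⟩ := J_data p0 hp0 (j + H.off) hn
  refine ⟨Ω, iF, iA, y₁, ?_⟩
  haveI := Fintype.ofFinite k0
  obtain ⟨p, hp⟩ := CharP.exists k0
  obtain ⟨e, hpp, hcard⟩ := FiniteField.card k0 p
  haveI : CharP Ω p := charP_of_injective_ringHom i.injective p
  haveI : ExpChar Ω p := ExpChar.prime hpp
  have hq : Nat.card k0 = p ^ (e : ℕ) := by rw [Nat.card_eq_fintype_card, hcard]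
  have hφ' : φ = iterateFrobenius Ω p e := by
    refine RingHom.ext fun x => ?_
    rw [hφ, iterateFrobenius_def, hq]
  have hsurj : Function.Surjective φ := by
    intro x
    obtain ⟨w, hw⟩ := IsAlgClosed.exists_pow_nat_eq x (n := Nat.card k0)
      (by rw [hq]; exact pow_pos hpp.pos _)
    exact ⟨w, by rw [hφ, hw]⟩
  let φE : Ω ≃+* Ω := RingEquiv.ofBijective φ ⟨φ.injective, hsurj⟩
  let Φ : (L →+* Ω) ≃ (L →+* Ω) :=
    { toFun := fun y => φ.comp y
      invFun := fun y => (φE.symm : Ω →+* Ω).comp y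
      left_inv := fun y => RingHom.ext fun x => φE.symm_apply_apply (y x)
      right_inv := fun y => RingHom.ext fun x => φE.apply_symm_apply (y x) }
  set c : ℤ := (Nat.card k0 : ℤ) ^ (j + H.off) with hc
  have hfr : ∀ w : H.Y Ω j, H.map φ j w - c • w ∈ H.N Ω j := by
    intro w
    have h1 := frob_iter H hH p hpp Ω e j w
    rw [← hφ'] at h1
    have h2 : c • w = ((p : ℚ) ^ ((e : ℕ) * (j + H.off))) • w := by
      rw [← Int.cast_smul_eq_zsmul ℚ, hc, hq]
      push_cast
      rw [pow_mul]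
    rw [h2]
    exact h1
  let o : (L →+* Ω) →₀ ℤ := Finsupp.single y₁ 1 + c • Finsupp.equivMapDomain Φ.symm μ - μ
  have ho : ∀ y, o y = (if y = y₁ then 1 else 0) + c * μ (φ.comp y) - μ y := by
    intro y
    change (Finsupp.single y₁ (1 : ℤ) + c • Finsupp.equivMapDomain Φ.symm μ - μ) y = _
    rw [Finsupp.sub_apply, Finsupp.add_apply, Finsupp.smul_apply, Finsupp.equivMapDomain_apply,
      Finsupp.single_apply, smul_eq_mul]
    have h1 : Φ.symm.symm y = φ.comp y := rfl
    rw [h1]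
    by_cases h2 : y = y₁
    · rw [if_pos h2, if_pos h2.symm]
    · rw [if_neg h2, if_neg (Ne.symm h2)]
  have hrec := hR k0 L Ω p0 hp0 i G hcop j hn z hz o (fun y hy => by
      rw [ho]
      exact hord y hy) (fun y hy => by
      by_contra hn
      refine hy ?_
      have h1 : y ≠ y₁ := fun h => hn (h ▸ hy₁)
      have h2 : μ y = 0 := by
        by_contra h
        exact hn (hμ y h)
      have h3 : μ (φ.comp y) = 0 := by
        by_contra h
        exact hn (JJ_pnt p0 i φ hφ y (hμ _ h))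
      rw [ho, if_neg h1, h2, h3]
      simp)
  have hsum : o.sum (fun y m => m • H.map y j z) = H.map y₁ j z -
      (Finsupp.linearCombination ℤ (fun y : L →+* Ω => H.map y j z) μ -
      c • Finsupp.linearCombination ℤ ((fun y : L →+* Ω => H.map y j z) ∘ Φ.symm) μ) := by
    have h1 : o.sum (fun y m => m • H.map y j z) =
        Finsupp.linearCombination ℤ (fun y : L →+* Ω => H.map y j z) o :=
      (Finsupp.linearCombination_apply ℤ o).symm
    rw [h1]
    change Finsupp.linearCombination ℤ (fun y : L →+* Ω => H.map y j z)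
      (Finsupp.single y₁ (1 : ℤ) + c • Finsupp.equivMapDomain Φ.symm μ - μ) = _
    rw [map_sub, map_add, map_smul, Finsupp.linearCombination_single, one_smul,
      Finsupp.linearCombination_equivMapDomain]
    abel
  rw [hsum] at hrec
  have hN := JJ_sum (H := H) j z c Φ.symm (fun y => by
    have h1 := hfr (H.map (Φ.symm y) j z)
    rw [← hH.map_comp] at h1
    have h2 : φ.comp (Φ.symm y) = y := Φ.apply_symm_apply y
    rw [h2] at h1
    exact h1) μ
  have h3 := add_mem hrec hN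
  rw [sub_add_cancel] at h3
  exact h3

end TGF
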