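import Pool.Agent.TGF.Fi
import Pool.Agent.TGF.JD

set_option autoImplicit false

/-!
# TGF-On1: cocycles come from simple extensions, up to a Frobenius

`colim` gives a finite `S ⊆ F` such that for every subfield `L ⊇ S` of `F` there is
`z' ∈ Z L j` with `map L.subtype z' = w`.  Let `q` be the exponential characteristic (`ExpChar F q`).  Regard
`F` as an algebra over `M` by `φ.toAlgebra`; it is algebraic.  There is `m` with `x ^ (q ^ m)` separable over
`M` for all `x ∈ S` (Mathlib: `Polynomial`/`minpoly`: `IsAlgebraic`/`IsIntegral` elements: search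
`exists_isSeparable_pow`, `IsPurelyInseparable`, `separableClosure.isPurelyInseparable`,
`IsPurelyInseparable.pow_mem`: `F` is purely inseparable over `separableClosure M F`; for a common `m` use
`m = ∑` and powers of separable elements are separable).  Let
`L' = IntermediateField.adjoin M {x ^ (q ^ m) | x ∈ S}`, finite and separable over `M`,
`L' = M(θ)` (`Field.exists_primitive_element`).  `p : SRG.Pl M L'`: `P = minpoly M θ`, `r = aeval θ`.
`y = inclusion L' → F`.  `L = Subfield.closure (range φ ∪ S)`, `g : L → L'`, `x ↦ x ^ (q ^ m)` (the image of `L`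
under the `q^m`-Frobenius of `F` is in `L'`: `Subfield.closure` induction / `Subfield.map_le`).
`w' = map g z'`; `map y w' = map (y ∘ g) z' = map (iterateFrobenius F q m) w`, which is
`q ^ (m (j + off)) • w` modulo `N` by `frob_iter` (`q` prime); for `q = 1` the map `iterateFrobenius F 1 m` is
the identity and `c = 1`.
-/

noncomputable section

open Polynomial TensorProduct
open scoped Classical

namespace TGF

open Helper14.Gon Helper14.W4 QPL

universe u

/-- a common exponent for the separability of the elements of a finite set -/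
private theorem on1_sep {M F : Type u} [Field M] [Field F] [Algebra M F]
    [Algebra.IsAlgebraic M F] (q : ℕ) [ExpChar F q] (S : Finset F) :
    ∃ m : ℕ, ∀ x ∈ S, x ^ q ^ m ∈ separableClosure M F := by
  classical
  have : ExpChar (separableClosure M F) q :=
    RingHom.expChar (algebraMap (separableClosure M F) F) (algebraMap (separableClosure M F) F).injective q
  have h1 : ∀ x : F, ∃ m : ℕ, x ^ q ^ m ∈ separableClosure M F := by
    intro x
    obtain ⟨m, y, hy⟩ := IsPurelyInseparable.pow_mem (separableClosure M F) q x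
    refine ⟨m, ?_⟩
    rw [← hy]
    exact y.2
  choose m hm using h1
  refine ⟨S.sup m, fun x hx => ?_⟩
  obtain ⟨d, hd⟩ := Nat.exists_eq_add_of_le (Finset.le_sup (f := m) hx)
  rw [hd, pow_add, pow_mul]
  exact pow_mem (hm x) _

/-- a finite separable extension of `M` inside `F` as a point of the line -/
private theorem on1_pl {M F : Type u} [Field M] [Field F] [Algebra M F]
    (L' : IntermediateField M F) [FiniteDimensional M L'] [Algebra.IsSeparable M L'] :
    ∃ p : SRG.Pl M L', ∀ c : M, p.r (C c) = algebraMap M L' c := by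
  obtain ⟨θ, hθ⟩ := Field.exists_primitive_element M L'
  have hint : IsIntegral M θ := Algebra.IsIntegral.isIntegral θ
  refine ⟨⟨minpoly M θ, minpoly.monic hint, minpoly.irreducible hint,
    (aeval θ : M[X] →ₐ[M] L').toRingHom, ?_, ?_⟩, ?_⟩
  · intro x
    have h1 : x ∈ (IntermediateField.adjoin M {θ}).toSubalgebra := by
      rw [hθ]
      exact IntermediateField.mem_top
    rw [IntermediateField.adjoin_simple_toSubalgebra_of_isAlgebraic hint.isAlgebraic,
      Algebra.adjoin_singleton_eq_range_aeval] at h1
    exact h1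
  · intro A
    exact minpoly.dvd_iff.symm
  · intro c
    exact aeval_C θ c

theorem onto_fin (H : Thy.{u}) (hH : Laws H) {M F : Type u} [Field M] [Field F]
    (φ : M →+* F) (halg : ∀ x : F, ∃ P : M[X], P ≠ 0 ∧ P.eval₂ φ x = 0) (j : ℕ) (w : H.Y F j)
    (hw : w ∈ H.Z F j) : ∃ (k : Type u) (_ : Field k) (p : SRG.Pl M k) (y : k →+* F)
      (w' : H.Y k j) (c : ℚ), c ≠ 0 ∧ y.comp (p.r.comp C) = φ ∧ w' ∈ H.Z k j ∧
        H.map y j w' - c • w ∈ H.N F j := by
  obtain ⟨S, hS⟩ := hH.colim F j w hw
  obtain ⟨q, hq⟩ := ExpChar.exists F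
  letI : Algebra M F := φ.toAlgebra
  have : Algebra.IsAlgebraic M F := ⟨fun x => by
    obtain ⟨P, hP, hx⟩ := halg x
    exact ⟨P, hP, hx⟩⟩
  obtain ⟨m, hm⟩ := on1_sep (M := M) q S
  let L' : IntermediateField M F := IntermediateField.adjoin M ((fun x => x ^ q ^ m) '' (S : Set F))
  have : Finite ((fun x => x ^ q ^ m) '' (S : Set F)) :=
    (S.finite_toSet.image _).to_subtype
  have : FiniteDimensional M L' := IntermediateField.finiteDimensional_adjoin fun x _ =>
    (Algebra.IsAlgebraic.isAlgebraic (R := M) x).isIntegral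
  have : Algebra.IsSeparable M L' := by
    rw [IntermediateField.isSeparable_adjoin_iff_isSeparable]
    rintro _ ⟨x, hx, rfl⟩
    exact mem_separableClosure_iff.1 (hm x hx)
  obtain ⟨p, hp⟩ := on1_pl L'
  let L : Subfield F := Subfield.closure (Set.range φ ∪ (S : Set F))
  obtain ⟨z', hz', hz⟩ := hS L (Set.subset_union_right.trans Subfield.subset_closure)
  have hL : L ≤ (L'.toSubfield).comap (iterateFrobenius F q m) := by
    refine Subfield.closure_le.2 ?_
    rintro x (⟨c, rfl⟩ | hx)
    · show iterateFrobenius F q m (φ c) ∈ L'.toSubfield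
      rw [iterateFrobenius_def, ← map_pow]
      exact L'.algebraMap_mem (c ^ q ^ m)
    · show iterateFrobenius F q m x ∈ L'.toSubfield
      rw [iterateFrobenius_def]
      exact IntermediateField.subset_adjoin M _ ⟨x, hx, rfl⟩
  let g : L →+* L' := RingHom.codRestrict ((iterateFrobenius F q m).comp L.subtype) L'
    fun x => hL x.2
  let y : L' →+* F := algebraMap L' F
  have hyg : y.comp g = (iterateFrobenius F q m).comp L.subtype := RingHom.ext fun x => rfl
  have hmap : H.map y j (H.map g j z') = H.map (iterateFrobenius F q m) j w := by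
    rw [← hH.map_comp, hyg, hH.map_comp, hz]
  have hcomp : y.comp (p.r.comp C) = φ := RingHom.ext fun c => by
    show y (p.r (C c)) = φ c
    rw [hp c]
    rfl
  have hZ : H.map g j z' ∈ H.Z L' j := hH.map_Z _ _ g j z' hz'
  have hq' := hq
  rcases hq' with _ | hpr
  · refine ⟨L', inferInstance, p, y, H.map g j z', 1, one_ne_zero, hcomp, hZ, ?_⟩
    have hid : iterateFrobenius F 1 m = RingHom.id F := RingHom.ext fun x => by
      rw [iterateFrobenius_def, one_pow, pow_one, RingHom.id_apply]
    rw [hmap, hid, hH.map_id, one_smul, sub_self]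
    exact zero_mem _
  · refine ⟨L', inferInstance, p, y, H.map g j z', (q : ℚ) ^ (m * (j + H.off)),
      pow_ne_zero _ (by exact_mod_cast hpr.ne_zero), hcomp, hZ, ?_⟩
    rw [hmap]
    exact frob_iter H hH q hpr F m j w

end TGF
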