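import Pool.Agent.TGF.Ts
import Pool.Agent.TGF.Pt
import Pool.Agent.TGF.Fv
import Pool.Agent.TGF.Star1

set_option autoImplicit false

/-!
# TGF-Psi1: functionals near a closed point

`HP` are the properties of the functional `ψ' = ψ - Om ∘ ct ∘ d2` used for the reduction.

PLAN.  Let `Ψ(x; μ) = ψ (bx x (π ∧ μ))`, `π = lg P`, `μ ∈ TS j (SG S)`.
`pos`: `x ≠ 0` with `n = V.v x > 0`: `lg x = n • π + u`, `u ∈ SG S` (`SG_insert`; `n` is a positive
integer), so `n • Ψ(x; μ) = ψ (bx x (lg x ∧ μ)) - ψ (bx x (u ∧ μ)) = 0` by `d3` (`d3_bx`) and `sm`.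
`one`: `V.v (1 - x) > 0`: `bx x ω + bx (1 - x) ω ∈ Rel` and `pos` for `1 - x` (`El_sub`).
`neg`: `V.v x < 0`: `bx x ω + bx x⁻¹ ω ∈ Rel` and `pos` for `x⁻¹` (`El_inv`, `v_inv`).
`kk`: let `g = pl A - pl B` be as in the statement, `A ≠ B` (else `g = 0`), `y = 1 - A / B = (B - A)/B`,
`B - A = P * C` with `C` of degree `< p.d`, so `C` is smooth, prime to `P`: `El (insert P S) y`,
`V.v y = 1 > 0`, `lg y = π + u`, `u ∈ SG S`, `lg (1 - y) = g`.  `star` (for `x`, `y`, `μ`) and `d3_star`,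
`rel`: `ψ (bx x (lg (1 - y) ∧ lg y ∧ μ)) = ψ (bx y (lg (1 - x) ∧ lg x ∧ μ)) = 0` by `sm` (`El S x` gives
`lg (1 - x), lg x ∈ SG S`).  So `0 = ψ (bx x (g ∧ π ∧ μ)) + ψ (bx x (g ∧ u ∧ μ)) = ψ (bx x (g ∧ π ∧ μ)) =
- ψ (bx x (π ∧ g ∧ μ))` (`sm`, `wT_wT`).  (`x = 0`, `x = 1`: `bx x _ ∈ Rel`.)
-/

noncomputable section

open Polynomial TensorProduct
open scoped Classical

namespace TGF

open Helper14.Gon Helper14.W4 QPL

universe u v w

/-- See the header. -/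
structure HP {K : Type u} [Field K] {k : Type v} [Field k] (p : SRG.Pl K k)
    (V : AC (RatFunc K) k) (S : Set K[X]) {W : Type w} [AddCommGroup W] [Module ℚ W] (j : ℕ)
    (ψ : X (j + 1) (RatFunc K) →ₗ[ℚ] W) : Prop where
  rel : ∀ z ∈ Rel (j + 1) (RatFunc K), ψ z = 0
  sm : ∀ x : RatFunc K, El (insert p.P S) x → ∀ μ ∈ TS (j + 1) (SG S), ψ (bx x μ) = 0
  d3 : ∀ x : RatFunc K, El (insert p.P S) x → ∀ μ ∈ TS j (SG S), ψ (d3 j (bx x μ)) = 0

/-- The star relations, for `j = i + 1`. -/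
def HS {K : Type u} [Field K] {k : Type v} [Field k] (p : SRG.Pl K k)
    (V : AC (RatFunc K) k) (S : Set K[X]) {W : Type w} [AddCommGroup W] [Module ℚ W] (i : ℕ)
    (ψ : X (i + 2) (RatFunc K) →ₗ[ℚ] W) : Prop :=
  ∀ x y : RatFunc K, El S x → x ≠ 0 → x ≠ 1 → El (insert p.P S) y → y ≠ 0 → 0 < V.v y →
    ∀ μ ∈ TS i (SG S), ψ (TGF.d3 (i + 1) (star i x y μ)) = 0

section
variable {K : Type u} [Field K] {k : Type v} [Field k] {p : SRG.Pl K k}
    {V : AC (RatFunc K) k} {S : Set K[X]} {W : Type w} [AddCommGroup W] [Module ℚ W]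

private lemma psi1_zsmul (j : ℕ) {F : Type u} [Field F] (m : ℤ) (v : Additive Fˣ) (ω : Tx j F) :
    wT j (m • v) ω = (m : ℚ) • wT j v ω := by
  have h : wT j (m • v) = m • wT j v := map_zsmul (wTH j) m v
  rw [h, LinearMap.smul_apply, Int.cast_smul_eq_zsmul]

private lemma psi1_neg {j : ℕ} {F : Type u} [Field F] (x : F) (ω : Tx j F) :
    bx x (-ω) = - bx x ω := by
  rw [bx, bx, Finsupp.single_neg]

private lemma psi1_P0 (p : SRG.Pl K k) : algebraMap K[X] (RatFunc K) p.P ≠ 0 :=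
  RatFunc.algebraMap_ne_zero p.irr.ne_zero

theorem psi_pos (hP : p.P ∉ S) (hV : IsPt p V) {j : ℕ} {ψ : X (j + 1) (RatFunc K) →ₗ[ℚ] W}
    (h : HP p V S j ψ) {x : RatFunc K} (hx : El (insert p.P S) x) (hv : x = 0 ∨ 0 < V.v x)
    {μ : Tx j (RatFunc K)} (hμ : μ ∈ TS j (SG S)) :
    ψ (bx x (wT j (lg (algebraMap K[X] (RatFunc K) p.P)) μ)) = 0 := by
  by_cases h0 : x = 0
  · rw [h0]
    exact h.rel _ (Submodule.subset_span (Or.inl (Or.inl (Or.inl (Or.inl ⟨_, rfl⟩)))))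
  have hv' : 0 < V.v x := hv.resolve_left h0
  obtain ⟨m, w, hw, hm⟩ := SG_insert p hP hx.1
  have hvm : V.v x = (m : ℚ) := by
    rw [← vH_lg V h0, hm, map_add, map_zsmul, SG_v hV hP hw, add_zero, vH_lg V (psi1_P0 p),
      hV.vP, zsmul_eq_mul, mul_one]
  have hm0 : (m : ℚ) ≠ 0 := by
    rw [← hvm]
    exact hv'.ne'
  have h3 := h.d3 x hx μ hμ
  rw [d3_bx, hm, wT_add, LinearMap.add_apply, psi1_zsmul, bx_add, map_add,
    h.sm x hx _ (wT_mem_TS j hw hμ), add_zero, bx_smul, map_smul] at h3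
  exact (smul_eq_zero.1 h3).resolve_left hm0

theorem psi_one (hP : p.P ∉ S) (hV : IsPt p V) {j : ℕ} {ψ : X (j + 1) (RatFunc K) →ₗ[ℚ] W}
    (h : HP p V S j ψ) {x : RatFunc K} (hx : El (insert p.P S) x) (hv : x = 1 ∨ 0 < V.v (1 - x))
    {μ : Tx j (RatFunc K)} (hμ : μ ∈ TS j (SG S)) :
    ψ (bx x (wT j (lg (algebraMap K[X] (RatFunc K) p.P)) μ)) = 0 := by
  by_cases h1 : x = 1
  · rw [h1]
    exact h.rel _ (Submodule.subset_span (Or.inl (Or.inl (Or.inl (Or.inr ⟨_, rfl⟩)))))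
  have h2 := psi_pos hP hV h (El_sub hx) (Or.inr (hv.resolve_left h1)) hμ
  have h3 := h.rel _ (Submodule.subset_span (Or.inl (Or.inr
    ⟨x, wT j (lg (algebraMap K[X] (RatFunc K) p.P)) μ, rfl⟩)))
  rw [map_add, h2, add_zero] at h3
  exact h3

theorem psi_neg (hP : p.P ∉ S) (hV : IsPt p V) {j : ℕ} {ψ : X (j + 1) (RatFunc K) →ₗ[ℚ] W}
    (h : HP p V S j ψ) {x : RatFunc K} (hx : El (insert p.P S) x) (hx0 : x ≠ 0) (hv : V.v x < 0)
    {μ : Tx j (RatFunc K)} (hμ : μ ∈ TS j (SG S)) :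
    ψ (bx x (wT j (lg (algebraMap K[X] (RatFunc K) p.P)) μ)) = 0 := by
  have h1 : 0 < V.v x⁻¹ := by
    rw [v_inv V hx0]
    linarith
  have h2 := psi_pos hP hV h (El_inv hx) (Or.inr h1) hμ
  have h3 := h.rel _ (Submodule.subset_span (Or.inl (Or.inl (Or.inr
    ⟨x, wT j (lg (algebraMap K[X] (RatFunc K) p.P)) μ, rfl⟩))))
  rw [map_add, h2, add_zero] at h3
  exact h3

theorem psi_kk (hS : SRG.Adm S p.d) (hP : p.P ∉ S) (hV : IsPt p V) {i : ℕ}
    {ψ : X (i + 2) (RatFunc K) →ₗ[ℚ] W} (h : HP p V S (i + 1) ψ) (hs : HS p V S i ψ)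
    {x : RatFunc K} (hx : El S x) {A B : K[X]} (hA0 : A ≠ 0) (hB0 : B ≠ 0) (hA : SRG.Sm S A)
    (hB : SRG.Sm S B) (hAB : p.P ∣ A - B) (dA : A.natDegree ≤ p.d + (p.d - 1) / 2)
    (dB : B.natDegree ≤ p.d + (p.d - 1) / 2) {μ : Tx i (RatFunc K)} (hμ : μ ∈ TS i (SG S)) :
    ψ (bx x (wT (i + 1) (lg (algebraMap K[X] (RatFunc K) p.P))
      (wT i (SRG.pl A - SRG.pl B) μ))) = 0 := by
  by_cases hx0 : x = 0
  · rw [hx0]
    exact h.rel _ (Submodule.subset_span (Or.inl (Or.inl (Or.inl (Or.inl ⟨_, rfl⟩)))))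
  by_cases hx1 : x = 1
  · rw [hx1]
    exact h.rel _ (Submodule.subset_span (Or.inl (Or.inl (Or.inl (Or.inr ⟨_, rfl⟩)))))
  by_cases hABe : A = B
  · rw [hABe, sub_self, wT_zero, LinearMap.zero_apply, map_zero, bx_zero, map_zero]
  obtain ⟨C, hC⟩ := (dvd_sub_comm).1 hAB
  have hC0 : C ≠ 0 := by
    rintro rfl
    rw [mul_zero, sub_eq_zero] at hC
    exact hABe hC.symm
  have hdpos : 0 < p.d := p.irr.natDegree_pos
  have hCd : C.natDegree < p.d := by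
    have h1 : (B - A).natDegree = p.d + C.natDegree := by
      rw [hC, Polynomial.natDegree_mul p.irr.ne_zero hC0]
      rfl
    have h2 : (B - A).natDegree ≤ p.d + (p.d - 1) / 2 :=
      le_trans (Polynomial.natDegree_sub_le _ _) (max_le dB dA)
    omega
  have hCS : SRG.Sm S C := Or.inr fun Q hQ1 hQ2 hQ3 =>
    hS.small Q hQ1 hQ2 (lt_of_le_of_lt (Polynomial.natDegree_le_of_dvd hQ3 hC0) hCd)
  obtain ⟨a, ha⟩ : ∃ a, a = algebraMap K[X] (RatFunc K) A := ⟨_, rfl⟩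
  obtain ⟨b, hb⟩ : ∃ b, b = algebraMap K[X] (RatFunc K) B := ⟨_, rfl⟩
  obtain ⟨q, hq⟩ : ∃ q, q = algebraMap K[X] (RatFunc K) C := ⟨_, rfl⟩
  obtain ⟨P, hPd⟩ : ∃ P, P = algebraMap K[X] (RatFunc K) p.P := ⟨_, rfl⟩
  have ha0 : a ≠ 0 := by
    rw [ha]
    exact RatFunc.algebraMap_ne_zero hA0
  have hb0 : b ≠ 0 := by
    rw [hb]
    exact RatFunc.algebraMap_ne_zero hB0
  have hq0 : q ≠ 0 := by
    rw [hq]
    exact RatFunc.algebraMap_ne_zero hC0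
  have hP0 : P ≠ 0 := by
    rw [hPd]
    exact psi1_P0 p
  have hPq : b - a = P * q := by
    rw [ha, hb, hq, hPd, ← map_sub, ← map_mul, hC]
  have haS : lg a ∈ SG S := by
    rw [ha]
    exact SG_pl hA0 hA
  have hbS : lg b ∈ SG S := by
    rw [hb]
    exact SG_pl hB0 hB
  have hqS : lg q ∈ SG S := by
    rw [hq]
    exact SG_pl hC0 hCS
  have hPS : lg P ∈ SG (insert p.P S) := by
    rw [hPd]
    refine SG_pl p.irr.ne_zero (Or.inr fun Q hQ1 hQ2 hQ3 => ?_)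
    have h1 : Q = p.P :=
      Polynomial.eq_of_monic_of_associated hQ1 p.monic (hQ2.associated_of_dvd p.irr hQ3)
    rw [h1]
    exact Set.mem_insert _ _
  have hmono : SG S ≤ SG (insert p.P S) := SG_mono (Set.subset_insert _ _)
  obtain ⟨y, hy⟩ : ∃ y, y = P * q / b := ⟨_, rfl⟩
  have h1y : 1 - y = a / b := by
    rw [hy, ← hPq, _root_.sub_div, div_self hb0]
    ring
  have hy0 : y ≠ 0 := by
    rw [hy]
    exact div_ne_zero (mul_ne_zero hP0 hq0) hb0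
  have hy1 : y ≠ 1 := by
    intro h1
    rw [h1, sub_self] at h1y
    exact div_ne_zero ha0 hb0 h1y.symm
  have hly : lg y = lg P + (lg q - lg b) := by
    rw [hy, lg_div (mul_ne_zero hP0 hq0) hb0, lg_mul hP0 hq0, add_sub_assoc]
  have hl1y : lg (1 - y) = lg a - lg b := by
    rw [h1y, lg_div ha0 hb0]
  have hu : lg q - lg b ∈ SG S := (SG S).sub_mem hqS hbS
  have hgS : lg (1 - y) ∈ SG S := by
    rw [hl1y]
    exact (SG S).sub_mem haS hbS
  have hyE : El (insert p.P S) y := by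
    refine ⟨?_, hmono hgS⟩
    rw [hly]
    exact (SG _).add_mem hPS (hmono hu)
  have hvy : V.v y = 1 := by
    rw [← vH_lg V hy0, hly, map_add, SG_v hV hP hu, add_zero, vH_lg V hP0, hPd, hV.vP]
  have hvx : V.v x = 0 := by
    rw [← vH_lg V hx0]
    exact SG_v hV hP hx.1
  have hxy : x ≠ y := by
    intro h1
    rw [h1, hvy] at hvx
    exact one_ne_zero hvx
  have hst := hs x y hx hx0 hx1 hyE hy0 (by rw [hvy]; exact one_pos) μ hμ
  have hd := h.rel _ (d3_star i hx0 hx1 hy0 hy1 hxy μ)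
  rw [map_sub, map_add, hst, zero_add,
    h.sm y hyE _ (wT_mem_TS (i + 1) hx.2 (wT_mem_TS i hx.1 hμ)), sub_zero, hly, wT_add,
    LinearMap.add_apply, map_add, bx_add, map_add,
    h.sm x (El_mono (Set.subset_insert _ _) hx) _
      (wT_mem_TS (i + 1) hgS (wT_mem_TS i hu hμ)), add_zero] at hd
  have hg : SRG.pl A - SRG.pl B = lg (1 - y) := by
    rw [hl1y, ha, hb]
    rfl
  rw [hg, ← hPd, wT_wT, psi1_neg, map_neg, hd, neg_zero]

end

end TGF
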