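import Pool.Agent.TGF.Psi1
import Pool.Agent.TGF.Ker
import Pool.Agent.TGF.Df
import Pool.Agent.SRG.Red

set_option autoImplicit false

/-!
# TGF-Psi2: functionals near a closed point factor through the residue

A functional `ψ` with the properties `HP` gives the five-term function `f x μ = ψ ([x] π ∧ μ)` with
values in the linear maps on `TS j (SG S)`.  By the reduction theorem `SRG.red` it is the pull-back of
a five-term function on the residue field, and this one descends to `Λ^j k^* ⊗ ℚ`.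
-/

noncomputable section

open Polynomial TensorProduct
open scoped Classical

namespace TGF

open Helper14.Gon Helper14.W4 QPL

universe u v w

section
variable {K : Type u} [Field K] {k : Type v} [Field k] {p : SRG.Pl K k}
    {V : AC (RatFunc K) k} {S : Set K[X]} {W : Type w} [AddCommGroup W] [Module ℚ W]

theorem psi_ker_zero {ψ : X 1 (RatFunc K) →ₗ[ℚ] W} (x : RatFunc K)
    {μ : Tx 0 (RatFunc K)} (h0 : spT V 0 μ = 0) :
    ψ (bx x (wT 0 (lg (algebraMap K[X] (RatFunc K) p.P)) μ)) = 0 := by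
  rw [ker_zero V h0, map_zero, bx_zero, map_zero]

theorem psi_ker_succ (hS : SRG.Adm S p.d) (hP : p.P ∉ S) (hV : IsPt p V) {i : ℕ}
    {ψ : X (i + 2) (RatFunc K) →ₗ[ℚ] W} (h : HP p V S (i + 1) ψ) (hs : HS p V S i ψ)
    {x : RatFunc K} (hx : El S x) {μ : Tx (i + 1) (RatFunc K)} (hμ : μ ∈ TS (i + 1) (SG S))
    (h0 : spT V (i + 1) μ = 0) :
    ψ (bx x (wT (i + 1) (lg (algebraMap K[X] (RatFunc K) p.P)) μ)) = 0 := by
  have h1 := ker_sp hS hP hV i hμ h0
  have h2 : Submodule.span ℚ {η : Tx (i + 1) (RatFunc K) | ∃ (A B : K[X]) (μ : Tx i (RatFunc K)),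
      A ≠ 0 ∧ B ≠ 0 ∧ SRG.Sm S A ∧ SRG.Sm S B ∧ p.P ∣ A - B ∧
      A.natDegree ≤ p.d + (p.d - 1) / 2 ∧ B.natDegree ≤ p.d + (p.d - 1) / 2 ∧
      μ ∈ TS i (SG S) ∧ η = wT i (SRG.pl A - SRG.pl B) μ} ≤
      LinearMap.ker (ψ ∘ₗ (bxL x) ∘ₗ
        (wT (i + 1) (lg (algebraMap K[X] (RatFunc K) p.P)))) := by
    refine Submodule.span_le.2 ?_
    rintro η ⟨A, B, μ', hA0, hB0, hA, hB, hAB, dA, dB, hμ', rfl⟩
    exact psi_kk hS hP hV h hs hx hA0 hB0 hA hB hAB dA dB hμ'
  exact h2 h1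

/-- Composition of a five-term function with an additive map. -/
private def psi2_map {F : Type u} [Field F] {W₁ : Type v} [AddCommGroup W₁] {W₂ : Type w}
    [AddCommGroup W₂] (Λ : W₁ →+ W₂) (f : SRG.FV F W₁) : SRG.FV F W₂ where
  g := fun x => Λ (f.g x)
  zero := by rw [f.zero, map_zero]
  one := by rw [f.one, map_zero]
  inv := fun x => by rw [f.inv, map_neg]
  sub := fun x => by rw [f.sub, map_neg]
  five := by
    intro x y hx hx1 hy hy1 hxy
    have h := congrArg Λ (f.five x y hx hx1 hy hy1 hxy)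
    rw [map_add, map_sub, map_add, map_sub, map_zero] at h
    exact h

private lemma psi2_El_one (S : Set K[X]) : El S (1 : RatFunc K) := by
  refine ⟨?_, ?_⟩
  · rw [lg_one]
    exact (SG S).zero_mem
  · rw [sub_self, lg_zero]
    exact (SG S).zero_mem

private lemma psi2_sm_P (p : SRG.Pl K k) (S : Set K[X]) : SRG.Sm (insert p.P S) p.P := by
  right
  intro Q hQm hQi hd
  left
  have h1 : Associated Q p.P := (hQi.dvd_irreducible_iff_associated p.irr).1 hd
  exact eq_of_monic_of_associated hQm p.monic h1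

/-- `A / B` with `A - B = P C`: the element is smooth for `insert P S` and close to `1`. -/
private lemma psi2_near (hP : p.P ∉ S) (hV : IsPt p V) {A B C : K[X]} (hA0 : A ≠ 0) (hB0 : B ≠ 0)
    (hA : SRG.Sm S A) (hB : SRG.Sm S B) (hC : SRG.Sm S C) (hABC : A - B = p.P * C) :
    El (insert p.P S) (algebraMap K[X] (RatFunc K) A / algebraMap K[X] (RatFunc K) B) ∧
      (algebraMap K[X] (RatFunc K) A / algebraMap K[X] (RatFunc K) B = 1 ∨
        0 < V.v (1 - algebraMap K[X] (RatFunc K) A / algebraMap K[X] (RatFunc K) B)) := by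
  have hA' : algebraMap K[X] (RatFunc K) A ≠ 0 := RatFunc.algebraMap_ne_zero hA0
  have hB' : algebraMap K[X] (RatFunc K) B ≠ 0 := RatFunc.algebraMap_ne_zero hB0
  by_cases hC0 : C = 0
  · rw [hC0, mul_zero, sub_eq_zero] at hABC
    rw [hABC, div_self hB']
    exact ⟨psi2_El_one _, Or.inl rfl⟩
  · have hC' : algebraMap K[X] (RatFunc K) C ≠ 0 := RatFunc.algebraMap_ne_zero hC0
    have hP' : algebraMap K[X] (RatFunc K) p.P ≠ 0 := RatFunc.algebraMap_ne_zero p.irr.ne_zero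
    have hne : algebraMap K[X] (RatFunc K) A / algebraMap K[X] (RatFunc K) B ≠ 1 := by
      intro e
      rw [div_eq_one_iff_eq hB'] at e
      have e2 := RatFunc.algebraMap_injective K e
      rw [e2, sub_self] at hABC
      exact mul_ne_zero p.irr.ne_zero hC0 hABC.symm
    have hins : S ⊆ insert p.P S := Set.subset_insert _ _
    have hD : A + -(p.P * C) = B := by
      rw [← hABC]
      ring
    refine ⟨(El_iff _ _ (div_ne_zero hA' hB') hne).2 ⟨A, B, -(p.P * C), hA0, hB0,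
      neg_ne_zero.2 (mul_ne_zero p.irr.ne_zero hC0), hD, hA.mono hins, hB.mono hins,
      ((psi2_sm_P p S).mul (hC.mono hins)).neg, rfl⟩, Or.inr ?_⟩
    have e : 1 - algebraMap K[X] (RatFunc K) A / algebraMap K[X] (RatFunc K) B =
        -(algebraMap K[X] (RatFunc K) p.P * algebraMap K[X] (RatFunc K) C) /
          algebraMap K[X] (RatFunc K) B := by
      rw [eq_div_iff hB', sub_mul, one_mul, div_mul_cancel₀ _ hB', ← map_mul, ← hABC, map_sub]
      ring
    rw [e, V.v_div (neg_ne_zero.2 (mul_ne_zero hP' hC')) hB', V.v_neg, V.v_mul hP' hC', hV.vP,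
      hV.v C (hC.not_dvd hC0 p.monic p.irr hP), hV.v B (hB.not_dvd hB0 p.monic p.irr hP)]
    norm_num

/-- every element of the residue field different from `0`, `1` lifts to a smooth element -/
private lemma psi2_lift (hS : SRG.Adm S p.d) (hV : IsPt p V) {ξ : k} (h0 : ξ ≠ 0) (h1 : ξ ≠ 1) :
    ∃ x : RatFunc K, El S x ∧ V.lc x = ξ := by
  obtain ⟨A, B, hA0, hB0, dA, dB, hr⟩ := SRG.pade p ξ h0
  have hd := p.d_pos
  have hA : A.natDegree < p.d := by omega
  have hB : B.natDegree < p.d := by omega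
  have hD : (B - A).natDegree < p.d :=
    lt_of_le_of_lt (Polynomial.natDegree_sub_le B A) (max_lt hB hA)
  have hrA : p.r A ≠ 0 := SRG.Pl.ne hA0 hA
  have hrB : p.r B ≠ 0 := SRG.Pl.ne hB0 hB
  have hA' : algebraMap K[X] (RatFunc K) A ≠ 0 := RatFunc.algebraMap_ne_zero hA0
  have hB' : algebraMap K[X] (RatFunc K) B ≠ 0 := RatFunc.algebraMap_ne_zero hB0
  have hAB : A ≠ B := by
    intro e
    rw [e] at hr
    exact h1 (mul_right_cancel₀ hrB (hr.symm.trans (one_mul _).symm))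
  have hne : algebraMap K[X] (RatFunc K) A / algebraMap K[X] (RatFunc K) B ≠ 1 := by
    intro e
    rw [div_eq_one_iff_eq hB'] at e
    exact hAB (RatFunc.algebraMap_injective K e)
  refine ⟨algebraMap K[X] (RatFunc K) A / algebraMap K[X] (RatFunc K) B,
    (El_iff _ _ (div_ne_zero hA' hB') hne).2 ⟨A, B, B - A, hA0, hB0, sub_ne_zero.2 (Ne.symm hAB),
      by ring, hS.sm hA, hS.sm hB, hS.sm hD, rfl⟩, ?_⟩
  rw [map_div₀, hV.lc A (fun hd' => hrA ((p.ker A).2 hd')),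
    hV.lc B (fun hd' => hrB ((p.ker B).2 hd')), hr, mul_div_cancel_right₀ _ hrB]

/-- if `V.v x = 0` and `x ≠ 0, 1` then `V.v (1 - x) = 0`, or `V.lc x = 1` and `V.v (1 - x) > 0` -/
private lemma psi2_cases {x : RatFunc K} (h0 : x ≠ 0) (h1 : x ≠ 1) (hv : V.v x = 0) :
    V.v (1 - x) = 0 ∨ (V.lc x = 1 ∧ 0 < V.v (1 - x)) := by
  have hn : -x ≠ 0 := neg_ne_zero.2 h0
  by_cases hl : V.lc x = 1
  · right
    have h2 := V.add_eq (x := 1) (y := -x) one_ne_zero hn (by rw [V.v_neg, V.v_one, hv])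
      (by rw [V.lc_neg, map_one, hl, add_neg_cancel])
    rw [← sub_eq_add_neg, V.v_one] at h2
    exact ⟨hl, h2.resolve_left (sub_ne_zero.2 (Ne.symm h1))⟩
  · left
    have h2 := V.add_ne (x := 1) (y := -x) one_ne_zero hn (by rw [V.v_neg, V.v_one, hv])
      (by
        rw [V.lc_neg, map_one]
        intro h3
        exact hl (add_neg_eq_zero.1 h3).symm)
    rw [← sub_eq_add_neg, V.v_one] at h2
    exact h2.2.1

private lemma psi2_reT (hP : p.P ∉ S) (hV : IsPt p V) {j : ℕ} {a : Tx (j + 1) (RatFunc K)}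
    (ha : a ∈ TS (j + 1) (SG S)) {b : Tx j (RatFunc K)} (hb : b ∈ TS j (SG S)) :
    reT V j (a + wT j (lg (algebraMap K[X] (RatFunc K) p.P)) b) = spT V j b := by
  have hP' : algebraMap K[X] (RatFunc K) p.P ≠ 0 := RatFunc.algebraMap_ne_zero p.irr.ne_zero
  have hz : ∀ (i : ℕ) {c : Tx (i + 1) (RatFunc K)}, c ∈ TS (i + 1) (SG S) → reT V i c = 0 := by
    intro i c hc
    change tm i V.lH (ctT i V.vH c) = 0
    rw [ctT_TS i (fun v hv => SG_v hV hP hv) hc, map_zero]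
  have hv : V.vH (lg (algebraMap K[X] (RatFunc K) p.P)) = 1 := by
    rw [vH_lg V hP', hV.vP]
  rw [map_add, hz j ha, zero_add]
  cases j with
  | zero =>
    have h1 := reT_wT_zero V (lg (algebraMap K[X] (RatFunc K) p.P)) b
    rw [hv, one_smul] at h1
    exact h1
  | succ j =>
    have h1 := reT_wT V j (lg (algebraMap K[X] (RatFunc K) p.P)) b
    rw [hv, one_smul, hz j hb, map_zero, sub_zero] at h1
    exact h1

theorem exists_psibar (hS : SRG.Adm S p.d) (hP : p.P ∉ S) (hV : IsPt p V) {j : ℕ}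
    {ψ : X (j + 1) (RatFunc K) →ₗ[ℚ] W} (h : HP p V S j ψ)
    (hk : ∀ x : RatFunc K, El S x → ∀ μ ∈ TS j (SG S), spT V j μ = 0 →
      ψ (bx x (wT j (lg (algebraMap K[X] (RatFunc K) p.P)) μ)) = 0) :
    ∃ Ψ : X j k →ₗ[ℚ] W, (∀ z ∈ Rel j k, Ψ z = 0) ∧
      ∀ y ∈ Lv (j + 1) (insert p.P S), ψ y = Ψ (reX V j y) := by
  obtain ⟨g, hg⟩ := fv_of (j + 1) ψ h.rel
  -- the five-term function with values in the linear maps on `TS j (SG S)`
  obtain ⟨f, hf⟩ : ∃ f : SRG.FV (RatFunc K) (TS j (SG S) →ₗ[ℚ] W), ∀ x (b : TS j (SG S)),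
      f.g x b = ψ (bx x (wT j (lg (algebraMap K[X] (RatFunc K) p.P)) (b : Tx j (RatFunc K)))) := by
    refine ⟨psi2_map (AddMonoidHom.mk' (fun a : Tx (j + 1) (RatFunc K) →ₗ[ℚ] W =>
      a ∘ₗ ((wT j (lg (algebraMap K[X] (RatFunc K) p.P))) ∘ₗ (TS j (SG S)).subtype))
      (fun a b => by rw [LinearMap.add_comp])) g, fun x b => ?_⟩
    exact hg x _
  obtain ⟨ψ₁, hψ₁⟩ := SRG.red hS hP f (by
    intro A B C hA0 hB0 hA hB hC hABC
    obtain ⟨h1, h2⟩ := psi2_near hP hV hA0 hB0 hA hB hC hABC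
    refine LinearMap.ext fun b => ?_
    change f.g _ b = 0
    rw [hf]
    exact psi_one hP hV h h1 h2 b.2)
  -- (1)
  have e1 : ∀ x : RatFunc K, El S x → f.g x = ψ₁.g (V.lc x) := by
    intro x hx
    by_cases h0 : x = 0
    · rw [h0, map_zero, f.zero, ψ₁.zero]
    by_cases h1 : x = 1
    · rw [h1, map_one, f.one, ψ₁.one]
    obtain ⟨A, B, D, hA0, hB0, hD0, hABD, hA, hB, hD, hx'⟩ := (El_iff S x h0 h1).1 hx
    have h2 := hψ₁ A B D hABD hA0 hB0 hD0 hA hB hD
    rw [hx', map_div₀, hV.lc A (hA.not_dvd hA0 p.monic p.irr hP),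
      hV.lc B (hB.not_dvd hB0 p.monic p.irr hP)]
    exact h2
  -- (2)
  have e2 : ∀ x : RatFunc K, El (insert p.P S) x →
      f.g x = if x = 0 ∨ V.v x = 0 then ψ₁.g (V.lc x) else 0 := by
    intro x hx
    by_cases h0 : x = 0
    · rw [if_pos (Or.inl h0), h0, map_zero, f.zero, ψ₁.zero]
    rcases lt_trichotomy (V.v x) 0 with hv | hv | hv
    · rw [if_neg (fun h' => h'.elim h0 hv.ne)]
      refine LinearMap.ext fun b => ?_
      rw [hf]
      exact psi_neg hP hV h hx h0 hv b.2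
    · rw [if_pos (Or.inr hv)]
      by_cases h1 : x = 1
      · rw [h1, map_one, f.one, ψ₁.one]
      rcases psi2_cases h0 h1 hv with h2 | ⟨h2, h3⟩
      · refine e1 x ⟨SG_insert_v hV hP hx.1 (by rw [vH_lg V h0, hv]),
          SG_insert_v hV hP hx.2 (by rw [vH_lg V (sub_ne_zero.2 (Ne.symm h1)), h2])⟩
      · rw [h2, ψ₁.one]
        refine LinearMap.ext fun b => ?_
        rw [hf]
        exact psi_one hP hV h hx (Or.inr h3) b.2
    · rw [if_neg (fun h' => h'.elim h0 hv.ne')]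
      refine LinearMap.ext fun b => ?_
      rw [hf]
      exact psi_pos hP hV h hx (Or.inr hv) b.2
  -- (3)
  have e3 : ∀ (ξ : k) (b : TS j (SG S)), spT V j (b : Tx j (RatFunc K)) = 0 → ψ₁.g ξ b = 0 := by
    intro ξ b hb
    by_cases h0 : ξ = 0
    · rw [h0, ψ₁.zero, LinearMap.zero_apply]
    by_cases h1 : ξ = 1
    · rw [h1, ψ₁.one, LinearMap.zero_apply]
    obtain ⟨x, hx, hx'⟩ := psi2_lift hS hV h0 h1
    rw [← hx', ← e1 x hx, hf]
    exact hk x hx _ b.2 hb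
  -- (4)
  obtain ⟨σ, hσ⟩ := LinearMap.exists_rightInverse_of_surjective
    ((spT V j) ∘ₗ (TS j (SG S)).subtype) (by
      rw [LinearMap.range_eq_top]
      intro η
      obtain ⟨ω, hω, h1⟩ := TS_sp_surj hS hV j η
      exact ⟨⟨ω, hω⟩, h1⟩)
  have hσ' : ∀ η : Tx j k, spT V j (σ η : Tx j (RatFunc K)) = η := fun η =>
    LinearMap.congr_fun hσ η
  obtain ⟨g₁, hg₁⟩ : ∃ g₁ : SRG.FV k (Tx j k →ₗ[ℚ] W), ∀ ξ, g₁.g ξ = (ψ₁.g ξ) ∘ₗ σ :=
    ⟨psi2_map (AddMonoidHom.mk' (fun a : TS j (SG S) →ₗ[ℚ] W => a ∘ₗ σ)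
      (fun a b => by rw [LinearMap.add_comp])) ψ₁, fun ξ => rfl⟩
  refine ⟨xl (fun ξ => g₁.g ξ), fun z hz => rel_of_fv j g₁ hz, ?_⟩
  -- (5)
  have hle : Lv (j + 1) (insert p.P S) ≤
      LinearMap.ker (ψ - (xl (fun ξ => g₁.g ξ)) ∘ₗ (reX V j)) := by
    refine Submodule.span_le.2 ?_
    rintro z ⟨x, ω, hx, hω, rfl⟩
    have hG : SG (insert p.P S) ≤ SG S ⊔
        AddSubgroup.zmultiples (lg (algebraMap K[X] (RatFunc K) p.P)) := by
      intro v hv
      obtain ⟨m, w, hw, rfl⟩ := SG_insert p hP hv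
      rw [add_comm]
      exact AddSubgroup.add_mem_sup hw (AddSubgroup.zsmul_mem_zmultiples _ m)
    obtain ⟨a, ha, b, hb, rfl⟩ := TS_ins j hG hω
    have h1 : ψ (bx x (a + wT j (lg (algebraMap K[X] (RatFunc K) p.P)) b)) = f.g x ⟨b, hb⟩ := by
      rw [bx_add, map_add, h.sm x hx a ha, zero_add, hf]
    have h2 : ∀ ξ : k, g₁.g ξ (spT V j b) = ψ₁.g ξ ⟨b, hb⟩ := by
      intro ξ
      rw [hg₁]
      change ψ₁.g ξ (σ (spT V j b)) = ψ₁.g ξ ⟨b, hb⟩
      have h3 := e3 ξ (σ (spT V j b) - ⟨b, hb⟩) (by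
        change spT V j ((σ (spT V j b) : Tx j (RatFunc K)) - b) = 0
        rw [map_sub, hσ', sub_self])
      rw [map_sub] at h3
      exact sub_eq_zero.1 h3
    change ψ _ - (xl (fun ξ => g₁.g ξ)) (reX V j _) = 0
    rw [h1, reX_bx, psi2_reT hP hV ha hb, e2 x hx]
    split_ifs
    · rw [xl_bx, h2, sub_self]
    · rw [map_zero, LinearMap.zero_apply, sub_self]
  intro y hy
  exact sub_eq_zero.1 (hle hy)

end

end TGF
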