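import Pool.Agent.TGF.Star2
import Pool.Agent.TGF.Ker

set_option autoImplicit false

/-!
# TGF-RL0: the reduction lemma in the last term

PLAN.  `ω = a + π ∧ b`, `a ∈ TS (j + 1) (SG S)`, `b ∈ TS j (SG S)` (`TS_ins`, `SG_insert`), `π = lg P`;
`reT V j ω = spT V j b` (`ctT_wT`, `ctT_wT_zero`, `ctT_TS`, `V.vH π = 1`), so `spT V j b = 0`.
`RL0_zero`: `b = 0` by `ker_zero`.
`RL0_succ`: `ker_sp` for `b`: it is enough to treat `b = wT i (pl A - pl B) μ` (the set of `b ∈ TS` for which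
the conclusion holds for `π ∧ b` is a subspace: `NR_add`, `NR_smul`).  If `A = B`, `b = 0`.  Otherwise
`B - A = P * C`, `C` of degree `< p.d`, smooth; `x = A / B`, `lg x = pl A - pl B`,
`lg (1 - x) = π + u`, `u ∈ SG S`: `d2 i (bx x μ) = π ∧ lg x ∧ μ + u ∧ lg x ∧ μ`, so
`π ∧ b = d2 (bx x μ) - u ∧ b` and `NR S i (bx x μ)` (`NR_bx`).
-/

noncomputable section

open Polynomial TensorProduct
open scoped Classical

namespace TGF

open Helper14.Gon Helper14.W4 QPL

universe u v w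

section
variable {K : Type u} [Field K] {k : Type v} [Field k] {p : SRG.Pl K k}
    {V : AC (RatFunc K) k} {S : Set K[X]}

private theorem RL0_sup (hP : p.P ∉ S) : SG (insert p.P S) ≤
    SG S ⊔ AddSubgroup.zmultiples (lg (algebraMap K[X] (RatFunc K) p.P)) := by
  intro v hv
  obtain ⟨m, w, hw, rfl⟩ := SG_insert p hP hv
  exact add_mem (AddSubgroup.mem_sup_right (AddSubgroup.zsmul_mem_zmultiples _ m))
    (AddSubgroup.mem_sup_left hw)

private theorem RL0_vP (hV : IsPt p V) : V.vH (lg (algebraMap K[X] (RatFunc K) p.P)) = 1 := by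
  rw [vH_lg V (RatFunc.algebraMap_ne_zero p.irr.ne_zero)]
  exact hV.vP

private theorem RL0_reT (hP : p.P ∉ S) (hV : IsPt p V) (j : ℕ) {a : Tx (j + 1) (RatFunc K)}
    (ha : a ∈ TS (j + 1) (SG S)) : reT V j a = 0 := by
  change tm j V.lH (ctT j V.vH a) = 0
  rw [ctT_TS j (fun v hv => SG_v hV hP hv) ha, map_zero]

private theorem RL0_gen (hS : SRG.Adm S p.d) (i : ℕ) {A B : K[X]} {μ : Tx i (RatFunc K)}
    (hA : A ≠ 0) (hB : B ≠ 0) (sA : SRG.Sm S A) (sB : SRG.Sm S B) (hd : p.P ∣ A - B)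
    (dA : A.natDegree ≤ p.d + (p.d - 1) / 2) (dB : B.natDegree ≤ p.d + (p.d - 1) / 2)
    (hμ : μ ∈ TS i (SG S)) : ∃ Z : X i (RatFunc K), NR S i Z ∧
      wT (i + 1) (lg (algebraMap K[X] (RatFunc K) p.P)) (wT i (SRG.pl A - SRG.pl B) μ) -
        d2 i Z ∈ TS (i + 2) (SG S) := by
  by_cases hAB : A = B
  · subst hAB
    refine ⟨0, NR_zero S i, ?_⟩
    rw [sub_self, wT_zero, LinearMap.zero_apply, map_zero, map_zero, sub_zero]
    exact Submodule.zero_mem _
  · obtain ⟨C, hC⟩ : p.P ∣ B - A := by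
      rw [← neg_sub]
      exact (dvd_neg).2 hd
    have hBA : B - A ≠ 0 := fun h => hAB (sub_eq_zero.1 h).symm
    have hC0 : C ≠ 0 := by
      rintro rfl
      rw [mul_zero] at hC
      exact hBA hC
    have hdpos : 0 < p.d := p.irr.natDegree_pos
    have hCd : C.natDegree < p.d := by
      have h1 : (B - A).natDegree = p.d + C.natDegree := by
        rw [hC, Polynomial.natDegree_mul p.irr.ne_zero hC0]
        rfl
      have h2 : (B - A).natDegree ≤ p.d + (p.d - 1) / 2 :=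
        (Polynomial.natDegree_sub_le _ _).trans (max_le dB dA)
      omega
    have sC : SRG.Sm S C := by
      refine Or.inr fun Q hQ hQi hQC => hS.small Q hQ hQi ?_
      exact (Polynomial.natDegree_le_of_dvd hQC hC0).trans_lt hCd
    have nA := RatFunc.algebraMap_ne_zero hA
    have nB := RatFunc.algebraMap_ne_zero hB
    have nC := RatFunc.algebraMap_ne_zero hC0
    have nP := RatFunc.algebraMap_ne_zero p.irr.ne_zero
    have e1 : lg (algebraMap K[X] (RatFunc K) A / algebraMap K[X] (RatFunc K) B) =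
        SRG.pl A - SRG.pl B := by
      rw [lg_div nA nB, pl_eq, pl_eq]
    have e2 : lg (1 - algebraMap K[X] (RatFunc K) A / algebraMap K[X] (RatFunc K) B) =
        lg (algebraMap K[X] (RatFunc K) p.P) +
          (lg (algebraMap K[X] (RatFunc K) C) - lg (algebraMap K[X] (RatFunc K) B)) := by
      have h1 : 1 - algebraMap K[X] (RatFunc K) A / algebraMap K[X] (RatFunc K) B =
          algebraMap K[X] (RatFunc K) p.P * algebraMap K[X] (RatFunc K) C /
            algebraMap K[X] (RatFunc K) B := by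
        rw [← map_mul, ← hC, map_sub]
        field_simp
      rw [h1, lg_div (mul_ne_zero nP nC) nB, lg_mul nP nC]
      abel
    refine ⟨bx (algebraMap K[X] (RatFunc K) A / algebraMap K[X] (RatFunc K) B) μ,
      NR_bx S i _ hμ, ?_⟩
    rw [d2_bx, e1, e2, wT_add, LinearMap.add_apply, sub_add_cancel_left]
    refine Submodule.neg_mem _ (wT_mem_TS (i + 1) (sub_mem (SG_pl hC0 sC) (SG_pl hB sB))
      (wT_mem_TS i ?_ hμ))
    exact sub_mem (SG_pl hA sA) (SG_pl hB sB)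

private theorem RL0_span (hS : SRG.Adm S p.d) (i : ℕ) {b : Tx (i + 1) (RatFunc K)}
    (hb : b ∈ Submodule.span ℚ {η : Tx (i + 1) (RatFunc K) | ∃ (A B : K[X]) (μ : Tx i (RatFunc K)),
      A ≠ 0 ∧ B ≠ 0 ∧ SRG.Sm S A ∧ SRG.Sm S B ∧ p.P ∣ A - B ∧
      A.natDegree ≤ p.d + (p.d - 1) / 2 ∧ B.natDegree ≤ p.d + (p.d - 1) / 2 ∧
      μ ∈ TS i (SG S) ∧ η = wT i (SRG.pl A - SRG.pl B) μ}) :
    ∃ Z : X i (RatFunc K), NR S i Z ∧
      wT (i + 1) (lg (algebraMap K[X] (RatFunc K) p.P)) b - d2 i Z ∈ TS (i + 2) (SG S) := by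
  induction hb using Submodule.span_induction with
  | mem x hx =>
    obtain ⟨A, B, μ, hA, hB, sA, sB, hd, dA, dB, hμ, rfl⟩ := hx
    exact RL0_gen hS i hA hB sA sB hd dA dB hμ
  | zero =>
    refine ⟨0, NR_zero S i, ?_⟩
    rw [map_zero, map_zero, sub_zero]
    exact Submodule.zero_mem _
  | add x y _ _ hx hy =>
    obtain ⟨Z, hZ, hZ'⟩ := hx
    obtain ⟨W, hW, hW'⟩ := hy
    refine ⟨Z + W, NR_add S i hZ hW, ?_⟩
    rw [map_add, map_add, add_sub_add_comm]
    exact Submodule.add_mem _ hZ' hW'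
  | smul q x _ hx =>
    obtain ⟨Z, hZ, hZ'⟩ := hx
    refine ⟨q • Z, NR_smul S i q hZ, ?_⟩
    rw [map_smul, map_smul, ← smul_sub]
    exact Submodule.smul_mem _ q hZ'

theorem RL0_zero (hP : p.P ∉ S) (hV : IsPt p V)
    {ω : Tx 1 (RatFunc K)} (hω : ω ∈ TS 1 (SG (insert p.P S))) (h : reT V 0 ω = 0) :
    ω ∈ TS 1 (SG S) := by
  obtain ⟨a, ha, b, _, rfl⟩ := TS_ins 0 (RL0_sup (p := p) hP) hω
  have h1 : reT V 0 a = 0 := RL0_reT hP hV 0 ha
  have h2 : V.vH (lg (algebraMap K[X] (RatFunc K) p.P)) = 1 := RL0_vP hV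
  have h3 : reT V 0 (wT 0 (lg (algebraMap K[X] (RatFunc K) p.P)) b) = spT V 0 b := by
    change tm 0 V.lH (ctT 0 V.vH (wT 0 (lg (algebraMap K[X] (RatFunc K) p.P)) b)) = tm 0 V.lH b
    rw [ctT_wT_zero, h2, one_smul]
  rw [map_add, h1, h3, zero_add] at h
  rw [ker_zero V h, map_zero, add_zero]
  exact ha

theorem RL0_succ (hS : SRG.Adm S p.d) (hP : p.P ∉ S) (hV : IsPt p V) (i : ℕ)
    {ω : Tx (i + 2) (RatFunc K)} (hω : ω ∈ TS (i + 2) (SG (insert p.P S)))
    (h : reT V (i + 1) ω = 0) :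
    ∃ A : X i (RatFunc K), NR S i A ∧ ω - d2 i A ∈ TS (i + 2) (SG S) := by
  obtain ⟨a, ha, b, hb, rfl⟩ := TS_ins (i + 1) (RL0_sup (p := p) hP) hω
  have h1 : reT V (i + 1) a = 0 := RL0_reT hP hV (i + 1) ha
  have h2 : V.vH (lg (algebraMap K[X] (RatFunc K) p.P)) = 1 := RL0_vP hV
  have h3 : reT V (i + 1) (wT (i + 1) (lg (algebraMap K[X] (RatFunc K) p.P)) b) =
      spT V (i + 1) b := by
    change tm (i + 1) V.lH (ctT (i + 1) V.vH
      (wT (i + 1) (lg (algebraMap K[X] (RatFunc K) p.P)) b)) = tm (i + 1) V.lH b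
    rw [ctT_wT, h2, one_smul, ctT_TS i (fun v hv => SG_v hV hP hv) hb, map_zero, sub_zero]
  rw [map_add, h1, h3, zero_add] at h
  obtain ⟨A, hA, hA'⟩ := RL0_span hS i (ker_sp hS hP hV i hb h)
  refine ⟨A, hA, ?_⟩
  rw [add_sub_assoc]
  exact Submodule.add_mem _ ha hA'

end

end TGF
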